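import Pool.Agent.Lib.MP_6498db_nt.L.Defs
import Pool.Agent.Lib.MP_6498db_nt.W.Split

/-! WALSH, Theorem 2, row ArA: elementary facts on `Ag l w = (w^l - 1)/(w - 1)`. -/

set_option autoImplicit false

namespace Pool.Agent.Wal

open Finset

theorem Ag_mul (l : ℕ) (w : ℤ) : Ag l w * (w - 1) = w ^ l - 1 := by
  exact geom_sum_mul w l

private theorem arA_succ (l : ℕ) (w : ℤ) : Ag (l + 1) w = Ag l w + w ^ l := by
  unfold Ag
  rw [sum_range_succ]

theorem Ag_pos (l : ℕ) (hl : Odd l) (w : ℤ) : 0 < Ag l w := by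
  exact Odd.geom_sum_pos hl

theorem Ag_odd (l : ℕ) (hl : Odd l) (w : ℤ) : Odd (Ag l w) := by
  obtain ⟨t, rfl⟩ := hl
  induction t with
  | zero =>
    have h : Ag (2 * 0 + 1) w = 1 := by simp [Ag]
    rw [h]
    exact odd_one
  | succ t ih =>
    have e : Ag (2 * (t + 1) + 1) w = Ag (2 * t + 1) w + w ^ (2 * t) * (w * (w + 1)) := by
      have e1 : 2 * (t + 1) + 1 = 2 * t + 1 + 1 + 1 := by ring
      rw [e1, arA_succ, arA_succ]
      ring
    rw [e]
    exact ih.add_even ((Int.even_mul_succ_self w).mul_left _)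

private theorem arA_sub (l : ℕ) (w : ℤ) : w - 1 ∣ Ag l w - l := by
  induction l with
  | zero => simp [Ag]
  | succ k ih =>
    rw [arA_succ]
    have h : w - 1 ∣ w ^ k - 1 := by
      rw [← Ag_mul]
      exact dvd_mul_left _ _
    have h2 := dvd_add ih h
    have e : Ag k w - k + (w ^ k - 1) = Ag k w + w ^ k - ((k + 1 : ℕ) : ℤ) := by
      push_cast
      ring
    rwa [e] at h2

/-- `w ≡ 1` mod `p` implies `Ag l w ≡ l` mod `p` -/
theorem Ag_congr (l : ℕ) (w p : ℤ) (h : p ∣ w - 1) : p ∣ Ag l w - l := by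
  exact h.trans (arA_sub l w)

private theorem arA_pow (i : ℕ) (w : ℤ) : (w - 1) ^ 2 ∣ w ^ i - 1 - i * (w - 1) := by
  induction i with
  | zero => simp
  | succ i ih =>
    have e : w ^ (i + 1) - 1 - ((i + 1 : ℕ) : ℤ) * (w - 1) =
        w * (w ^ i - 1 - i * (w - 1)) + i * (w - 1) ^ 2 := by
      push_cast
      ring
    rw [e]
    exact dvd_add (ih.mul_left _) (dvd_mul_left _ _)

private theorem arA_sq (l : ℕ) (w : ℤ) :
    (w - 1) ^ 2 ∣ Ag l w - l - ((∑ i ∈ range l, i : ℕ) : ℤ) * (w - 1) := by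
  induction l with
  | zero => simp [Ag]
  | succ l ih =>
    have e : Ag (l + 1) w - ((l + 1 : ℕ) : ℤ) -
        ((∑ i ∈ range (l + 1), i : ℕ) : ℤ) * (w - 1) =
        (Ag l w - l - ((∑ i ∈ range l, i : ℕ) : ℤ) * (w - 1)) +
          (w ^ l - 1 - l * (w - 1)) := by
      rw [arA_succ, sum_range_succ]
      push_cast
      ring
    rw [e]
    exact dvd_add ih (arA_pow l w)

/-- `l ∣ w - 1`, `l` odd: `Ag l w ≡ l` mod `l^2` -/
theorem Ag_congr_sq (l : ℕ) (hl : l.Prime) (h2 : l ≠ 2) (w : ℤ) (h : (l : ℤ) ∣ w - 1) :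
    ((l : ℤ)) ^ 2 ∣ Ag l w - l := by
  obtain ⟨k, hk⟩ := hl.odd_of_ne_two h2
  have h1 := (pow_dvd_pow_of_dvd h 2).trans (arA_sq l w)
  have h3 : (∑ i ∈ range l, i : ℕ) = l * k := by
    have h4 := Finset.sum_range_id_mul_two l
    have h5 : l - 1 = 2 * k := by omega
    rw [h5] at h4
    have h6 : (∑ i ∈ range l, i) * 2 = l * k * 2 := by rw [h4]; ring
    exact Nat.eq_of_mul_eq_mul_right (by norm_num) h6
  have h4 : (l : ℤ) ^ 2 ∣ ((∑ i ∈ range l, i : ℕ) : ℤ) * (w - 1) := by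
    rw [h3]
    obtain ⟨u, hu⟩ := h
    rw [hu]
    refine ⟨k * u, ?_⟩
    push_cast
    ring
  have h5 := dvd_add h1 h4
  rwa [sub_add_cancel] at h5

/-- a prime `q ≠ l` dividing `Ag l w` is `1` mod `l` (the order of `w` mod `q` is `l`) -/
theorem Ag_prime (l : ℕ) (hl : l.Prime) (w : ℤ) (q : ℕ) (hq : q.Prime) (hql : q ≠ l)
    (h : (q : ℤ) ∣ Ag l w) : q % l = 1 := by
  have _ := Fact.mk hq
  have _ := Fact.mk hl
  have h1 : ((w : ℤ) : ZMod q) ^ l = 1 := by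
    have h2 : (q : ℤ) ∣ w ^ l - 1 := by
      rw [← Ag_mul]
      exact h.mul_right _
    have h3 := (ZMod.intCast_zmod_eq_zero_iff_dvd _ q).2 h2
    push_cast at h3
    exact sub_eq_zero.1 h3
  have h2 : ((w : ℤ) : ZMod q) ≠ 1 := by
    intro e
    have h3 : (q : ℤ) ∣ w - 1 := by
      rw [← ZMod.intCast_zmod_eq_zero_iff_dvd]
      push_cast
      rw [e, sub_self]
    have h4 := Ag_congr l w q h3
    have h5 : (q : ℤ) ∣ l := by
      have h6 := dvd_sub h h4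
      rwa [sub_sub_cancel] at h6
    exact hql ((Nat.prime_dvd_prime_iff_eq hq hl).1 (Int.natCast_dvd_natCast.1 h5))
  have h0 : ((w : ℤ) : ZMod q) ≠ 0 := by
    intro e
    rw [e, zero_pow hl.ne_zero] at h1
    exact zero_ne_one h1
  have h3 : orderOf ((w : ℤ) : ZMod q) = l := orderOf_eq_prime h1 h2
  have h4 : l ∣ q - 1 := by
    rw [← h3]
    exact ZMod.orderOf_dvd_card_sub_one h0
  obtain ⟨t, ht⟩ := h4
  have h5 : q = 1 + l * t := by
    have := hq.one_lt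
    omega
  rw [h5, Nat.add_mul_mod_self_left]
  exact Nat.mod_eq_of_lt hl.one_lt

/-- `l ∤ w - 1`: `l ∤ Ag l w` (Fermat: `w^l ≡ w` mod `l`) -/
theorem Ag_not_dvd (l : ℕ) (hl : l.Prime) (w : ℤ) (h : ¬ (l : ℤ) ∣ w - 1) : ¬ (l : ℤ) ∣ Ag l w := by
  intro h1
  have _ := Fact.mk hl
  refine h ?_
  have h2 : (l : ℤ) ∣ w ^ l - 1 := by
    rw [← Ag_mul]
    exact h1.mul_right _
  rw [← ZMod.intCast_zmod_eq_zero_iff_dvd] at h2 ⊢
  push_cast at h2 ⊢
  rwa [ZMod.pow_card] at h2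

end Pool.Agent.Wal
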