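import Pool.Agent.Lib.MP_6498db_nt.L.Defs
import Pool.Agent.Lib.MP_6498db_nt.E.NL

/-! WALSH, Theorem 2, row NLst: the theorem of Nagell and Ljunggren for squares (the proof is in E/NL.lean). -/

set_option autoImplicit false

namespace Pool.Agent.Wal

/-- Nagell - Ljunggren for squares. -/
theorem nl_sq (w z : ℤ) (n : ℕ) (hn : Odd n) (h3 : 3 ≤ n) (hw : 2 ≤ |w|) (h : w ^ n - 1 = (w - 1) * z ^ 2) :
    w = 3 ∧ n = 5 :=
  WE.nl hn h3 hw h

end Pool.Agent.Wal
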