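import Pool.Agent.Lib.MP_6498db_nt.L.ArA
import Pool.Agent.Lib.MP_6498db_nt.L.NLst

/-! WALSH, Theorem 2, row ArB: the arithmetic of a prime exponent `l ≥ 5`. -/

set_option autoImplicit false

namespace Pool.Agent.Wal

open Finset

private theorem arb_unique {x y c d : ℕ} (hx : Squarefree x) (hy : Squarefree y) (hc : c ≠ 0)
    (hd : d ≠ 0) (h : x * c ^ 2 = y * d ^ 2) : x = y := by
  refine Nat.eq_of_factorization_eq hx.ne_zero hy.ne_zero fun p => ?_
  have h1 := congrArg (fun n => n.factorization p) h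
  rw [Nat.factorization_mul hx.ne_zero (pow_ne_zero 2 hc),
    Nat.factorization_mul hy.ne_zero (pow_ne_zero 2 hd), Nat.factorization_pow,
    Nat.factorization_pow] at h1
  simp only [Finsupp.add_apply, Finsupp.smul_apply, smul_eq_mul] at h1
  have h2 := hx.natFactorization_le_one p
  have h3 := hy.natFactorization_le_one p
  omega

/-- `p` odd prime, `c b s^2 ≡ c^2` mod `p`, `p ∤ c`: `(c b / p) = 1`. -/
private theorem arb_symb (p : ℕ) (hp : p.Prime) (c b : ℕ) (s : ℤ)
    (hpc : ¬ (p : ℤ) ∣ (c : ℤ)) (h : (p : ℤ) ∣ (b : ℤ) * s ^ 2 - c) :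
    jacobiSym ((c * b : ℕ) : ℤ) p = 1 := by
  have : Fact p.Prime := ⟨hp⟩
  have hps : ¬ (p : ℤ) ∣ s := by
    intro h1
    apply hpc
    have h2 : (p : ℤ) ∣ (b : ℤ) * s ^ 2 := Dvd.dvd.mul_left (dvd_pow h1 two_ne_zero) _
    have h3 := dvd_sub h2 h
    rwa [sub_sub_cancel] at h3
  have hpb : ¬ (p : ℤ) ∣ (b : ℤ) := by
    intro h1
    apply hpc
    have h2 : (p : ℤ) ∣ (b : ℤ) * s ^ 2 := Dvd.dvd.mul_right h1 _
    have h3 := dvd_sub h2 h
    rwa [sub_sub_cancel] at h3
  rw [← jacobiSym.legendreSym.to_jacobiSym]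
  have hz0 : (((c * b : ℕ) : ℤ) : ZMod p) ≠ 0 := by
    intro h0
    rw [ZMod.intCast_zmod_eq_zero_iff_dvd] at h0
    push_cast at h0
    rcases (Nat.prime_iff_prime_int.1 hp).dvd_or_dvd h0 with h1 | h1
    · exact hpc h1
    · exact hpb h1
  rw [legendreSym.eq_one_iff p hz0]
  have hs0 : ((s : ℤ) : ZMod p) ≠ 0 := by
    intro h0
    rw [ZMod.intCast_zmod_eq_zero_iff_dvd] at h0
    exact hps h0
  have h4 : (((b : ℤ) * s ^ 2 - c : ℤ) : ZMod p) = 0 := by
    rw [ZMod.intCast_zmod_eq_zero_iff_dvd]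
    exact h
  push_cast at h4
  refine ⟨(c : ZMod p) * ((s : ℤ) : ZMod p)⁻¹, ?_⟩
  push_cast
  field_simp
  have h5 : (b : ZMod p) * (s : ZMod p) ^ 2 = c := by linear_combination h4
  linear_combination (c : ZMod p) * h5

/-- Proof. `A = Ag l w > 0` odd, `|w - 1| A = m k^2`.
(I) `l ∤ w - 1`: `gcd(w - 1, A) = 1` (`Ag_congr`), `split_sq`: `|w-1| = a r^2`, `A = b s^2`, `a b = m`. If `b = 1`:
`A = s^2`, `nl_sq`: `w = 3`, `l = 5`, `m k^2 = 242 = 2 · 11^2`, `m = 2`, excluded. `b > 1`: `FitL l l a b`: the primes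
of `b` divide `A`, are `≠ l` (`Ag_not_dvd`), so `1` mod `l`; `p ∣ a` odd: `p ∣ w - 1`, `b s^2 = A ≡ l` mod `p`, `p ≠ l`
(else `l ∣ w - 1`), so `(l b / p) = 1`.
(II) `l ∣ w - 1`: `A = l A'`, `A' ≡ 1` mod `l` (`Ag_congr_sq`), `gcd(l (w-1), A') = 1`, `l |w-1| · A' = m k^2`,
`split_sq`: `l |w-1| = a r^2`, `A' = b s^2`, `a b = m`. `b = 1`: `w^l - 1 = l s^2 (w - 1)`. `b > 1`: `FitL 1 l a b`:
primes of `b` divide `A'`, are `≠ l`, so `1` mod `l`; `p ∣ a` odd, `p ≠ l`: `p ∣ w - 1`, `l b s^2 = A ≡ l`, `(b/p) = 1`;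
`p = l ∣ a`: `b s^2 = A' ≡ 1` mod `l`, `(b/l) = 1`. -/
theorem arithL (l : ℕ) (hl : l.Prime) (h5 : 5 ≤ l) (m : ℕ) (hm : Squarefree m) (hm2 : m ≠ 2) (w : ℤ)
    (hw : 2 ≤ |w|) (k : ℕ) (hk : k ≠ 0) (h : |w ^ l - 1| = (m : ℤ) * (k : ℤ) ^ 2) :
    (∃ a b : ℕ, a * b = m ∧ (FitL 1 l a b ∨ FitL l l a b)) ∨ ∃ z : ℤ, w ^ l - 1 = l * z ^ 2 * (w - 1) := by
  have hlo : Odd l := hl.odd_of_ne_two (by omega)
  have hm0 : m ≠ 0 := hm.ne_zero
  have hw1 : w - 1 ≠ 0 := by
    intro h0
    have : w = 1 := by linarith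
    rw [this] at hw
    norm_num at hw
  have hApos := Ag_pos l hlo w
  have hAodd := Ag_odd l hlo w
  obtain ⟨A, hA⟩ : ∃ A : ℕ, Ag l w = (A : ℤ) := ⟨(Ag l w).toNat, (Int.toNat_of_nonneg hApos.le).symm⟩
  obtain ⟨D, hD⟩ : ∃ D : ℕ, |w - 1| = (D : ℤ) := ⟨(w - 1).natAbs, (Int.natCast_natAbs (w - 1)).symm⟩
  have hA0 : A ≠ 0 := by
    rintro rfl
    rw [hA] at hApos
    simp at hApos
  have hD0 : D ≠ 0 := by
    rintro rfl
    have : |w - 1| = 0 := by simpa using hD
    exact hw1 (abs_eq_zero.1 this)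
  have hAoddN : Odd A := by
    rw [hA] at hAodd
    exact_mod_cast hAodd
  have hprod : D * A = m * k ^ 2 := by
    have h1 : |w ^ l - 1| = |w - 1| * Ag l w := by
      rw [← Ag_mul l w, abs_mul, abs_of_pos hApos, mul_comm]
    rw [h, hD, hA] at h1
    have h2 : ((D * A : ℕ) : ℤ) = ((m * k ^ 2 : ℕ) : ℤ) := by
      push_cast
      exact h1.symm
    exact_mod_cast h2
  have hdvdD : ∀ p : ℕ, p ∣ D ↔ (p : ℤ) ∣ w - 1 := by
    intro p
    rw [← Int.natCast_dvd_natCast, ← hD, dvd_abs]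
  have hdvdA : ∀ p : ℕ, p ∣ A ↔ (p : ℤ) ∣ Ag l w := by
    intro p
    rw [← Int.natCast_dvd_natCast, hA]
  by_cases hlw : (l : ℤ) ∣ w - 1
  · -- case II
    have hsq := Ag_congr_sq l hl (by omega) w hlw
    have hlA : l ∣ A := by
      rw [hdvdA]
      have h1 : (l : ℤ) ∣ Ag l w - l := dvd_trans (Dvd.intro_left _ (by ring : (l : ℤ) * l = (l : ℤ) ^ 2)) hsq
      have h2 := dvd_add h1 (dvd_refl (l : ℤ))
      rwa [sub_add_cancel] at h2
    obtain ⟨B, hB⟩ := hlA
    have hB0 : B ≠ 0 := by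
      rintro rfl
      exact hA0 (by rw [hB, mul_zero])
    have hBcong : (l : ℤ) ∣ (B : ℤ) - 1 := by
      have h1 : (l : ℤ) * l ∣ (l : ℤ) * ((B : ℤ) - 1) := by
        have h2 : (l : ℤ) * ((B : ℤ) - 1) = Ag l w - l := by
          rw [hA, hB]
          push_cast
          ring
        rw [h2, ← pow_two]
        exact hsq
      exact (mul_dvd_mul_iff_left (by exact_mod_cast hl.ne_zero)).1 h1
    have hlB : ¬ l ∣ B := by
      intro h1
      have h2 : (l : ℤ) ∣ (B : ℤ) := Int.natCast_dvd_natCast.2 h1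
      have h3 := dvd_sub h2 hBcong
      rw [sub_sub_cancel] at h3
      have h4 : l ∣ 1 := by exact_mod_cast h3
      exact hl.one_lt.ne' (Nat.dvd_one.1 h4)
    have hcop : (l * D).Coprime B := by
      refine Nat.Coprime.mul_left ?_ ?_
      · exact (Nat.Prime.coprime_iff_not_dvd hl).2 hlB
      · refine Nat.Coprime.symm ?_
        refine Nat.coprime_of_dvd fun q hq hqB hqD => ?_
        have h1 : (q : ℤ) ∣ w - 1 := (hdvdD q).1 hqD
        have h2 := Ag_congr l w q h1
        have h3 : (q : ℤ) ∣ Ag l w := by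
          rw [← hdvdA, hB]
          exact Dvd.dvd.mul_left hqB _
        have h4 := dvd_sub h3 h2
        rw [sub_sub_cancel] at h4
        have h5' : q ∣ l := Int.natCast_dvd_natCast.1 h4
        have h6 : q = l := (Nat.prime_dvd_prime_iff_eq hq hl).1 h5'
        rw [h6] at hqB
        exact hlB hqB
    have hprod2 : l * D * B = m * k ^ 2 := by
      rw [← hprod, hB]
      ring
    obtain ⟨a, b, r, s, hab, hu, hv⟩ := split_sq m hm (l * D) B k (mul_ne_zero hl.ne_zero hD0) hB0 hcop hprod2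
    by_cases hb : b = 1
    · right
      refine ⟨(s : ℤ), ?_⟩
      rw [← Ag_mul l w, hA, hB, hv, hb]
      push_cast
      ring
    · left
      have hb0 : b ≠ 0 := by
        rintro rfl
        exact hm0 (by rw [← hab, mul_zero])
      refine ⟨a, b, hab, Or.inl ⟨by omega, ?_, ?_, ?_⟩⟩
      · have h1 : b ∣ A := by
          rw [hB, hv]
          exact Dvd.dvd.mul_left (Dvd.intro _ rfl) _
        exact Odd.of_dvd_nat hAoddN h1
      · intro q hq hqb
        have h1 : q ∣ B := by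
          rw [hv]
          exact Dvd.dvd.mul_right hqb _
        refine Ag_prime l hl w q hq ?_ ?_
        · rintro rfl
          exact hlB h1
        · rw [← hdvdA, hB]
          exact Dvd.dvd.mul_left h1 _
      · intro p hp hp2 hpa
        have hp1 : ¬ (p : ℤ) ∣ ((1 : ℕ) : ℤ) := by
          intro h1
          have h2 : p ∣ 1 := Int.natCast_dvd_natCast.1 h1
          exact hp.one_lt.ne' (Nat.dvd_one.1 h2)
        refine arb_symb p hp 1 b (s : ℤ) hp1 ?_
        have hBz : (b : ℤ) * (s : ℤ) ^ 2 = (B : ℤ) := by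
          rw [hv]
          push_cast
          ring
        rw [hBz]
        push_cast
        by_cases hpl : p = l
        · rw [hpl]
          exact hBcong
        · have h1 : p ∣ l * D := by
            rw [hu]
            exact Dvd.dvd.mul_right hpa _
          have h2 : p ∣ D := by
            rcases hp.dvd_mul.1 h1 with h3 | h3
            · exact absurd ((Nat.prime_dvd_prime_iff_eq hp hl).1 h3) hpl
            · exact h3
          have h3 := Ag_congr l w p ((hdvdD p).1 h2)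
          have h4 : (p : ℤ) ∣ (l : ℤ) * ((B : ℤ) - 1) := by
            have h5' : (l : ℤ) * ((B : ℤ) - 1) = Ag l w - l := by
              rw [hA, hB]
              push_cast
              ring
            rw [h5']
            exact h3
          rcases (Nat.prime_iff_prime_int.1 hp).dvd_or_dvd h4 with h5' | h5'
          · exact absurd ((Nat.prime_dvd_prime_iff_eq hp hl).1 (Int.natCast_dvd_natCast.1 h5')) hpl
          · exact h5'
  · -- case I
    have hcop : D.Coprime A := by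
      refine Nat.coprime_of_dvd fun q hq hqD hqA => ?_
      have h1 : (q : ℤ) ∣ w - 1 := (hdvdD q).1 hqD
      have h2 := Ag_congr l w q h1
      have h4 := dvd_sub ((hdvdA q).1 hqA) h2
      rw [sub_sub_cancel] at h4
      have h5' : q ∣ l := Int.natCast_dvd_natCast.1 h4
      have h6 : q = l := (Nat.prime_dvd_prime_iff_eq hq hl).1 h5'
      rw [h6] at h1
      exact hlw h1
    obtain ⟨a, b, r, s, hab, hu, hv⟩ := split_sq m hm D A k hD0 hA0 hcop hprod
    by_cases hb : b = 1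
    · exfalso
      have h1 : w ^ l - 1 = (w - 1) * (s : ℤ) ^ 2 := by
        rw [← Ag_mul l w, hA, hv, hb]
        push_cast
        ring
      obtain ⟨h3, h4⟩ := nl_sq w (s : ℤ) l hlo (by omega) hw h1
      rw [h3, h4] at h
      have h6 : m * k ^ 2 = 2 * 11 ^ 2 := by
        have h7 : ((m * k ^ 2 : ℕ) : ℤ) = ((2 * 11 ^ 2 : ℕ) : ℤ) := by
          push_cast
          rw [← h]
          norm_num
        exact_mod_cast h7
      exact hm2 (arb_unique hm Nat.prime_two.squarefree hk (by norm_num) h6)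
    · left
      have hb0 : b ≠ 0 := by
        rintro rfl
        exact hm0 (by rw [← hab, mul_zero])
      refine ⟨a, b, hab, Or.inr ⟨by omega, ?_, ?_, ?_⟩⟩
      · have h1 : b ∣ A := by
          rw [hv]
          exact Dvd.intro _ rfl
        exact Odd.of_dvd_nat hAoddN h1
      · intro q hq hqb
        have h1 : q ∣ A := by
          rw [hv]
          exact Dvd.dvd.mul_right hqb _
        refine Ag_prime l hl w q hq ?_ ((hdvdA q).1 h1)
        rintro rfl
        exact Ag_not_dvd q hl w hlw ((hdvdA q).1 h1)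
      · intro p hp hp2 hpa
        have hpD : p ∣ D := by
          rw [hu]
          exact Dvd.dvd.mul_right hpa _
        have hpl : ¬ (p : ℤ) ∣ (l : ℤ) := by
          intro h1
          have h2 : p = l := (Nat.prime_dvd_prime_iff_eq hp hl).1 (Int.natCast_dvd_natCast.1 h1)
          rw [h2] at hpD
          exact hlw ((hdvdD l).1 hpD)
        refine arb_symb p hp l b (s : ℤ) hpl ?_
        have hBz : (b : ℤ) * (s : ℤ) ^ 2 = Ag l w := by
          rw [hA, hv]
          push_cast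
          ring
        rw [hBz]
        exact Ag_congr l w p ((hdvdD p).1 hpD)

/-- `w = W^2`: `Ag l (W^2) = Ag l W * Ag l (-W)` (both `> 0`, odd, coprime: a common prime divides `W^l - 1` and
`W^l + 1`), `= l z^2` is impossible: one of the two factors would be a square (`l` divides only one of them), so
`nl_sq` with `w = W` or `w = -W`: `W = 3` or `W = -3`, `l = 5`, and the other factor is `61`, not `5 z^2`. -/
theorem no_even (l : ℕ) (hl : l.Prime) (h5 : 5 ≤ l) (W : ℤ) (hW : 2 ≤ |W|) (z : ℤ)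
    (h : (W ^ 2) ^ l - 1 = l * z ^ 2 * (W ^ 2 - 1)) : False := by
  have hlo : Odd l := hl.odd_of_ne_two (by omega)
  have hp := Ag_pos l hlo W
  have hq := Ag_pos l hlo (-W)
  have hpo := Ag_odd l hlo W
  have e1 := Ag_mul l W
  have e2 := Ag_mul l (-W)
  have hneg : (-W) ^ l = -(W ^ l) := hlo.neg_pow W
  have hW1 : W ^ 2 - 1 ≠ 0 := by
    intro h0
    have h1 : |W| ^ 2 = 1 := by rw [sq_abs]; linarith
    nlinarith
  have hkey : Ag l W * Ag l (-W) = l * z ^ 2 := by
    have h1 : (Ag l W * Ag l (-W)) * (W ^ 2 - 1) = (l * z ^ 2) * (W ^ 2 - 1) := by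
      rw [← h]
      have h2 : (Ag l W * Ag l (-W)) * (W ^ 2 - 1) = -((Ag l W * (W - 1)) * (Ag l (-W) * (-W - 1))) := by ring
      rw [h2, e1, e2, hneg, ← pow_mul, mul_comm 2 l, pow_mul]
      ring
    exact mul_right_cancel₀ hW1 h1
  have hcop : IsCoprime (Ag l W) (Ag l (-W)) := by
    rw [Int.isCoprime_iff_gcd_eq_one]
    by_contra hg
    obtain ⟨q, hqp, hqd⟩ := Nat.exists_prime_and_dvd hg
    have h1 : (q : ℤ) ∣ Ag l W := dvd_trans (Int.natCast_dvd_natCast.2 hqd) (Int.gcd_dvd_left _ _)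
    have h2 : (q : ℤ) ∣ Ag l (-W) := dvd_trans (Int.natCast_dvd_natCast.2 hqd) (Int.gcd_dvd_right _ _)
    have h3 : (q : ℤ) ∣ W ^ l - 1 := by rw [← e1]; exact Dvd.dvd.mul_right h1 _
    have h4 : (q : ℤ) ∣ -(W ^ l) - 1 := by rw [← hneg, ← e2]; exact Dvd.dvd.mul_right h2 _
    have h6 : (q : ℤ) ∣ 2 := by
      have h7 := dvd_add h3 h4
      have h8 : W ^ l - 1 + (-(W ^ l) - 1) = -2 := by ring
      rw [h8] at h7
      exact (dvd_neg.1 h7)
    have h7 : q ∣ 2 := by exact_mod_cast h6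
    have h8 : q = 2 := (Nat.prime_dvd_prime_iff_eq hqp Nat.prime_two).1 h7
    rw [h8] at h1
    have h9 : ¬ (2 : ℤ) ∣ Ag l W := by
      rw [← even_iff_two_dvd]
      exact Int.not_even_iff_odd.2 hpo
    exact h9 (by exact_mod_cast h1)
  have hlp : Prime (l : ℤ) := Nat.prime_iff_prime_int.1 hl
  -- the final contradiction
  have fin : W ^ 2 = 9 → l = 5 → False := by
    intro h1 h2
    rw [h1, h2] at h
    norm_num at h
    omega
  -- general step
  have step : ∀ x y : ℤ, 0 < x → 0 < y → IsCoprime x y → x * y = l * z ^ 2 → (l : ℤ) ∣ x → ∃ t : ℤ, y = t ^ 2 := by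
    intro x y hx hy hxy hh hlx
    obtain ⟨x', hx'⟩ := hlx
    have h1 : x' * y = z ^ 2 := by
      have h2 : (l : ℤ) * (x' * y) = l * z ^ 2 := by
        rw [← hh, hx']
        ring
      exact mul_left_cancel₀ hlp.ne_zero h2
    have h2 : IsCoprime y x' := by
      rw [hx'] at hxy
      exact (IsCoprime.of_mul_left_right hxy).symm
    have h3 : y * x' = z ^ 2 := by rw [mul_comm]; exact h1
    obtain ⟨t, ht⟩ := Int.sq_of_isCoprime h2 h3
    rcases ht with ht | ht
    · exact ⟨t, ht⟩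
    · exfalso
      nlinarith [sq_nonneg t]
  rcases hlp.dvd_or_dvd (show (l : ℤ) ∣ Ag l W * Ag l (-W) by rw [hkey]; exact Dvd.intro _ rfl) with h1 | h1
  · obtain ⟨t, ht⟩ := step _ _ hp hq hcop hkey h1
    have h2 : (-W) ^ l - 1 = (-W - 1) * t ^ 2 := by
      rw [← e2, ht]
      ring
    obtain ⟨h3, h4⟩ := nl_sq (-W) t l hlo (by omega) (by rwa [abs_neg]) h2
    refine fin ?_ h4
    have h6 : W = -3 := by linarith
    rw [h6]
    norm_num
  · obtain ⟨t, ht⟩ := step _ _ hq hp hcop.symm (by rw [mul_comm]; exact hkey) h1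
    have h2 : W ^ l - 1 = (W - 1) * t ^ 2 := by
      rw [← e1, ht]
      ring
    obtain ⟨h3, h4⟩ := nl_sq W t l hlo (by omega) hW h2
    refine fin ?_ h4
    rw [h3]
    norm_num

end Pool.Agent.Wal
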