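import Pool.Agent.Lib.MP_6498db_nt.L.ArA
import Pool.Agent.Lib.MP_6498db_nt.L.NLst

/-! WALSH, Theorem 3, row ArC: the arithmetic of a prime exponent, sharper form (model: `arithL` in ArB.lean). -/

set_option autoImplicit false

namespace Pool.Agent.Wal

open Finset

/-- `p` odd prime, `c b s^2 ≡ c^2` mod `p`, `p ∤ c`: `(c b / p) = 1`. -/
private theorem arc_symb (p : ℕ) (hp : p.Prime) (c b : ℕ) (s : ℤ)
    (hpc : ¬ (p : ℤ) ∣ (c : ℤ)) (h : (p : ℤ) ∣ (b : ℤ) * s ^ 2 - c) :
    jacobiSym ((c * b : ℕ) : ℤ) p = 1 := by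
  have : Fact p.Prime := ⟨hp⟩
  have hps : ¬ (p : ℤ) ∣ s := by
    intro h1
    apply hpc
    have h2 : (p : ℤ) ∣ (b : ℤ) * s ^ 2 := Dvd.dvd.mul_left (dvd_pow h1 two_ne_zero) _
    have h3 := dvd_sub h2 h
    rwa [sub_sub_cancel] at h3
  have hpb : ¬ (p : ℤ) ∣ (b : ℤ) := by
    intro h1
    apply hpc
    have h2 : (p : ℤ) ∣ (b : ℤ) * s ^ 2 := Dvd.dvd.mul_right h1 _
    have h3 := dvd_sub h2 h
    rwa [sub_sub_cancel] at h3
  rw [← jacobiSym.legendreSym.to_jacobiSym]
  have hz0 : (((c * b : ℕ) : ℤ) : ZMod p) ≠ 0 := by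
    intro h0
    rw [ZMod.intCast_zmod_eq_zero_iff_dvd] at h0
    push_cast at h0
    rcases (Nat.prime_iff_prime_int.1 hp).dvd_or_dvd h0 with h1 | h1
    · exact hpc h1
    · exact hpb h1
  rw [legendreSym.eq_one_iff p hz0]
  have hs0 : ((s : ℤ) : ZMod p) ≠ 0 := by
    intro h0
    rw [ZMod.intCast_zmod_eq_zero_iff_dvd] at h0
    exact hps h0
  have h4 : (((b : ℤ) * s ^ 2 - c : ℤ) : ZMod p) = 0 := by
    rw [ZMod.intCast_zmod_eq_zero_iff_dvd]
    exact h
  push_cast at h4
  refine ⟨(c : ZMod p) * ((s : ℤ) : ZMod p)⁻¹, ?_⟩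
  push_cast
  field_simp
  have h5 : (b : ZMod p) * (s : ZMod p) ^ 2 = c := by linear_combination h4
  linear_combination (c : ZMod p) * h5

/-- Proof. As `arithL`. (I) `l ∤ w - 1`: `|w - 1| = a r^2`, `Ag l w = b s^2`, `b ≠ 1` by `nl_sq` (`l ≥ 7`), `c = l`: for an odd
prime `p ∣ w - 1`: `b s^2 ≡ l` mod `p`, `p ≠ l`. (II) `l ∣ w - 1`: `l |w - 1| = a r^2`, `Ag l w = l A'`, `A' = b s^2`; `b = 1`:
first alternative; `b > 1`: `c = 1`; for an odd prime `p ∣ w - 1`: `p ≠ l`: `b s^2 ≡ 1`; `p = l`: `A' ≡ 1` mod `l`. -/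
theorem arithC (l : ℕ) (hl : l.Prime) (h7 : 7 ≤ l) (M : ℕ) (hM : Squarefree M) (w : ℤ) (hw : 2 ≤ |w|)
    (k : ℕ) (hk : k ≠ 0) (h : |w ^ l - 1| = (M : ℤ) * (k : ℤ) ^ 2) :
    (∃ z : ℤ, Ag l w = l * z ^ 2) ∨
      ∃ c a b : ℕ, (c = 1 ∨ c = l) ∧ a * b = M ∧ 1 < b ∧ Odd b ∧
        (∀ q : ℕ, q.Prime → q ∣ b → q % l = 1) ∧
        (∀ p : ℕ, p.Prime → p ∣ a → (p : ℤ) ∣ w - 1) ∧
        (∀ p : ℕ, p.Prime → p ≠ 2 → (p : ℤ) ∣ w - 1 → jacobiSym ((c * b : ℕ) : ℤ) p = 1) := by
  have hlo : Odd l := hl.odd_of_ne_two (by omega)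
  have hm0 : M ≠ 0 := hM.ne_zero
  have hw1 : w - 1 ≠ 0 := by
    intro h0
    have : w = 1 := by linarith
    rw [this] at hw
    norm_num at hw
  have hApos := Ag_pos l hlo w
  have hAodd := Ag_odd l hlo w
  obtain ⟨A, hA⟩ : ∃ A : ℕ, Ag l w = (A : ℤ) :=
    ⟨(Ag l w).toNat, (Int.toNat_of_nonneg hApos.le).symm⟩
  obtain ⟨D, hD⟩ : ∃ D : ℕ, |w - 1| = (D : ℤ) :=
    ⟨(w - 1).natAbs, (Int.natCast_natAbs (w - 1)).symm⟩
  have hA0 : A ≠ 0 := by
    rintro rfl
    rw [hA] at hApos
    simp at hApos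
  have hD0 : D ≠ 0 := by
    rintro rfl
    have : |w - 1| = 0 := by simpa using hD
    exact hw1 (abs_eq_zero.1 this)
  have hAoddN : Odd A := by
    rw [hA] at hAodd
    exact_mod_cast hAodd
  have hprod : D * A = M * k ^ 2 := by
    have h1 : |w ^ l - 1| = |w - 1| * Ag l w := by
      rw [← Ag_mul l w, abs_mul, abs_of_pos hApos, mul_comm]
    rw [h, hD, hA] at h1
    have h2 : ((D * A : ℕ) : ℤ) = ((M * k ^ 2 : ℕ) : ℤ) := by
      push_cast
      exact h1.symm
    exact_mod_cast h2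
  have hdvdD : ∀ p : ℕ, p ∣ D ↔ (p : ℤ) ∣ w - 1 := by
    intro p
    rw [← Int.natCast_dvd_natCast, ← hD, dvd_abs]
  have hdvdA : ∀ p : ℕ, p ∣ A ↔ (p : ℤ) ∣ Ag l w := by
    intro p
    rw [← Int.natCast_dvd_natCast, hA]
  by_cases hlw : (l : ℤ) ∣ w - 1
  · -- case II
    have hsq := Ag_congr_sq l hl (by omega) w hlw
    have hlA : l ∣ A := by
      rw [hdvdA]
      have h1 : (l : ℤ) ∣ Ag l w - l :=
        dvd_trans (Dvd.intro_left _ (by ring : (l : ℤ) * l = (l : ℤ) ^ 2)) hsq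
      have h2 := dvd_add h1 (dvd_refl (l : ℤ))
      rwa [sub_add_cancel] at h2
    obtain ⟨B, hB⟩ := hlA
    have hB0 : B ≠ 0 := by
      rintro rfl
      exact hA0 (by rw [hB, mul_zero])
    have hBcong : (l : ℤ) ∣ (B : ℤ) - 1 := by
      have h1 : (l : ℤ) * l ∣ (l : ℤ) * ((B : ℤ) - 1) := by
        have h2 : (l : ℤ) * ((B : ℤ) - 1) = Ag l w - l := by
          rw [hA, hB]
          push_cast
          ring
        rw [h2, ← pow_two]
        exact hsq
      exact (mul_dvd_mul_iff_left (by exact_mod_cast hl.ne_zero)).1 h1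
    have hlB : ¬ l ∣ B := by
      intro h1
      have h2 : (l : ℤ) ∣ (B : ℤ) := Int.natCast_dvd_natCast.2 h1
      have h3 := dvd_sub h2 hBcong
      rw [sub_sub_cancel] at h3
      have h4 : l ∣ 1 := by exact_mod_cast h3
      exact hl.one_lt.ne' (Nat.dvd_one.1 h4)
    have hcop : (l * D).Coprime B := by
      refine Nat.Coprime.mul_left ?_ ?_
      · exact (Nat.Prime.coprime_iff_not_dvd hl).2 hlB
      · refine Nat.Coprime.symm ?_
        refine Nat.coprime_of_dvd fun q hq hqB hqD => ?_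
        have h1 : (q : ℤ) ∣ w - 1 := (hdvdD q).1 hqD
        have h2 := Ag_congr l w q h1
        have h3 : (q : ℤ) ∣ Ag l w := by
          rw [← hdvdA, hB]
          exact Dvd.dvd.mul_left hqB _
        have h4 := dvd_sub h3 h2
        rw [sub_sub_cancel] at h4
        have h5' : q ∣ l := Int.natCast_dvd_natCast.1 h4
        have h6 : q = l := (Nat.prime_dvd_prime_iff_eq hq hl).1 h5'
        rw [h6] at hqB
        exact hlB hqB
    have hprod2 : l * D * B = M * k ^ 2 := by
      rw [← hprod, hB]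
      ring
    obtain ⟨a, b, r, s, hab, hu, hv⟩ :=
      split_sq M hM (l * D) B k (mul_ne_zero hl.ne_zero hD0) hB0 hcop hprod2
    by_cases hb : b = 1
    · left
      refine ⟨(s : ℤ), ?_⟩
      rw [hA, hB, hv, hb]
      push_cast
      ring
    · right
      have hb0 : b ≠ 0 := by
        rintro rfl
        exact hm0 (by rw [← hab, mul_zero])
      refine ⟨1, a, b, Or.inl rfl, hab, by omega, ?_, ?_, ?_, ?_⟩
      · have h1 : b ∣ A := by
          rw [hB, hv]
          exact Dvd.dvd.mul_left (Dvd.intro _ rfl) _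
        exact Odd.of_dvd_nat hAoddN h1
      · intro q hq hqb
        have h1 : q ∣ B := by
          rw [hv]
          exact Dvd.dvd.mul_right hqb _
        refine Ag_prime l hl w q hq ?_ ?_
        · rintro rfl
          exact hlB h1
        · rw [← hdvdA, hB]
          exact Dvd.dvd.mul_left h1 _
      · intro p hp hpa
        have h1 : p ∣ l * D := by
          rw [hu]
          exact Dvd.dvd.mul_right hpa _
        rcases hp.dvd_mul.1 h1 with h3 | h3
        · rw [(Nat.prime_dvd_prime_iff_eq hp hl).1 h3]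
          exact hlw
        · exact (hdvdD p).1 h3
      · intro p hp hp2 hpw
        have hp1 : ¬ (p : ℤ) ∣ ((1 : ℕ) : ℤ) := by
          intro h1
          have h2 : p ∣ 1 := Int.natCast_dvd_natCast.1 h1
          exact hp.one_lt.ne' (Nat.dvd_one.1 h2)
        refine arc_symb p hp 1 b (s : ℤ) hp1 ?_
        have hBz : (b : ℤ) * (s : ℤ) ^ 2 = (B : ℤ) := by
          rw [hv]
          push_cast
          ring
        rw [hBz]
        push_cast
        by_cases hpl : p = l
        · rw [hpl]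
          exact hBcong
        · have h3 := Ag_congr l w p hpw
          have h4 : (p : ℤ) ∣ (l : ℤ) * ((B : ℤ) - 1) := by
            have h5' : (l : ℤ) * ((B : ℤ) - 1) = Ag l w - l := by
              rw [hA, hB]
              push_cast
              ring
            rw [h5']
            exact h3
          rcases (Nat.prime_iff_prime_int.1 hp).dvd_or_dvd h4 with h5' | h5'
          · exact absurd ((Nat.prime_dvd_prime_iff_eq hp hl).1 (Int.natCast_dvd_natCast.1 h5')) hpl
          · exact h5'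
  · -- case I
    have hcop : D.Coprime A := by
      refine Nat.coprime_of_dvd fun q hq hqD hqA => ?_
      have h1 : (q : ℤ) ∣ w - 1 := (hdvdD q).1 hqD
      have h2 := Ag_congr l w q h1
      have h4 := dvd_sub ((hdvdA q).1 hqA) h2
      rw [sub_sub_cancel] at h4
      have h5' : q ∣ l := Int.natCast_dvd_natCast.1 h4
      have h6 : q = l := (Nat.prime_dvd_prime_iff_eq hq hl).1 h5'
      rw [h6] at h1
      exact hlw h1
    obtain ⟨a, b, r, s, hab, hu, hv⟩ := split_sq M hM D A k hD0 hA0 hcop hprod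
    by_cases hb : b = 1
    · exfalso
      have h1 : w ^ l - 1 = (w - 1) * (s : ℤ) ^ 2 := by
        rw [← Ag_mul l w, hA, hv, hb]
        push_cast
        ring
      obtain ⟨h3, h4⟩ := nl_sq w (s : ℤ) l hlo (by omega) hw h1
      omega
    · right
      have hb0 : b ≠ 0 := by
        rintro rfl
        exact hm0 (by rw [← hab, mul_zero])
      refine ⟨l, a, b, Or.inr rfl, hab, by omega, ?_, ?_, ?_, ?_⟩
      · have h1 : b ∣ A := by
          rw [hv]
          exact Dvd.intro _ rfl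
        exact Odd.of_dvd_nat hAoddN h1
      · intro q hq hqb
        have h1 : q ∣ A := by
          rw [hv]
          exact Dvd.dvd.mul_right hqb _
        refine Ag_prime l hl w q hq ?_ ((hdvdA q).1 h1)
        rintro rfl
        exact Ag_not_dvd q hl w hlw ((hdvdA q).1 h1)
      · intro p hp hpa
        have hpD : p ∣ D := by
          rw [hu]
          exact Dvd.dvd.mul_right hpa _
        exact (hdvdD p).1 hpD
      · intro p hp hp2 hpw
        have hpl : ¬ (p : ℤ) ∣ (l : ℤ) := by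
          intro h1
          have h2 : p = l := (Nat.prime_dvd_prime_iff_eq hp hl).1 (Int.natCast_dvd_natCast.1 h1)
          rw [h2] at hpw
          exact hlw hpw
        refine arc_symb p hp l b (s : ℤ) hpl ?_
        have hBz : (b : ℤ) * (s : ℤ) ^ 2 = Ag l w := by
          rw [hA, hv]
          push_cast
          ring
        rw [hBz]
        exact Ag_congr l w p hpw

end Pool.Agent.Wal
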