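import Pool.Agent.Lib.MP_6498db_nt.L.Defs
import Pool.Agent.Lib.MP_3e612f_nt.NF.U.BT
import Pool.Agent.Lib.MP_6498db_nt.W.Mert

/-! WALSH, Theorem 2, row BtA: Brun-Titchmarsh sums. -/

set_option autoImplicit false

namespace Pool.Agent.Wal

open Finset

/-- From `bt_short` (`X = y = t`, `h = t`, `r = l`, `u = 1`), small `t` by enlarging `C` (trivial bound: at most
`t/l + 1 ≤ 2t/l` terms). -/
theorem bt_count : ∃ C : ℝ, 0 < C ∧ ∀ l t : ℕ, l.Prime → 2 ≤ t → l ^ 16 ≤ t →
    (((Ioc t (2 * t)).filter (fun p => p.Prime ∧ p % l = 1)).card : ℝ) ≤ C * t / (l * Real.log t) := by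
  obtain ⟨C, hC, X₀, h⟩ := Pool.Agent.Lib.MP_3e612f_nt.NF.bt_short
  refine ⟨2 * C + X₀ * X₀, by positivity, fun l t hl ht hlt => ?_⟩
  have hl2 : (2 : ℝ) ≤ l := by exact_mod_cast hl.two_le
  have ht2 : (2 : ℝ) ≤ t := by exact_mod_cast ht
  have hlog : 0 < Real.log t := Real.log_pos (by linarith)
  have hden : 0 < (l : ℝ) * Real.log t := by positivity
  rw [le_div_iff₀ hden]
  rcases Nat.lt_or_ge t X₀ with hX | hX
  · have h1 : (((Ioc t (2 * t)).filter (fun p => p.Prime ∧ p % l = 1)).card : ℝ) ≤ t := by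
      have h2 := Finset.card_filter_le (Ioc t (2 * t)) (fun p => p.Prime ∧ p % l = 1)
      rw [Nat.card_Ioc] at h2
      have h3 : 2 * t - t = t := by omega
      rw [h3] at h2
      exact_mod_cast h2
    have hlX : (l : ℝ) ≤ X₀ := by
      have h2 : l ≤ l ^ 16 := Nat.le_self_pow (by norm_num) l
      exact_mod_cast h2.trans (hlt.trans hX.le)
    have htX : Real.log t ≤ X₀ := by
      have h2 := Real.log_le_sub_one_of_pos (show (0 : ℝ) < t by linarith)
      have h3 : (t : ℝ) ≤ X₀ := by exact_mod_cast hX.le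
      linarith
    have h4 : (l : ℝ) * Real.log t ≤ X₀ * X₀ :=
      mul_le_mul hlX htX hlog.le (by positivity)
    calc (((Ioc t (2 * t)).filter (fun p => p.Prime ∧ p % l = 1)).card : ℝ) * (l * Real.log t)
        ≤ t * (X₀ * X₀) := mul_le_mul h1 h4 hden.le (by positivity)
      _ ≤ (2 * C + X₀ * X₀) * t := by nlinarith [mul_pos hC (show (0 : ℝ) < t by linarith)]
  · have h1 := h t hX t t l 1 le_rfl hl.one_le hlt (Nat.coprime_one_left l) (by nlinarith)
    have h2 : (Ioc t (2 * t)).filter (fun p => p.Prime ∧ p % l = 1) =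
        (Ioc t (t + t)).filter (fun p => p.Prime ∧ p % l = 1 % l) := by
      rw [two_mul, Nat.mod_eq_of_lt hl.one_lt]
    rw [h2]
    have h3 : ((l.totient : ℕ) : ℝ) = l - 1 := by
      rw [Nat.totient_prime hl, Nat.cast_sub hl.one_le, Nat.cast_one]
    rw [h3] at h1
    have h4 : (0 : ℝ) < (l : ℝ) - 1 := by linarith
    have h5 : C * ((t : ℝ) / (((l : ℝ) - 1) * Real.log t)) * (l * Real.log t) =
        C * t * (l / ((l : ℝ) - 1)) := by
      field_simp
    have h6 : (l : ℝ) / ((l : ℝ) - 1) ≤ 2 := by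
      rw [div_le_iff₀ h4]
      linarith
    calc (((Ioc t (t + t)).filter (fun p => p.Prime ∧ p % l = 1 % l)).card : ℝ) * (l * Real.log t)
        ≤ C * ((t : ℝ) / (((l : ℝ) - 1) * Real.log t)) * (l * Real.log t) :=
          mul_le_mul_of_nonneg_right h1 hden.le
      _ = C * t * (l / ((l : ℝ) - 1)) := h5
      _ ≤ C * t * 2 := mul_le_mul_of_nonneg_left h6 (by positivity)
      _ ≤ (2 * C + X₀ * X₀) * t := by
          have : (0 : ℝ) ≤ X₀ * X₀ * t := by positivity
          nlinarith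

/-- the dyadic sum of `1/log` -/
private theorem bt_dyad (z : ℕ) (hz : 3 ≤ z) (K : ℕ) :
    ∑ j ∈ range (K + 1), 1 / Real.log ((2 ^ j * z : ℕ) : ℝ) ≤
      1 + 1 / Real.log 2 * (Real.log (Real.log ((2 ^ K * z : ℕ) : ℝ)) - Real.log (Real.log z)) := by
  have hz3 : (3 : ℝ) ≤ z := by exact_mod_cast hz
  have hlz : 1 ≤ Real.log z := MertAux.log_ge z hz
  have hl2 : 0 < Real.log 2 := Real.log_pos (by norm_num)
  have hlj : ∀ j : ℕ, Real.log ((2 ^ j * z : ℕ) : ℝ) = j * Real.log 2 + Real.log z := by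
    intro j
    push_cast
    rw [Real.log_mul (by positivity) (by positivity), Real.log_pow]
  induction K with
  | zero =>
    rw [zero_add, Finset.sum_range_one, pow_zero, one_mul, sub_self, mul_zero, add_zero,
      div_le_one (by linarith)]
    exact hlz
  | succ K ih =>
    rw [Finset.sum_range_succ]
    obtain ⟨a, ha⟩ : ∃ a, a = Real.log ((2 ^ K * z : ℕ) : ℝ) := ⟨_, rfl⟩
    have hb : Real.log ((2 ^ (K + 1) * z : ℕ) : ℝ) = a + Real.log 2 := by
      rw [ha, hlj, hlj]
      push_cast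
      ring
    have ha1 : 1 ≤ a := by
      rw [ha, hlj]
      have : 0 ≤ (K : ℝ) * Real.log 2 := by positivity
      linarith
    rw [hb]
    rw [← ha] at ih
    have h1 := Real.one_sub_inv_le_log_of_pos (x := (a + Real.log 2) / a) (by positivity)
    rw [Real.log_div (by positivity) (by positivity), inv_div] at h1
    have h2 : 1 - a / (a + Real.log 2) = Real.log 2 * (1 / (a + Real.log 2)) := by
      have : a + Real.log 2 ≠ 0 := by positivity
      field_simp
      ring
    rw [h2] at h1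
    have h3 : 1 / (a + Real.log 2) ≤ 1 / Real.log 2 *
        (Real.log (a + Real.log 2) - Real.log a) := by
      have h4 := mul_le_mul_of_nonneg_left h1 (show 0 ≤ 1 / Real.log 2 by positivity)
      have h5 : 1 / Real.log 2 * (Real.log 2 * (1 / (a + Real.log 2))) = 1 / (a + Real.log 2) := by
        field_simp
      rwa [h5] at h4
    have h6 : 1 / Real.log 2 * (Real.log (a + Real.log 2) - Real.log (Real.log z)) =
        1 / Real.log 2 * (Real.log (a + Real.log 2) - Real.log a) +
        1 / Real.log 2 * (Real.log a - Real.log (Real.log z)) := by ring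
    linarith

/-- Dyadic summation of `bt_count`: `∑_j 1/(l log(2^j z))`, `z ≤ 2^j z ≤ x`. -/
theorem bt_sum : ∃ C : ℝ, 0 < C ∧ ∀ l z x : ℕ, l.Prime → 3 ≤ z → z ≤ x → l ^ 16 ≤ z →
    ∑ p ∈ (prs x).filter (fun p => z < p ∧ p % l = 1), (1 : ℝ) / p ≤
      C / l * (Real.log (Real.log x) - Real.log (Real.log z) + 1) := by
  obtain ⟨C, hC, h⟩ := bt_count
  have hl2 : 0 < Real.log 2 := Real.log_pos (by norm_num)
  refine ⟨C / Real.log 2, by positivity, fun l z x hl hz hzx hlz => ?_⟩
  have hz3 : (3 : ℝ) ≤ z := by exact_mod_cast hz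
  have hl0 : (0 : ℝ) < l := by exact_mod_cast hl.pos
  have hmain : ∀ J : ℕ, ∑ p ∈ (Ioc z (2 ^ J * z)).filter (fun p => p.Prime ∧ p % l = 1), (1 : ℝ) / p ≤
      C / l * ∑ j ∈ range J, 1 / Real.log ((2 ^ j * z : ℕ) : ℝ) := by
    intro J
    induction J with
    | zero => simp
    | succ J ih =>
      have hp : 1 ≤ 2 ^ J := Nat.one_le_two_pow
      have h1 : z ≤ 2 ^ J * z := Nat.le_mul_of_pos_left z hp
      have h2 : 2 ^ (J + 1) * z = 2 * (2 ^ J * z) := by ring
      have h3 : (Ioc z (2 ^ (J + 1) * z)).filter (fun p => p.Prime ∧ p % l = 1) =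
          (Ioc z (2 ^ J * z)).filter (fun p => p.Prime ∧ p % l = 1) ∪
          (Ioc (2 ^ J * z) (2 * (2 ^ J * z))).filter (fun p => p.Prime ∧ p % l = 1) := by
        rw [h2, ← Finset.filter_union, Finset.Ioc_union_Ioc_eq_Ioc h1 (by omega)]
      have h4 : Disjoint ((Ioc z (2 ^ J * z)).filter (fun p => p.Prime ∧ p % l = 1))
          ((Ioc (2 ^ J * z) (2 * (2 ^ J * z))).filter (fun p => p.Prime ∧ p % l = 1)) := by
        rw [Finset.disjoint_left]
        intro p hp1 hp2
        rw [mem_filter, mem_Ioc] at hp1 hp2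
        omega
      rw [h3, Finset.sum_union h4, Finset.sum_range_succ, mul_add]
      refine add_le_add ih ?_
      obtain ⟨t, ht⟩ : ∃ t, t = 2 ^ J * z := ⟨_, rfl⟩
      rw [← ht] at h1 ⊢
      have ht0 : (0 : ℝ) < t := by
        have : (z : ℝ) ≤ t := by exact_mod_cast h1
        linarith
      have h5 := h l t hl (by omega) (hlz.trans h1)
      calc ∑ p ∈ (Ioc t (2 * t)).filter (fun p => p.Prime ∧ p % l = 1), (1 : ℝ) / p
          ≤ ∑ p ∈ (Ioc t (2 * t)).filter (fun p => p.Prime ∧ p % l = 1), (1 : ℝ) / t := by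
            refine Finset.sum_le_sum fun p hp => ?_
            rw [mem_filter, mem_Ioc] at hp
            apply one_div_le_one_div_of_le ht0
            exact_mod_cast hp.1.1.le
        _ = (((Ioc t (2 * t)).filter (fun p => p.Prime ∧ p % l = 1)).card : ℝ) * (1 / t) := by
            rw [Finset.sum_const, nsmul_eq_mul]
        _ ≤ C * t / (l * Real.log t) * (1 / t) := mul_le_mul_of_nonneg_right h5 (by positivity)
        _ = C / l * (1 / Real.log t) := by
            have : (t : ℝ) ≠ 0 := ht0.ne'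
            field_simp
  obtain ⟨K, hK⟩ : ∃ K, K = Nat.log 2 (x / z) := ⟨_, rfl⟩
  have hz0 : 0 < z := by omega
  have hxz : x / z ≠ 0 := (Nat.div_pos hzx hz0).ne'
  have hK1 : 2 ^ K * z ≤ x := by
    have h1 : 2 ^ K ≤ x / z := by rw [hK]; exact Nat.pow_log_le_self 2 hxz
    exact (Nat.mul_le_mul_right z h1).trans (Nat.div_mul_le_self x z)
  have hK2 : x < 2 ^ (K + 1) * z := by
    have h1 : x / z < 2 ^ (K + 1) := by rw [hK]; exact Nat.lt_pow_succ_log_self (by norm_num) _
    exact (Nat.div_lt_iff_lt_mul hz0).1 h1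
  have h1 : ∑ p ∈ (prs x).filter (fun p => z < p ∧ p % l = 1), (1 : ℝ) / p ≤
      ∑ p ∈ (Ioc z (2 ^ (K + 1) * z)).filter (fun p => p.Prime ∧ p % l = 1), (1 : ℝ) / p := by
    refine Finset.sum_le_sum_of_subset_of_nonneg ?_ fun p _ _ => by positivity
    intro p hp
    rw [mem_filter, mem_prs] at hp
    rw [mem_filter, mem_Ioc]
    exact ⟨⟨hp.2.1, by omega⟩, hp.1.1, hp.2.2⟩
  have h2 := hmain (K + 1)
  have h3 := bt_dyad z hz K
  have hlz1 : 1 ≤ Real.log z := MertAux.log_ge z hz
  have hle : Real.log (Real.log ((2 ^ K * z : ℕ) : ℝ)) ≤ Real.log (Real.log x) := by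
    have h4 : z ≤ 2 ^ K * z := Nat.le_mul_of_pos_left z Nat.one_le_two_pow
    have h5 : (z : ℝ) ≤ ((2 ^ K * z : ℕ) : ℝ) := by exact_mod_cast h4
    have h6 : Real.log z ≤ Real.log ((2 ^ K * z : ℕ) : ℝ) := Real.log_le_log (by linarith) h5
    apply Real.log_le_log (by linarith)
    apply Real.log_le_log (by linarith)
    exact_mod_cast hK1
  have hll : 1 ≤ 1 / Real.log 2 := by
    rw [le_div_iff₀ hl2, one_mul]
    have := Real.log_two_lt_d9
    linarith
  have h4 : 1 + 1 / Real.log 2 * (Real.log (Real.log ((2 ^ K * z : ℕ) : ℝ)) - Real.log (Real.log z)) ≤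
      1 / Real.log 2 * (Real.log (Real.log x) - Real.log (Real.log z) + 1) := by
    have h5 : 1 / Real.log 2 * (Real.log (Real.log ((2 ^ K * z : ℕ) : ℝ)) - Real.log (Real.log z)) ≤
        1 / Real.log 2 * (Real.log (Real.log x) - Real.log (Real.log z)) :=
      mul_le_mul_of_nonneg_left (by linarith) (by positivity)
    rw [mul_add, mul_one]
    linarith
  calc ∑ p ∈ (prs x).filter (fun p => z < p ∧ p % l = 1), (1 : ℝ) / p
      ≤ C / l * ∑ j ∈ range (K + 1), 1 / Real.log ((2 ^ j * z : ℕ) : ℝ) := h1.trans h2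
    _ ≤ C / l * (1 / Real.log 2 * (Real.log (Real.log x) - Real.log (Real.log z) + 1)) :=
        mul_le_mul_of_nonneg_left (h3.trans h4) (by positivity)
    _ = C / Real.log 2 / l * (Real.log (Real.log x) - Real.log (Real.log z) + 1) := by
        field_simp

/-- Chebyshev: number of primes in `[1, t]` -/
theorem cheb_pi : ∃ C : ℝ, 0 < C ∧ ∀ t : ℕ, 2 ≤ t → ((prs t).card : ℝ) ≤ C * t / Real.log t := by
  have h4 : 0 < Real.log 4 := Real.log_pos (by norm_num)
  refine ⟨2 + 2 * Real.log 4, by positivity, fun t ht => ?_⟩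
  have ht2 : (2 : ℝ) ≤ t := by exact_mod_cast ht
  have hlog : 0 < Real.log t := Real.log_pos (by linarith)
  obtain ⟨s, hs⟩ : ∃ s, s = Nat.sqrt t := ⟨_, rfl⟩
  have hs1 : s * s ≤ t := by rw [hs]; exact Nat.sqrt_le t
  have hs2 : t < (s + 1) * (s + 1) := by rw [hs]; exact Nat.lt_succ_sqrt t
  rw [le_div_iff₀ hlog]
  have hsplit : (prs t).card ≤ s + ((prs t).filter (fun p => s < p)).card := by
    have h1 : prs t ⊆ Icc 1 s ∪ (prs t).filter (fun p => s < p) := by
      intro p hp
      rw [mem_union, mem_filter, mem_Icc]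
      rcases Nat.lt_or_ge s p with h | h
      · exact Or.inr ⟨hp, h⟩
      · exact Or.inl ⟨(mem_prs.1 hp).1.one_le, h⟩
    refine (Finset.card_le_card h1).trans ((Finset.card_union_le _ _).trans ?_)
    rw [Nat.card_Icc, Nat.add_sub_cancel]
  have hbig : (((prs t).filter (fun p => s < p)).card : ℝ) * (Real.log t / 2) ≤ Real.log 4 * t := by
    have h1 := Chebyshev.theta_le_log4_mul_x (show (0 : ℝ) ≤ t by positivity)
    rw [Chebyshev.theta, Nat.floor_natCast] at h1
    refine le_trans ?_ h1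
    have h2 : (((prs t).filter (fun p => s < p)).card : ℝ) * (Real.log t / 2) =
        ∑ p ∈ (prs t).filter (fun p => s < p), Real.log t / 2 := by
      rw [Finset.sum_const, nsmul_eq_mul]
    rw [h2]
    calc ∑ p ∈ (prs t).filter (fun p => s < p), Real.log t / 2
        ≤ ∑ p ∈ (prs t).filter (fun p => s < p), Real.log p := by
          refine Finset.sum_le_sum fun p hp => ?_
          rw [mem_filter] at hp
          have h3 : t ≤ p * p := by
            have : (s + 1) * (s + 1) ≤ p * p := Nat.mul_le_mul hp.2 hp.2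
            omega
          have h4 : (t : ℝ) ≤ (p : ℝ) * p := by exact_mod_cast h3
          have hp0 : (0 : ℝ) < p := by exact_mod_cast (mem_prs.1 hp.1).1.pos
          have h5 := Real.log_le_log (by linarith) h4
          rw [Real.log_mul hp0.ne' hp0.ne'] at h5
          linarith
      _ ≤ ∑ p ∈ (Ioc 0 t).filter Nat.Prime, Real.log p := by
          refine Finset.sum_le_sum_of_subset_of_nonneg ?_ fun p _ _ => Real.log_natCast_nonneg p
          intro p hp
          rw [mem_filter, mem_prs] at hp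
          rw [mem_filter, mem_Ioc]
          exact ⟨⟨hp.1.1.pos, hp.1.2⟩, hp.1.1⟩
  have hsm : (s : ℝ) * Real.log t ≤ 2 * t := by
    have h1 : (s : ℝ) ≤ Real.sqrt t := by
      apply Real.le_sqrt_of_sq_le
      have : ((s * s : ℕ) : ℝ) ≤ t := by exact_mod_cast hs1
      push_cast at this
      nlinarith
    have h2 : Real.log t ≤ 2 * Real.sqrt t := by
      have h3 : Real.log (Real.sqrt t) = Real.log t / 2 := Real.log_sqrt (by linarith)
      have h4 := Real.log_le_sub_one_of_pos (Real.sqrt_pos.2 (show (0 : ℝ) < t by linarith))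
      linarith
    have h3 : (s : ℝ) * Real.log t ≤ Real.sqrt t * (2 * Real.sqrt t) :=
      mul_le_mul h1 h2 hlog.le (Real.sqrt_nonneg _)
    have h4 : Real.sqrt t * (2 * Real.sqrt t) = 2 * t := by
      have := Real.mul_self_sqrt (show (0 : ℝ) ≤ t by linarith)
      nlinarith
    linarith
  have h5 : ((prs t).card : ℝ) ≤ s + (((prs t).filter (fun p => s < p)).card : ℝ) := by
    exact_mod_cast hsplit
  have h6 := mul_le_mul_of_nonneg_right h5 hlog.le
  nlinarith

end Pool.Agent.Wal
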