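import Pool.Agent.Lib.MP_6498db_nt.L.ArC

/-! WALSH, Theorem 3, row Ch: removing the prime factors of `n` in increasing order. -/

set_option autoImplicit false

namespace Pool.Agent.Wal

open Finset

/-- `m` fits no prime exponent -/
def NE (m : ℕ) : Prop := ∀ l a b : ℕ, l.Prime → 5 ≤ l → a * b = m → ¬ FitL 1 l a b ∧ ¬ FitL l l a b

/-- `n = N Q`, all primes of `Q` are at most all primes of `N` -/
def Seg (n N Q : ℕ) : Prop := N * Q = n ∧ ∀ p q : ℕ, p.Prime → q.Prime → p ∣ Q → q ∣ N → p ≤ q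

private theorem ch_sq_cancel {u z : ℤ} (hz : z ≠ 0) (h : IsSquare (z ^ 2 * u)) : IsSquare u := by
  obtain ⟨y, hy⟩ := h
  have h1 : z ^ 2 ∣ y ^ 2 := ⟨u, by rw [hy]; ring⟩
  obtain ⟨t, rfl⟩ := (Int.pow_dvd_pow_iff (by norm_num)).1 h1
  refine ⟨t, ?_⟩
  have h2 : z ^ 2 * u = z ^ 2 * (t * t) := by rw [hy]; ring
  exact mul_left_cancel₀ (pow_ne_zero 2 hz) h2

private theorem ch_sqf {u : ℤ} {M : ℕ} (hM : Squarefree M) (hu : 0 < u)
    (h : IsSquare (u * M)) : ∃ k : ℕ, k ≠ 0 ∧ u = M * (k : ℤ) ^ 2 := by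
  obtain ⟨y, hy⟩ := h
  have h1 : (M : ℤ) ∣ y ^ 2 := ⟨u, by rw [pow_two, ← hy]; ring⟩
  have h2 : (M : ℤ) ∣ y := by
    have h3 : M ∣ y.natAbs ^ 2 := by
      rw [← Int.natAbs_pow]
      exact Int.natCast_dvd.1 h1
    exact Int.natCast_dvd.2 ((hM.dvd_pow_iff_dvd (by norm_num)).1 h3)
  obtain ⟨t, rfl⟩ := h2
  have hM0 : (M : ℤ) ≠ 0 := by exact_mod_cast hM.ne_zero
  have h4 : u = M * t ^ 2 := by
    have h5 : (M : ℤ) * u = M * (M * t ^ 2) := by
      rw [mul_comm, hy]
      ring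
    exact mul_left_cancel₀ hM0 h5
  refine ⟨t.natAbs, ?_, ?_⟩
  · intro h6
    rw [Int.natAbs_eq_zero] at h6
    rw [h4, h6] at hu
    simp at hu
  · rw [h4, Int.natCast_natAbs, sq_abs]

private theorem ch_pow_eps {ε : ℤ} (hε : ε = 1 ∨ ε = -1) {N : ℕ} (hN : Odd N) : ε ^ N = ε := by
  rcases hε with rfl | rfl
  · exact one_pow N
  · exact hN.neg_one_pow

private theorem ch_mul_eps {ε : ℤ} (hε : ε = 1 ∨ ε = -1) : ε * ε = 1 := by
  rcases hε with rfl | rfl <;> norm_num

private theorem ch_dvd_pow {ε : ℤ} (hε : ε = 1 ∨ ε = -1) {N : ℕ} (hN : Odd N) {x p : ℤ}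
    (h : p ∣ x - ε) : p ∣ x ^ N - ε := by
  have h1 := sub_dvd_pow_sub_pow x ε N
  rw [ch_pow_eps hε hN] at h1
  exact h.trans h1

private theorem ch_order {ε : ℤ} (hε : ε = 1 ∨ ε = -1) {N l : ℕ} (hN : Odd N) (hl : l.Prime)
    (hc : Nat.Coprime N (l - 1)) {x : ℤ} (h : (l : ℤ) ∣ x ^ N - ε) : (l : ℤ) ∣ x - ε := by
  haveI : Fact l.Prime := ⟨hl⟩
  have h1 : ((ε * x : ℤ) : ZMod l) ^ N = 1 := by
    have h2 : (l : ℤ) ∣ (ε * x) ^ N - 1 := by
      have e : (ε * x) ^ N - 1 = ε * (x ^ N - ε) := by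
        rw [mul_pow, ch_pow_eps hε hN, mul_sub, ch_mul_eps hε]
      rw [e]
      exact h.mul_left _
    have h3 := (ZMod.intCast_zmod_eq_zero_iff_dvd _ l).2 h2
    push_cast at h3 ⊢
    exact sub_eq_zero.1 h3
  have h0 : ((ε * x : ℤ) : ZMod l) ≠ 0 := by
    intro h2
    rw [h2, zero_pow hN.pos.ne'] at h1
    exact zero_ne_one h1
  have h4 : ((ε * x : ℤ) : ZMod l) ^ (l - 1) = 1 := ZMod.pow_card_sub_one_eq_one h0
  have h5 : ((ε * x : ℤ) : ZMod l) = 1 := by
    have h6 : orderOf ((ε * x : ℤ) : ZMod l) ∣ 1 := by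
      rw [← hc.gcd_eq_one]
      exact Nat.dvd_gcd (orderOf_dvd_of_pow_eq_one h1) (orderOf_dvd_of_pow_eq_one h4)
    exact orderOf_eq_one_iff.1 (Nat.dvd_one.1 h6)
  have h7 : (l : ℤ) ∣ ε * x - 1 := by
    rw [← ZMod.intCast_zmod_eq_zero_iff_dvd]
    rw [Int.cast_sub, h5, Int.cast_one, sub_self]
  have e : x - ε = ε * (ε * x - 1) := by
    rw [mul_sub, ← mul_assoc, ch_mul_eps hε]
    ring
  rw [e]
  exact h7.mul_left _

/-- Proof by strong induction on `Q`. `Q = 1`: `(x^n - ε) m = (m k)^2`. `Q > 1`: let `l` be the largest prime of `Q`,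
`Q = Q₀ l`; `Seg n (N l) Q₀`, so by induction `(x^(N l) - ε) Q₀ m` is a square and `p ∣ x - ε` for the primes `p ∣ Q₀`.
Let `M` be the squarefree part of `Q₀ m` (`Q₀ m = M t^2`); then `x^(N l) - ε = M k'^2` (`M` squarefree, `u M` a square), i.e.
`|w^l - 1| = M k'^2` with `w = ε x^N` (`l` odd). `l ≥ 7`. Apply `arithC`.
(1) `Ag l w = l z^2`: `x^(N l) - ε = l z^2 (x^N - ε)` (`Ag_mul`), so `(x^N - ε) l Q₀ m` is a square. And `l ∣ Ag l w`, so
`l ∣ w - 1` (`Ag_not_dvd`), `w = (ε x)^N` (`N` odd), all prime factors of `N` are `≥ l` so `gcd(N, l - 1) = 1` and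
`ε x ≡ 1` mod `l` (the order of `ε x` in `(ZMod l)ˣ` divides `N` and `l - 1`): `l ∣ x - ε`.
(2) otherwise `c, a, b`, `a b = M`: the primes of `b` are `1` mod `l`, so `> l`, so `b` is prime to `Q₀`; `b ∣ M ∣ Q₀ m`, so
`b ∣ m`, `m = a'' b`. Claim `FitL c l a'' b` (contradiction with `NE m`): let `p` be an odd prime with `p ∣ a''`. If `p ∣ a`:
`p ∣ w - 1`. If `p ∤ a`: `p ∤ b` (`m` squarefree), `p ∤ M`, the exponent of `p` in `Q₀ m` is even and in `m` is 1, so
`p ∣ Q₀`, `p ∣ x - ε`, so `p ∣ w - 1` (`w = (ε x)^N`). In both cases `(c b / p) = 1`. -/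
theorem chain (m : ℕ) (hm : Squarefree m) (hNE : NE m) (x n k : ℕ) (ε : ℤ) (hx : 1 < x)
    (hn : n.Coprime 30) (hk : 0 < k) (hε : ε = 1 ∨ ε = -1) (h : (x : ℤ) ^ n - ε = m * (k : ℤ) ^ 2) :
    ∀ Q N : ℕ, Seg n N Q → IsSquare (((x : ℤ) ^ N - ε) * Q * m) ∧
      ∀ p : ℕ, p.Prime → p ∣ Q → (p : ℤ) ∣ (x : ℤ) - ε := by
  have hn0 : n ≠ 0 := by
    rintro rfl
    norm_num at hn
  intro Q
  induction Q using Nat.strong_induction_on with
  | _ Q ih =>
  intro N hS
  obtain ⟨hNQ, hpq⟩ := hS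
  have hN0 : N ≠ 0 := by
    rintro rfl
    exact hn0 (by rw [← hNQ, zero_mul])
  have hQ0 : Q ≠ 0 := by
    rintro rfl
    exact hn0 (by rw [← hNQ, mul_zero])
  have hNd : N ∣ n := ⟨Q, hNQ.symm⟩
  have hNo : Odd N := by
    rw [← Nat.not_even_iff_odd]
    intro he
    have h2 : 2 ∣ Nat.gcd n 30 := Nat.dvd_gcd (he.two_dvd.trans hNd) (by norm_num)
    rw [hn.gcd_eq_one] at h2
    omega
  have hx2 : (2 : ℤ) ≤ x := by exact_mod_cast hx
  have hpos : ∀ j : ℕ, j ≠ 0 → (0 : ℤ) < (x : ℤ) ^ j - ε := by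
    intro j hj
    have h1 : (x : ℤ) ^ 1 ≤ (x : ℤ) ^ j := pow_le_pow_right₀ (by linarith) (Nat.one_le_iff_ne_zero.2 hj)
    rw [pow_one] at h1
    rcases hε with rfl | rfl <;> linarith
  rcases Nat.lt_or_ge 1 Q with hQ1 | hQ1
  swap
  · have hQ : Q = 1 := by omega
    subst hQ
    rw [mul_one] at hNQ
    subst hNQ
    refine ⟨⟨m * k, ?_⟩, fun p hp hp1 => absurd (Nat.dvd_one.1 hp1) hp.one_lt.ne'⟩
    rw [h]
    push_cast
    ring
  · -- the largest prime of `Q`
    obtain ⟨l, hlQ, hlmax⟩ : ∃ l ∈ Q.primeFactors, ∀ p ∈ Q.primeFactors, p ≤ l :=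
      Finset.exists_max_image Q.primeFactors id (Nat.nonempty_primeFactors.2 hQ1)
    have hl : l.Prime := Nat.prime_of_mem_primeFactors hlQ
    obtain ⟨Q₀, hQ₀⟩ : l ∣ Q := Nat.dvd_of_mem_primeFactors hlQ
    have hln : l ∣ n := (Dvd.intro _ hQ₀.symm).trans ⟨N, by rw [← hNQ, mul_comm]⟩
    have hQ₀0 : Q₀ ≠ 0 := by
      rintro rfl
      exact hQ0 (by rw [hQ₀, mul_zero])
    have hl30 : ¬ l ∣ 30 := by
      intro h30
      have h2 := Nat.dvd_gcd hln h30
      rw [hn.gcd_eq_one] at h2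
      exact hl.one_lt.ne' (Nat.dvd_one.1 h2)
    have hl7 : 7 ≤ l := by
      by_contra hlt
      push Not at hlt
      have h2 := hl.two_le
      interval_cases l
      · exact hl30 (by norm_num)
      · exact hl30 (by norm_num)
      · exact absurd hl (by norm_num)
      · exact hl30 (by norm_num)
      · exact absurd hl (by norm_num)
    have hlo : Odd l := hl.odd_of_ne_two (by omega)
    have hmaxQ₀ : ∀ p : ℕ, p.Prime → p ∣ Q₀ → p ≤ l := by
      intro p hp hpQ
      refine hlmax p (Nat.mem_primeFactors.2 ⟨hp, ?_, hQ0⟩)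
      rw [hQ₀]
      exact hpQ.mul_left _
    have hSeg : Seg n (N * l) Q₀ := by
      refine ⟨by rw [← hNQ, hQ₀]; ring, ?_⟩
      intro p q hp hq hpQ hqN
      rcases (Nat.Prime.dvd_mul hq).1 hqN with h1 | h1
      · refine hpq p q hp hq ?_ h1
        rw [hQ₀]
        exact hpQ.mul_left _
      · rw [(Nat.prime_dvd_prime_iff_eq hq hl).1 h1]
        exact hmaxQ₀ p hp hpQ
    have hQlt : Q₀ < Q := by
      rw [hQ₀]
      have : 1 * Q₀ < l * Q₀ := Nat.mul_lt_mul_of_pos_right hl.one_lt (Nat.pos_of_ne_zero hQ₀0)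
      rwa [one_mul] at this
    obtain ⟨hsq, hdv⟩ := ih Q₀ hQlt (N * l) hSeg
    -- the squarefree part
    obtain ⟨M, t, htM, hM⟩ := Nat.sq_mul_squarefree (Q₀ * m)
    have hm0 : m ≠ 0 := hm.ne_zero
    have ht0 : t ≠ 0 := by
      rintro rfl
      have : Q₀ * m = 0 := by rw [← htM]; ring
      rcases Nat.mul_eq_zero.1 this with h1 | h1
      · exact hQ₀0 h1
      · exact hm0 h1
    have hNl0 : N * l ≠ 0 := Nat.mul_ne_zero hN0 hl.ne_zero
    obtain ⟨k', hk'0, hk'⟩ : ∃ k' : ℕ, k' ≠ 0 ∧ (x : ℤ) ^ (N * l) - ε = M * (k' : ℤ) ^ 2 := by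
      refine ch_sqf hM (hpos _ hNl0) ?_
      refine ch_sq_cancel (z := (t : ℤ)) (by exact_mod_cast ht0) ?_
      have e : (t : ℤ) ^ 2 * (((x : ℤ) ^ (N * l) - ε) * M) = ((x : ℤ) ^ (N * l) - ε) * Q₀ * m := by
        have h1 : ((t ^ 2 * M : ℕ) : ℤ) = ((Q₀ * m : ℕ) : ℤ) := by rw [htM]
        push_cast at h1
        linear_combination ((x : ℤ) ^ (N * l) - ε) * h1
      rw [e]
      exact hsq
    obtain ⟨w, hw⟩ : ∃ w : ℤ, w = ε * (x : ℤ) ^ N := ⟨_, rfl⟩
    have hw1 : w - 1 = ε * ((x : ℤ) ^ N - ε) := by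
      rw [hw, mul_sub, ch_mul_eps hε]
    have hwl : w ^ l - 1 = ε * ((x : ℤ) ^ (N * l) - ε) := by
      rw [hw, mul_pow, ch_pow_eps hε hlo, ← pow_mul, mul_sub, ch_mul_eps hε]
    have habs : |ε| = 1 := by
      rcases hε with rfl | rfl <;> norm_num
    have hwabs : 2 ≤ |w| := by
      rw [hw, abs_mul, habs, one_mul, abs_of_pos (by positivity)]
      have h1 : (x : ℤ) ^ 1 ≤ (x : ℤ) ^ N := pow_le_pow_right₀ (by linarith)
        (Nat.one_le_iff_ne_zero.2 hN0)
      rw [pow_one] at h1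
      linarith
    have habsl : |w ^ l - 1| = (M : ℤ) * (k' : ℤ) ^ 2 := by
      rw [hwl, abs_mul, habs, one_mul, abs_of_pos (hpos _ hNl0), hk']
    have hAg : Ag l w * ((x : ℤ) ^ N - ε) = (x : ℤ) ^ (N * l) - ε := by
      have h1 := Ag_mul l w
      rw [hw1, hwl] at h1
      have h2 : ε * (Ag l w * ((x : ℤ) ^ N - ε)) = ε * ((x : ℤ) ^ (N * l) - ε) := by
        linear_combination h1
      have hε0 : ε ≠ 0 := by
        rcases hε with rfl | rfl <;> norm_num
      exact mul_left_cancel₀ hε0 h2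
    rcases arithC l hl hl7 M hM w hwabs k' hk'0 habsl with ⟨z, hz⟩ | ⟨c, a, b, hc, hab, hb1, hbo,
      hbq, haw, hjac⟩
    · -- first alternative
      have hz0 : z ≠ 0 := by
        rintro rfl
        have := Ag_pos l hlo w
        rw [hz] at this
        simp at this
      refine ⟨?_, ?_⟩
      · refine ch_sq_cancel hz0 ?_
        have e : z ^ 2 * (((x : ℤ) ^ N - ε) * Q * m) = ((x : ℤ) ^ (N * l) - ε) * Q₀ * m := by
          rw [← hAg, hz, hQ₀]
          push_cast
          ring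
        rw [e]
        exact hsq
      · intro p hp hpQ
        rw [hQ₀] at hpQ
        rcases (Nat.Prime.dvd_mul hp).1 hpQ with h1 | h1
        · rw [(Nat.prime_dvd_prime_iff_eq hp hl).1 h1]
          have h2 : (l : ℤ) ∣ w - 1 := by
            by_contra h3
            exact Ag_not_dvd l hl w h3 (by rw [hz]; exact dvd_mul_right _ _)
          have h4 : (l : ℤ) ∣ (x : ℤ) ^ N - ε := by
            rw [hw1] at h2
            have e : (x : ℤ) ^ N - ε = ε * (ε * ((x : ℤ) ^ N - ε)) := by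
              rw [← mul_assoc, ch_mul_eps hε, one_mul]
            rw [e]
            exact h2.mul_left _
          refine ch_order hε hNo hl ?_ h4
          rw [Nat.coprime_iff_gcd_eq_one]
          by_contra hg
          obtain ⟨q, hq, hqg⟩ := Nat.exists_prime_and_dvd hg
          have h5 : l ≤ q := hpq l q hl hq (Dvd.intro _ hQ₀.symm) (hqg.trans (Nat.gcd_dvd_left _ _))
          have h6 : q ≤ l - 1 := Nat.le_of_dvd (by omega) (hqg.trans (Nat.gcd_dvd_right _ _))
          omega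
        · exact hdv p hp h1
    · -- second alternative
      exfalso
      have hbQ : Nat.Coprime b Q₀ := by
        rw [Nat.coprime_iff_gcd_eq_one]
        by_contra hg
        obtain ⟨q, hq, hqg⟩ := Nat.exists_prime_and_dvd hg
        have h1 := hbq q hq (hqg.trans (Nat.gcd_dvd_left _ _))
        have h2 := hmaxQ₀ q hq (hqg.trans (Nat.gcd_dvd_right _ _))
        have h3 := hq.two_le
        rcases Nat.lt_or_ge q l with h4 | h4
        · rw [Nat.mod_eq_of_lt h4] at h1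
          omega
        · have h5 : q = l := le_antisymm h2 h4
          rw [h5, Nat.mod_self] at h1
          omega
      have hbm : b ∣ m := by
        refine hbQ.dvd_of_dvd_mul_left ?_
        rw [← htM, ← hab]
        exact (Dvd.intro_left a rfl).mul_left _
      obtain ⟨a', ha'⟩ := hbm
      have ha'b : a' * b = m := by rw [ha', mul_comm]
      have hcop : Nat.Coprime b a' := by
        rw [ha'] at hm
        exact Nat.coprime_of_squarefree_mul hm
      have hfit : FitL c l a' b := by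
        refine ⟨hb1, hbo, hbq, fun p hp hp2 hpa => hjac p hp hp2 ?_⟩
        by_cases hpa' : p ∣ a
        · exact haw p hp hpa'
        · have hpb : ¬ p ∣ b := by
            intro h1
            have h2 := Nat.dvd_gcd h1 hpa
            rw [hcop.gcd_eq_one] at h2
            exact hp.one_lt.ne' (Nat.dvd_one.1 h2)
          have hpM : ¬ p ∣ M := by
            rw [← hab]
            intro h1
            rcases (Nat.Prime.dvd_mul hp).1 h1 with h2 | h2
            · exact hpa' h2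
            · exact hpb h2
          have hpm : p ∣ m := hpa.trans (Dvd.intro _ ha'b)
          have hpt : p ∣ t := by
            have h1 : p ∣ t ^ 2 * M := by
              rw [htM]
              exact hpm.mul_left _
            rcases (Nat.Prime.dvd_mul hp).1 h1 with h2 | h2
            · exact hp.dvd_of_dvd_pow h2
            · exact absurd h2 hpM
          have hpQ : p ∣ Q₀ := by
            by_contra h1
            have h2 : p * p ∣ Q₀ * m := by
              rw [← htM, pow_two]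
              exact (Nat.mul_dvd_mul hpt hpt).mul_right _
            have h3 : Nat.Coprime (p * p) Q₀ := by
              have h4 : Nat.Coprime p Q₀ := (Nat.Prime.coprime_iff_not_dvd hp).2 h1
              exact Nat.Coprime.mul_left h4 h4
            have h4 := h3.dvd_of_dvd_mul_left h2
            have h5 := hm p h4
            exact hp.one_lt.ne' (Nat.isUnit_iff.1 h5)
          have h1 := ch_dvd_pow hε hNo (hdv p hp hpQ)
          rw [hw1]
          exact h1.mul_left _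
      obtain ⟨h1, h2⟩ := hNE l a' b hl (by omega) ha'b
      rcases hc with rfl | rfl
      · exact h1 hfit
      · exact h2 hfit

end Pool.Agent.Wal
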