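import Pool.Agent.Lib.MP_6498db_nt.L.Ch

/-! WALSH, Theorem 3, row ChB: consequences of the chain. -/

set_option autoImplicit false

namespace Pool.Agent.Wal

open Finset

private theorem chB_split (l : ℕ) (n : ℕ) : n ≠ 0 → ∃ N Q : ℕ, N * Q = n ∧
    (∀ p : ℕ, p.Prime → p ∣ Q → p < l) ∧ (∀ q : ℕ, q.Prime → q ∣ N → l ≤ q) := by
  induction n using Nat.recOnMul with
  | zero => intro h; exact absurd rfl h
  | one =>
    intro _
    refine ⟨1, 1, rfl, ?_, ?_⟩
    · intro p hp hd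
      exact absurd (Nat.dvd_one.1 hd) hp.one_lt.ne'
    · intro p hp hd
      exact absurd (Nat.dvd_one.1 hd) hp.one_lt.ne'
  | prime r hr =>
    intro _
    by_cases hrl : r < l
    · refine ⟨1, r, one_mul _, ?_, ?_⟩
      · intro p hp hd
        rwa [(Nat.prime_dvd_prime_iff_eq hp hr).1 hd]
      · intro p hp hd
        exact absurd (Nat.dvd_one.1 hd) hp.one_lt.ne'
    · refine ⟨r, 1, mul_one _, ?_, ?_⟩
      · intro p hp hd
        exact absurd (Nat.dvd_one.1 hd) hp.one_lt.ne'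
      · intro p hp hd
        rw [(Nat.prime_dvd_prime_iff_eq hp hr).1 hd]
        exact not_lt.1 hrl
  | mul a b iha ihb =>
    intro h
    obtain ⟨ha, hb⟩ := mul_ne_zero_iff.1 h
    obtain ⟨N, Q, h1, h2, h3⟩ := iha ha
    obtain ⟨N', Q', h1', h2', h3'⟩ := ihb hb
    refine ⟨N * N', Q * Q', ?_, ?_, ?_⟩
    · rw [← h1, ← h1']; ring
    · intro p hp hd
      rcases hp.dvd_mul.1 hd with h | h
      · exact h2 p hp h
      · exact h2' p hp h
    · intro p hp hd
      rcases hp.dvd_mul.1 hd with h | h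
      · exact h3 p hp h
      · exact h3' p hp h

private theorem chB_sq (a c : ℤ) (hc : c ≠ 0) (h : IsSquare (a * c ^ 2)) : IsSquare a := by
  obtain ⟨r, hr⟩ := h
  have h1 : c ^ 2 ∣ r ^ 2 := ⟨a, by rw [sq r, ← hr, mul_comm]⟩
  obtain ⟨t, rfl⟩ := (Int.pow_dvd_pow_iff (two_ne_zero)).1 h1
  refine ⟨t, ?_⟩
  have h2 : c ^ 2 ≠ 0 := pow_ne_zero 2 hc
  apply mul_right_cancel₀ h2
  rw [hr]
  ring

private theorem chB_mul {a b : ℤ} (ha : IsSquare a) (hb : IsSquare b) : IsSquare (a * b) :=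
  ha.mul hb

private theorem chB_n0 {n : ℕ} (hn : n.Coprime 30) : n ≠ 0 := by
  rintro rfl
  simp at hn

private theorem chB_prime {n l : ℕ} (hn : n.Coprime 30) (hl : l.Prime) (h : l ∣ n) : 7 ≤ l := by
  have h1 : l.Coprime 30 := Nat.Coprime.coprime_dvd_left h hn
  by_contra hlt
  push Not at hlt
  have h2 := hl.two_le
  interval_cases l
  · revert h1; decide
  · revert h1; decide
  · revert hl; decide
  · revert h1; decide
  · revert hl; decide

private theorem chB_odd {n : ℕ} (hn : n.Coprime 30) : Odd n := by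
  rcases Nat.even_or_odd n with h | h
  · exfalso
    have h2 : Nat.Coprime 2 30 := Nat.Coprime.coprime_dvd_left h.two_dvd hn
    revert h2; decide
  · exact h

private theorem chB_eps {ε : ℤ} (hε : ε = 1 ∨ ε = -1) : ε * ε = 1 := by
  rcases hε with rfl | rfl <;> norm_num

private theorem chB_pow {ε : ℤ} (hε : ε = 1 ∨ ε = -1) {r : ℕ} (hr : Odd r) : ε ^ r = ε := by
  rcases hε with rfl | rfl
  · exact one_pow r
  · exact hr.neg_one_pow

/-- Proof. Suppose `l^2 ∣ n`, `l` prime. Let `N` be the part of `n` with prime factors `≥ l`, `Q = n / N`: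
`Seg n N Q`, `Seg n (N/l^2) (Q l^2)`. By `chain` `(x^N - ε) Q m` and `(x^(N/l^2) - ε) Q l^2 m` are squares, so
`(x^N - ε)(x^(N/l^2) - ε)` is a square; with `w = ε x^(N/l^2)`, `|w| ≥ 2`: `w^(l^2) - 1 = (w - 1) z^2` for some `z`,
contradiction with `nl_sq` (`l^2 ≠ 5`). -/
theorem chain_sqf (m : ℕ) (hm : Squarefree m) (hNE : NE m) (x n k : ℕ) (ε : ℤ) (hx : 1 < x)
    (hn : n.Coprime 30) (hk : 0 < k) (hε : ε = 1 ∨ ε = -1) (h : (x : ℤ) ^ n - ε = m * (k : ℤ) ^ 2) :
    Squarefree n := by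
  rw [Nat.squarefree_iff_prime_squarefree]
  intro l hl hll
  have hn0 : n ≠ 0 := chB_n0 hn
  have h7 : 7 ≤ l := chB_prime hn hl ((dvd_mul_left l l).trans hll)
  obtain ⟨N, Q, hNQ, hQ, hN⟩ := chB_split l n hn0
  have hlQ : Nat.Coprime l Q := by
    rw [hl.coprime_iff_not_dvd]
    intro hd
    exact lt_irrefl _ (hQ l hl hd)
  have hlN : l * l ∣ N := by
    rw [← hNQ] at hll
    exact (Nat.Coprime.mul_left hlQ hlQ).dvd_of_dvd_mul_right hll
  obtain ⟨N', rfl⟩ := hlN
  have hN'0 : N' ≠ 0 := by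
    rintro rfl
    apply hn0
    rw [← hNQ]
    ring
  have hS1 : Seg n (l * l * N') Q := ⟨hNQ, fun p q hp hq h1 h2 => (hQ p hp h1).le.trans (hN q hq h2)⟩
  have hS2 : Seg n N' (Q * (l * l)) := by
    refine ⟨by rw [← hNQ]; ring, ?_⟩
    intro p q hp hq h1 h2
    have h3 : l ≤ q := hN q hq (h2.mul_left _)
    rcases hp.dvd_mul.1 h1 with h4 | h4
    · exact (hQ p hp h4).le.trans h3
    · have h5 : p = l := by
        rcases hp.dvd_mul.1 h4 with h6 | h6 <;> exact (Nat.prime_dvd_prime_iff_eq hp hl).1 h6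
      rw [h5]
      exact h3
  have c1 := (chain m hm hNE x n k ε hx hn hk hε h _ _ hS1).1
  have c2 := (chain m hm hNE x n k ε hx hn hk hε h _ _ hS2).1
  have hQ0 : Q ≠ 0 := by
    rintro rfl
    apply hn0
    rw [← hNQ]
    ring
  have hm0 : m ≠ 0 := hm.ne_zero
  have hl0 : l ≠ 0 := hl.ne_zero
  have c3 : IsSquare (((x : ℤ) ^ (l * l * N') - ε) * ((x : ℤ) ^ N' - ε)) := by
    have e : ((x : ℤ) ^ (l * l * N') - ε) * Q * m * (((x : ℤ) ^ N' - ε) * ((Q * (l * l) : ℕ) : ℤ) * m)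
        = ((x : ℤ) ^ (l * l * N') - ε) * ((x : ℤ) ^ N' - ε) * ((Q : ℤ) * l * m) ^ 2 := by
      push_cast
      ring
    have c4 := c1.mul c2
    rw [e] at c4
    refine chB_sq _ _ ?_ c4
    have : ((Q * l * m : ℕ) : ℤ) ≠ 0 := by
      exact_mod_cast mul_ne_zero (mul_ne_zero hQ0 hl0) hm0
    push_cast at this
    exact this
  have hee := chB_eps hε
  have hlodd : Odd (l * l) := by
    have : Odd l := hl.odd_of_ne_two (by omega)
    exact this.mul this
  set w : ℤ := ε * (x : ℤ) ^ N' with hw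
  have hw1 : w ^ (l * l) - 1 = ε * ((x : ℤ) ^ (l * l * N') - ε) := by
    rw [hw, mul_pow, chB_pow hε hlodd, ← pow_mul, mul_comm N' (l * l)]
    linear_combination hee
  have hw2 : w - 1 = ε * ((x : ℤ) ^ N' - ε) := by
    rw [hw]
    linear_combination hee
  have hx2 : (2 : ℤ) ≤ (x : ℤ) ^ N' := by
    have h1 : (2 : ℤ) ≤ x := by exact_mod_cast hx
    calc (2 : ℤ) ≤ x := h1
      _ = (x : ℤ) ^ 1 := (pow_one _).symm
      _ ≤ (x : ℤ) ^ N' := pow_le_pow_right₀ (by omega) (Nat.one_le_iff_ne_zero.2 hN'0)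
  have hwabs : 2 ≤ |w| := by
    rcases hε with h1 | h1
    · rw [hw, h1, one_mul]
      exact hx2.trans (le_abs_self _)
    · rw [hw, h1, neg_one_mul, abs_neg]
      exact hx2.trans (le_abs_self _)
  have hw0 : w - 1 ≠ 0 := by
    intro h0
    have : w = 1 := by omega
    rw [this] at hwabs
    norm_num at hwabs
  have hA : (w - 1) * Ag (l * l) w = w ^ (l * l) - 1 := by
    rw [mul_comm]; exact Ag_mul _ _
  have c5 : IsSquare (Ag (l * l) w) := by
    refine chB_sq _ (w - 1) hw0 ?_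
    have e : Ag (l * l) w * (w - 1) ^ 2 =
        ((x : ℤ) ^ (l * l * N') - ε) * ((x : ℤ) ^ N' - ε) := by
      have e1 : Ag (l * l) w * (w - 1) ^ 2 = (w ^ (l * l) - 1) * (w - 1) := by
        rw [← hA]; ring
      rw [e1, hw1, hw2]
      linear_combination (((x : ℤ) ^ (l * l * N') - ε) * ((x : ℤ) ^ N' - ε)) * hee
    rw [e]
    exact c3
  obtain ⟨z, hz⟩ := c5
  have h9 := nl_sq w z (l * l) hlodd (by nlinarith) hwabs (by rw [← hA, hz]; ring)
  have h10 : l * l = 5 := h9.2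
  nlinarith

/-- Proof. `chain` with `N = 1`, `Q = n`: `(x - ε) n m` is a square, and `(x^n - ε) m = (m k)^2`. So
`(x^n - ε)(x - ε) n` is a square; `x^n - ε = A (x - ε)` (`A` an integer), `A n` is a square, `n` squarefree, so
`A = n z^2`. -/
theorem chain_end (m : ℕ) (hm : Squarefree m) (hNE : NE m) (x n k : ℕ) (ε : ℤ) (hx : 1 < x)
    (hn : n.Coprime 30) (hk : 0 < k) (hε : ε = 1 ∨ ε = -1) (h : (x : ℤ) ^ n - ε = m * (k : ℤ) ^ 2) :
    ∃ z : ℤ, (x : ℤ) ^ n - ε = n * z ^ 2 * ((x : ℤ) - ε) := by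
  have hsq := chain_sqf m hm hNE x n k ε hx hn hk hε h
  have hS : Seg n 1 n := by
    refine ⟨one_mul _, ?_⟩
    intro p q _ hq _ h2
    exact absurd (Nat.dvd_one.1 h2) hq.one_lt.ne'
  have c1 := (chain m hm hNE x n k ε hx hn hk hε h _ _ hS).1
  rw [pow_one] at c1
  have hee := chB_eps hε
  have hodd := chB_odd hn
  have hxe : (x : ℤ) - ε ≠ 0 := by
    have h1 : (2 : ℤ) ≤ x := by exact_mod_cast hx
    rcases hε with h2 | h2 <;> rw [h2] <;> omega
  set A := Ag n (ε * x) with hA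
  have e1 : A * ((x : ℤ) - ε) = (x : ℤ) ^ n - ε := by
    have e2 := Ag_mul n (ε * x)
    rw [mul_pow, chB_pow hε hodd] at e2
    have e3 : A * ((x : ℤ) - ε) = ε * (A * (ε * x - 1)) := by
      linear_combination (-(A * x)) * hee
    rw [e3, hA, e2]
    linear_combination ((x : ℤ) ^ n) * hee
  have c2 : IsSquare ((n : ℤ) * A) := by
    refine chB_sq _ ((x : ℤ) - ε) hxe ?_
    have e : (n : ℤ) * A * ((x : ℤ) - ε) ^ 2 = ((x : ℤ) - ε) * n * m * ((k : ℤ) * k) := by
      have : (n : ℤ) * A * ((x : ℤ) - ε) ^ 2 = n * ((x : ℤ) - ε) * (A * ((x : ℤ) - ε)) := by ring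
      rw [this, e1, h]
      ring
    rw [e]
    exact c1.mul ⟨_, rfl⟩
  obtain ⟨t, ht⟩ := c2
  have hsqZ : Squarefree (n : ℤ) := Int.squarefree_natCast.2 hsq
  have hd : (n : ℤ) ∣ t := by
    have : (n : ℤ) ∣ t ^ 2 := ⟨A, by rw [ht]; ring⟩
    exact (hsqZ.dvd_pow_iff_dvd two_ne_zero).1 this
  obtain ⟨z, rfl⟩ := hd
  refine ⟨z, ?_⟩
  have hnZ : (n : ℤ) ≠ 0 := by exact_mod_cast chB_n0 hn
  have : A = n * z ^ 2 := by
    apply mul_left_cancel₀ hnZ
    rw [ht]
    ring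
  rw [← e1, this]

/-- Proof. `(x - ε) n m` is a square and `p ∣ x - ε` for all primes `p ∣ n`; `n`, `m` squarefree. A prime dividing only one of
`n`, `m` has odd exponent in `x - ε`; a prime dividing both has even exponent `≥ 1`, so `≥ 2`. -/
theorem chain_dvd (m : ℕ) (hm : Squarefree m) (hNE : NE m) (x n k : ℕ) (ε : ℤ) (hx : 1 < x)
    (hn : n.Coprime 30) (hk : 0 < k) (hε : ε = 1 ∨ ε = -1) (h : (x : ℤ) ^ n - ε = m * (k : ℤ) ^ 2) :
    ((n * m : ℕ) : ℤ) ∣ (x : ℤ) - ε := by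
  have hsq := chain_sqf m hm hNE x n k ε hx hn hk hε h
  have hS : Seg n 1 n := by
    refine ⟨one_mul _, ?_⟩
    intro p q _ hq _ h2
    exact absurd (Nat.dvd_one.1 h2) hq.one_lt.ne'
  obtain ⟨c1, c2⟩ := chain m hm hNE x n k ε hx hn hk hε h _ _ hS
  rw [pow_one] at c1
  obtain ⟨y, hy⟩ : ∃ y : ℕ, (y : ℤ) = (x : ℤ) - ε := by
    refine ⟨((x : ℤ) - ε).toNat, Int.toNat_of_nonneg ?_⟩
    have h1 : (2 : ℤ) ≤ x := by exact_mod_cast hx
    rcases hε with h2 | h2 <;> rw [h2] <;> omega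
  have hy0 : y ≠ 0 := by
    intro h0
    rw [h0] at hy
    have h1 : (2 : ℤ) ≤ x := by exact_mod_cast hx
    rcases hε with h2 | h2 <;> rw [h2] at hy <;> push_cast at hy <;> omega
  have hn0 := chB_n0 hn
  have hm0 : m ≠ 0 := hm.ne_zero
  rw [← hy] at c1 c2 ⊢
  have c3 : IsSquare (y * n * m) := by
    have : ((y * n * m : ℕ) : ℤ) = (y : ℤ) * n * m := by push_cast; ring
    rw [← this] at c1
    exact Int.isSquare_natCast_iff.1 c1
  obtain ⟨r, hr⟩ := c3
  have hr0 : r ≠ 0 := by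
    rintro rfl
    exact mul_ne_zero (mul_ne_zero hy0 hn0) hm0 (by simpa using hr)
  rw [Int.natCast_dvd_natCast, ← Nat.factorization_le_iff_dvd (mul_ne_zero hn0 hm0) hy0]
  intro p
  by_cases hp : p.Prime
  · have e1 : y.factorization p + n.factorization p + m.factorization p = 2 * r.factorization p := by
      have := congrArg (fun z : ℕ => z.factorization p) hr
      beta_reduce at this
      rw [Nat.factorization_mul (mul_ne_zero hy0 hn0) hm0, Nat.factorization_mul hy0 hn0,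
        Nat.factorization_mul hr0 hr0] at this
      simp only [Finsupp.add_apply] at this
      omega
    rw [Nat.factorization_mul hn0 hm0, Finsupp.add_apply]
    have h1 : n.factorization p ≤ 1 := hsq.natFactorization_le_one p
    have h2 : m.factorization p ≤ 1 := hm.natFactorization_le_one p
    have h3 : n.factorization p = 1 → 1 ≤ y.factorization p := by
      intro h4
      have h5 : p ∣ n := Nat.dvd_of_factorization_pos (by omega)
      have h6 : p ∣ y := by exact_mod_cast c2 p hp h5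
      exact (hp.dvd_iff_one_le_factorization hy0).1 h6
    omega
  · rw [Nat.factorization_eq_zero_of_not_prime _ hp]
    exact Nat.zero_le _

end Pool.Agent.Wal
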