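import Pool.Agent.Lib.MP_6498db_nt.W.Defs

/-! Project WALSH, Theorem 2: definitions.  DO NOT EDIT (owner helper52). -/

set_option autoImplicit false

namespace Pool.Agent.Wal

open Finset

/-- the fixed exponent of `z = zz δ0 X` in Theorem 2 -/
noncomputable def δ0 : ℝ := 1 / 64

/-- the conditions attached to a prime exponent `l` (`c = 1` or `c = l`) -/
structure FitL (c l a b : ℕ) : Prop where
  one : 1 < b
  odd : Odd b
  mem : ∀ q : ℕ, q.Prime → q ∣ b → q % l = 1
  ca : ∀ p : ℕ, p.Prime → p ≠ 2 → p ∣ a → jacobiSym ((c * b : ℕ) : ℤ) p = 1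

/-- `1 + w + ... + w^(l-1)` -/
def Ag (l : ℕ) (w : ℤ) : ℤ := ∑ i ∈ range l, w ^ i

end Pool.Agent.Wal
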