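import Pool.Agent.Lib.MP_6498db_nt.L.FbDefs
import Pool.Agent.Lib.MP_6498db_nt.W.Mert
import Pool.Agent.Lib.MP_695920_nt.SparseA
import Pool.Agent.Lib.MP_695920_nt.SparseB

/-! WALSH, Theorem 2, row FbA: few biased real characters (duality). -/

set_option autoImplicit false

namespace Pool.Agent.Wal

open Finset

namespace FbAAux

open Pool.Agent.Lib.MP_695920_nt

theorem card_blk (j : ℕ) : ((blk j).card : ℝ) =
    (((Icc 1 (2 ^ (j + 1))).filter (fun n => n.Prime ∧ n ≡ 1 [MOD 1])).card : ℝ) -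
      (((Icc 1 (2 ^ j)).filter (fun n => n.Prime ∧ n ≡ 1 [MOD 1])).card : ℝ) := by
  have hpos : 1 ≤ 2 ^ j := Nat.one_le_two_pow
  have hle : 2 ^ j ≤ 2 ^ (j + 1) := Nat.pow_le_pow_right (by norm_num) (by omega)
  have h1 : (Icc 1 (2 ^ (j + 1))).filter (fun n => n.Prime ∧ n ≡ 1 [MOD 1]) =
      (Icc 1 (2 ^ j)).filter (fun n => n.Prime ∧ n ≡ 1 [MOD 1]) ∪ blk j := by
    ext n
    simp only [blk, mem_union, mem_filter, mem_Icc, mem_Ioc]
    constructor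
    · rintro ⟨⟨h1, h2⟩, h3, h4⟩
      by_cases h : n ≤ 2 ^ j
      · exact Or.inl ⟨⟨h1, h⟩, h3, h4⟩
      · exact Or.inr ⟨⟨by omega, h2⟩, h3⟩
    · rintro (⟨⟨h1, h2⟩, h3, h4⟩ | ⟨⟨h1, h2⟩, h3⟩)
      · exact ⟨⟨h1, by omega⟩, h3, h4⟩
      · exact ⟨⟨by omega, h2⟩, h3, Nat.modEq_one⟩
  have hdis : Disjoint ((Icc 1 (2 ^ j)).filter (fun n => n.Prime ∧ n ≡ 1 [MOD 1])) (blk j) := by
    rw [Finset.disjoint_left]
    intro n hn hn'
    simp only [blk, mem_filter, mem_Icc, mem_Ioc] at hn hn'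
    omega
  rw [h1, Finset.card_union_of_disjoint hdis]
  push_cast
  ring

end FbAAux

/-- From the prime number theorem (`pi_ap` with modulus 1 in `Lib/MP_629a14_nt/Rob/PiAP.lean`: `π(N) log N / N → 1`):
`π(2t) - π(t) ~ t / log t`, `t = 2^j`, `log t = j log 2`. -/
theorem blk_card : ∃ j₀ : ℕ, 1 ≤ j₀ ∧ ∀ j : ℕ, j₀ ≤ j →
    (2 : ℝ) ^ j / (2 * j) ≤ ((blk j).card : ℝ) := by
  have hlim := Pool.Agent.Lib.MP_629a14_nt.Rob.pi_ap 1 1 le_rfl (Nat.coprime_one_right 1)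
  have hev := Metric.tendsto_nhds.1 hlim (1 / 20) (by norm_num)
  obtain ⟨N, hN⟩ := Filter.eventually_atTop.1 hev
  refine ⟨max 10 N, le_trans (by norm_num) (le_max_left _ _), fun j hj => ?_⟩
  have hj10 : 10 ≤ j := le_trans (le_max_left _ _) hj
  have hjN : N ≤ j := le_trans (le_max_right _ _) hj
  have hjt : j ≤ 2 ^ j := Nat.lt_two_pow_self.le
  have hjt' : 2 ^ j ≤ 2 ^ (j + 1) := Nat.pow_le_pow_right (by norm_num) (by omega)
  have a1 := hN (2 ^ j) (hjN.trans hjt)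
  have a2 := hN (2 ^ (j + 1)) ((hjN.trans hjt).trans hjt')
  rw [FbAAux.card_blk]
  obtain ⟨A, hA⟩ : ∃ A : ℝ, A =
      (((Icc 1 (2 ^ j)).filter (fun n => n.Prime ∧ n ≡ 1 [MOD 1])).card : ℝ) := ⟨_, rfl⟩
  obtain ⟨B, hB⟩ : ∃ B : ℝ, B =
      (((Icc 1 (2 ^ (j + 1))).filter (fun n => n.Prime ∧ n ≡ 1 [MOD 1])).card : ℝ) := ⟨_, rfl⟩
  rw [← hA] at a1 ⊢
  rw [← hB] at a2 ⊢
  rw [Real.dist_eq, Nat.totient_one] at a1 a2
  push_cast at a1 a2
  rw [Real.log_pow] at a1 a2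
  obtain ⟨l, hl⟩ : ∃ l : ℝ, l = Real.log 2 := ⟨_, rfl⟩
  have hl1 : 0.6931471803 < l := by rw [hl]; exact Real.log_two_gt_d9
  have hl2 : l < 0.6931471808 := by rw [hl]; exact Real.log_two_lt_d9
  have hJ : (10 : ℝ) ≤ j := by exact_mod_cast hj10
  obtain ⟨t, ht⟩ : ∃ t : ℝ, t = (2 : ℝ) ^ j := ⟨_, rfl⟩
  have ht0 : 0 < t := by rw [ht]; positivity
  rw [← hl, ← ht] at a1
  rw [← hl, pow_succ, ← ht] at a2
  rw [← ht]
  push_cast at a1 a2
  have b1 := (abs_lt.1 a1).2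
  have b2 := (abs_lt.1 a2).1
  have c1 : A * (j * l) ≤ 1.05 * t := by
    have h : A * (j * l) / t ≤ 1.05 := by linarith
    rwa [div_le_iff₀ ht0] at h
  have c2 : 1.9 * t ≤ B * ((j + 1) * l) := by
    have h : 0.95 ≤ B * ((j + 1) * l) / (t * 2) := by linarith
    rw [le_div_iff₀ (by positivity)] at h
    linarith
  have hjl : 0 < (j : ℝ) * l := by positivity
  have hj1l : 0 < ((j : ℝ) + 1) * l := by positivity
  have d1 : A ≤ 1.05 * t / (j * l) := by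
    rw [le_div_iff₀ hjl]
    exact c1
  have d2 : 1.9 * t / ((j + 1) * l) ≤ B := by
    rw [div_le_iff₀ hj1l]
    exact c2
  have d3 : 1.71 * t / (j * l) ≤ 1.9 * t / ((j + 1) * l) := by
    rw [div_le_div_iff₀ hjl hj1l]
    have h : 1.71 * ((j : ℝ) + 1) ≤ 1.9 * j := by linarith
    nlinarith [mul_le_mul_of_nonneg_left h (mul_pos ht0 (by linarith : (0 : ℝ) < l)).le]
  have d4 : t / (2 * j) ≤ 0.66 * t / (j * l) := by
    rw [div_le_div_iff₀ (by positivity) hjl]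
    have h : (j : ℝ) * l ≤ 1.32 * j := by nlinarith
    nlinarith [mul_le_mul_of_nonneg_left h ht0.le]
  have d5 : 0.66 * t / (j * l) = 1.71 * t / (j * l) - 1.05 * t / (j * l) := by
    rw [← sub_div]
    congr 1
    ring
  linarith

namespace FbAAux

open Pool.Agent.Lib.MP_695920_nt

theorem bia_sum (j d : ℕ) (hj : 1 ≤ j) (h : Bia j d) :
    ((blk j).card : ℝ) / 2 ≤ 1 * ∑ q ∈ blk j, jchi ((d : ℕ) : ℤ) q := by
  classical
  rw [one_mul]
  have hlow : ∀ q ∈ blk j, (1 : ℝ) - 2 * (if jacobiSym (d : ℤ) q ≠ 1 then 1 else 0) ≤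
      jchi ((d : ℕ) : ℤ) q := by
    intro q hq
    unfold blk at hq
    rw [mem_filter, mem_Ioc] at hq
    have h2 : 2 ≤ 2 ^ j := by
      calc 2 = 2 ^ 1 := by norm_num
        _ ≤ 2 ^ j := Nat.pow_le_pow_right (by norm_num) hj
    have hodd : Odd q := hq.2.odd_of_ne_two (by omega)
    rw [jchi_odd hodd]
    rcases jacobiSym.trichotomy (d : ℤ) q with h | h | h <;> rw [h] <;> norm_num
  have h1 := Finset.sum_le_sum hlow
  rw [Finset.sum_sub_distrib, ← Finset.mul_sum, Finset.sum_boole, Finset.sum_const, nsmul_eq_mul,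
    mul_one] at h1
  have h2 : (((blk j).filter (fun q => jacobiSym (d : ℤ) q ≠ 1)).card : ℝ) * 4 ≤
      (blk j).card := by
    have h3 : 4 * (blkN j d).card ≤ (blk j).card := h.le
    have h4 : (4 : ℝ) * (blkN j d).card ≤ (blk j).card := by exact_mod_cast h3
    unfold blkN at h4
    linarith
  linarith

theorem fb_mom (j D : ℕ) (hj : 1 ≤ j) (k : ℕ) (I : Finset ℕ)
    (hI : ∀ d ∈ I, Squarefree d ∧ d ≤ D ∧ Bia j d) :
    (I.card : ℝ) * ((blk j).card : ℝ) ^ k ≤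
      4 ^ k * k.factorial * (((2 : ℝ) ^ (j + 1)) ^ k + 4 * (D : ℝ) ^ 2 * I.card) := by
  classical
  have h := few_biased (blk j) (fun q hq => (mem_filter.1 hq).2) (2 ^ (j + 1))
    (fun q hq => (mem_Ioc.1 (mem_filter.1 hq).1).2) k D 1 (Or.inl rfl)
    (I.map Nat.castEmbedding) (by
      intro d hd
      rw [mem_map] at hd
      obtain ⟨e, he, rfl⟩ := hd
      obtain ⟨h1, h2, h3⟩ := hI e he
      refine ⟨?_, ?_, ?_⟩
      · rw [Nat.castEmbedding_apply]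
        exact Int.squarefree_natCast.2 h1
      · rw [Nat.castEmbedding_apply, Int.natAbs_natCast]
        exact h2
      · rw [Nat.castEmbedding_apply]
        exact bia_sum j e hj h3)
  rw [Finset.card_map] at h
  push_cast at h
  exact h

/-- the case `k = 1` -/
theorem case_b (j D : ℕ) (hj : 30 ≤ j) (L : ℝ) (hD1 : 1 ≤ D) (hL : L = Real.log D)
    (hb : 4 * L < j * Real.log 2) (hc : (2 : ℝ) ^ j / (2 * j) ≤ ((blk j).card : ℝ))
    (I : Finset ℕ) (hI : ∀ d ∈ I, Squarefree d ∧ d ≤ D ∧ Bia j d) :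
    (I.card : ℝ) ≤ 64 * j := by
  have hm := fb_mom j D (by omega) 1 I hI
  simp only [pow_one, Nat.factorial_one, Nat.cast_one, mul_one] at hm
  obtain ⟨R, hR⟩ : ∃ R : ℝ, R = ((blk j).card : ℝ) := ⟨_, rfl⟩
  obtain ⟨s, hs⟩ : ∃ s : ℝ, s = (I.card : ℝ) := ⟨_, rfl⟩
  obtain ⟨t, ht⟩ : ∃ t : ℝ, t = (2 : ℝ) ^ j := ⟨_, rfl⟩
  have hs0 : 0 ≤ s := by rw [hs]; positivity
  have ht0 : 0 < t := by rw [ht]; positivity
  have hj0 : (0 : ℝ) < j := by
    have : 0 < j := by omega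
    exact_mod_cast this
  have hD0 : (0 : ℝ) < D := by exact_mod_cast hD1
  rw [← hR, ← ht] at hc
  rw [← hR, ← hs, pow_succ, ← ht] at hm
  rw [← hs]
  -- `64 j D^2 ≤ t`
  have h1 : (64 * (j : ℝ)) ^ 2 ≤ t := by
    rw [ht]
    clear hb hc hm hI hR hs ht hj0
    have : ∀ n : ℕ, 30 ≤ n → (64 * (n : ℝ)) ^ 2 ≤ (2 : ℝ) ^ n := by
      intro n hn
      induction n, hn using Nat.le_induction with
      | base => norm_num
      | succ n hn ih =>
        rw [pow_succ (2 : ℝ)]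
        have h30 : (30 : ℝ) ≤ n := by exact_mod_cast hn
        push_cast
        nlinarith
    exact this j hj
  have h2 : (D : ℝ) ^ 4 ≤ t := by
    rw [ht, ← Real.log_le_log_iff (by positivity) (by positivity), Real.log_pow, Real.log_pow,
      ← hL]
    push_cast
    exact hb.le
  have h3 : 64 * j * (D : ℝ) ^ 2 ≤ t := by
    have h4 : (64 * j * (D : ℝ) ^ 2) ^ 2 ≤ t ^ 2 := by
      calc (64 * j * (D : ℝ) ^ 2) ^ 2 = (64 * (j : ℝ)) ^ 2 * (D : ℝ) ^ 4 := by ring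
        _ ≤ t * t := mul_le_mul h1 h2 (by positivity) ht0.le
        _ = t ^ 2 := by ring
    exact (pow_le_pow_iff_left₀ (by positivity) ht0.le two_ne_zero).1 h4
  have h5 : t ≤ 2 * j * R := by
    rw [div_le_iff₀ (by positivity)] at hc
    linarith
  have h6 : 32 * (D : ℝ) ^ 2 ≤ R := by
    have h7 : (2 * j) * (32 * (D : ℝ) ^ 2) ≤ (2 * j) * R := by linarith
    exact le_of_mul_le_mul_left h7 (by positivity)
  have hR0 : 0 < R := lt_of_lt_of_le (by positivity) h6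
  have h8 : s * R ≤ (64 * j) * R := by
    have h9 : 16 * (D : ℝ) ^ 2 * s ≤ R * s / 2 := by
      nlinarith [mul_le_mul_of_nonneg_right h6 hs0]
    nlinarith
  exact le_of_mul_le_mul_right h8 hR0

theorem log96 : Real.log 96 ≤ 5 := by
  rw [Real.log_le_iff_le_exp (by norm_num)]
  have h := Real.exp_one_gt_d9
  have h1 : Real.exp 5 = Real.exp 1 ^ 5 := by
    rw [← Real.exp_nat_mul]
    norm_num
  rw [h1]
  calc (96 : ℝ) ≤ 2.7 ^ 5 := by norm_num
    _ ≤ Real.exp 1 ^ 5 := pow_le_pow_left₀ (by norm_num) (by linarith) 5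

theorem log192 : Real.log 192 ≤ 6 := by
  rw [Real.log_le_iff_le_exp (by norm_num)]
  have h := Real.exp_one_gt_d9
  have h1 : Real.exp 6 = Real.exp 1 ^ 6 := by
    rw [← Real.exp_nat_mul]
    norm_num
  rw [h1]
  calc (192 : ℝ) ≤ 2.7 ^ 6 := by norm_num
    _ ≤ Real.exp 1 ^ 6 := pow_le_pow_left₀ (by norm_num) (by linarith) 6

theorem log8 : Real.log 8 ≤ 3 := by
  have h : (8 : ℝ) = 2 ^ 3 := by norm_num
  rw [h, Real.log_pow]
  have := Real.log_two_lt_d9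
  push_cast
  linarith

/-- the case of large `k` -/
theorem case_a (j D : ℕ) (hj : 30 ≤ j) (L : ℝ) (hD1 : 1 ≤ D) (hL : L = Real.log D)
    (hl6 : 6 ≤ Real.log L) (hL6 : 6 ≤ L) (hp : L ^ 128 ≤ (2 : ℝ) ^ j)
    (hb : j * Real.log 2 ≤ 4 * L) (hc : (2 : ℝ) ^ j / (2 * j) ≤ ((blk j).card : ℝ))
    (I : Finset ℕ) (hI : ∀ d ∈ I, Squarefree d ∧ d ≤ D ∧ Bia j d) :
    (I.card : ℝ) ≤ 2 * (D : ℝ) ^ (1 / 8 : ℝ) := by
  obtain ⟨u, hu⟩ : ∃ u : ℝ, u = j * Real.log 2 := ⟨_, rfl⟩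
  have hj30 : (30 : ℝ) ≤ j := by exact_mod_cast hj
  have hl1 := Real.log_two_gt_d9
  have hl2 := Real.log_two_lt_d9
  have hu20 : 20 ≤ u := by rw [hu]; nlinarith
  have hu0 : 0 < u := by linarith
  have hL0 : 0 < L := by linarith
  have hD0 : (0 : ℝ) < D := by exact_mod_cast hD1
  rw [← hu] at hb
  have hlogL : 128 * Real.log L ≤ u := by
    have h := Real.log_le_log (by positivity) hp
    rw [Real.log_pow, Real.log_pow, ← hu] at h
    push_cast at h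
    exact h
  -- the number of prime factors
  obtain ⟨k, hk1, hk2⟩ : ∃ k : ℕ, 4 * L ≤ k * u ∧ k * u ≤ 8 * L := by
    refine ⟨⌈4 * L / u⌉₊, ?_, ?_⟩
    · have h := Nat.le_ceil (4 * L / u)
      rwa [div_le_iff₀ hu0] at h
    · have h := (Nat.ceil_lt_add_one (a := 4 * L / u) (by positivity)).le
      have h1 := mul_le_mul_of_nonneg_right h hu0.le
      rw [add_mul, div_mul_cancel₀ _ hu0.ne'] at h1
      linarith
  have hk0 : 0 < (k : ℝ) := by
    by_contra h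
    have h1 : (k : ℝ) * u ≤ 0 := mul_nonpos_of_nonpos_of_nonneg (not_lt.1 h) hu0.le
    linarith
  have hkj : (k : ℝ) * j ≤ 12 * L := by
    have h : (k : ℝ) * j * Real.log 2 ≤ 8 * L := by
      rw [mul_assoc, ← hu]
      exact hk2
    have h1 : 0 ≤ (k : ℝ) * j := by positivity
    nlinarith
  obtain ⟨R, hR⟩ : ∃ R : ℝ, R = ((blk j).card : ℝ) := ⟨_, rfl⟩
  obtain ⟨s, hs⟩ : ∃ s : ℝ, s = (I.card : ℝ) := ⟨_, rfl⟩
  obtain ⟨t, ht⟩ : ∃ t : ℝ, t = (2 : ℝ) ^ j := ⟨_, rfl⟩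
  have hs0 : 0 ≤ s := by rw [hs]; positivity
  have ht0 : 0 < t := by rw [ht]; positivity
  have hlogt : Real.log t = u := by rw [ht, Real.log_pow, hu]
  have hm := fb_mom j D (by omega) k I hI
  rw [← hR, ← ht] at hc
  rw [← hR, ← hs, pow_succ (2 : ℝ), ← ht] at hm
  rw [← hs]
  have hj0 : (0 : ℝ) < j := by linarith
  have h5 : t ≤ 2 * j * R := by
    rw [div_le_iff₀ (by positivity)] at hc
    linarith
  have hR0 : 0 < R := by
    by_contra h
    have h1 : 2 * j * R ≤ 0 := mul_nonpos_of_nonneg_of_nonpos (by positivity) (not_lt.1 h)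
    linarith
  -- `a = t / (96 L)`
  obtain ⟨a, ha⟩ : ∃ a : ℝ, a = t / (96 * L) := ⟨_, rfl⟩
  have ha0 : 0 < a := by rw [ha]; positivity
  have h4a : 4 * k * a ≤ R := by
    rw [ha]
    have h7 : 4 * k * (t / (96 * L)) = (k * t) / (24 * L) := by
      field_simp
      ring
    rw [h7, div_le_iff₀ (by positivity)]
    calc k * t ≤ k * (2 * j * R) := mul_le_mul_of_nonneg_left h5 hk0.le
      _ = 2 * (k * j) * R := by ring
      _ ≤ 2 * (12 * L) * R := by gcongr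
      _ = R * (24 * L) := by ring
  have haD : 8 * (D : ℝ) ^ 2 ≤ a ^ k := by
    rw [← Real.log_le_log_iff (by positivity) (by positivity), Real.log_pow,
      Real.log_mul (by norm_num) (by positivity), Real.log_pow, ha,
      Real.log_div ht0.ne' (by positivity), Real.log_mul (by norm_num) hL0.ne', hlogt, ← hL]
    push_cast
    have h8 := log8
    have h9 := log96
    have h10 : 74 / 100 * u ≤ u - (Real.log 96 + Real.log L) := by linarith
    have h11 := mul_le_mul_of_nonneg_left h10 hk0.le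
    nlinarith
  have hfac : ((4 : ℝ) ^ k * k.factorial) ≤ (4 * k) ^ k := by
    rw [mul_pow]
    have h : (k.factorial : ℝ) ≤ (k : ℝ) ^ k := by exact_mod_cast Nat.factorial_le_pow k
    exact mul_le_mul_of_nonneg_left h (by positivity)
  have hkey : (4 : ℝ) ^ k * k.factorial * (8 * (D : ℝ) ^ 2) ≤ R ^ k := by
    calc (4 : ℝ) ^ k * k.factorial * (8 * (D : ℝ) ^ 2) ≤ (4 * k) ^ k * a ^ k :=
          mul_le_mul hfac haD (by positivity) (by positivity)
      _ = (4 * k * a) ^ k := (mul_pow _ _ _).symm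
      _ ≤ R ^ k := pow_le_pow_left₀ (by positivity) h4a k
  have hY : t * 2 ≤ 4 * j * R := by linarith
  have hmain : s * R ^ k ≤ 2 * (192 * L) ^ k * R ^ k := by
    have h12 : (4 : ℝ) ^ k * k.factorial * (4 * (D : ℝ) ^ 2 * s) ≤ R ^ k * s / 2 := by
      nlinarith [mul_le_mul_of_nonneg_right hkey hs0]
    have h13 : (4 : ℝ) ^ k * k.factorial * (t * 2) ^ k ≤ (192 * L) ^ k * R ^ k := by
      calc (4 : ℝ) ^ k * k.factorial * (t * 2) ^ k ≤ (4 * k) ^ k * (4 * j * R) ^ k :=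
            mul_le_mul hfac (pow_le_pow_left₀ (by positivity) hY k) (by positivity)
              (by positivity)
        _ = (16 * (k * j) * R) ^ k := by
            rw [← mul_pow]
            congr 1
            ring
        _ ≤ (16 * (12 * L) * R) ^ k := by
            apply pow_le_pow_left₀ (by positivity)
            gcongr
        _ = (192 * L) ^ k * R ^ k := by
            rw [← mul_pow]
            congr 1
            ring
    rw [mul_add] at hm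
    linarith
  have hsk : s ≤ 2 * (192 * L) ^ k := le_of_mul_le_mul_right hmain (by positivity)
  have hfin : (192 * L) ^ k ≤ (D : ℝ) ^ (1 / 8 : ℝ) := by
    rw [← Real.log_le_log_iff (by positivity) (by positivity), Real.log_pow,
      Real.log_mul (by norm_num) hL0.ne', Real.log_rpow hD0, ← hL]
    have h14 := log192
    have h15 : Real.log 192 + Real.log L ≤ u / 64 := by linarith
    have h16 := mul_le_mul_of_nonneg_left h15 hk0.le
    nlinarith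
  linarith

end FbAAux

/-- Proof. `few_biased` (`Lib/MP_695920_nt/SparseA.lean`) with `P = blk j`, `Y = 2^(j+1)`, `Z = D`, `ε = 1`:
`Bia j d` gives `∑_{p ∈ P} (d/p) ≥ (3/4)|P| - (1/4)|P| = |P|/2`. `L = log D`.
(a) `j log 2 ≤ 4 L`: `k = ⌈4L/(j log 2)⌉ ≤ 8L/(j log 2)`, `k j ≤ 12 L`; `|P|/(4k) ≥ 2^j/(8 j k) ≥ 2^j/(96 L) ≥ 2^(0.9 j)`
because `L ≤ 2^(j/128)`, so `|P|^k ≥ (4k)^k 2^(0.9 j k) ≥ 4^k k! D^(3.6) ≥ 8 · 4^k k! D^2`; hence
`|I| ≤ 2 · 4^k k! (Y/|P|)^k ≤ 2 (4k · 4j)^k ≤ 2 (192 L)^k`, and `k (log L + 6) ≤ 8L (log L + 6)/(128 log L) ≤ L/8`.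
(b) `j log 2 > 4 L`: `k = 1`, `2^j > D^4`: `|P| ≥ 32 D^2`, `|I| ≤ 8 Y/|P| ≤ 32 j`. -/
theorem fb_block : ∃ D₀ : ℕ, 3 ≤ D₀ ∧ ∀ D : ℕ, D₀ ≤ D → ∀ j : ℕ, Real.log D ^ 128 ≤ (2 : ℝ) ^ j →
    ∀ I : Finset ℕ, (∀ d ∈ I, Squarefree d ∧ d ≤ D ∧ Bia j d) →
    (I.card : ℝ) ≤ 2 * (D : ℝ) ^ (1 / 8 : ℝ) + 64 * j := by
  obtain ⟨j₀, hj₀, hcard⟩ := blk_card
  obtain ⟨M, hM⟩ : ∃ M : ℝ, M = max (Real.exp 6) ((2 : ℝ) ^ (max j₀ 30)) := ⟨_, rfl⟩
  have hM6 : Real.exp 6 ≤ M := by rw [hM]; exact le_max_left _ _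
  have hMj : (2 : ℝ) ^ (max j₀ 30) ≤ M := by rw [hM]; exact le_max_right _ _
  refine ⟨max 3 ⌈Real.exp M⌉₊, le_max_left _ _, fun D hD j hj I hI => ?_⟩
  have hD3 : 3 ≤ D := le_trans (le_max_left _ _) hD
  have hDM : Real.exp M ≤ (D : ℝ) :=
    (Nat.le_ceil _).trans (by exact_mod_cast le_trans (le_max_right _ _) hD)
  have hD0 : (0 : ℝ) < D := lt_of_lt_of_le (Real.exp_pos _) hDM
  have hLM : M ≤ Real.log D := by rwa [Real.le_log_iff_exp_le hD0]
  obtain ⟨L, hL⟩ : ∃ L : ℝ, L = Real.log D := ⟨_, rfl⟩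
  rw [← hL] at hj hLM
  have he6 : (7 : ℝ) ≤ Real.exp 6 := by
    have := Real.add_one_le_exp (6 : ℝ)
    linarith
  have hL6 : 6 ≤ L := by linarith
  have hlogL6 : 6 ≤ Real.log L := by
    rw [Real.le_log_iff_exp_le (by linarith)]
    linarith
  have hjj : max j₀ 30 ≤ j := by
    have h1 : (2 : ℝ) ^ (max j₀ 30) ≤ (2 : ℝ) ^ j := by
      calc (2 : ℝ) ^ (max j₀ 30) ≤ L := by linarith
        _ = L ^ 1 := (pow_one L).symm
        _ ≤ L ^ 128 := pow_le_pow_right₀ (by linarith) (by norm_num)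
        _ ≤ _ := hj
    exact (pow_le_pow_iff_right₀ (by norm_num)).1 h1
  have hj1 : j₀ ≤ j := le_trans (le_max_left _ _) hjj
  have hj30 : 30 ≤ j := le_trans (le_max_right _ _) hjj
  have hc := hcard j hj1
  rcases lt_or_ge (4 * L) (j * Real.log 2) with hb | hb
  · have h := FbAAux.case_b j D hj30 L (by omega) hL hb hc I hI
    have h2 : 0 ≤ 2 * (D : ℝ) ^ (1 / 8 : ℝ) := by positivity
    linarith
  · have h := FbAAux.case_a j D hj30 L (by omega) hL hlogL6 hL6 hj hb hc I hI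
    have h2 : (0 : ℝ) ≤ 64 * j := by positivity
    linarith

end Pool.Agent.Wal
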