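import Pool.Agent.Lib.MP_6498db_nt.L.FbA

/-! WALSH, Theorem 2, row FbB: union over the blocks. -/

set_option autoImplicit false

namespace Pool.Agent.Wal

open Finset

private theorem fbB_grow (c : ℝ) : ∀ᶠ X : ℕ in Filter.atTop,
    (400 * Real.log X) ^ 8 + c + 1 ≤ Real.exp (Real.log X ^ δ0) := by
  have h1 : ∀ᶠ u : ℝ in Filter.atTop, (400 * u ^ 64) ^ 8 + c + 1 ≤ Real.exp u := by
    have h2 : ∀ᶠ u : ℝ in Filter.atTop, ‖u ^ 512‖ ≤ (1 / (2 * 400 ^ 8)) * ‖Real.exp u‖ :=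
      (Real.isLittleO_pow_exp_atTop (n := 512)).def (by positivity)
    have h3 : ∀ᶠ u : ℝ in Filter.atTop, 2 * (c + 1) ≤ Real.exp u :=
      Real.tendsto_exp_atTop.eventually_ge_atTop _
    filter_upwards [h2, h3, Filter.eventually_ge_atTop (0 : ℝ)] with u h2 h3 h4
    rw [Real.norm_of_nonneg (pow_nonneg h4 512), Real.norm_of_nonneg (Real.exp_pos u).le] at h2
    have h5 : (400 * u ^ 64) ^ 8 = 400 ^ 8 * u ^ 512 := by ring
    rw [h5]
    have h6 : 400 ^ 8 * u ^ 512 ≤ Real.exp u / 2 := by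
      calc 400 ^ 8 * u ^ 512 ≤ 400 ^ 8 * ((1 / (2 * 400 ^ 8)) * Real.exp u) :=
            mul_le_mul_of_nonneg_left h2 (by positivity)
        _ = Real.exp u / 2 := by ring
    linarith
  have h2 : Filter.Tendsto (fun X : ℕ => Real.log X ^ δ0) Filter.atTop Filter.atTop := by
    refine (tendsto_rpow_atTop (by unfold δ0; norm_num)).comp
      (Real.tendsto_log_atTop.comp tendsto_natCast_atTop_atTop)
  filter_upwards [h2.eventually h1, Filter.eventually_ge_atTop 1] with X hX hX1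
  have h3 : 0 ≤ Real.log X := Real.log_nonneg (by exact_mod_cast hX1)
  have h4 : (Real.log X ^ δ0) ^ 64 = Real.log X := by
    rw [← Real.rpow_natCast, ← Real.rpow_mul h3]
    unfold δ0
    norm_num
  rw [h4] at hX
  exact hX

/-- Proof. At most `2 log X` blocks `j` with `2^j ≤ X`, each `fb_block` (`log D ≤ 2 log X`):
`|I| ≤ 2 log X (2 D^(1/8) + 128 log X) ≤ D^(1/4)` because `D ≥ zz δ0 X ≥ exp((log X)^δ0) - 1` is larger than any power of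
`log X`. -/
theorem fb_union : ∃ X₀ : ℕ, 3 ≤ X₀ ∧ ∀ X : ℕ, X₀ ≤ X → ∀ D : ℕ, zz δ0 X ≤ D → D ≤ X ^ 2 → ∀ I : Finset ℕ,
    (∀ d ∈ I, Squarefree d ∧ d ≤ D ∧ BadX X d) → (I.card : ℝ) ≤ (D : ℝ) ^ (1 / 4 : ℝ) := by
  classical
  obtain ⟨D₀, hD₀, hb⟩ := fb_block
  obtain ⟨X₁, hX₁⟩ := Filter.eventually_atTop.1 (fbB_grow D₀)
  refine ⟨max X₁ 3, le_max_right _ _, fun X hX D hzD hDX I hI => ?_⟩
  have hX3 : 3 ≤ X := (le_max_right _ _).trans hX
  have hg := hX₁ X ((le_max_left _ _).trans hX)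
  have hX0 : (0 : ℝ) < X := by exact_mod_cast (by omega : 0 < X)
  set ℓ := Real.log X with hℓ
  have hℓ1 : 1 ≤ ℓ := by
    rw [hℓ, Real.le_log_iff_exp_le hX0]
    have h1 : Real.exp 1 < 3 := by linarith [Real.exp_one_lt_d9]
    have h2 : (3 : ℝ) ≤ X := by exact_mod_cast hX3
    linarith
  have hz : Real.exp (ℓ ^ δ0) < (zz δ0 X : ℝ) + 1 := Nat.lt_floor_add_one _
  have hzD' : (zz δ0 X : ℝ) ≤ D := by exact_mod_cast hzD
  have hD1 : (400 * ℓ) ^ 8 + D₀ ≤ D := by linarith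
  have hp : 0 ≤ (400 * ℓ) ^ 8 := by positivity
  have hDD : D₀ ≤ D := by
    have : (D₀ : ℝ) ≤ D := by linarith
    exact_mod_cast this
  have hD3 : 3 ≤ D := hD₀.trans hDD
  have hDp : (0 : ℝ) < D := by exact_mod_cast (by omega : 0 < D)
  have hlD : Real.log D ≤ 2 * ℓ := by
    have h1 : (D : ℝ) ≤ (X : ℝ) ^ 2 := by exact_mod_cast hDX
    calc Real.log D ≤ Real.log ((X : ℝ) ^ 2) := Real.log_le_log hDp h1
      _ = 2 * ℓ := by rw [Real.log_pow]; norm_num [hℓ]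
  have hlD0 : 0 ≤ Real.log D := Real.log_nonneg (by exact_mod_cast (by omega : 1 ≤ D))
  -- the blocks
  have hj : ∀ j : ℕ, 2 ^ j ≤ X → (j : ℝ) ≤ 2 * ℓ := by
    intro j hj
    have h1 : ((2 : ℝ) ^ j) ≤ X := by exact_mod_cast hj
    have h2 : (j : ℝ) * Real.log 2 ≤ ℓ := by
      rw [← Real.log_pow]
      exact Real.log_le_log (by positivity) h1
    have h3 : (1 / 2 : ℝ) ≤ Real.log 2 := by linarith [Real.log_two_gt_d9]
    have h4 : (j : ℝ) * (1 / 2) ≤ j * Real.log 2 :=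
      mul_le_mul_of_nonneg_left h3 (Nat.cast_nonneg j)
    linarith
  set J := (range (Nat.log 2 X + 1)).filter (fun j => (2 * ℓ) ^ 128 ≤ (2 : ℝ) ^ j) with hJ
  have hsub : I ⊆ J.biUnion (fun j => I.filter (fun d => Bia j d)) := by
    intro d hd
    obtain ⟨-, -, j, h1, h2, h3⟩ := hI d hd
    refine mem_biUnion.2 ⟨j, ?_, mem_filter.2 ⟨hd, h3⟩⟩
    rw [hJ, mem_filter, mem_range]
    exact ⟨Nat.lt_succ_of_le (Nat.le_log_of_pow_le (by norm_num) h2), h1⟩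
  have hcard : (I.card : ℝ) ≤ ∑ j ∈ J, ((I.filter (fun d => Bia j d)).card : ℝ) := by
    have h1 : I.card ≤ ∑ j ∈ J, (I.filter (fun d => Bia j d)).card :=
      (card_le_card hsub).trans card_biUnion_le
    exact_mod_cast h1
  have hXlog : 2 ^ Nat.log 2 X ≤ X := Nat.pow_log_le_self 2 (by omega)
  set y := (D : ℝ) ^ (1 / 8 : ℝ) with hy
  have hterm : ∀ j ∈ J, ((I.filter (fun d => Bia j d)).card : ℝ) ≤ 2 * y + 128 * ℓ := by
    intro j hj'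
    rw [hJ, mem_filter, mem_range] at hj'
    have h1 : 2 ^ j ≤ X :=
      (Nat.pow_le_pow_right (by norm_num) (Nat.lt_succ_iff.1 hj'.1)).trans hXlog
    have h2 := hb D hDD j ((pow_le_pow_left₀ hlD0 hlD 128).trans hj'.2)
      (I.filter (fun d => Bia j d)) (fun d hd => by
        rw [mem_filter] at hd
        exact ⟨(hI d hd.1).1, (hI d hd.1).2.1, hd.2⟩)
    have h3 := hj j h1
    linarith
  have hJc : (J.card : ℝ) ≤ 3 * ℓ := by
    have h1 : J.card ≤ Nat.log 2 X + 1 := (card_filter_le _ _).trans (by rw [card_range])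
    have h2 : (J.card : ℝ) ≤ (Nat.log 2 X : ℝ) + 1 := by exact_mod_cast h1
    have h3 := hj _ hXlog
    linarith
  have hy0 : 0 ≤ y := Real.rpow_nonneg hDp.le _
  have hyl : 400 * ℓ ≤ y := by
    have h0 : 0 ≤ 400 * ℓ := by linarith
    have h1 : (400 * ℓ) ^ 8 ≤ (D : ℝ) := by linarith [(Nat.cast_nonneg D₀ : (0 : ℝ) ≤ D₀)]
    have h2 := Real.rpow_le_rpow hp h1 (show (0 : ℝ) ≤ 1 / 8 by norm_num)
    rw [← Real.rpow_natCast, ← Real.rpow_mul h0] at h2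
    norm_num at h2
    rw [hy]
    norm_num
    exact h2
  have hyy : (D : ℝ) ^ (1 / 4 : ℝ) = y ^ 2 := by
    rw [hy, ← Real.rpow_natCast, ← Real.rpow_mul hDp.le]
    norm_num
  rw [hyy]
  have hsum : ∑ j ∈ J, ((I.filter (fun d => Bia j d)).card : ℝ) ≤ 3 * ℓ * (2 * y + 128 * ℓ) := by
    calc ∑ j ∈ J, ((I.filter (fun d => Bia j d)).card : ℝ) ≤ ∑ _j ∈ J, (2 * y + 128 * ℓ) :=
          sum_le_sum hterm
      _ = J.card * (2 * y + 128 * ℓ) := by rw [sum_const, nsmul_eq_mul]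
      _ ≤ 3 * ℓ * (2 * y + 128 * ℓ) := mul_le_mul_of_nonneg_right hJc (by positivity)
  have h1 : 6 * ℓ * y ≤ y ^ 2 / 2 := by nlinarith
  have h2 : 384 * ℓ ^ 2 ≤ y ^ 2 / 2 := by nlinarith
  nlinarith

/-- Dyadic summation of `fb_union`: `∑_{d ∈ I} d^(-1/2) ≤ ∑_i (2^(i+1))^(1/4) (2^i)^(-1/2) ≤ C Z^(-1/4)`, `d > Z ≥ 2 z`. For
`X < X₀` enlarge `C`. -/
theorem fb_sum : ∃ C : ℝ, ∀ X : ℕ, 3 ≤ X → ∀ I : Finset ℕ,
    (∀ d ∈ I, Squarefree d ∧ d ≤ X ^ 2 ∧ Real.exp (Real.log X ^ (2 * δ0)) < (d : ℝ) ∧ BadX X d) →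
    ∑ d ∈ I, 1 / Real.sqrt d ≤ C * Real.log X ^ (-(2 : ℝ)) := by
  classical
  obtain ⟨X₀, hX₀, hu⟩ := fb_union
  have hsm : Summable fun k : ℕ => 1 / (k : ℝ) ^ (3 / 2 : ℝ) :=
    Real.summable_one_div_nat_rpow.2 (by norm_num)
  set A : ℝ := ∑' k : ℕ, 1 / (k : ℝ) ^ (3 / 2 : ℝ) with hA
  have hA0 : 0 ≤ A := tsum_nonneg fun k => by positivity
  set B : ℝ := (Nat.factorial 64 : ℝ) * 8 ^ 64 with hB
  have hB0 : 0 ≤ B := by positivity
  refine ⟨A * B + ((X₀ : ℝ) ^ 2 + 1) * Real.log X₀ ^ 2, fun X hX I hI => ?_⟩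
  have hX0 : (0 : ℝ) < X := by exact_mod_cast (by omega : 0 < X)
  set ℓ := Real.log X with hℓ
  have hℓ1 : 1 ≤ ℓ := by
    rw [hℓ, Real.le_log_iff_exp_le hX0]
    have h1 : Real.exp 1 < 3 := by linarith [Real.exp_one_lt_d9]
    have h2 : (3 : ℝ) ≤ X := by exact_mod_cast hX
    linarith
  have hℓ0 : 0 < ℓ := by linarith
  have hℓ2 : ℓ ^ (-(2 : ℝ)) = (ℓ ^ 2)⁻¹ := by
    rw [Real.rpow_neg hℓ0.le]
    norm_num
  have hℓp : 0 ≤ ℓ ^ (-(2 : ℝ)) := Real.rpow_nonneg hℓ0.le _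
  rcases lt_or_ge X X₀ with hlt | hge
  · have h1 : ∑ d ∈ I, 1 / Real.sqrt d ≤ (X₀ : ℝ) ^ 2 + 1 := by
      have h2 : ∀ d ∈ I, 1 / Real.sqrt d ≤ 1 := by
        intro d hd
        have h3 : 1 ≤ (d : ℝ) := by
          have h4 : Real.exp (ℓ ^ (2 * δ0)) < (d : ℝ) := (hI d hd).2.2.1
          have h5 : 1 ≤ Real.exp (ℓ ^ (2 * δ0)) := Real.one_le_exp (Real.rpow_nonneg hℓ0.le _)
          linarith
        have h4 : 1 ≤ Real.sqrt d := Real.one_le_sqrt.2 h3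
        rw [div_le_one (by linarith)]
        exact h4
      have h3 : I ⊆ range (X₀ ^ 2 + 1) := by
        intro d hd
        rw [mem_range]
        have h4 := (hI d hd).2.1
        have h5 : X ^ 2 ≤ X₀ ^ 2 := Nat.pow_le_pow_left hlt.le 2
        omega
      calc ∑ d ∈ I, 1 / Real.sqrt d ≤ ∑ _d ∈ I, (1 : ℝ) := sum_le_sum h2
        _ = I.card := by rw [sum_const, nsmul_eq_mul, mul_one]
        _ ≤ ((range (X₀ ^ 2 + 1)).card : ℝ) := by exact_mod_cast card_le_card h3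
        _ = (X₀ : ℝ) ^ 2 + 1 := by rw [card_range]; push_cast; ring
    have h2 : 1 ≤ Real.log X₀ ^ 2 * ℓ ^ (-(2 : ℝ)) := by
      rw [hℓ2, ← div_eq_mul_inv, one_le_div (by positivity)]
      exact pow_le_pow_left₀ hℓ0.le (Real.log_le_log hX0 (by exact_mod_cast hlt.le)) 2
    calc ∑ d ∈ I, 1 / Real.sqrt d ≤ (X₀ : ℝ) ^ 2 + 1 := h1
      _ ≤ ((X₀ : ℝ) ^ 2 + 1) * (Real.log X₀ ^ 2 * ℓ ^ (-(2 : ℝ))) :=
          le_mul_of_one_le_right (by positivity) h2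
      _ ≤ (A * B + ((X₀ : ℝ) ^ 2 + 1) * Real.log X₀ ^ 2) * ℓ ^ (-(2 : ℝ)) := by
          have h3 : 0 ≤ A * B * ℓ ^ (-(2 : ℝ)) := by positivity
          nlinarith
  · -- the rank of an element
    set k : ℕ → ℕ := fun d => (I.filter (fun e => e ≤ d)).card with hk
    have hkpos : ∀ d ∈ I, 1 ≤ k d := fun d hd =>
      card_pos.2 ⟨d, mem_filter.2 ⟨hd, le_rfl⟩⟩
    have hkinj : Set.InjOn k I := by
      intro a ha b hb hab
      by_contra hne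
      wlog hlt : a < b generalizing a b
      · exact this hb ha hab.symm (Ne.symm hne) (lt_of_le_of_ne (not_lt.1 hlt) (Ne.symm hne))
      have h1 : k a < k b := by
        refine card_lt_card ⟨fun e he => ?_, fun h => ?_⟩
        · rw [mem_filter] at he ⊢
          exact ⟨he.1, he.2.trans hlt.le⟩
        · have h2 := h (mem_filter.2 ⟨hb, le_rfl⟩)
          rw [mem_filter] at h2
          omega
      omega
    have hzle : ∀ d ∈ I, zz δ0 X ≤ d := by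
      intro d hd
      have h1 := (hI d hd).2.2.1
      have h2 : Real.exp (ℓ ^ δ0) ≤ Real.exp (ℓ ^ (2 * δ0)) := by
        refine Real.exp_le_exp.2 (Real.rpow_le_rpow_of_exponent_le hℓ1 ?_)
        unfold δ0
        norm_num
      have h3 : ((zz δ0 X : ℕ) : ℝ) ≤ Real.exp (ℓ ^ δ0) := Nat.floor_le (Real.exp_pos _).le
      have h4 : ((zz δ0 X : ℕ) : ℝ) ≤ d := by linarith
      exact_mod_cast h4
    have hkd : ∀ d ∈ I, (k d : ℝ) ≤ (d : ℝ) ^ (1 / 4 : ℝ) := by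
      intro d hd
      exact hu X hge d (hzle d hd) (hI d hd).2.1 _ fun e he => by
        rw [mem_filter] at he
        exact ⟨(hI e he.1).1, he.2, (hI e he.1).2.2.2⟩
    have hterm : ∀ d ∈ I, 1 / Real.sqrt d ≤
        Real.exp (-(ℓ ^ (2 * δ0)) / 8) * (1 / (k d : ℝ) ^ (3 / 2 : ℝ)) := by
      intro d hd
      have hd1 : Real.exp (ℓ ^ (2 * δ0)) < (d : ℝ) := (hI d hd).2.2.1
      have hd0 : (0 : ℝ) < d := (Real.exp_pos _).trans hd1
      have hk0 : (0 : ℝ) < k d := by exact_mod_cast hkpos d hd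
      have e1 : Real.sqrt d = (d : ℝ) ^ (1 / 8 : ℝ) * (d : ℝ) ^ (3 / 8 : ℝ) := by
        rw [← Real.rpow_add hd0, Real.sqrt_eq_rpow]
        norm_num
      have e2 : (k d : ℝ) ^ (3 / 2 : ℝ) ≤ (d : ℝ) ^ (3 / 8 : ℝ) := by
        calc (k d : ℝ) ^ (3 / 2 : ℝ) ≤ ((d : ℝ) ^ (1 / 4 : ℝ)) ^ (3 / 2 : ℝ) :=
              Real.rpow_le_rpow hk0.le (hkd d hd) (by norm_num)
          _ = (d : ℝ) ^ (3 / 8 : ℝ) := by
              rw [← Real.rpow_mul hd0.le]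
              norm_num
      have e3 : Real.exp ((ℓ ^ (2 * δ0)) / 8) ≤ (d : ℝ) ^ (1 / 8 : ℝ) := by
        calc Real.exp ((ℓ ^ (2 * δ0)) / 8) = (Real.exp (ℓ ^ (2 * δ0))) ^ (1 / 8 : ℝ) := by
              rw [← Real.exp_mul]
              ring_nf
          _ ≤ (d : ℝ) ^ (1 / 8 : ℝ) := Real.rpow_le_rpow (Real.exp_pos _).le hd1.le (by norm_num)
      rw [e1, neg_div, Real.exp_neg, one_div ((d : ℝ) ^ (1 / 8 : ℝ) * (d : ℝ) ^ (3 / 8 : ℝ)), mul_inv,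
        one_div ((k d : ℝ) ^ (3 / 2 : ℝ))]
      exact mul_le_mul (inv_anti₀ (Real.exp_pos _) e3)
        (inv_anti₀ (Real.rpow_pos_of_pos hk0 _) e2) (by positivity) (by positivity)
    have hsumk : ∑ d ∈ I, 1 / (k d : ℝ) ^ (3 / 2 : ℝ) ≤ A := by
      rw [← sum_image (f := fun n : ℕ => 1 / (n : ℝ) ^ (3 / 2 : ℝ)) hkinj]
      exact hsm.sum_le_tsum _ fun n _ => by positivity
    have hexp : Real.exp (-(ℓ ^ (2 * δ0)) / 8) ≤ B * ℓ ^ (-(2 : ℝ)) := by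
      have h1 : 0 ≤ ℓ ^ (2 * δ0) / 8 := div_nonneg (Real.rpow_nonneg hℓ0.le _) (by norm_num)
      have h2 := Real.pow_div_factorial_le_exp _ h1 64
      have h3 : (ℓ ^ (2 * δ0)) ^ 64 = ℓ ^ 2 := by
        rw [← Real.rpow_natCast, ← Real.rpow_mul hℓ0.le]
        unfold δ0
        norm_num
      rw [div_pow, h3] at h2
      have h4 : ℓ ^ 2 / B ≤ Real.exp (ℓ ^ (2 * δ0) / 8) := by
        rw [hB]
        calc ℓ ^ 2 / ((Nat.factorial 64 : ℝ) * 8 ^ 64) =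
              ℓ ^ 2 / 8 ^ 64 / (Nat.factorial 64 : ℝ) := by
              rw [div_div, mul_comm]
          _ ≤ _ := h2
      rw [neg_div, Real.exp_neg, hℓ2]
      have h5 : 0 < ℓ ^ 2 / B := by positivity
      calc (Real.exp (ℓ ^ (2 * δ0) / 8))⁻¹ ≤ (ℓ ^ 2 / B)⁻¹ := inv_anti₀ h5 h4
        _ = B * (ℓ ^ 2)⁻¹ := by rw [inv_div, div_eq_mul_inv]
    calc ∑ d ∈ I, 1 / Real.sqrt d ≤
          ∑ d ∈ I, Real.exp (-(ℓ ^ (2 * δ0)) / 8) * (1 / (k d : ℝ) ^ (3 / 2 : ℝ)) :=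
          sum_le_sum hterm
      _ = Real.exp (-(ℓ ^ (2 * δ0)) / 8) * ∑ d ∈ I, 1 / (k d : ℝ) ^ (3 / 2 : ℝ) := by
          rw [mul_sum]
      _ ≤ (B * ℓ ^ (-(2 : ℝ))) * A := by
          refine mul_le_mul hexp hsumk (sum_nonneg fun d _ => by positivity) (by positivity)
      _ ≤ (A * B + ((X₀ : ℝ) ^ 2 + 1) * Real.log X₀ ^ 2) * ℓ ^ (-(2 : ℝ)) := by
          have h3 : 0 ≤ ((X₀ : ℝ) ^ 2 + 1) * Real.log X₀ ^ 2 * ℓ ^ (-(2 : ℝ)) := by positivity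
          nlinarith

end Pool.Agent.Wal
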