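import Pool.Agent.Lib.MP_6498db_nt.L.FbA
import Pool.Agent.Lib.MP_6498db_nt.W.Hr

/-! WALSH, Theorem 2, row FbC: unbiased characters. -/

set_option autoImplicit false

namespace Pool.Agent.Wal

open Finset

/-- lower bound for a harmonic sum -/
private theorem fbC_harm (a : ℕ) (ha : 1 ≤ a) (b : ℕ) (hab : a ≤ b) :
    Real.log b - Real.log a ≤ ∑ j ∈ Ico a b, (1 : ℝ) / j := by
  induction b, hab using Nat.le_induction with
  | base => simp
  | succ b hb ih =>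
    rw [Finset.sum_Ico_succ_top hb]
    have hb0 : (0 : ℝ) < b := by exact_mod_cast (by omega : 0 < b)
    have h1 : Real.log ((b + 1 : ℕ) : ℝ) - Real.log b ≤ 1 / b := by
      rw [← Real.log_div (by positivity) hb0.ne']
      have h2 := Real.log_le_sub_one_of_pos (x := ((b + 1 : ℕ) : ℝ) / b) (by positivity)
      have h3 : ((b + 1 : ℕ) : ℝ) / b - 1 = 1 / b := by
        push_cast
        field_simp
        ring
      rw [h3] at h2
      exact h2
    linarith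

private theorem fbC_blk_disj (d : ℕ) {i j : ℕ} (hij : i ≠ j) : Disjoint (blkN i d) (blkN j d) := by
  have key : ∀ i j : ℕ, i < j → Disjoint (blkN i d) (blkN j d) := by
    intro i j h
    rw [Finset.disjoint_left]
    intro p hp hq
    unfold blkN blk at hp hq
    rw [mem_filter, mem_filter, mem_Ioc] at hp hq
    have h1 : 2 ^ (i + 1) ≤ 2 ^ j := Nat.pow_le_pow_right (by norm_num) h
    omega
  rcases Nat.lt_or_gt_of_ne hij with h | h
  · exact key i j h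
  · exact (key j i h).symm

private theorem fbC_one {j₀ : ℕ} (h₀ : 1 ≤ j₀)
    (hj₀ : ∀ j : ℕ, j₀ ≤ j → (2 : ℝ) ^ j / (2 * j) ≤ ((blk j).card : ℝ)) {j d : ℕ} (hj : j₀ ≤ j)
    (hb : ¬ Bia j d) : 1 / 16 * (1 / (j : ℝ)) ≤ ∑ p ∈ blkN j d, (1 : ℝ) / p := by
  have hj0 : (0 : ℝ) < j := by exact_mod_cast (by omega : 0 < j)
  have h2 : (0 : ℝ) < 2 ^ j := by positivity
  have h3 : ((blk j).card : ℝ) ≤ 4 * ((blkN j d).card : ℝ) := by
    unfold Bia at hb
    exact_mod_cast not_lt.1 hb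
  have h4 := hj₀ j hj
  have h5 : ∑ p ∈ blkN j d, (1 : ℝ) / 2 ^ (j + 1) ≤ ∑ p ∈ blkN j d, (1 : ℝ) / p := by
    refine Finset.sum_le_sum fun p hp => ?_
    unfold blkN blk at hp
    rw [mem_filter, mem_filter, mem_Ioc] at hp
    have hp0 : (0 : ℝ) < p := by exact_mod_cast hp.1.2.pos
    have hp1 : (p : ℝ) ≤ 2 ^ (j + 1) := by exact_mod_cast hp.1.1.2
    exact one_div_le_one_div_of_le hp0 hp1
  rw [Finset.sum_const, nsmul_eq_mul] at h5
  refine le_trans ?_ h5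
  have h6 : (2 : ℝ) ^ j / (2 * j) / 4 ≤ ((blkN j d).card : ℝ) := by linarith
  have h7 : (2 : ℝ) ^ j / (2 * j) / 4 * (1 / 2 ^ (j + 1)) ≤
      ((blkN j d).card : ℝ) * (1 / 2 ^ (j + 1)) :=
    mul_le_mul_of_nonneg_right h6 (by positivity)
  refine le_trans (le_of_eq ?_) h7
  rw [pow_succ]
  field_simp
  norm_num

/-- Proof. For the blocks `j` with `(2 log X)^128 ≤ 2^j`, `2^(j+1) ≤ Y`: `¬ Bia j d` gives
`∑_{p ∈ blk j, (d/p) ≠ 1} 1/p ≥ (|blk j|/4)/2^(j+1) ≥ 1/(16 j)` (`blk_card`). Sum over `j` from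
`j₁ = O(loglog X)` to `log₂ Y - 1 ≥ √(log X) - 2`: `≥ (1/16)((1/2) loglog X - logloglog X - C) ≥ (1/40) loglog X - C'`.
(All these primes are `> 2`.) -/
theorem fb_good : ∃ C : ℝ, ∀ X : ℕ, 3 ≤ X → ∀ d : ℕ, ¬ BadX X d → ∀ Y : ℕ, Y ≤ X →
    Real.exp (Real.sqrt (Real.log X)) ≤ (Y : ℝ) →
    1 / 40 * Real.log (Real.log X) - C ≤
      ∑ p ∈ (prs Y).filter (fun p => 2 < p ∧ jacobiSym (d : ℤ) p ≠ 1), (1 : ℝ) / p := by
  obtain ⟨j₀, h₀, hj₀⟩ := blk_card
  -- the threshold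
  set A : ℝ := j₀ + 2 + 128 * (1 + 40) with hA
  have hA1 : 1 ≤ A := by
    have : (0 : ℝ) ≤ j₀ := Nat.cast_nonneg _
    rw [hA]
    linarith
  set L₀ : ℝ := (2 * A) ^ 20 with hL₀
  have hL₀1 : 4 ≤ L₀ := by
    have h1 : (2 : ℝ) ^ 20 ≤ (2 * A) ^ 20 := pow_le_pow_left₀ (by norm_num) (by linarith) _
    have h2 : (4 : ℝ) ≤ 2 ^ 20 := by norm_num
    rw [hL₀]
    linarith
  refine ⟨1 / 40 * Real.log L₀, fun X hX d hd Y hYX hY => ?_⟩
  set L : ℝ := Real.log X with hL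
  have hX1 : (3 : ℝ) ≤ X := by exact_mod_cast hX
  have hL1 : 1 ≤ L := by
    rw [hL, Real.le_log_iff_exp_le (by linarith)]
    have := Real.exp_one_lt_d9
    linarith
  have hsum0 : 0 ≤ ∑ p ∈ (prs Y).filter (fun p => 2 < p ∧ jacobiSym (d : ℤ) p ≠ 1), (1 : ℝ) / p :=
    Finset.sum_nonneg fun p _ => by positivity
  rcases le_or_gt L L₀ with hLL | hLL
  · have h1 := Real.log_le_log (by linarith) hLL
    linarith
  have hlogL₀ : 0 ≤ Real.log L₀ := Real.log_nonneg (by linarith)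
  -- the first block
  set j₁ : ℕ := j₀ + ⌈128 * (Real.log (2 * L) / Real.log 2)⌉₊ with hj₁
  have hlog2 : 0 < Real.log 2 := Real.log_pos (by norm_num)
  have hlog2' : (1 : ℝ) / 2 < Real.log 2 := by
    have := Real.log_two_gt_d9
    linarith
  have hlog2'' : Real.log 2 < 1 := by
    have := Real.log_two_lt_d9
    linarith
  have hj₁0 : 1 ≤ j₁ := by omega
  have hlog2L : 0 ≤ Real.log (2 * L) / Real.log 2 :=
    div_nonneg (Real.log_nonneg (by linarith)) hlog2.le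
  have hpow : ∀ j : ℕ, j₁ ≤ j → (2 * L) ^ 128 ≤ (2 : ℝ) ^ j := by
    intro j hj
    have h1 : 128 * (Real.log (2 * L) / Real.log 2) ≤ j := by
      refine (Nat.le_ceil _).trans ?_
      exact_mod_cast (by omega : ⌈128 * (Real.log (2 * L) / Real.log 2)⌉₊ ≤ j)
    rw [← Real.log_le_log_iff (by positivity) (by positivity), Real.log_pow, Real.log_pow]
    push_cast
    rw [mul_div_assoc', div_le_iff₀ hlog2] at h1
    exact h1
  -- size of the first block
  have hj₁s : (j₁ : ℝ) ≤ L ^ (1 / 10 : ℝ) / 2 := by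
    have h1 : (j₁ : ℝ) ≤ j₀ + (128 * (Real.log (2 * L) / Real.log 2) + 1) := by
      rw [hj₁]
      push_cast
      have := Nat.ceil_lt_add_one (a := 128 * (Real.log (2 * L) / Real.log 2)) (by positivity)
      linarith
    have h2 : Real.log (2 * L) / Real.log 2 = 1 + Real.log L / Real.log 2 := by
      rw [Real.log_mul (by norm_num) (by linarith), add_div, div_self hlog2.ne']
    have h3 : Real.log L ≤ L ^ (1 / 20 : ℝ) / (1 / 20) := Real.log_le_rpow_div (by linarith) (by norm_num)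
    have h4 : Real.log L / Real.log 2 ≤ 40 * L ^ (1 / 20 : ℝ) := by
      rw [div_le_iff₀ hlog2]
      have h5 : 0 ≤ L ^ (1 / 20 : ℝ) := Real.rpow_nonneg (by linarith) _
      nlinarith
    have h5 : 1 ≤ L ^ (1 / 20 : ℝ) := Real.one_le_rpow hL1 (by norm_num)
    have h6 : (j₁ : ℝ) ≤ A * L ^ (1 / 20 : ℝ) := by
      rw [h2] at h1
      have h7 : (0 : ℝ) ≤ j₀ := Nat.cast_nonneg _
      have h8 : (j₀ : ℝ) ≤ j₀ * L ^ (1 / 20 : ℝ) := le_mul_of_one_le_right h7 h5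
      rw [hA]
      nlinarith
    have h7 : 2 * A ≤ L ^ (1 / 20 : ℝ) := by
      have h8 : (2 * A : ℝ) = L₀ ^ (1 / 20 : ℝ) := by
        rw [hL₀, ← Real.rpow_natCast, ← Real.rpow_mul (by linarith)]
        norm_num
      rw [h8]
      exact Real.rpow_le_rpow (by linarith) hLL.le (by norm_num)
    have h8 : L ^ (1 / 10 : ℝ) = L ^ (1 / 20 : ℝ) * L ^ (1 / 20 : ℝ) := by
      rw [← Real.rpow_add (by linarith)]
      norm_num
    rw [h8]
    nlinarith
  -- the last block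
  have hY0 : Y ≠ 0 := by
    rintro rfl
    have := Real.exp_pos (Real.sqrt L)
    simp only [Nat.cast_zero] at hY
    linarith
  have hYR : (0 : ℝ) < Y := by exact_mod_cast Nat.pos_of_ne_zero hY0
  set J : ℕ := Nat.log 2 Y with hJ
  have hJ1 : Real.sqrt L / 2 ≤ J := by
    have h1 : Y < 2 ^ (J + 1) := Nat.lt_pow_succ_log_self (by norm_num) Y
    have h2 : (Y : ℝ) < 2 ^ (J + 1) := by exact_mod_cast h1
    have h3 : Real.log Y < (J + 1 : ℕ) * Real.log 2 := by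
      rw [← Real.log_pow]
      exact Real.log_lt_log hYR h2
    have h4 : Real.sqrt L ≤ Real.log Y := by
      rw [Real.le_log_iff_exp_le hYR]
      exact hY
    have h5 : Real.sqrt L ≤ J + 1 := by
      push_cast at h3
      have h6 : (0 : ℝ) ≤ J := Nat.cast_nonneg _
      nlinarith
    have h6 : 2 ≤ Real.sqrt L := by
      rw [Real.le_sqrt (by norm_num) (by linarith)]
      linarith
    linarith
  have hjJ : (j₁ : ℝ) * L ^ (2 / 5 : ℝ) ≤ J := by
    have h1 : Real.sqrt L = L ^ (1 / 10 : ℝ) * L ^ (2 / 5 : ℝ) := by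
      rw [← Real.rpow_add (by linarith), Real.sqrt_eq_rpow]
      norm_num
    have h2 : 0 ≤ L ^ (2 / 5 : ℝ) := Real.rpow_nonneg (by linarith) _
    have h3 := mul_le_mul_of_nonneg_right hj₁s h2
    have h4 : L ^ (1 / 10 : ℝ) / 2 * L ^ (2 / 5 : ℝ) = Real.sqrt L / 2 := by
      rw [h1]
      ring
    rw [h4] at h3
    linarith
  have hj₁R : (0 : ℝ) < j₁ := by exact_mod_cast hj₁0
  have hjJ' : j₁ ≤ J := by
    have h1 : 1 ≤ L ^ (2 / 5 : ℝ) := Real.one_le_rpow hL1 (by norm_num)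
    have h2 : (j₁ : ℝ) ≤ J := (le_mul_of_one_le_right hj₁R.le h1).trans hjJ
    exact_mod_cast h2
  have hlog : 2 / 5 * Real.log L ≤ Real.log J - Real.log j₁ := by
    have h1 : 0 < L ^ (2 / 5 : ℝ) := Real.rpow_pos_of_pos (by linarith) _
    have h2 := Real.log_le_log (mul_pos hj₁R h1) hjJ
    rw [Real.log_mul hj₁R.ne' h1.ne', Real.log_rpow (by linarith)] at h2
    linarith
  -- the sum over the blocks
  have hsum : ∑ j ∈ Ico j₁ J, 1 / 16 * (1 / (j : ℝ)) ≤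
      ∑ p ∈ (prs Y).filter (fun p => 2 < p ∧ jacobiSym (d : ℤ) p ≠ 1), (1 : ℝ) / p := by
    have h1 : ∑ j ∈ Ico j₁ J, 1 / 16 * (1 / (j : ℝ)) ≤
        ∑ j ∈ Ico j₁ J, ∑ p ∈ blkN j d, (1 : ℝ) / p := by
      refine Finset.sum_le_sum fun j hj => ?_
      rw [mem_Ico] at hj
      refine fbC_one h₀ hj₀ (by omega) fun hb => hd ⟨j, hpow j hj.1, ?_, hb⟩
      have h2 : 2 ^ j ≤ Y := Nat.pow_le_of_le_log hY0 hj.2.le
      exact h2.trans hYX
    refine h1.trans ?_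
    rw [← Finset.sum_biUnion fun i _ j _ hij => fbC_blk_disj d hij]
    refine Finset.sum_le_sum_of_subset_of_nonneg (fun p hp => ?_) fun p _ _ => by positivity
    rw [mem_biUnion] at hp
    obtain ⟨j, hj, hp⟩ := hp
    rw [mem_Ico] at hj
    unfold blkN blk at hp
    rw [mem_filter, mem_filter, mem_Ioc] at hp
    have h2 : 2 ^ (j + 1) ≤ Y := Nat.pow_le_of_le_log hY0 hj.2
    have h3 : 2 ^ 1 ≤ 2 ^ j := Nat.pow_le_pow_right (by norm_num) (by omega)
    rw [mem_filter, mem_prs]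
    exact ⟨⟨hp.1.2, by omega⟩, by omega, hp.2⟩
  rw [← Finset.mul_sum] at hsum
  have hh := fbC_harm j₁ hj₁0 J hjJ'
  linarith

/-- Proof. `hr` with `f p = 0` if `2 < p` and `(d/p) ≠ 1`, `f p = 1` otherwise. -/
theorem fb_count : ∃ C : ℝ, 0 < C ∧ ∀ X : ℕ, 3 ≤ X → ∀ d : ℕ, ¬ BadX X d → ∀ Y : ℕ, Y ≤ X →
    Real.exp (Real.sqrt (Real.log X)) ≤ (Y : ℝ) → ∀ S : Finset ℕ,
    (∀ a ∈ S, a ∈ sqs Y ∧ ∀ p : ℕ, p.Prime → p ≠ 2 → p ∣ a → jacobiSym (d : ℤ) p = 1) →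
    (S.card : ℝ) ≤ C * Y * Real.log X ^ (-(1 / 40 : ℝ)) := by
  obtain ⟨C₁, hC₁⟩ := fb_good
  obtain ⟨C₂, hC₂, hr'⟩ := hr
  refine ⟨C₂ * Real.exp C₁, by positivity, fun X hX d hd Y hYX hY S hS => ?_⟩
  classical
  have hX1 : (3 : ℝ) ≤ X := by exact_mod_cast hX
  have hL1 : 1 ≤ Real.log X := by
    rw [Real.le_log_iff_exp_le (by linarith)]
    have := Real.exp_one_lt_d9
    linarith
  have hY1 : 1 ≤ Y := by
    have h1 := Real.exp_pos (Real.sqrt (Real.log X))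
    have h2 : (0 : ℝ) < Y := by linarith
    exact_mod_cast h2
  set f : ℕ → ℝ := fun p => if 2 < p ∧ jacobiSym (d : ℤ) p ≠ 1 then 0 else 1 with hf
  have hf0 : ∀ p, 0 ≤ f p := by
    intro p
    simp only [hf]
    split_ifs <;> norm_num
  have hf4 : ∀ p, f p ≤ 4 := by
    intro p
    simp only [hf]
    split_ifs <;> norm_num
  have hPF : ∀ a ∈ S, PF f a = 1 := by
    intro a ha
    obtain ⟨h1, h2⟩ := hS a ha
    unfold PF
    refine Finset.prod_eq_one fun p hp => ?_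
    have hp1 := Nat.prime_of_mem_primeFactors hp
    have hp2 := Nat.dvd_of_mem_primeFactors hp
    simp only [hf]
    rw [if_neg]
    rintro ⟨h3, h4⟩
    exact h4 (h2 p hp1 (by omega) hp2)
  have h1 : (S.card : ℝ) ≤ ∑ n ∈ sqs Y, PF f n := by
    have h2 : (S.card : ℝ) = ∑ a ∈ S, PF f a := by
      rw [Finset.sum_congr rfl hPF, Finset.sum_const, nsmul_eq_mul, mul_one]
    rw [h2]
    exact Finset.sum_le_sum_of_subset_of_nonneg (fun a ha => (hS a ha).1) fun n _ _ =>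
      Finset.prod_nonneg fun p _ => hf0 p
  have h2 := hr' f hf0 hf4 Y hY1
  have h3 : ∑ p ∈ prs Y, (f p - 1) / p =
      -∑ p ∈ (prs Y).filter (fun p => 2 < p ∧ jacobiSym (d : ℤ) p ≠ 1), (1 : ℝ) / p := by
    rw [Finset.sum_filter, ← Finset.sum_neg_distrib]
    refine Finset.sum_congr rfl fun p _ => ?_
    simp only [hf]
    split_ifs
    · ring
    · ring
  have h4 := hC₁ X hX d hd Y hYX hY
  have h5 : Real.exp (∑ p ∈ prs Y, (f p - 1) / p) ≤
      Real.exp C₁ * Real.log X ^ (-(1 / 40 : ℝ)) := by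
    have h6 : Real.log X ^ (-(1 / 40 : ℝ)) = Real.exp (-(1 / 40) * Real.log (Real.log X)) := by
      rw [Real.rpow_def_of_pos (by linarith)]
      congr 1
      ring
    rw [h6, ← Real.exp_add, Real.exp_le_exp, h3]
    linarith
  calc (S.card : ℝ) ≤ C₂ * Y * Real.exp (∑ p ∈ prs Y, (f p - 1) / p) := h1.trans h2
    _ ≤ C₂ * Y * (Real.exp C₁ * Real.log X ^ (-(1 / 40 : ℝ))) :=
        mul_le_mul_of_nonneg_left h5 (by positivity)
    _ = C₂ * Real.exp C₁ * Y * Real.log X ^ (-(1 / 40 : ℝ)) := by ring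

end Pool.Agent.Wal
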