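import Pool.Agent.Lib.MP_6498db_nt.L.Defs

/-! WALSH, Theorem 2: blocks and biased characters, definitions. DO NOT EDIT (owner helper52). -/

set_option autoImplicit false

namespace Pool.Agent.Wal

open Finset

/-- the primes in `(2^j, 2^(j+1)]` -/
def blk (j : ℕ) : Finset ℕ := (Ioc (2 ^ j) (2 ^ (j + 1))).filter Nat.Prime

/-- the primes of the block at which `(d/p) ≠ 1` -/
def blkN (j d : ℕ) : Finset ℕ := (blk j).filter (fun p => jacobiSym (d : ℤ) p ≠ 1)

/-- `d` is biased in the block `j` -/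
def Bia (j d : ℕ) : Prop := 4 * (blkN j d).card < (blk j).card

/-- `d` is biased in some block between `(2 log X)^128` and `X` -/
def BadX (X d : ℕ) : Prop := ∃ j : ℕ, (2 * Real.log X) ^ 128 ≤ (2 : ℝ) ^ j ∧ 2 ^ j ≤ X ∧ Bia j d

end Pool.Agent.Wal
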