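import Pool.Agent.Lib.MP_6498db_nt.L.Defs
import Pool.Agent.Lib.MP_6498db_nt.W.BOne

/-! WALSH, Theorem 2, row SmB (first half of PerL): small `b`. -/

set_option autoImplicit false

namespace Pool.Agent.Wal

open Finset

private theorem smB_mod (l : ℕ) (hl : 1 < l) (n : ℕ) : n ≠ 0 →
    (∀ q : ℕ, q.Prime → q ∣ n → q % l = 1) → n % l = 1 := by
  induction n using Nat.recOnMul with
  | zero => intro h; exact absurd rfl h
  | one => intro _ _; exact Nat.mod_eq_of_lt hl
  | prime p hp => intro _ h; exact h p hp dvd_rfl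
  | mul a b iha ihb =>
    intro h0 h
    have ha := iha (left_ne_zero_of_mul h0) (fun q hq hqa => h q hq (Dvd.dvd.mul_right hqa b))
    have hb := ihb (right_ne_zero_of_mul h0) (fun q hq hqb => h q hq (Dvd.dvd.mul_left hqb a))
    rw [Nat.mul_mod, ha, hb, mul_one, Nat.mod_eq_of_lt hl]

private theorem smB_harm (N : ℕ) : ∑ b ∈ Icc 1 N, (1 : ℝ) / b ≤ 1 + Real.log N := by
  have h := harmonic_le_one_add_log N
  rw [harmonic_eq_sum_Icc] at h
  push_cast at h
  refine le_trans (le_of_eq (sum_congr rfl (fun b _ => ?_))) h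
  rw [one_div]

private theorem smB_six : (6 : ℝ) ≤ Real.exp 2 := by
  have h4 := Real.exp_one_gt_d9
  have h5 : Real.exp 2 = Real.exp 1 * Real.exp 1 := by
    rw [← Real.exp_add]
    norm_num
  rw [h5]
  nlinarith

private theorem smB_sq {l b c m : ℕ} (hl : l.Prime) (hb1 : 1 < b) (hb : b % l = 1)
    (hc : c = 1 ∨ c = l) (hm : Squarefree m) (hbm : b ∣ m) : ¬ IsSquare (c * b) := by
  rintro ⟨y, hy⟩
  have hsb : Squarefree b := hm.squarefree_of_dvd hbm
  rcases hc with rfl | rfl
  · rw [one_mul] at hy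
    have h1 := hsb y ⟨1, by rw [hy, mul_one]⟩
    rw [Nat.isUnit_iff] at h1
    rw [h1] at hy
    omega
  · have h1 : c ∣ y := by
      have h2 : c ∣ y * y := ⟨b, hy.symm⟩
      rcases (hl.dvd_mul).1 h2 with h | h <;> exact h
    obtain ⟨t, rfl⟩ := h1
    have h2 : b = c * (t * t) := by
      have h3 : c * b = c * (c * (t * t)) := by rw [hy]; ring
      exact Nat.eq_of_mul_eq_mul_left hl.pos h3
    rw [h2, Nat.mul_mod_right] at hb
    omega

private theorem smB_sum {l N : ℕ} (hl : 1 < l) (B : Finset ℕ)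
    (hB : ∀ b ∈ B, 1 < b ∧ b ≤ N ∧ b % l = 1) :
    ∑ b ∈ B, (1 : ℝ) / b ≤ (1 + Real.log N) / l := by
  have hl0 : (0 : ℝ) < l := by
    have : 0 < l := by omega
    exact_mod_cast this
  have hdm : ∀ b ∈ B, l * (b / l) + 1 = b := fun b hb => by
    have h1 := Nat.div_add_mod b l
    rw [(hB b hb).2.2] at h1
    exact h1
  have hpos : ∀ b ∈ B, 1 ≤ b / l := fun b hb => by
    have h1 := hdm b hb
    have h2 := (hB b hb).1
    rcases Nat.eq_zero_or_pos (b / l) with h | h
    · rw [h, mul_zero] at h1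
      omega
    · exact h
  have hinj : Set.InjOn (fun b => b / l) (B : Set ℕ) := by
    intro x hx y hy hxy
    have h1 := hdm x hx
    have h2 := hdm y hy
    simp only at hxy
    rw [← h1, ← h2, hxy]
  calc ∑ b ∈ B, (1 : ℝ) / b ≤ ∑ b ∈ B, (1 / (l : ℝ)) * (1 / ((b / l : ℕ) : ℝ)) := by
        refine sum_le_sum fun b hb => ?_
        have h1 : ((l * (b / l) + 1 : ℕ) : ℝ) = b := by rw [hdm b hb]
        have h2 : (1 : ℝ) ≤ ((b / l : ℕ) : ℝ) := by exact_mod_cast hpos b hb
        have h3 : (0 : ℝ) < l * ((b / l : ℕ) : ℝ) := by positivity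
        rw [one_div_mul_one_div, ← h1]
        push_cast
        apply one_div_le_one_div_of_le h3
        linarith
    _ = (1 / (l : ℝ)) * ∑ j ∈ B.image (fun b => b / l), (1 : ℝ) / j := by
        rw [sum_image hinj, mul_sum]
    _ ≤ (1 / (l : ℝ)) * ∑ j ∈ Icc 1 N, (1 : ℝ) / j := by
        refine mul_le_mul_of_nonneg_left ?_ (by positivity)
        refine sum_le_sum_of_subset_of_nonneg ?_ (fun j _ _ => by positivity)
        intro j hj
        obtain ⟨b, hb, rfl⟩ := mem_image.1 hj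
        rw [mem_Icc]
        exact ⟨hpos b hb, (Nat.div_le_self b l).trans (hB b hb).2.1⟩
    _ ≤ (1 / (l : ℝ)) * (1 + Real.log N) :=
        mul_le_mul_of_nonneg_left (smB_harm N) (by positivity)
    _ = (1 + Real.log N) / l := by ring

/-- Small `b`. Proof. `b > 1` is a product of primes `1` mod `l`, so `b ≡ 1` mod `l`, `b > l`; `c b` is not a square
(`c = 1`: `b` squarefree `> 1`; `c = l`: `l ∤ b`). `b1_count` (`ε = 1/16`, `d = c b`, `Y = X/b ≥ √X`), sum over
`b = 1 + l j ≤ Z`: `∑ 1/b ≤ (1 + log Z)/l`, `log(l Z + 3) ≤ C log Z`: `≤ C X (log X)^(-3/16 + 4 δ0)/l = C X (log X)^(-1/8)/l`. -/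
theorem small_b : ∃ C : ℝ, 0 < C ∧ ∀ X : ℕ, 3 ≤ X → ∀ l : ℕ, l.Prime → 5 ≤ l → (l : ℝ) ≤ Real.log X ^ 3 →
    ∀ c : ℕ, (c = 1 ∨ c = l) → ∀ S : Finset ℕ,
    (∀ m ∈ S, m ∈ sqs X ∧ ∃ a b : ℕ, a * b = m ∧ (b : ℝ) ≤ Real.exp (Real.log X ^ (2 * δ0)) ∧ FitL c l a b) →
    (S.card : ℝ) ≤ C * X * Real.log X ^ (-(1 / 8 : ℝ)) / l := by
  obtain ⟨C0, h0⟩ := b1_count (1 / 16) (by norm_num)
  have hC1 : 0 ≤ max C0 0 := le_max_right _ _
  have hC01 : C0 ≤ max C0 0 := le_max_left _ _
  set C1 : ℝ := max C0 0 with hC1def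
  refine ⟨8192 + 396 * C1, by positivity, ?_⟩
  intro X hX l hl hl5 hlL c hc S hS
  classical
  have hX0 : (0 : ℝ) < X := by
    have : 0 < X := by omega
    exact_mod_cast this
  have hX3 : (3 : ℝ) ≤ X := by exact_mod_cast hX
  have hl0 : (0 : ℝ) < l := by
    have : 0 < l := by omega
    exact_mod_cast this
  have hl1 : (1 : ℝ) ≤ l := by
    have : 1 ≤ l := by omega
    exact_mod_cast this
  have hL0 : 0 < Real.log X := Real.log_pos (by linarith)
  have hLexp : Real.exp (Real.log X) = X := Real.exp_log hX0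
  set L : ℝ := Real.log X with hL
  have hLp : 0 < L ^ (-(1 / 8 : ℝ)) := Real.rpow_pos_of_pos hL0 _
  rw [le_div_iff₀ hl0]
  by_cases hbig : L < 16
  · have h1 : S.card ≤ X := by
      have : S ⊆ Icc 1 X := by
        intro m hm
        have := mem_sqs.1 (hS m hm).1
        rw [mem_Icc]
        exact ⟨this.1, this.2.1⟩
      have h2 := card_le_card this
      rw [Nat.card_Icc] at h2
      omega
    have h2 : (S.card : ℝ) ≤ X := by exact_mod_cast h1
    have h3 : (1 / 2 : ℝ) ≤ L ^ (-(1 / 8 : ℝ)) := by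
      have e1 : (256 : ℝ) ^ (-(1 / 8 : ℝ)) = 1 / 2 := by
        have : (256 : ℝ) = 2 ^ (8 : ℝ) := by
          norm_num
        rw [this, ← Real.rpow_mul (by norm_num)]
        norm_num
      rw [← e1]
      exact Real.rpow_le_rpow_of_nonpos hL0 (by linarith) (by norm_num)
    have h4 : (0 : ℝ) ≤ 396 * C1 * X * L ^ (-(1 / 8 : ℝ)) := by positivity
    have h5 : (X : ℝ) * (1 / 2) ≤ X * L ^ (-(1 / 8 : ℝ)) := mul_le_mul_of_nonneg_left h3 hX0.le
    have h6 : (8192 + 396 * C1) * X * L ^ (-(1 / 8 : ℝ)) =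
      8192 * (X * L ^ (-(1 / 8 : ℝ))) + 396 * C1 * X * L ^ (-(1 / 8 : ℝ)) := by ring
    have h7 : (l : ℝ) ≤ 4096 := by
      refine hlL.trans ?_
      calc L ^ 3 ≤ (16 : ℝ) ^ 3 := pow_le_pow_left₀ hL0.le hbig.le 3
        _ = 4096 := by norm_num
    have h8 : (S.card : ℝ) * l ≤ X * 4096 := mul_le_mul h2 h7 hl0.le hX0.le
    linarith
  · have hL16 : 16 ≤ L := not_lt.1 hbig
    set M : ℝ := L ^ (2 * δ0) with hM
    have hδ : δ0 = 1 / 64 := rfl
    have hM1 : 1 ≤ M := Real.one_le_rpow (by linarith) (by rw [hδ]; norm_num)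
    have hM4 : M ≤ L / 4 := by
      have h1 : M ≤ L ^ (1 / 2 : ℝ) :=
        Real.rpow_le_rpow_of_exponent_le (by linarith) (by rw [hδ]; norm_num)
      rw [← Real.sqrt_eq_rpow] at h1
      have h2 : 4 ≤ Real.sqrt L := by
        apply Real.le_sqrt_of_sq_le
        linarith
      have h3 : Real.sqrt L * Real.sqrt L = L := Real.mul_self_sqrt hL0.le
      nlinarith
    -- `log L ≤ 32 M`
    have hlogL : Real.log L ≤ 32 * M := by
      have h1 := Real.log_le_rpow_div hL0.le (show (0 : ℝ) < 2 * δ0 by rw [hδ]; norm_num)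
      have h2 : L ^ (2 * δ0) / (2 * δ0) = 32 * M := by
        rw [← hM, hδ]
        ring
      rw [h2] at h1
      exact h1
    have hlogl : Real.log l ≤ 96 * M := by
      have h1 := Real.log_le_log hl0 hlL
      rw [Real.log_pow] at h1
      push_cast at h1
      linarith
    set N : ℕ := ⌊Real.exp M⌋₊ with hN
    have hNle : (N : ℝ) ≤ Real.exp M := Nat.floor_le (Real.exp_pos _).le
    have hN1 : 1 ≤ N := by
      rw [hN]
      apply Nat.le_floor
      push_cast
      exact Real.one_le_exp (by linarith)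
    set B : Finset ℕ := (Icc 1 N).filter (fun b => 1 < b ∧ b % l = 1 ∧ ¬ IsSquare (c * b)) with hB
    set T : ℕ → Finset ℕ := fun b => (sqs (X / b)).filter (fun a => ∀ p : ℕ, p.Prime → p ≠ 2 →
      p ∣ a → jacobiSym ((c * b : ℕ) : ℤ) p = 1) with hT
    have hsub : S ⊆ B.biUnion (fun b => (T b).image (fun a => a * b)) := by
      intro m hm
      obtain ⟨hm1, a, b, hab, hb, hfit⟩ := hS m hm
      obtain ⟨hm2, hm3, hm4⟩ := mem_sqs.1 hm1
      have ha0 : 0 < a := by
        rcases Nat.eq_zero_or_pos a with h | h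
        · rw [h, zero_mul] at hab
          omega
        · exact h
      have hb0 : 0 < b := by
        rcases Nat.eq_zero_or_pos b with h | h
        · rw [h, mul_zero] at hab
          omega
        · exact h
      have hbl : b % l = 1 := smB_mod l (by omega) b hb0.ne' hfit.mem
      rw [mem_biUnion]
      refine ⟨b, ?_, ?_⟩
      · rw [hB, mem_filter, mem_Icc]
        exact ⟨⟨hb0, Nat.le_floor hb⟩, hfit.one, hbl,
          smB_sq hl hfit.one hbl hc hm4 ⟨a, by rw [← hab, mul_comm]⟩⟩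
      · rw [mem_image]
        refine ⟨a, ?_, hab⟩
        rw [hT]
        simp only [mem_filter]
        refine ⟨mem_sqs.2 ⟨ha0, ?_, ?_⟩, hfit.ca⟩
        · rw [Nat.le_div_iff_mul_le hb0]
          omega
        · rw [← hab] at hm4
          exact hm4.of_mul_left
    have hcard : (S.card : ℝ) ≤ ∑ b ∈ B, ((T b).card : ℝ) := by
      have h1 : S.card ≤ ∑ b ∈ B, (T b).card := by
        refine le_trans (card_le_card hsub) (le_trans card_biUnion_le ?_)
        exact sum_le_sum (fun b _ => card_image_le)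
      exact_mod_cast h1
    have hpow : 0 < L ^ (-(3 / 16 : ℝ)) := Real.rpow_pos_of_pos hL0 _
    have hTb : ∀ b ∈ B, ((T b).card : ℝ) ≤
        (C1 * X * (2 * L ^ (-(3 / 16 : ℝ))) * (99 * M)) * (1 / b) := by
      intro b hb
      rw [hB, mem_filter, mem_Icc] at hb
      obtain ⟨⟨hb1, hbN⟩, _, _, hbsq⟩ := hb
      have hb0 : (0 : ℝ) < b := by exact_mod_cast hb1
      have hb1' : (1 : ℝ) ≤ b := by exact_mod_cast hb1
      have hbM : (b : ℝ) ≤ Real.exp M := le_trans (by exact_mod_cast hbN) hNle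
      have hbL : (b : ℝ) ≤ Real.exp (L / 4) := le_trans hbM (Real.exp_le_exp.2 hM4)
      have hY1 : (X : ℝ) / b - 1 ≤ ((X / b : ℕ) : ℝ) := by
        have h1 := Nat.div_add_mod X b
        have h2 := Nat.mod_lt X (show b > 0 by omega)
        have h3 : (X : ℝ) = b * ((X / b : ℕ) : ℝ) + ((X % b : ℕ) : ℝ) := by exact_mod_cast h1.symm
        have h4 : ((X % b : ℕ) : ℝ) ≤ b := by exact_mod_cast h2.le
        rw [sub_le_iff_le_add, div_le_iff₀ hb0, add_mul, one_mul, mul_comm]
        linarith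
      have hY2 : Real.exp (L / 2) ≤ ((X / b : ℕ) : ℝ) := by
        refine le_trans ?_ hY1
        have h1 : Real.exp (L / 2) * Real.exp (L / 4) ≤ (X : ℝ) / b := by
          rw [le_div_iff₀ hb0, ← Real.exp_add]
          have h2 : Real.exp (L / 2 + L / 4) * b ≤ Real.exp (L / 2 + L / 4) * Real.exp (L / 4) :=
            mul_le_mul_of_nonneg_left hbL (Real.exp_pos _).le
          refine le_trans h2 ?_
          rw [← Real.exp_add, ← hLexp]
          apply Real.exp_le_exp.2
          linarith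
        have h2 : (1 : ℝ) ≤ Real.exp (L / 2) := Real.one_le_exp (by linarith)
        have h3 : (5 : ℝ) ≤ Real.exp (L / 4) := by
          have := Real.add_one_le_exp (L / 4)
          linarith
        have h4 : Real.exp (L / 2) * 5 ≤ Real.exp (L / 2) * Real.exp (L / 4) :=
          mul_le_mul_of_nonneg_left h3 (Real.exp_pos _).le
        linarith
      have hY8 : (9 : ℝ) ≤ ((X / b : ℕ) : ℝ) := by
        refine le_trans ?_ hY2
        have := Real.add_one_le_exp (L / 2)
        linarith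
      have hY3 : 3 ≤ X / b := by
        have : 9 ≤ X / b := by exact_mod_cast hY8
        omega
      have hlogY : L / 2 ≤ Real.log ((X / b : ℕ) : ℝ) := by
        rw [Real.le_log_iff_exp_le (by linarith)]
        exact hY2
      have hc0 : 0 < c := by
        rcases hc with h | h
        · omega
        · omega
      have hcl : (c : ℝ) ≤ l := by
        rcases hc with h | h
        · rw [h]
          exact_mod_cast hl1
        · rw [h]
      have hmain := h0 (c * b) (Nat.mul_pos hc0 (by omega)) (by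
        rintro ⟨y, hy⟩
        apply hbsq
        refine ⟨y.natAbs, ?_⟩
        have : ((c * b : ℕ) : ℤ) = ((y.natAbs * y.natAbs : ℕ) : ℤ) := by
          rw [hy]
          push_cast
          rw [abs_mul_abs_self]
        exact_mod_cast this) (X / b) hY3 (T b) (by
        intro a ha
        rw [hT] at ha
        simp only [mem_filter] at ha
        refine ⟨ha.1, fun p hp h3 h4 hpa => ?_⟩
        rw [ha.2 p hp (by omega) hpa]
        norm_num)
      have e1 : (-(1 / 4 - 1 / 16) : ℝ) = -(3 / 16 : ℝ) := by norm_num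
      rw [e1] at hmain
      have hp1 : Real.log ((X / b : ℕ) : ℝ) ^ (-(3 / 16 : ℝ)) ≤ 2 * L ^ (-(3 / 16 : ℝ)) := by
        have h1 : Real.log ((X / b : ℕ) : ℝ) ^ (-(3 / 16 : ℝ)) ≤ (L / 2) ^ (-(3 / 16 : ℝ)) :=
          Real.rpow_le_rpow_of_nonpos (by linarith) hlogY (by norm_num)
        refine le_trans h1 ?_
        rw [Real.div_rpow hL0.le (by norm_num), div_le_iff₀ (Real.rpow_pos_of_pos (by norm_num) _)]
        have h2 : (1 / 2 : ℝ) ≤ 2 ^ (-(3 / 16 : ℝ)) := by
          have h3 : (2 : ℝ) ^ (-1 : ℝ) ≤ 2 ^ (-(3 / 16 : ℝ)) :=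
            Real.rpow_le_rpow_of_exponent_le (by norm_num) (by norm_num)
          rw [Real.rpow_neg_one] at h3
          linarith
        have h5 : (2 * L ^ (-(3 / 16 : ℝ))) * (1 / 2) ≤
            (2 * L ^ (-(3 / 16 : ℝ))) * 2 ^ (-(3 / 16 : ℝ)) :=
          mul_le_mul_of_nonneg_left h2 (by positivity)
        linarith
      have hp2 : Real.log (((c * b : ℕ) : ℝ) + 3) ≤ 99 * M := by
        have hlogc : (l : ℝ) = Real.exp (Real.log l) := (Real.exp_log hl0).symm
        have h1 : ((c * b : ℕ) : ℝ) + 3 ≤ Real.exp 2 * (Real.exp (Real.log l) * Real.exp M) := by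
          rw [← hlogc]
          have h2 : ((c * b : ℕ) : ℝ) ≤ l * Real.exp M := by
            push_cast
            exact mul_le_mul hcl hbM hb0.le hl0.le
          have h3 : (1 : ℝ) ≤ l * Real.exp M := by
            have h4 : (1 : ℝ) ≤ Real.exp M := Real.one_le_exp (by linarith)
            calc (1 : ℝ) = 1 * 1 := by ring
              _ ≤ l * Real.exp M := mul_le_mul hl1 h4 zero_le_one hl0.le
          have h7 : 6 * (l * Real.exp M) ≤ Real.exp 2 * (l * Real.exp M) :=
            mul_le_mul_of_nonneg_right smB_six (by positivity)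
          linarith
        rw [← Real.exp_add, ← Real.exp_add] at h1
        have h2 := Real.log_le_log (by positivity) h1
        rw [Real.log_exp] at h2
        linarith
      have hp2' : 0 ≤ Real.log (((c * b : ℕ) : ℝ) + 3) := by
        apply Real.log_nonneg
        have : (0 : ℝ) ≤ ((c * b : ℕ) : ℝ) := Nat.cast_nonneg _
        linarith
      have hp1' : 0 ≤ Real.log ((X / b : ℕ) : ℝ) ^ (-(3 / 16 : ℝ)) :=
        Real.rpow_nonneg (by linarith) _
      have hY4 : ((X / b : ℕ) : ℝ) ≤ X / b := Nat.cast_div_le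
      have hY0 : (0 : ℝ) ≤ ((X / b : ℕ) : ℝ) := Nat.cast_nonneg _
      calc ((T b).card : ℝ) ≤ C0 * ((X / b : ℕ) : ℝ) *
            Real.log ((X / b : ℕ) : ℝ) ^ (-(3 / 16 : ℝ)) * Real.log (((c * b : ℕ) : ℝ) + 3) := hmain
        _ ≤ C1 * ((X / b : ℕ) : ℝ) *
            Real.log ((X / b : ℕ) : ℝ) ^ (-(3 / 16 : ℝ)) * Real.log (((c * b : ℕ) : ℝ) + 3) := by
            gcongr
        _ ≤ C1 * ((X : ℝ) / b) * (2 * L ^ (-(3 / 16 : ℝ))) * (99 * M) := by
            gcongr
        _ = _ := by ring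
    have hsum : ∑ b ∈ B, (1 : ℝ) / b ≤ 2 * M / l := by
      have h1 := smB_sum (l := l) (N := N) (by omega) B (fun b hb => by
        rw [hB, mem_filter, mem_Icc] at hb
        exact ⟨hb.2.1, hb.1.2, hb.2.2.1⟩)
      refine h1.trans ?_
      have h3 : Real.log N ≤ M := by
        have hN0 : (0 : ℝ) < N := by exact_mod_cast hN1
        have := Real.log_le_log hN0 hNle
        rwa [Real.log_exp] at this
      gcongr
      linarith
    have hM2 : M * M ≤ L ^ (1 / 16 : ℝ) := by
      rw [hM, ← Real.rpow_add hL0]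
      exact Real.rpow_le_rpow_of_exponent_le (by linarith) (by rw [hδ]; norm_num)
    have hfin : L ^ (-(3 / 16 : ℝ)) * L ^ (1 / 16 : ℝ) = L ^ (-(1 / 8 : ℝ)) := by
      rw [← Real.rpow_add hL0]
      norm_num
    have hfinal : (S.card : ℝ) ≤ (396 * C1 * X * L ^ (-(1 / 8 : ℝ))) / l := by
      calc (S.card : ℝ) ≤ ∑ b ∈ B, ((T b).card : ℝ) := hcard
        _ ≤ ∑ b ∈ B, (C1 * X * (2 * L ^ (-(3 / 16 : ℝ))) * (99 * M)) * (1 / b) := sum_le_sum hTb
        _ = (C1 * X * (2 * L ^ (-(3 / 16 : ℝ))) * (99 * M)) * ∑ b ∈ B, (1 : ℝ) / b := by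
            rw [mul_sum]
        _ ≤ (C1 * X * (2 * L ^ (-(3 / 16 : ℝ))) * (99 * M)) * (2 * M / l) := by
            refine mul_le_mul_of_nonneg_left hsum ?_
            positivity
        _ = (396 * C1 * X * (L ^ (-(3 / 16 : ℝ)) * (M * M))) / l := by ring
        _ ≤ (396 * C1 * X * (L ^ (-(3 / 16 : ℝ)) * L ^ (1 / 16 : ℝ))) / l := by
            gcongr
        _ = (396 * C1 * X * L ^ (-(1 / 8 : ℝ))) / l := by rw [hfin]
    rw [le_div_iff₀ hl0] at hfinal
    have : 0 ≤ X * L ^ (-(1 / 8 : ℝ)) := by positivity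
    nlinarith

end Pool.Agent.Wal
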