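import Pool.Agent.Lib.MP_6498db_nt.L.MainL
import Pool.Agent.Lib.MP_6498db_nt.W.Engine
import Pool.Agent.Lib.MP_6498db_nt.L.SmB
import Pool.Agent.Lib.MP_6498db_nt.W.Rank

/-! WALSH, Theorem 2, row PerL: the bound for one exponent `l ≤ (log X)^3`. -/

set_option autoImplicit false

namespace Pool.Agent.Wal

open Finset

/-- a sum over pairs is at least the number of the integers which have an admissible pair -/
private theorem perL_cnt (X : ℕ) (Q : ℕ → ℕ → Prop) (F : ℕ → ℕ → ℝ) (hF : ∀ a b, 0 ≤ F a b)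
    (S : Finset ℕ)
    (hS : ∀ m ∈ S, 1 ≤ m ∧ m ≤ X ∧ ∃ a b : ℕ, a * b = m ∧ Q a b ∧ 1 ≤ F a b) :
    (S.card : ℝ) ≤ S2 X Q F := by
  classical
  have hch : ∀ m : ℕ, ∃ q : ℕ × ℕ, m ∈ S → q.1 * q.2 = m ∧ Q q.1 q.2 ∧ 1 ≤ F q.1 q.2 := by
    intro m
    by_cases hm : m ∈ S
    · obtain ⟨_, _, a, b, hab⟩ := hS m hm
      exact ⟨(a, b), fun _ => hab⟩
    · exact ⟨(0, 0), fun h => absurd h hm⟩
  choose f hf using hch
  set G : (_ : ℕ) × ℕ → ℝ := fun q => if Q q.1 q.2 then F q.1 q.2 else 0 with hG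
  have hS2 : S2 X Q F = ∑ q ∈ (Icc 1 X).sigma (fun a => Icc 1 (X / a)), G q := by
    rw [sum_sigma]
    unfold S2
    refine sum_congr rfl fun a _ => sum_congr rfl fun b _ => ?_
    simp only [hG]
  have hG0 : ∀ q, 0 ≤ G q := by
    intro q
    simp only [hG]
    split_ifs
    · exact hF _ _
    · exact le_rfl
  set g : ℕ → (_ : ℕ) × ℕ := fun m => ⟨(f m).1, (f m).2⟩ with hg
  have hinj : Set.InjOn g (S : Set ℕ) := by
    intro m hm m' hm' hmm
    have e1 : (f m).1 = (f m').1 := congrArg (fun q : (_ : ℕ) × ℕ => q.1) hmm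
    have e2 : (f m).2 = (f m').2 := congrArg (fun q : (_ : ℕ) × ℕ => q.2) hmm
    rw [← (hf m (mem_coe.mp hm)).1, ← (hf m' (mem_coe.mp hm')).1, e1, e2]
  have hval : ∀ m ∈ S, (1 : ℝ) ≤ G (g m) := by
    intro m hm
    obtain ⟨_, h2, h3⟩ := hf m hm
    simp only [hG, hg]
    rw [if_pos h2]
    exact h3
  have hmem : S.image g ⊆ (Icc 1 X).sigma (fun a => Icc 1 (X / a)) := by
    intro q hq
    obtain ⟨m, hm, rfl⟩ := mem_image.mp hq
    obtain ⟨hab, _, _⟩ := hf m hm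
    obtain ⟨hm1, hm2, _⟩ := hS m hm
    have ha : 0 < (f m).1 := by
      rcases Nat.eq_zero_or_pos (f m).1 with h | h
      · rw [h, zero_mul] at hab; omega
      · exact h
    have hb : 0 < (f m).2 := by
      rcases Nat.eq_zero_or_pos (f m).2 with h | h
      · rw [h, mul_zero] at hab; omega
      · exact h
    have hab2 : (f m).1 * (f m).2 ≤ X := by rw [hab]; exact hm2
    simp only [hg, mem_sigma, mem_Icc]
    refine ⟨⟨ha, ?_⟩, hb, ?_⟩
    · exact le_trans (Nat.le_mul_of_pos_right _ hb) hab2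
    · rw [Nat.le_div_iff_mul_le ha, mul_comm]
      exact hab2
  rw [hS2]
  calc (S.card : ℝ) = ∑ m ∈ S, (1 : ℝ) := by rw [sum_const, nsmul_eq_mul, mul_one]
    _ ≤ ∑ m ∈ S, G (g m) := sum_le_sum hval
    _ = ∑ q ∈ S.image g, G q := (sum_image hinj).symm
    _ ≤ ∑ q ∈ (Icc 1 X).sigma (fun a => Icc 1 (X / a)), G q :=
        sum_le_sum_of_subset_of_nonneg hmem fun q _ _ => hG0 q

private theorem perL_log {X : ℕ} (hX : 3 ≤ X) : 1 ≤ Real.log X := by
  have h3 : (3 : ℝ) ≤ X := by exact_mod_cast hX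
  rw [Real.le_log_iff_exp_le (by linarith)]
  have := Real.exp_one_lt_d9
  linarith

private theorem perL_z {X : ℕ} (hX : 3 ≤ X) : 2 ≤ zz δ0 X := by
  have h1 := perL_log hX
  have h2 : (1 : ℝ) ≤ Real.log X ^ δ0 := Real.one_le_rpow h1 (by unfold δ0; norm_num)
  unfold zz
  apply Nat.le_floor
  have h3 := Real.add_one_le_exp (Real.log X ^ δ0)
  push_cast
  linarith

private theorem perL_zexp {X : ℕ} (hX : 3 ≤ X) :
    Real.exp (Real.log X ^ δ0) / 2 ≤ (zz δ0 X : ℝ) := by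
  have h1 : (2 : ℝ) ≤ zz δ0 X := by exact_mod_cast perL_z hX
  have h2 : Real.exp (Real.log X ^ δ0) < (zz δ0 X : ℝ) + 1 := by
    unfold zz
    exact Nat.lt_floor_add_one _
  linarith

/-- decay of the exponential -/
private theorem perL_exp (n : ℕ) : ∃ C : ℝ, 0 < C ∧ ∀ T : ℝ, 0 < T →
    Real.exp (-(T / 6)) ≤ C * (T ^ n)⁻¹ := by
  refine ⟨(n.factorial : ℝ) * 6 ^ n, by positivity, fun T hT => ?_⟩
  have h1 := Real.pow_div_factorial_le_exp (T / 6) (by positivity) n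
  have h2 : 0 < (T / 6) ^ n / (n.factorial : ℝ) := by positivity
  rw [Real.exp_neg]
  refine (inv_anti₀ h2 h1).trans (le_of_eq ?_)
  rw [div_pow]
  field_simp

/-- the error of the engine -/
private theorem perL_err : ∃ C : ℝ, 0 < C ∧ ∀ X : ℕ, 3 ≤ X →
    (zz δ0 X : ℝ) ^ (-(1 / 6 : ℝ)) * (1 + Real.log X) ^ 7 ≤ C * (Real.log X ^ 4)⁻¹ := by
  obtain ⟨C, hC, h⟩ := perL_exp 704
  refine ⟨2 * C * 2 ^ 7, by positivity, fun X hX => ?_⟩
  have h1 := perL_log hX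
  have hL0 : 0 < Real.log X := by linarith
  set L := Real.log X with hL
  set T : ℝ := L ^ δ0 with hT
  have hT0 : 0 < T := Real.rpow_pos_of_pos hL0 _
  have hTL : T ^ 64 = L := by
    rw [hT, ← Real.rpow_natCast, ← Real.rpow_mul hL0.le]
    unfold δ0
    norm_num
  have h2 : (zz δ0 X : ℝ) ^ (-(1 / 6 : ℝ)) ≤ 2 * Real.exp (-(T / 6)) := by
    have h3 : 0 < Real.exp T / 2 := by positivity
    have h4 : (zz δ0 X : ℝ) ^ (-(1 / 6 : ℝ)) ≤ (Real.exp T / 2) ^ (-(1 / 6 : ℝ)) :=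
      Real.rpow_le_rpow_of_nonpos h3 (perL_zexp hX) (by norm_num)
    refine h4.trans ?_
    rw [Real.div_rpow (Real.exp_pos _).le (by norm_num), ← Real.exp_mul]
    have h5 : (1 / 2 : ℝ) ≤ 2 ^ (-(1 / 6 : ℝ)) := by
      have h6 : (2 : ℝ) ^ (-1 : ℝ) ≤ 2 ^ (-(1 / 6 : ℝ)) :=
        Real.rpow_le_rpow_of_exponent_le (by norm_num) (by norm_num)
      rw [Real.rpow_neg_one] at h6
      linarith
    have h7 : T * (-(1 / 6 : ℝ)) = -(T / 6) := by ring
    rw [h7, div_le_iff₀ (Real.rpow_pos_of_pos (by norm_num) _)]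
    have h8 := Real.exp_pos (-(T / 6))
    nlinarith
  have h9 : (1 + L) ^ 7 ≤ (2 * L) ^ 7 := pow_le_pow_left₀ (by linarith) (by linarith) 7
  have h10 := h T hT0
  have h11 : (T ^ 704)⁻¹ * L ^ 7 = (L ^ 4)⁻¹ := by
    rw [← hTL, ← pow_mul, ← pow_mul, inv_mul_eq_div, inv_eq_one_div, div_eq_div_iff
      (pow_ne_zero _ hT0.ne') (pow_ne_zero _ hT0.ne'), one_mul, ← pow_add]
  calc (zz δ0 X : ℝ) ^ (-(1 / 6 : ℝ)) * (1 + L) ^ 7
      ≤ (2 * (C * (T ^ 704)⁻¹)) * (2 * L) ^ 7 := by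
        refine mul_le_mul (h2.trans (mul_le_mul_of_nonneg_left h10 zero_le_two)) h9
          (by positivity) (by positivity)
    _ = 2 * C * 2 ^ 7 * ((T ^ 704)⁻¹ * L ^ 7) := by ring
    _ = 2 * C * 2 ^ 7 * (L ^ 4)⁻¹ := by rw [h11]

private theorem perL_wt (P : ℕ → Prop) (z : ℕ) {a : ℕ} (h : ro z a = 1) : wt P z a = 0 := by
  classical
  rw [wt_ro, h]
  unfold wt
  rw [Nat.primeFactors_one]
  rfl

private theorem perL_wtF (P : ℕ → Prop) (hP : ∀ p, ¬ P p) (z b : ℕ) : wt P z b = 0 := by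
  classical
  unfold wt
  rw [Finset.card_eq_zero]
  ext p
  rw [mem_filter]
  constructor
  · rintro ⟨_, h⟩
    exact absurd h.2 (hP p)
  · intro h
    exact absurd h (Finset.notMem_empty _)

/-- a number `b ∣ m` without primes `> z` is at most `sm z m` -/
private theorem perL_sm {z m a b : ℕ} (hm : Squarefree m) (hab : a * b = m) (h : ro z b = 1) :
    b ≤ sm z m := by
  have hb : Squarefree b := hm.squarefree_of_dvd ⟨a, by rw [← hab, mul_comm]⟩
  have h1 := sm_mul_ro z b hb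
  rw [h, mul_one] at h1
  have h2 := sm_mul_ro z m hm
  have h3 : b ∣ sm z m := by
    have h4 : b ∣ sm z m * ro z m := by
      rw [h2, ← hab]
      exact dvd_mul_left b a
    refine Nat.Coprime.dvd_of_dvd_mul_right ?_ h4
    refine Nat.coprime_of_dvd fun p hp hpb hpr => ?_
    rw [← h1] at hpb
    have h5 := sm_smooth z b p hp hpb
    have h6 := ro_rough z m p hp hpr
    omega
  exact Nat.le_of_dvd (sm_pos z m) h3

/-- Proof. `z = zz δ0 X`. If `ro z b = 1` then `b ∣ sm z m`, so `b ≤ Z`: `small_b`. Otherwise `ro z b ≠ 1`. If moreover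
`ro z a = 1`: the pair `(a, b)` is counted in `main_L` with weight 1. If `ro z a ≠ 1`: `engine` with
`D = ⟨c, True, True, 1, False, 1⟩`, `VA a = (1/2)^(wt True z a)`, `VB b = [all primes of b are 1 mod l, ro z b ≠ 1]`,
`FitL` gives `FitsZ D z a b` (`z ≥ 2`), the left side is the number of pairs, the right side `2 * main_L + error`; error
`C X z^(-1/6) (1 + log X)^7 ≤ C' X (log X)^(-4)`, and `1/l ≥ (log X)^(-3)`. -/
theorem perL : ∃ C c₀ : ℝ, 0 < c₀ ∧ ∀ X : ℕ, 3 ≤ X → ∀ l : ℕ, l.Prime → 5 ≤ l → (l : ℝ) ≤ Real.log X ^ 3 →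
    ∀ c : ℕ, (c = 1 ∨ c = l) → ∀ S : Finset ℕ,
    (∀ m ∈ S, m ∈ sqs X ∧ (sm (zz δ0 X) m : ℝ) ≤ Real.exp (Real.log X ^ (2 * δ0)) ∧
      ∃ a b : ℕ, a * b = m ∧ FitL c l a b) →
    (S.card : ℝ) ≤ C * X * Real.log X ^ (-c₀) / l := by
  classical
  obtain ⟨C1, hC1, hsb⟩ := small_b
  obtain ⟨C2, hC2, hml⟩ := main_L
  obtain ⟨C3, hC3, hen⟩ := engine
  obtain ⟨C4, hC4, herr⟩ := perL_err
  refine ⟨C1 + 3 * C2 + C3 * C4, 0.05, by norm_num, ?_⟩
  intro X hX l hl h5 hlX c hc S hS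
  have hL := perL_log hX
  have hL0 : 0 < Real.log X := by linarith
  have hX0 : (0 : ℝ) ≤ X := Nat.cast_nonneg X
  have hl0 : (0 : ℝ) < l := by exact_mod_cast hl.pos
  have hz := perL_z hX
  have hmain := hml X hX l hl h5 hlX
  have herrX := herr X hX
  set L := Real.log X with hLdef
  set z := zz δ0 X with hzdef
  set Z := Real.exp (L ^ (2 * δ0)) with hZ
  set Q : ℕ → ℕ → Prop := fun a b => Squarefree (a * b) ∧
    (∀ q : ℕ, q.Prime → q ∣ b → q % l = 1) ∧ ro z b ≠ 1 with hQ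
  set VA : ℕ → ℝ := fun a => (1 / 2 : ℝ) ^ wt (fun _ => True) z a with hVA
  set VB : ℕ → ℝ := fun b => if (∀ q : ℕ, q.Prime → q ∣ b → q % l = 1) ∧ ro z b ≠ 1 then 1 else 0
    with hVB
  have hVA01 : ∀ n, 0 ≤ VA n ∧ VA n ≤ 1 := by
    intro n
    simp only [hVA]
    exact ⟨by positivity, pow_le_one₀ (by norm_num) (by norm_num)⟩
  have hVB01 : ∀ n, 0 ≤ VB n ∧ VB n ≤ 1 := by
    intro n
    simp only [hVB]
    split_ifs
    · exact ⟨zero_le_one, le_rfl⟩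
    · exact ⟨le_rfl, zero_le_one⟩
  set D : Dat := ⟨c, fun _ => True, fun _ => True, fun _ => 1, fun _ => False, fun _ => 1⟩ with hD
  -- the three parts
  set S1 := S.filter (fun m => ∃ a b : ℕ, a * b = m ∧ (b : ℝ) ≤ Z ∧ FitL c l a b) with hS1
  set Sa := S.filter (fun m => ∃ a b : ℕ, a * b = m ∧ FitL c l a b ∧ ro z b ≠ 1 ∧ ro z a = 1)
    with hSa
  set Sb := S.filter (fun m => ∃ a b : ℕ, a * b = m ∧ FitL c l a b ∧ ro z b ≠ 1 ∧ ro z a ≠ 1)
    with hSb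
  have hcov : S ⊆ S1 ∪ (Sa ∪ Sb) := by
    intro m hm
    obtain ⟨hmX, hsm, a, b, hab, hfit⟩ := hS m hm
    obtain ⟨hm1, hm2, hsq⟩ := mem_sqs.mp hmX
    rw [mem_union, mem_union, hS1, hSa, hSb, mem_filter, mem_filter, mem_filter]
    by_cases hrb : ro z b = 1
    · left
      refine ⟨hm, a, b, hab, ?_, hfit⟩
      have h1 : (b : ℝ) ≤ (sm z m : ℝ) := by exact_mod_cast perL_sm hsq hab hrb
      exact h1.trans hsm
    · right
      by_cases hra : ro z a = 1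
      · exact Or.inl ⟨hm, a, b, hab, hfit, hrb, hra⟩
      · exact Or.inr ⟨hm, a, b, hab, hfit, hrb, hra⟩
  have hcard : (S.card : ℝ) ≤ S1.card + (Sa.card + Sb.card) := by
    have h1 : S.card ≤ S1.card + (Sa.card + Sb.card) :=
      (card_le_card hcov).trans ((card_union_le _ _).trans
        (Nat.add_le_add_left (card_union_le _ _) _))
    exact_mod_cast h1
  -- small `b`
  have h1 : (S1.card : ℝ) ≤ C1 * X * L ^ (-(1 / 8 : ℝ)) / l := by
    refine hsb X hX l hl h5 hlX c hc S1 fun m hm => ?_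
    rw [hS1, mem_filter] at hm
    exact ⟨(hS m hm.1).1, hm.2⟩
  -- smooth `a`
  have h2 : (Sa.card : ℝ) ≤ C2 * X * L ^ (-(0.05 : ℝ)) / l := by
    refine le_trans ?_ hmain
    refine perL_cnt (2 * X) Q (fun a _ => VA a) (fun a _ => (hVA01 a).1) Sa fun m hm => ?_
    rw [hSa, mem_filter] at hm
    obtain ⟨hmS, a, b, hab, hfit, hrb, hra⟩ := hm
    obtain ⟨hm1, hm2, hsq⟩ := mem_sqs.mp (hS m hmS).1
    refine ⟨hm1, by omega, a, b, hab, ⟨by rw [hab]; exact hsq, hfit.mem, hrb⟩, ?_⟩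
    simp only [hVA]
    rw [perL_wt _ _ hra, pow_zero]
  -- rough `a`
  have h3 : (Sb.card : ℝ) ≤ S2 X (fun a b => Squarefree (a * b) ∧ ro z a ≠ 1 ∧ ro z b ≠ 1 ∧
      FitsZ D z a b) (fun a b => VA a * VB b * 2 ^ (wt D.aC z a + wt D.bC z b)) := by
    refine perL_cnt X _ _ (fun a b => mul_nonneg (mul_nonneg (hVA01 a).1 (hVB01 b).1)
      (by positivity)) Sb fun m hm => ?_
    rw [hSb, mem_filter] at hm
    obtain ⟨hmS, a, b, hab, hfit, hrb, hra⟩ := hm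
    obtain ⟨hm1, hm2, hsq⟩ := mem_sqs.mp (hS m hmS).1
    refine ⟨hm1, hm2, a, b, hab, ⟨by rw [hab]; exact hsq, hra, hrb, ?_⟩, ?_⟩
    · refine ⟨fun p hp hzp hpa _ => hfit.ca p hp (by omega) hpa, fun q _ _ _ hq => ?_⟩
      exact absurd hq id
    · have e1 : VB b = 1 := by
        simp only [hVB]
        exact if_pos ⟨hfit.mem, hrb⟩
      have e2 : wt D.bC z b = 0 := perL_wtF _ (fun _ => id) z b
      have e3 : wt D.aC z a = wt (fun _ => True) z a := rfl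
      rw [e1, e2, e3, add_zero, mul_one]
      simp only [hVA]
      rw [← mul_pow]
      norm_num
  have h4 := hen D (fun _ => Or.inl rfl) (fun _ => Or.inl rfl) z X hz (by omega) VA VB hVA01 hVB01
  have h5' : S2 (2 * X) (fun a b => Squarefree (a * b)) (fun a b => VA a * VB b) ≤
      S2 (2 * X) Q (fun a _ => VA a) := by
    unfold S2
    refine sum_le_sum fun a _ => sum_le_sum fun b _ => ?_
    beta_reduce
    by_cases hq : (∀ q : ℕ, q.Prime → q ∣ b → q % l = 1) ∧ ro z b ≠ 1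
    · have e1 : VB b = 1 := by
        simp only [hVB]
        exact if_pos hq
      by_cases hsq : Squarefree (a * b)
      · rw [if_pos hsq, if_pos ⟨hsq, hq⟩, e1, mul_one]
      · rw [if_neg hsq, if_neg fun h => hsq h.1]
    · have e1 : VB b = 0 := by
        simp only [hVB]
        exact if_neg hq
      have e2 : ¬ Q a b := fun h => hq (And.right h)
      rw [e1, mul_zero, if_neg e2, ite_self]
  have h6 : C3 * X * (z : ℝ) ^ (-(1 / 6 : ℝ)) * (1 + L) ^ 7 ≤ C3 * C4 * X * L ^ (-(0.05 : ℝ)) / l := by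
    have e1 : C3 * X * (z : ℝ) ^ (-(1 / 6 : ℝ)) * (1 + L) ^ 7 =
        C3 * X * ((z : ℝ) ^ (-(1 / 6 : ℝ)) * (1 + L) ^ 7) := by ring
    have e2 : (L ^ 4)⁻¹ ≤ L ^ (-(0.05 : ℝ)) / l := by
      have e3 : (L ^ 4)⁻¹ = (L ^ 3)⁻¹ * L⁻¹ := by
        rw [← mul_inv]
        ring
      have e4 : (L ^ 3)⁻¹ ≤ (l : ℝ)⁻¹ := inv_anti₀ hl0 hlX
      have e5 : L⁻¹ ≤ L ^ (-(0.05 : ℝ)) := by
        rw [← Real.rpow_neg_one]
        exact Real.rpow_le_rpow_of_exponent_le hL (by norm_num)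
      rw [e3, div_eq_mul_inv, mul_comm (L ^ (-(0.05 : ℝ)))]
      exact mul_le_mul e4 e5 (by positivity) (by positivity)
    rw [e1]
    calc C3 * X * ((z : ℝ) ^ (-(1 / 6 : ℝ)) * (1 + L) ^ 7) ≤ C3 * X * (C4 * (L ^ 4)⁻¹) :=
          mul_le_mul_of_nonneg_left herrX (by positivity)
      _ ≤ C3 * X * (C4 * (L ^ (-(0.05 : ℝ)) / l)) :=
          mul_le_mul_of_nonneg_left (mul_le_mul_of_nonneg_left e2 hC4.le) (by positivity)
      _ = C3 * C4 * X * L ^ (-(0.05 : ℝ)) / l := by ring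
  have h7 : C1 * X * L ^ (-(1 / 8 : ℝ)) / l ≤ C1 * X * L ^ (-(0.05 : ℝ)) / l := by
    refine div_le_div_of_nonneg_right ?_ hl0.le
    refine mul_le_mul_of_nonneg_left ?_ (by positivity)
    exact Real.rpow_le_rpow_of_exponent_le hL (by norm_num)
  calc (S.card : ℝ) ≤ S1.card + (Sa.card + Sb.card) := hcard
    _ ≤ C1 * X * L ^ (-(0.05 : ℝ)) / l + (C2 * X * L ^ (-(0.05 : ℝ)) / l +
        (2 * (C2 * X * L ^ (-(0.05 : ℝ)) / l) + C3 * C4 * X * L ^ (-(0.05 : ℝ)) / l)) := by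
        have h8 := h5'.trans hmain
        linarith
    _ = (C1 + 3 * C2 + C3 * C4) * X * L ^ (-(0.05 : ℝ)) / l := by ring

/-- Proof. Remove the `m` with `sm z m > Z` (`rank`), then sum `perL` over the primes `l ≤ (log X)^3` and `c = 1, l`:
`∑ 1/l ≤ 1 + 3 loglog X + ...`. -/
theorem small_l : ∃ C c₀ : ℝ, 0 < c₀ ∧ ∀ X : ℕ, 3 ≤ X → ∀ S : Finset ℕ,
    (∀ m ∈ S, m ∈ sqs X ∧ ∃ l a b : ℕ, l.Prime ∧ 5 ≤ l ∧ (l : ℝ) ≤ Real.log X ^ 3 ∧ a * b = m ∧
      (FitL 1 l a b ∨ FitL l l a b)) →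
    (S.card : ℝ) ≤ C * X * Real.log X ^ (-c₀) := by
  classical
  obtain ⟨C0, c₁, hc₁, hP⟩ := perL
  obtain ⟨C5, hR⟩ := rank δ0 (by unfold δ0; norm_num) (by unfold δ0; norm_num)
  set C6 := max C0 0 with hC6
  set C7 := max C5 0 with hC7
  have hC6' : 0 ≤ C6 := le_max_right _ _
  have hC7' : 0 ≤ C7 := le_max_right _ _
  set c₂ := min (c₁ / 2) 1 with hc₂
  have hc₂0 : 0 < c₂ := lt_min (by linarith) one_pos
  refine ⟨C7 + 2 * C6 * (1 + 3 * (2 / c₁)), c₂, hc₂0, ?_⟩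
  intro X hX S hS
  have hL := perL_log hX
  have hL0 : 0 < Real.log X := by linarith
  have hX0 : (0 : ℝ) ≤ X := Nat.cast_nonneg X
  have hPX := hP X hX
  have hRX := hR X hX
  set L := Real.log X with hLdef
  set z := zz δ0 X with hzdef
  set Z := Real.exp (L ^ (2 * δ0)) with hZ
  set N := ⌊L ^ 3⌋₊ with hN
  set P := (Icc 1 N).filter (fun l => l.Prime ∧ 5 ≤ l) with hPdef
  set S0 := S.filter (fun m => Z < (sm z m : ℝ)) with hS0
  set T : ℕ → ℕ → Finset ℕ := fun l c => S.filter (fun m => (sm z m : ℝ) ≤ Z ∧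
    ∃ a b : ℕ, a * b = m ∧ FitL c l a b) with hT
  have hcov : S ⊆ S0 ∪ P.biUnion (fun l => T l 1 ∪ T l l) := by
    intro m hm
    obtain ⟨hmX, l, a, b, hl, h5, hlX, hab, hfit⟩ := hS m hm
    rw [mem_union]
    rcases lt_or_ge Z (sm z m : ℝ) with h | h
    · left
      rw [hS0, mem_filter]
      exact ⟨hm, h⟩
    · right
      rw [mem_biUnion]
      refine ⟨l, ?_, ?_⟩
      · rw [hPdef, mem_filter, mem_Icc]
        exact ⟨⟨hl.one_le, Nat.le_floor hlX⟩, hl, h5⟩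
      · rw [mem_union]
        rcases hfit with hfit | hfit
        · left
          simp only [hT, mem_filter]
          exact ⟨hm, h, a, b, hab, hfit⟩
        · right
          simp only [hT, mem_filter]
          exact ⟨hm, h, a, b, hab, hfit⟩
  have hcard : (S.card : ℝ) ≤ S0.card + ∑ l ∈ P, (((T l 1).card : ℝ) + ((T l l).card : ℝ)) := by
    have h1 : S.card ≤ S0.card + ∑ l ∈ P, ((T l 1).card + (T l l).card) := by
      refine (card_le_card hcov).trans ((card_union_le _ _).trans (Nat.add_le_add_left ?_ _))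
      exact card_biUnion_le.trans (sum_le_sum fun l _ => card_union_le _ _)
    exact_mod_cast h1
  have h0 : (S0.card : ℝ) ≤ C7 * X * L ^ (-c₂) := by
    have h1 : (S0.card : ℝ) ≤ C5 * X * L ^ (-(1 : ℝ)) := by
      refine hRX S0 fun m hm => ?_
      rw [hS0, mem_filter] at hm
      exact ⟨(hS m hm.1).1, hm.2⟩
    refine h1.trans ?_
    have h2 : L ^ (-(1 : ℝ)) ≤ L ^ (-c₂) :=
      Real.rpow_le_rpow_of_exponent_le hL (neg_le_neg (min_le_right _ _))
    have h3 : (0 : ℝ) ≤ L ^ (-(1 : ℝ)) := (Real.rpow_pos_of_pos hL0 _).le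
    calc C5 * X * L ^ (-(1 : ℝ)) ≤ C7 * X * L ^ (-(1 : ℝ)) := by
          refine mul_le_mul_of_nonneg_right ?_ h3
          exact mul_le_mul_of_nonneg_right (le_max_left _ _) hX0
      _ ≤ C7 * X * L ^ (-c₂) := mul_le_mul_of_nonneg_left h2 (by positivity)
  have hterm : ∀ l ∈ P, ((T l 1).card : ℝ) + ((T l l).card : ℝ) ≤
      2 * C6 * X * L ^ (-c₁) * (1 / l) := by
    intro l hl
    rw [hPdef, mem_filter, mem_Icc] at hl
    obtain ⟨⟨hl1, hlN⟩, hlp, h5⟩ := hl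
    have hlX : (l : ℝ) ≤ L ^ 3 := by
      have h1 : (l : ℝ) ≤ (N : ℝ) := by exact_mod_cast hlN
      exact h1.trans (Nat.floor_le (by positivity))
    have hl0 : (0 : ℝ) < l := by exact_mod_cast hl1
    have hLc : 0 < L ^ (-c₁) := Real.rpow_pos_of_pos hL0 _
    have key : ∀ c : ℕ, (c = 1 ∨ c = l) → ((T l c).card : ℝ) ≤ C6 * X * L ^ (-c₁) * (1 / l) := by
      intro c hc
      have h1 := hPX l hlp h5 hlX c hc (T l c) fun m hm => by
        simp only [hT, mem_filter] at hm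
        exact ⟨(hS m hm.1).1, hm.2⟩
      refine h1.trans ?_
      rw [mul_one_div]
      refine div_le_div_of_nonneg_right ?_ hl0.le
      refine mul_le_mul_of_nonneg_right ?_ hLc.le
      exact mul_le_mul_of_nonneg_right (le_max_left _ _) hX0
    have h1 := key 1 (Or.inl rfl)
    have h2 := key l (Or.inr rfl)
    calc ((T l 1).card : ℝ) + ((T l l).card : ℝ) ≤
        C6 * X * L ^ (-c₁) * (1 / l) + C6 * X * L ^ (-c₁) * (1 / l) := add_le_add h1 h2
      _ = 2 * C6 * X * L ^ (-c₁) * (1 / l) := by ring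
  have hharm : ∑ l ∈ P, (1 : ℝ) / l ≤ 1 + 3 * (2 / c₁) * L ^ (c₁ / 2) := by
    have h1 : ∑ l ∈ P, (1 : ℝ) / l ≤ ∑ l ∈ Icc 1 N, (1 : ℝ) / l :=
      sum_le_sum_of_subset_of_nonneg (filter_subset _ _) fun l _ _ => by positivity
    have h2 : ∑ l ∈ Icc 1 N, (1 : ℝ) / l ≤ 1 + Real.log N := by
      have h := harmonic_le_one_add_log N
      rw [harmonic_eq_sum_Icc] at h
      push_cast at h
      refine le_trans (le_of_eq (sum_congr rfl fun b _ => ?_)) h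
      rw [one_div]
    have h3 : Real.log N ≤ 3 * Real.log L := by
      have h4 : (N : ℝ) ≤ L ^ 3 := Nat.floor_le (by positivity)
      have h5 : (0 : ℝ) < N := by
        have h6 : 1 ≤ N := by
          rw [hN]
          apply Nat.le_floor
          push_cast
          exact one_le_pow₀ hL
        exact_mod_cast h6
      have h7 := Real.log_le_log h5 h4
      rw [Real.log_pow] at h7
      push_cast at h7
      exact h7
    have h4 : Real.log L ≤ L ^ (c₁ / 2) / (c₁ / 2) :=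
      Real.log_le_rpow_div hL0.le (by linarith)
    have h5 : L ^ (c₁ / 2) / (c₁ / 2) = (2 / c₁) * L ^ (c₁ / 2) := by
      field_simp
    rw [h5] at h4
    linarith
  have hLc : 0 < L ^ (-c₁) := Real.rpow_pos_of_pos hL0 _
  have hLh : (1 : ℝ) ≤ L ^ (c₁ / 2) := Real.one_le_rpow hL (by linarith)
  have h2c : 0 ≤ 2 / c₁ := by positivity
  have hfin : L ^ (-c₁) * (1 + 3 * (2 / c₁) * L ^ (c₁ / 2)) ≤ (1 + 3 * (2 / c₁)) * L ^ (-c₂) := by
    have e1 : L ^ (-c₁) * L ^ (c₁ / 2) = L ^ (-(c₁ / 2)) := by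
      rw [← Real.rpow_add hL0]
      congr 1
      ring
    have e2 : L ^ (-(c₁ / 2)) ≤ L ^ (-c₂) :=
      Real.rpow_le_rpow_of_exponent_le hL (neg_le_neg (min_le_left _ _))
    have e3 : L ^ (-c₁) ≤ L ^ (-(c₁ / 2)) :=
      Real.rpow_le_rpow_of_exponent_le hL (by linarith)
    calc L ^ (-c₁) * (1 + 3 * (2 / c₁) * L ^ (c₁ / 2)) =
        L ^ (-c₁) + 3 * (2 / c₁) * (L ^ (-c₁) * L ^ (c₁ / 2)) := by ring
      _ = L ^ (-c₁) + 3 * (2 / c₁) * L ^ (-(c₁ / 2)) := by rw [e1]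
      _ ≤ L ^ (-c₂) + 3 * (2 / c₁) * L ^ (-c₂) := by
          refine add_le_add (e3.trans e2) (mul_le_mul_of_nonneg_left e2 (by positivity))
      _ = (1 + 3 * (2 / c₁)) * L ^ (-c₂) := by ring
  calc (S.card : ℝ) ≤ S0.card + ∑ l ∈ P, (((T l 1).card : ℝ) + ((T l l).card : ℝ)) := hcard
    _ ≤ C7 * X * L ^ (-c₂) + ∑ l ∈ P, 2 * C6 * X * L ^ (-c₁) * (1 / l) :=
        add_le_add h0 (sum_le_sum hterm)
    _ = C7 * X * L ^ (-c₂) + 2 * C6 * X * L ^ (-c₁) * ∑ l ∈ P, (1 : ℝ) / l := by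
        rw [mul_sum]
    _ ≤ C7 * X * L ^ (-c₂) + 2 * C6 * X * L ^ (-c₁) * (1 + 3 * (2 / c₁) * L ^ (c₁ / 2)) := by
        refine add_le_add le_rfl (mul_le_mul_of_nonneg_left hharm (by positivity))
    _ = C7 * X * L ^ (-c₂) + 2 * C6 * X * (L ^ (-c₁) * (1 + 3 * (2 / c₁) * L ^ (c₁ / 2))) := by ring
    _ ≤ C7 * X * L ^ (-c₂) + 2 * C6 * X * ((1 + 3 * (2 / c₁)) * L ^ (-c₂)) := by
        refine add_le_add le_rfl (mul_le_mul_of_nonneg_left hfin (by positivity))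
    _ = (C7 + 2 * C6 * (1 + 3 * (2 / c₁))) * X * L ^ (-c₂) := by ring

end Pool.Agent.Wal
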