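import Pool.Agent.Lib.MP_6498db_nt.L.LargeL
import Pool.Agent.Lib.MP_6498db_nt.L.PerL
import Pool.Agent.Lib.MP_6498db_nt.L.ArB
import Pool.Agent.Lib.MP_6498db_nt.W.Fin

/-! WALSH, Theorem 2, row Fin2. -/

set_option autoImplicit false

namespace Pool.Agent.Wal

open Finset

/-- the shape which every solution has for almost all `m` -/
def Cas (x n : ℕ) (ε : ℤ) : Prop := n.Coprime 6 ∧
  ∀ l : ℕ, l.Prime → l ∣ n → ∃ z : ℤ, (x : ℤ) ^ n - ε = l * z ^ 2 * ((x : ℤ) ^ (n / l) - ε)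

/-- `m` has a solution which does not have this shape -/
def Hit2 (m : ℕ) : Prop := ∃ (x n k : ℕ) (ε : ℤ), 1 < x ∧ 2 < n ∧ 0 < k ∧ (ε = 1 ∨ ε = -1) ∧
  (x : ℤ) ^ n - ε = m * (k : ℤ) ^ 2 ∧ ¬ Cas x n ε

private theorem five_le {l n : ℕ} (hl : l.Prime) (hln : l ∣ n) (hodd : Odd n) (h3 : ¬ 3 ∣ n) : 5 ≤ l := by
  by_contra h
  have h2 := hl.two_le
  have h4 : l = 2 ∨ l = 3 ∨ l = 4 := by omega
  rcases h4 with rfl | rfl | rfl
  · exact (Nat.not_even_iff_odd.2 hodd) (even_iff_two_dvd.2 hln)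
  · exact h3 hln
  · exact absurd hl (by norm_num)

private theorem hit2_div {s t m : ℕ} (h : t ^ 2 * s = m) (hm : 1 ≤ m) (hh : Hit2 m) : Hit2 s := by
  obtain ⟨x, n, k, ε, hx, hn, hk, hε, he, hc⟩ := hh
  have ht : 0 < t := by
    rcases Nat.eq_zero_or_pos t with h0 | h0
    · rw [h0] at h
      omega
    · exact h0
  refine ⟨x, n, t * k, ε, hx, hn, Nat.mul_pos ht hk, hε, ?_, hc⟩
  rw [he, ← h]
  push_cast
  ring

private theorem log_ge_one {X : ℕ} (hX : 3 ≤ X) : 1 ≤ Real.log X := by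
  have h1 : Real.exp 1 ≤ (X : ℝ) := by
    have h2 : (3 : ℝ) ≤ (X : ℝ) := by exact_mod_cast hX
    linarith [Real.exp_one_lt_d9]
  rw [Real.le_log_iff_exp_le (by positivity)]
  exact h1

/-- the property `P` is rare among the squarefree numbers -/
private def Rare (P : ℕ → ℕ → Prop) : Prop := ∃ C c : ℝ, 0 < c ∧ ∀ X : ℕ, 3 ≤ X → ∀ S : Finset ℕ,
    (∀ m ∈ S, m ∈ sqs X ∧ P X m) → (S.card : ℝ) ≤ C * X * Real.log X ^ (-c)

private theorem Rare.norm {P : ℕ → ℕ → Prop} (h : Rare P) : ∃ C c : ℝ, 0 ≤ C ∧ 0 < c ∧ c ≤ 1 ∧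
    ∀ X : ℕ, 3 ≤ X → ∀ S : Finset ℕ,
    (∀ m ∈ S, m ∈ sqs X ∧ P X m) → (S.card : ℝ) ≤ C * X * Real.log X ^ (-c) := by
  obtain ⟨C, c, hc, h⟩ := h
  refine ⟨max C 0, min c 1, le_max_right _ _, lt_min hc one_pos, min_le_right _ _,
    fun X hX S hS => (h X hX S hS).trans ?_⟩
  have hl := log_ge_one hX
  have h1 : Real.log X ^ (-c) ≤ Real.log X ^ (-(min c 1)) :=
    Real.rpow_le_rpow_of_exponent_le hl (neg_le_neg (min_le_left _ _))
  have h0 : (0 : ℝ) ≤ Real.log X ^ (-c) := Real.rpow_nonneg (by linarith) _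
  have hX0 : (0 : ℝ) ≤ (X : ℝ) := Nat.cast_nonneg X
  calc C * X * Real.log X ^ (-c) ≤ max C 0 * X * Real.log X ^ (-c) := by
        gcongr
        exact le_max_left _ _
    _ ≤ max C 0 * X * Real.log X ^ (-(min c 1)) := by
        gcongr

private theorem Rare.mono {P Q : ℕ → ℕ → Prop} (h : Rare Q)
    (hPQ : ∀ X m, Squarefree m → P X m → Q X m) : Rare P := by
  obtain ⟨C, c, hc, h⟩ := h
  exact ⟨C, c, hc, fun X hX S hS => h X hX S fun m hm =>
    ⟨(hS m hm).1, hPQ X m (mem_sqs.1 (hS m hm).1).2.2 (hS m hm).2⟩⟩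

private theorem Rare.or {P Q : ℕ → ℕ → Prop} (hP : Rare P) (hQ : Rare Q) :
    Rare (fun X m => P X m ∨ Q X m) := by
  classical
  obtain ⟨C, c, hC0, hc, hc1, h⟩ := hP.norm
  obtain ⟨D, d, hD0, hd, hd1, h'⟩ := hQ.norm
  refine ⟨C + D, min c d, lt_min hc hd, fun X hX S hS => ?_⟩
  have hl := log_ge_one hX
  have hX0 : (0 : ℝ) ≤ (X : ℝ) := Nat.cast_nonneg X
  have e1 : Real.log X ^ (-c) ≤ Real.log X ^ (-(min c d)) :=
    Real.rpow_le_rpow_of_exponent_le hl (neg_le_neg (min_le_left _ _))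
  have e2 : Real.log X ^ (-d) ≤ Real.log X ^ (-(min c d)) :=
    Real.rpow_le_rpow_of_exponent_le hl (neg_le_neg (min_le_right _ _))
  have h1 := h X hX (S.filter (P X)) fun m hm => by
    rw [mem_filter] at hm
    exact ⟨(hS m hm.1).1, hm.2⟩
  have h2 := h' X hX (S.filter (fun m => ¬ P X m)) fun m hm => by
    rw [mem_filter] at hm
    exact ⟨(hS m hm.1).1, (hS m hm.1).2.resolve_left hm.2⟩
  have h3 : (S.card : ℝ) = ((S.filter (P X)).card : ℝ) + ((S.filter (fun m => ¬ P X m)).card : ℝ) := by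
    rw [← Nat.cast_add, card_filter_add_card_filter_not]
  rw [h3]
  calc ((S.filter (P X)).card : ℝ) + ((S.filter (fun m => ¬ P X m)).card : ℝ)
      ≤ C * X * Real.log X ^ (-c) + D * X * Real.log X ^ (-d) := add_le_add h1 h2
    _ ≤ C * X * Real.log X ^ (-(min c d)) + D * X * Real.log X ^ (-(min c d)) := by
        gcongr
    _ = (C + D) * X * Real.log X ^ (-(min c d)) := by ring

/-- the fibre over `t` -/
private theorem fib_le {P : ℕ → Prop}
    (hdiv : ∀ {s t m : ℕ}, t ^ 2 * s = m → 1 ≤ m → P m → P s) {X t : ℕ} (ht : 1 ≤ t)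
    {S : Finset ℕ} {f g : ℕ → ℕ}
    (hS : ∀ m ∈ S, 1 ≤ m ∧ m ≤ X ∧ P m) (hf : ∀ m ∈ S, f m ^ 2 * g m = m ∧ Squarefree (g m)) :
    ∃ R : Finset ℕ, (∀ s ∈ R, s ∈ sqs (X / t ^ 2) ∧ P s) ∧ (S.filter (fun m => f m = t)).card = R.card := by
  classical
  refine ⟨(S.filter (fun m => f m = t)).image g, fun s hs => ?_, ?_⟩
  · obtain ⟨m, hm, rfl⟩ := mem_image.1 hs
    rw [mem_filter] at hm
    obtain ⟨hmS, hmt⟩ := hm
    obtain ⟨h1, h2, h3⟩ := hS m hmS
    obtain ⟨h4, h5⟩ := hf m hmS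
    refine ⟨mem_sqs.2 ⟨?_, ?_, h5⟩, hdiv h4 h1 h3⟩
    · rcases Nat.eq_zero_or_pos (g m) with h0 | h0
      · rw [h0] at h5
        exact absurd h5 not_squarefree_zero
      · exact h0
    · rw [Nat.le_div_iff_mul_le (by positivity), ← hmt, mul_comm, h4]
      exact h2
  · rw [card_image_of_injOn]
    intro m hm m' hm' he
    have hm := mem_filter.1 (mem_coe.1 hm)
    have hm' := mem_filter.1 (mem_coe.1 hm')
    rw [← (hf m hm.1).1, ← (hf m' hm'.1).1, hm.2, hm'.2, he]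

private theorem all_of_sqf {P : ℕ → Prop} (hdiv : ∀ {s t m : ℕ}, t ^ 2 * s = m → 1 ≤ m → P m → P s)
    (hP : Rare (fun _ m => P m)) : ∃ C c : ℝ, 0 < c ∧ ∀ X : ℕ, 3 ≤ X → ∀ S : Finset ℕ,
    (∀ m ∈ S, 1 ≤ m ∧ m ≤ X ∧ P m) → (S.card : ℝ) ≤ C * X * Real.log X ^ (-c) := by
  classical
  obtain ⟨C, c, hC, hc, hc1, h⟩ := hP.norm
  refine ⟨2 * (C * 4 ^ c) + 8 + 3, c, hc, fun X hX S hS => ?_⟩
  have hl := log_ge_one hX
  have hl0 : 0 < Real.log X := by linarith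
  have hX0 : (0 : ℝ) < (X : ℝ) := by exact_mod_cast (by omega : 0 < X)
  have hlc : (Real.log X)⁻¹ ≤ Real.log X ^ (-c) := by
    rw [← Real.rpow_neg_one]
    exact Real.rpow_le_rpow_of_exponent_le hl (neg_le_neg hc1)
  have hlc0 : 0 < Real.log X ^ (-c) := Real.rpow_pos_of_pos hl0 _
  have hC4 : 0 ≤ C * 4 ^ c := mul_nonneg hC (Real.rpow_nonneg (by norm_num) _)
  rcases Nat.lt_or_ge X 16 with hX16 | hX16
  · -- small `X`
    have h1 : S.card ≤ X := by
      calc S.card ≤ (Icc 1 X).card := card_le_card fun m hm => mem_Icc.2 ⟨(hS m hm).1, (hS m hm).2.1⟩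
        _ = X := by simp
    have h2 : Real.log X ≤ 3 := by
      have h3 : (X : ℝ) ≤ Real.exp 3 := by
        have h4 : (X : ℝ) ≤ 16 := by exact_mod_cast hX16.le
        have h5 : Real.exp 3 = Real.exp 1 ^ 3 := by
          rw [← Real.exp_nat_mul]
          norm_num
        have h6 : (2.7 : ℝ) ≤ Real.exp 1 := by linarith [Real.exp_one_gt_d9]
        have h7 : (2.7 : ℝ) ^ 3 ≤ Real.exp 1 ^ 3 := pow_le_pow_left₀ (by norm_num) h6 3
        rw [h5]
        norm_num at h7 ⊢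
        linarith
      rw [← Real.log_exp 3]
      exact Real.log_le_log hX0 h3
    have h3 : (1 : ℝ) ≤ 3 * Real.log X ^ (-c) := by
      have h4 : (1 : ℝ) / 3 ≤ (Real.log X)⁻¹ := by
        rw [← one_div]
        exact one_div_le_one_div_of_le hl0 h2
      linarith
    calc (S.card : ℝ) ≤ X := by exact_mod_cast h1
      _ ≤ X * (3 * Real.log X ^ (-c)) := le_mul_of_one_le_right hX0.le h3
      _ = 3 * (X * Real.log X ^ (-c)) := by ring
      _ ≤ (2 * (C * 4 ^ c) + 8 + 3) * (X * Real.log X ^ (-c)) := by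
          gcongr
          linarith
      _ = (2 * (C * 4 ^ c) + 8 + 3) * X * Real.log X ^ (-c) := by ring
  · obtain ⟨T, hT⟩ : ∃ T, T = Nat.sqrt (Nat.sqrt X) := ⟨_, rfl⟩
    -- `T^4 ≤ X < (T+1)^4`
    have hTu : X < (T + 1) ^ 4 := by
      have h1 : X < (Nat.sqrt X + 1) ^ 2 := by
        rw [pow_two]
        exact Nat.lt_succ_sqrt X
      have h2 : Nat.sqrt X < (T + 1) ^ 2 := by
        rw [hT, pow_two]
        exact Nat.lt_succ_sqrt _
      calc X < (Nat.sqrt X + 1) ^ 2 := h1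
        _ ≤ ((T + 1) ^ 2) ^ 2 := Nat.pow_le_pow_left h2 2
        _ = (T + 1) ^ 4 := by ring
    have hTl : T ^ 4 ≤ X := by
      have h1 : Nat.sqrt X ^ 2 ≤ X := by
        rw [pow_two]
        exact Nat.sqrt_le X
      have h2 : T ^ 2 ≤ Nat.sqrt X := by
        rw [hT, pow_two]
        exact Nat.sqrt_le _
      calc T ^ 4 = (T ^ 2) ^ 2 := by ring
        _ ≤ Nat.sqrt X ^ 2 := Nat.pow_le_pow_left h2 2
        _ ≤ X := h1
    -- the decomposition
    have hdec : ∀ m : ℕ, ∃ t s : ℕ, t ^ 2 * s = m ∧ Squarefree s := by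
      intro m
      obtain ⟨s, t, h1, h2⟩ := Nat.sq_mul_squarefree m
      exact ⟨t, s, h1, h2⟩
    choose f g hfg using hdec
    have hf : ∀ m ∈ S, f m ^ 2 * g m = m ∧ Squarefree (g m) := fun m _ => hfg m
    have hfX : ∀ m ∈ S, f m ∈ Ioo 0 (X + 1) := by
      intro m hm
      obtain ⟨h1, h2, h3⟩ := hS m hm
      obtain ⟨h4, h5⟩ := hfg m
      rw [mem_Ioo]
      have h6 : 0 < f m := by
        rcases Nat.eq_zero_or_pos (f m) with h0 | h0
        · rw [h0] at h4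
          omega
        · exact h0
      have h7 : 0 < g m := by
        rcases Nat.eq_zero_or_pos (g m) with h0 | h0
        · rw [h0] at h4
          omega
        · exact h0
      refine ⟨h6, ?_⟩
      have h8 : f m ≤ f m ^ 2 * g m := by nlinarith
      omega
    have hsum : (S.card : ℝ) = ∑ t ∈ Ioo 0 (X + 1), ((S.filter (fun m => f m = t)).card : ℝ) := by
      rw [card_eq_sum_card_fiberwise hfX]
      push_cast
      rfl
    -- a single fibre
    have hfib1 : ∀ t ∈ Ioo 0 (X + 1), ((S.filter (fun m => f m = t)).card : ℝ) ≤ X * ((t : ℝ) ^ 2)⁻¹ := by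
      intro t ht
      rw [mem_Ioo] at ht
      obtain ⟨R, hR, hRc⟩ := fib_le hdiv (by omega : 1 ≤ t) hS hf
      rw [hRc]
      have h1 : R.card ≤ X / t ^ 2 := by
        calc R.card ≤ (Icc 1 (X / t ^ 2)).card := card_le_card fun s hs =>
              mem_Icc.2 ⟨(mem_sqs.1 (hR s hs).1).1, (mem_sqs.1 (hR s hs).1).2.1⟩
          _ = X / t ^ 2 := by simp
      calc (R.card : ℝ) ≤ ((X / t ^ 2 : ℕ) : ℝ) := by exact_mod_cast h1
        _ ≤ (X : ℝ) / ((t ^ 2 : ℕ) : ℝ) := Nat.cast_div_le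
        _ = X * ((t : ℝ) ^ 2)⁻¹ := by
            push_cast
            rw [div_eq_mul_inv]
    have hfib2 : ∀ t ∈ Ioo 0 (X + 1), t ≤ T → ((S.filter (fun m => f m = t)).card : ℝ) ≤
        C * 4 ^ c * X * Real.log X ^ (-c) * ((t : ℝ) ^ 2)⁻¹ := by
      intro t ht htT
      rw [mem_Ioo] at ht
      obtain ⟨R, hR, hRc⟩ := fib_le hdiv (by omega : 1 ≤ t) hS hf
      rw [hRc]
      obtain ⟨Y, hY⟩ : ∃ Y, Y = X / t ^ 2 := ⟨_, rfl⟩
      rw [← hY] at hR
      have ht2 : 0 < t ^ 2 := Nat.pow_pos ht.1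
      have h1 : X < t ^ 2 * (Y + 1) := by
        rw [hY]
        exact Nat.lt_mul_div_succ X ht2
      have h2 : t ^ 4 ≤ X := (Nat.pow_le_pow_left htT 4).trans hTl
      have h3 : X < (Y + 1) ^ 2 := by
        have h4 : X * X < (t ^ 2 * (Y + 1)) * (t ^ 2 * (Y + 1)) := Nat.mul_lt_mul'' h1 h1
        have h5 : (t ^ 2 * (Y + 1)) * (t ^ 2 * (Y + 1)) = t ^ 4 * (Y + 1) ^ 2 := by ring
        rw [h5] at h4
        have h6 : X * X < X * (Y + 1) ^ 2 := lt_of_lt_of_le h4 (Nat.mul_le_mul_right _ h2)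
        exact Nat.lt_of_mul_lt_mul_left h6
      have hY4 : 4 ≤ Y := by
        by_contra h4
        have h5 : (Y + 1) ^ 2 ≤ 4 ^ 2 := Nat.pow_le_pow_left (by omega) 2
        omega
      have hY0 : (0 : ℝ) < (Y : ℝ) := by exact_mod_cast (by omega : 0 < Y)
      have hlY : Real.log X ≤ 4 * Real.log Y := by
        have h4 : (X : ℝ) ≤ (Y : ℝ) ^ 4 := by
          have h5 : X ≤ Y ^ 4 := by
            have h6 : Y + 1 ≤ Y ^ 2 := by nlinarith
            calc X ≤ (Y + 1) ^ 2 := h3.le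
              _ ≤ (Y ^ 2) ^ 2 := Nat.pow_le_pow_left h6 2
              _ = Y ^ 4 := by ring
          exact_mod_cast h5
        have h5 := Real.log_le_log hX0 h4
        rw [Real.log_pow] at h5
        push_cast at h5
        exact h5
      have hlY' : Real.log Y ^ (-c) ≤ 4 ^ c * Real.log X ^ (-c) := by
        have h4 : (0 : ℝ) < Real.log X / 4 := by positivity
        have h5 : Real.log X / 4 ≤ Real.log Y := by linarith
        calc Real.log Y ^ (-c) ≤ (Real.log X / 4) ^ (-c) :=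
              Real.rpow_le_rpow_of_nonpos h4 h5 (by linarith)
          _ = 4 ^ c * Real.log X ^ (-c) := by
              rw [Real.div_rpow hl0.le (by norm_num), Real.rpow_neg (by norm_num : (0 : ℝ) ≤ 4),
                div_inv_eq_mul, mul_comm]
      have hYX : (Y : ℝ) ≤ X * ((t : ℝ) ^ 2)⁻¹ := by
        rw [hY]
        calc ((X / t ^ 2 : ℕ) : ℝ) ≤ (X : ℝ) / ((t ^ 2 : ℕ) : ℝ) := Nat.cast_div_le
          _ = X * ((t : ℝ) ^ 2)⁻¹ := by
              push_cast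
              rw [div_eq_mul_inv]
      calc (R.card : ℝ) ≤ C * Y * Real.log Y ^ (-c) := h Y (by omega) R hR
        _ ≤ C * (X * ((t : ℝ) ^ 2)⁻¹) * (4 ^ c * Real.log X ^ (-c)) := by
            gcongr
        _ = C * 4 ^ c * X * Real.log X ^ (-c) * ((t : ℝ) ^ 2)⁻¹ := by ring
    -- the sum
    obtain ⟨K, hK⟩ : ∃ K : ℝ, K = C * 4 ^ c * X * Real.log X ^ (-c) := ⟨_, rfl⟩
    have hK0 : 0 ≤ K := by
      rw [hK]
      positivity
    have hsum1 : ∑ t ∈ Ioo 0 (X + 1), ((t : ℝ) ^ 2)⁻¹ ≤ 2 := by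
      have h1 := sum_Ioo_inv_sq_le (α := ℝ) 0 (X + 1)
      simpa using h1
    have hsum2 : ∑ t ∈ Ioo T (X + 1), ((t : ℝ) ^ 2)⁻¹ ≤ 2 / (T + 1) :=
      sum_Ioo_inv_sq_le (α := ℝ) T (X + 1)
    have hT1 : (0 : ℝ) < (T : ℝ) + 1 := by positivity
    have hlT : 2 / ((T : ℝ) + 1) ≤ 8 * (Real.log X)⁻¹ := by
      have h1 : Real.log X ≤ 4 * ((T : ℝ) + 1) := by
        have h2 : (X : ℝ) ≤ ((T : ℝ) + 1) ^ 4 := by exact_mod_cast hTu.le
        have h3 := Real.log_le_log hX0 h2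
        rw [Real.log_pow] at h3
        push_cast at h3
        have h4 := Real.log_le_sub_one_of_pos hT1
        linarith
      rw [← div_eq_mul_inv, div_le_div_iff₀ hT1 hl0]
      linarith
    rw [hsum]
    have hstep : ∀ t ∈ Ioo 0 (X + 1), ((S.filter (fun m => f m = t)).card : ℝ) ≤
        K * ((t : ℝ) ^ 2)⁻¹ + (if T < t then X * ((t : ℝ) ^ 2)⁻¹ else 0) := by
      intro t ht
      split_ifs with h1
      · have h2 : 0 ≤ K * ((t : ℝ) ^ 2)⁻¹ := by positivity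
        linarith [hfib1 t ht]
      · have h2 := hfib2 t ht (not_lt.1 h1)
        rw [← hK] at h2
        linarith
    calc ∑ t ∈ Ioo 0 (X + 1), ((S.filter (fun m => f m = t)).card : ℝ)
        ≤ ∑ t ∈ Ioo 0 (X + 1), (K * ((t : ℝ) ^ 2)⁻¹ +
            (if T < t then (X : ℝ) * ((t : ℝ) ^ 2)⁻¹ else 0)) := sum_le_sum hstep
      _ = K * ∑ t ∈ Ioo 0 (X + 1), ((t : ℝ) ^ 2)⁻¹ +
            X * ∑ t ∈ Ioo T (X + 1), ((t : ℝ) ^ 2)⁻¹ := by
          rw [sum_add_distrib, ← mul_sum, ← sum_filter, mul_sum (s := Ioo T (X + 1))]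
          congr 1
          refine sum_congr ?_ fun _ _ => rfl
          ext t
          rw [mem_filter, mem_Ioo, mem_Ioo]
          omega
      _ ≤ K * 2 + X * (8 * (Real.log X)⁻¹) := by
          have h1 := hsum2.trans hlT
          gcongr
      _ ≤ K * 2 + X * (8 * Real.log X ^ (-c)) := by
          gcongr
      _ ≤ (2 * (C * 4 ^ c) + 8 + 3) * X * Real.log X ^ (-c) := by
          rw [hK]
          have h1 : 0 ≤ X * Real.log X ^ (-c) := by positivity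
          nlinarith

/-- Proof. `3 ∣ n` or `4 ∣ n`: `Hit m`. Otherwise `n` has a prime factor `l ≥ 5`. `n` even, `ε = -1`: `x^n + 1` is
`W^2 + 1`, so no prime `7` mod 24 divides `m`. `n` even, `ε = 1`, `l ≥ 5` a prime factor, `W = x^(n/(2l))`,
`w = W^2`: `arithL`, and its last alternative is impossible by `no_even`. `n` odd (`gcd(n,6) = 1`): as `¬ Cas`, there is a
prime `l ∣ n` (`l ≥ 5`) for which no `z` exists; `w = ε x^(n/l)`, `w^l = ε x^n`, `w^l - 1 = ε (x^n - ε)`,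
`w - 1 = ε (x^(n/l) - ε)`: `arithL` gives `FitL`. (`m = 2`: no prime `7` mod 24 divides `m`.) -/
theorem hit2_cases (m : ℕ) (hm : Squarefree m) (h : Hit2 m) :
    Hit m ∨ (∀ p : ℕ, p.Prime → p % 24 = 7 → ¬ p ∣ m) ∨
      ∃ l a b : ℕ, l.Prime ∧ 5 ≤ l ∧ a * b = m ∧ (FitL 1 l a b ∨ FitL l l a b) := by
  obtain ⟨x, n, k, ε, hx, hn, hk, hε, he, hc⟩ := h
  have hxZ : (2 : ℤ) ≤ (x : ℤ) := by exact_mod_cast hx
  have hpow : ∀ j : ℕ, j ≠ 0 → 2 ≤ x ^ j := fun j hj => le_trans hx (Nat.le_self_pow hj x)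
  by_cases h34 : 3 ∣ n ∨ 4 ∣ n
  · left
    refine ⟨x, n, k, hx, hn, h34, hk, ?_⟩
    rcases hε with rfl | rfl
    · left
      have e : (x : ℤ) ^ n = m * (k : ℤ) ^ 2 + 1 := by linarith
      exact_mod_cast e
    · right
      have e : (x : ℤ) ^ n + 1 = m * (k : ℤ) ^ 2 := by linarith
      exact_mod_cast e
  right
  rw [not_or] at h34
  by_cases hm2 : m = 2
  · left
    intro p hp hp7 hpm
    rw [hm2, (Nat.prime_dvd_prime_iff_eq hp Nat.prime_two)] at hpm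
    omega
  have hmk : ((m : ℤ) * (k : ℤ) ^ 2) = |(m : ℤ) * (k : ℤ) ^ 2| := (abs_of_nonneg (by positivity)).symm
  rcases Nat.even_or_odd n with hev | hodd
  · -- `n` even
    obtain ⟨n', hn'⟩ := hev
    have hn2 : n = 2 * n' := by omega
    have hodd' : Odd n' := by
      rcases Nat.even_or_odd n' with ⟨j, hj⟩ | h1
      · exact absurd ⟨j, by omega⟩ h34.2
      · exact h1
    have h3' : ¬ 3 ∣ n' := fun h => h34.1 (hn2 ▸ Dvd.dvd.mul_left h 2)
    rcases hε with rfl | rfl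
    · -- sign `+`
      right
      obtain ⟨l, hl, hln⟩ := Nat.exists_prime_and_dvd (show n' ≠ 1 by omega)
      have h5 : 5 ≤ l := five_le hl hln hodd' h3'
      obtain ⟨j, hj⟩ := hln
      have hj0 : j ≠ 0 := by
        rintro rfl
        omega
      have hW : (2 : ℤ) ≤ (x : ℤ) ^ j := by exact_mod_cast hpow j hj0
      have hw : (2 : ℤ) ≤ |((x : ℤ) ^ j) ^ 2| := by
        rw [abs_of_nonneg (by positivity)]
        nlinarith
      have hwl : (((x : ℤ) ^ j) ^ 2) ^ l = (x : ℤ) ^ n := by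
        rw [← pow_mul, ← pow_mul, hn2, hj]
        congr 1
        ring
      have h1 : |(((x : ℤ) ^ j) ^ 2) ^ l - 1| = (m : ℤ) * (k : ℤ) ^ 2 := by
        rw [hwl, he, ← hmk]
      rcases arithL l hl h5 m hm hm2 _ hw k hk.ne' h1 with ⟨a, b, hab, hf⟩ | ⟨z, hz⟩
      · exact ⟨l, a, b, hl, h5, hab, hf⟩
      · exact (no_even l hl h5 _ (le_trans hW (le_abs_self _)) z hz).elim
    · -- sign `-`
      left
      intro p hp hp7 hpm
      have h1 : (x : ℤ) ^ n + 1 = m * (k : ℤ) ^ 2 := by linarith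
      have h2 : (p : ℤ) ∣ ((x : ℤ) ^ n') ^ 2 + 1 := by
        rw [← pow_mul, mul_comm n' 2, ← hn2, h1]
        exact Dvd.dvd.mul_right (by exact_mod_cast hpm) _
      have : Fact p.Prime := ⟨hp⟩
      have h3 : (((x : ZMod p) ^ n') ^ 2 : ZMod p) = -1 := by
        have h4 := (ZMod.intCast_zmod_eq_zero_iff_dvd _ p).2 h2
        push_cast at h4
        exact eq_neg_of_add_eq_zero_left h4
      exact ZMod.mod_four_ne_three_of_sq_eq_neg_one h3 (by omega)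
  · -- `n` odd
    right
    have hcop : n.Coprime 6 := by
      rw [show (6 : ℕ) = 2 * 3 by norm_num]
      refine Nat.Coprime.mul_right (Nat.coprime_two_right.2 hodd) ?_
      exact ((Nat.Prime.coprime_iff_not_dvd Nat.prime_three).2 h34.1).symm
    unfold Cas at hc
    rw [not_and] at hc
    have hc' := hc hcop
    push Not at hc'
    obtain ⟨l, hl, hln, hno⟩ := hc'
    have h5 : 5 ≤ l := five_le hl hln hodd h34.1
    obtain ⟨j, hj⟩ := hln
    have hj0 : j ≠ 0 := by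
      rintro rfl
      omega
    have hdiv : n / l = j := by
      rw [hj]
      exact Nat.mul_div_cancel_left j hl.pos
    rw [hdiv] at hno
    have hxj : (2 : ℤ) ≤ (x : ℤ) ^ j := by exact_mod_cast hpow j hj0
    have hlodd : Odd l := hl.odd_of_ne_two (by omega)
    have hε2 : ε * ε = 1 := by rcases hε with rfl | rfl <;> norm_num
    have hεl : ε ^ l = ε := by
      rcases hε with rfl | rfl
      · exact one_pow l
      · exact hlodd.neg_one_pow
    have hεa : |ε| = 1 := by rcases hε with rfl | rfl <;> norm_num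
    have hwl : (ε * (x : ℤ) ^ j) ^ l = ε * (x : ℤ) ^ n := by
      rw [mul_pow, hεl, ← pow_mul, hj, mul_comm j l]
    have hw1 : (ε * (x : ℤ) ^ j) ^ l - 1 = ε * ((x : ℤ) ^ n - ε) := by
      rw [hwl]
      linear_combination hε2
    have hw : (2 : ℤ) ≤ |ε * (x : ℤ) ^ j| := by
      rw [abs_mul, hεa, one_mul]
      exact le_trans hxj (le_abs_self _)
    have h1 : |(ε * (x : ℤ) ^ j) ^ l - 1| = (m : ℤ) * (k : ℤ) ^ 2 := by
      rw [hw1, abs_mul, hεa, one_mul, he, ← hmk]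
    rcases arithL l hl h5 m hm hm2 _ hw k hk.ne' h1 with ⟨a, b, hab, hf⟩ | ⟨z, hz⟩
    · exact ⟨l, a, b, hl, h5, hab, hf⟩
    · exfalso
      apply hno z
      rw [hw1] at hz
      have e : (x : ℤ) ^ n - ε = ε * (ε * ((x : ℤ) ^ n - ε)) := by
        linear_combination -((x : ℤ) ^ n - ε) * hε2
      rw [e, hz]
      linear_combination (l : ℤ) * z ^ 2 * (x : ℤ) ^ j * hε2

/-- Proof. `hit2_cases`, `hit_sqf`, `cls_present` (`δ = 1/2`, `r = 7`), `small_l`, `large_l`. -/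
theorem hit2_sqf : ∃ C c : ℝ, 0 < c ∧ ∀ X : ℕ, 3 ≤ X → ∀ S : Finset ℕ,
    (∀ m ∈ S, m ∈ sqs X ∧ Hit2 m) → (S.card : ℝ) ≤ C * X * Real.log X ^ (-c) := by
  have h1 : Rare (fun _ m => Hit m) := hit_sqf
  have h2 : Rare (fun _ m => ∀ p : ℕ, p.Prime → p % 24 = 7 → ¬ p ∣ m) := by
    obtain ⟨C, h⟩ := cls_present 7 (by decide) (1 / 2) (by norm_num) le_rfl
    refine ⟨C, 1 / 32, by norm_num, fun X hX S hS => h X hX S fun m hm => ?_⟩
    exact ⟨(hS m hm).1, fun p hp _ hpm hpr => (hS m hm).2 p hp hpr hpm⟩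
  have h3 : Rare (fun X m => ∃ l a b : ℕ, l.Prime ∧ 5 ≤ l ∧ (l : ℝ) ≤ Real.log X ^ 3 ∧
      a * b = m ∧ (FitL 1 l a b ∨ FitL l l a b)) := by
    obtain ⟨C, c, hc, h⟩ := small_l
    exact ⟨C, c, hc, h⟩
  have h4 : Rare (fun X m => ∃ l a b : ℕ, l.Prime ∧ Real.log X ^ 3 < (l : ℝ) ∧
      a * b = m ∧ (FitL 1 l a b ∨ FitL l l a b)) := by
    obtain ⟨C, c, hc, h⟩ := large_l
    exact ⟨C, c, hc, h⟩
  have key := ((h1.or h2).or (h3.or h4)).mono (P := fun _ m => Hit2 m) fun X m hm h => by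
    rcases hit2_cases m hm h with h5 | h5 | ⟨l, a, b, hl, h5, hab, hf⟩
    · exact Or.inl (Or.inl h5)
    · exact Or.inl (Or.inr h5)
    · rcases le_or_gt (l : ℝ) (Real.log X ^ 3) with h6 | h6
      · exact Or.inr (Or.inl ⟨l, a, b, hl, h5, h6, hab, hf⟩)
      · exact Or.inr (Or.inr ⟨l, a, b, hl, h6, hab, hf⟩)
  exact key

/-- Proof. As `hit_all`: `Hit2 (s t^2) → Hit2 s`. -/
theorem hit2_all : ∃ C c : ℝ, 0 < c ∧ ∀ X : ℕ, 3 ≤ X → ∀ S : Finset ℕ,
    (∀ m ∈ S, 1 ≤ m ∧ m ≤ X ∧ Hit2 m) → (S.card : ℝ) ≤ C * X * Real.log X ^ (-c) :=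
  all_of_sqf hit2_div hit2_sqf

/-- Theorem 2. -/
theorem walsh_two : ∃ C c : ℝ, 0 < c ∧ ∀ X : ℕ, 2 ≤ X →
    (({m : ℕ | 1 ≤ m ∧ m ≤ X ∧ ∃ (x y n : ℕ) (ε : ℤ), 1 < x ∧ 1 < y ∧ 2 < n ∧ (ε = 1 ∨ ε = -1) ∧
      (x : ℤ) ^ n - (m : ℤ) ^ 3 * (y : ℤ) ^ 2 = ε ∧ ¬ Cas x n ε}.ncard : ℕ) : ℝ) ≤
      C * X / Real.log X ^ c := by
  classical
  obtain ⟨C, c, hc, h⟩ := hit2_all
  refine ⟨max C 1, c, hc, fun X hX => ?_⟩
  obtain ⟨A, hA⟩ : ∃ A : Set ℕ, A = {m : ℕ | 1 ≤ m ∧ m ≤ X ∧ ∃ (x y n : ℕ) (ε : ℤ), 1 < x ∧ 1 < y ∧ 2 < n ∧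
      (ε = 1 ∨ ε = -1) ∧ (x : ℤ) ^ n - (m : ℤ) ^ 3 * (y : ℤ) ^ 2 = ε ∧ ¬ Cas x n ε} := ⟨_, rfl⟩
  rw [← hA]
  have hAX : A ⊆ (Icc 1 X : Finset ℕ) := by
    intro m hm
    rw [hA] at hm
    rw [coe_Icc]
    exact ⟨hm.1, hm.2.1⟩
  have hAf : A.Finite := (finite_toSet _).subset hAX
  have hX0 : (0 : ℝ) < (X : ℝ) := by exact_mod_cast (by omega : 0 < X)
  rcases Nat.lt_or_ge X 3 with hX3 | hX3
  · have h2 : X = 2 := by omega
    have h3 : (A.ncard : ℝ) ≤ X := by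
      have h4 := Set.ncard_le_ncard hAX (finite_toSet _)
      rw [Set.ncard_coe_finset, Nat.card_Icc] at h4
      exact_mod_cast (by omega : A.ncard ≤ X)
    have hl0 : 0 < Real.log (X : ℝ) := Real.log_pos (by exact_mod_cast (by omega : 1 < X))
    have hl1 : Real.log (X : ℝ) ≤ 1 := by
      rw [h2]
      have := Real.log_two_lt_d9
      push_cast
      linarith
    have h5 : Real.log (X : ℝ) ^ c ≤ 1 := Real.rpow_le_one hl0.le hl1 hc.le
    have h6 : 0 < Real.log (X : ℝ) ^ c := Real.rpow_pos_of_pos hl0 _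
    rw [le_div_iff₀ h6]
    calc (A.ncard : ℝ) * Real.log (X : ℝ) ^ c ≤ (X : ℝ) * 1 := by
          gcongr
      _ = 1 * (X : ℝ) := by ring
      _ ≤ max C 1 * X := by
          gcongr
          exact le_max_right _ _
  · have hl0 : 0 < Real.log (X : ℝ) := by linarith [log_ge_one hX3]
    have h1 := h X hX3 hAf.toFinset fun m hm => by
      rw [Set.Finite.mem_toFinset, hA] at hm
      obtain ⟨h1, h2, x, y, n, ε, hx, hy, hn, hε, he, hc⟩ := hm
      refine ⟨h1, h2, x, n, m * y, ε, hx, hn, Nat.mul_pos h1 (by omega), hε, ?_, hc⟩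
      push_cast
      linear_combination he
    rw [← Set.ncard_eq_toFinset_card A hAf] at h1
    refine h1.trans ?_
    rw [Real.rpow_neg hl0.le, ← div_eq_mul_inv]
    gcongr
    exact le_max_left _ _

end Pool.Agent.Wal
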