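import Pool.Agent.Lib.MP_6498db_nt.L.Defs
import Pool.Agent.Lib.MP_6498db_nt.W.Split

/-! WALSH, Theorem 2, row N5: `1 + w + w^2 + w^3 + w^4 = 5 z^2` only for `w = 1`. -/

set_option autoImplicit false

namespace Pool.Agent.Wal

open Finset

private theorem n5_half (P Q d : ℕ) (hc : P.Coprime Q) (h5 : P.Coprime 5)
    (h : P * Q = 125 * d ^ 4) : ∃ e f : ℕ, e * f = d ∧ P = e ^ 4 ∧ Q = 125 * f ^ 4 := by
  have h125 : P.Coprime 125 := by
    have : (125 : ℕ) = 5 ^ 3 := by norm_num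
    rw [this]
    exact Nat.Coprime.pow_right 3 h5
  have hd : 125 ∣ P * Q := ⟨d ^ 4, h⟩
  obtain ⟨R, hR⟩ := (Nat.Coprime.dvd_of_dvd_mul_left h125.symm hd)
  subst hR
  have h1 : P * R = d ^ 4 := by
    have : 125 * (P * R) = 125 * d ^ 4 := by rw [← h]; ring
    exact Nat.eq_of_mul_eq_mul_left (by norm_num) this
  have hcr : P.Coprime R := hc.coprime_dvd_right (Dvd.intro_left _ rfl)
  have hu : IsUnit (gcd P R) := by
    rw [Nat.isUnit_iff]
    exact hcr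
  have hu' : IsUnit (gcd R P) := by
    rw [Nat.isUnit_iff]
    exact hcr.symm
  obtain ⟨e, he⟩ := exists_eq_pow_of_mul_eq_pow hu h1
  obtain ⟨f, hf⟩ := exists_eq_pow_of_mul_eq_pow hu' (by rw [mul_comm]; exact h1)
  refine ⟨e, f, ?_, he, by rw [hf]⟩
  have h2 : (e * f) ^ 4 = d ^ 4 := by rw [mul_pow, ← he, ← hf, h1]
  exact Nat.pow_left_injective (by norm_num : 4 ≠ 0) h2

/-- a product of two coprime positive integers equal to `125 d^4`: one is a fourth power, the other 125 times one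
(`5` divides only one of them, three times; then `Nat.Coprime` + `exists_eq_pow_of_mul_eq_pow`). -/
theorem split125 (P Q d : ℕ) (hP : 0 < P) (hQ : 0 < Q) (hc : P.Coprime Q) (h : P * Q = 125 * d ^ 4) :
    ∃ e f : ℕ, e * f = d ∧ ((P = e ^ 4 ∧ Q = 125 * f ^ 4) ∨ (P = 125 * f ^ 4 ∧ Q = e ^ 4)) := by
  by_cases h5 : 5 ∣ P
  · have h5Q : Q.Coprime 5 := by
      rw [Nat.coprime_comm, Nat.Prime.coprime_iff_not_dvd (by norm_num)]
      intro h5'
      have := Nat.dvd_gcd h5 h5'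
      rw [hc] at this
      omega
    obtain ⟨e, f, h1, h2, h3⟩ := n5_half Q P d hc.symm h5Q (by rw [mul_comm]; exact h)
    exact ⟨e, f, h1, Or.inr ⟨h3, h2⟩⟩
  · have h5P : P.Coprime 5 := by
      rw [Nat.coprime_comm, Nat.Prime.coprime_iff_not_dvd (by norm_num)]
      exact h5
    obtain ⟨e, f, h1, h2, h3⟩ := n5_half P Q d hc h5P h
    exact ⟨e, f, h1, Or.inl ⟨h2, h3⟩⟩

/-- a prime dividing `125 d^4` is `5` or divides `d` -/
private theorem n5_prime (p : ℕ) (hp : p.Prime) (d : ℤ) (h : (p : ℤ) ∣ 125 * d ^ 4) :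
    p = 5 ∨ (p : ℤ) ∣ d := by
  have hpz : Prime (p : ℤ) := Nat.prime_iff_prime_int.1 hp
  rcases hpz.dvd_or_dvd h with h1 | h1
  · left
    have h2 : (p : ℤ) ∣ 5 ^ 3 := by norm_num; exact h1
    have h3 : (p : ℤ) ∣ 5 := hpz.dvd_of_dvd_pow h2
    have h4 : p ∣ 5 := by exact_mod_cast h3
    exact (Nat.prime_dvd_prime_iff_eq hp (by norm_num)).1 h4
  · right
    exact hpz.dvd_of_dvd_pow h1

/-- coprimality test -/
private theorem n5_cop (P Q d S : ℤ) (h : P * Q = 125 * d ^ 4) (hS : P + Q = S)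
    (h1 : ∀ p : ℕ, p.Prime → (p : ℤ) ∣ d → (p : ℤ) ∣ S → False) (h5 : ¬ (5 : ℤ) ∣ S) :
    P.natAbs.Coprime Q.natAbs := by
  by_contra hcon
  obtain ⟨p, hp, hpP, hpQ⟩ := Nat.Prime.not_coprime_iff_dvd.1 hcon
  have hP : (p : ℤ) ∣ P := Int.natCast_dvd.2 hpP
  have hQ : (p : ℤ) ∣ Q := Int.natCast_dvd.2 hpQ
  have hSd : (p : ℤ) ∣ S := by rw [← hS]; exact dvd_add hP hQ
  rcases n5_prime p hp d (by rw [← h]; exact Dvd.dvd.mul_right hP Q) with h2 | h2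
  · subst h2
    exact h5 (by exact_mod_cast hSd)
  · exact h1 p hp h2 hSd

/-- integer form of the splitting -/
private theorem n5_split (P Q d : ℤ) (hd : d ≠ 0) (hc : P.natAbs.Coprime Q.natAbs)
    (h : P * Q = 125 * d ^ 4) :
    ∃ e f : ℕ, 0 < e ∧ 0 < f ∧ e.Coprime f ∧ e * f = d.natAbs ∧
      (P + Q = (e : ℤ) ^ 4 + 125 * (f : ℤ) ^ 4 ∨ P + Q = -((e : ℤ) ^ 4 + 125 * (f : ℤ) ^ 4)) := by
  have hpos : 0 < P * Q := by
    rw [h]
    positivity
  have hP0 : P ≠ 0 := by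
    rintro rfl
    simp at hpos
  have hQ0 : Q ≠ 0 := by
    rintro rfl
    simp at hpos
  have hn : P.natAbs * Q.natAbs = 125 * d.natAbs ^ 4 := by
    rw [← Int.natAbs_mul, h, Int.natAbs_mul, Int.natAbs_pow]
    rfl
  obtain ⟨e, f, hef, hcase⟩ := split125 P.natAbs Q.natAbs d.natAbs (Int.natAbs_pos.2 hP0)
    (Int.natAbs_pos.2 hQ0) hc hn
  have hd0 : 0 < d.natAbs := Int.natAbs_pos.2 hd
  have he : 0 < e := by
    rcases Nat.eq_zero_or_pos e with h0 | h0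
    · rw [h0, zero_mul] at hef; omega
    · exact h0
  have hf : 0 < f := by
    rcases Nat.eq_zero_or_pos f with h0 | h0
    · rw [h0, mul_zero] at hef; omega
    · exact h0
  have hcop : e.Coprime f := by
    rcases hcase with ⟨h1, h2⟩ | ⟨h1, h2⟩
    · rw [h1, h2] at hc
      have h3 := hc.coprime_dvd_right (Dvd.intro_left 125 rfl)
      exact Nat.Coprime.coprime_dvd_left (dvd_pow_self e (by norm_num))
        (Nat.Coprime.coprime_dvd_right (dvd_pow_self f (by norm_num)) h3)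
    · rw [h1, h2] at hc
      have h3 := hc.symm.coprime_dvd_right (Dvd.intro_left 125 rfl)
      exact Nat.Coprime.coprime_dvd_left (dvd_pow_self e (by norm_num))
        (Nat.Coprime.coprime_dvd_right (dvd_pow_self f (by norm_num)) h3)
  have hsum : (P.natAbs : ℤ) + (Q.natAbs : ℤ) = (e : ℤ) ^ 4 + 125 * (f : ℤ) ^ 4 := by
    rcases hcase with ⟨h1, h2⟩ | ⟨h1, h2⟩
    · rw [h1, h2]; push_cast; ring
    · rw [h1, h2]; push_cast; ring
  refine ⟨e, f, he, hf, hcop, hef, ?_⟩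
  rcases lt_or_gt_of_ne hP0 with hPn | hPp
  · have hQn : Q < 0 := by
      by_contra hcon
      have : P * Q ≤ 0 := mul_nonpos_of_nonpos_of_nonneg hPn.le (not_lt.1 hcon)
      omega
    right
    rw [← hsum]
    omega
  · have hQp : 0 < Q := by
      by_contra hcon
      have : P * Q ≤ 0 := mul_nonpos_of_nonneg_of_nonpos hPp.le (not_lt.1 hcon)
      omega
    left
    rw [← hsum]
    omega

private theorem n5_sq5 (X : ℤ) (h : (5 : ℤ) ∣ X ^ 2) : (5 : ℤ) ∣ X :=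
  Int.Prime.dvd_pow' (p := 5) (by norm_num) (by exact_mod_cast h)

/-- `N^2 = 125 K` with `5 ∤ K` is impossible -/
private theorem n5_val (N K : ℤ) (h : N ^ 2 = 125 * K) : (5 : ℤ) ∣ K := by
  have h1 : (5 : ℤ) ∣ N := n5_sq5 N ⟨25 * K, by rw [h]; ring⟩
  obtain ⟨N1, rfl⟩ := h1
  have h2 : N1 ^ 2 = 5 * K := by linarith
  have h3 : (5 : ℤ) ∣ N1 := n5_sq5 N1 ⟨K, h2⟩
  obtain ⟨N2, rfl⟩ := h3
  exact ⟨N2 ^ 2, by linarith⟩

private theorem n5_pow4 (X : ℤ) (h : (5 : ℤ) ∣ X ^ 4) : (5 : ℤ) ∣ X :=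
  Int.Prime.dvd_pow' (p := 5) (by norm_num) (by exact_mod_cast h)

private theorem n5_odd_sq (x : ℤ) (h : Odd x) : ∃ k : ℤ, x ^ 2 = 1 + 8 * k := by
  obtain ⟨m, rfl⟩ := h
  rcases Int.even_or_odd m with ⟨n, rfl⟩ | ⟨n, rfl⟩
  · exact ⟨2 * n ^ 2 + n, by ring⟩
  · exact ⟨2 * n ^ 2 + 3 * n + 1, by ring⟩

private theorem n5_cop_contra (a b : ℕ) (hab : a.Coprime b) (p : ℕ) (hp : p.Prime)
    (h1 : (p : ℤ) ∣ (a : ℤ)) (h2 : (p : ℤ) ∣ (b : ℤ)) : False := by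
  have h1' : p ∣ a := by exact_mod_cast h1
  have h2' : p ∣ b := by exact_mod_cast h2
  have := Nat.dvd_gcd h1' h2'
  rw [hab] at this
  exact hp.one_lt.ne' (Nat.dvd_one.1 this)

/-- Step 1, from (E) to (E'). `5 ∤ a` (otherwise `N^2 = 125 (5a'^4 - 5a'^2b^2 + b^4)`, odd power of 5).
`(2a^2 - 25b^2)^2 - (2N)^2 = 125 b^4`.
`b` odd: `P = 2a^2 - 25b^2 - 2N`, `Q = 2a^2 - 25b^2 + 2N` are odd, coprime (a common prime divides `125 b^4` and
`P + Q = 4a^2 - 50b^2`), of the same sign, so `{|P|,|Q|} = {c^4, 125d^4}`, `c d = b`, and `4a^2 = 50c^2d^2 ± (c^4 + 125d^4)`;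
the sign `-` is impossible mod 32 (`c, d` odd: `-c^4 + 50c^2d^2 - 125d^4 ≡ 20`, so `a^2 ≡ 5` mod 8); sign `+`: `M = 2a`.
`b = 2β` even: `a, N` odd, `p = (a^2 - 50β^2 - N)/2`, `q = (a^2 - 50β^2 + N)/2`, `p q = 125β^4`, `p + q = a^2 - 50β^2`,
coprime, same sign: `a^2 = 50c^2d^2 ± (c^4 + 125d^4)`, `c d = β`; the sign `-` is impossible mod 4 (`a` odd, so `c, d` of
opposite parity); `M = a`. -/
theorem desc_one (a b N : ℕ) (ha : 0 < a) (hb : 0 < b) (hab : a.Coprime b)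
    (h : (N : ℤ) ^ 2 = (a : ℤ) ^ 4 - 25 * (a : ℤ) ^ 2 * (b : ℤ) ^ 2 + 125 * (b : ℤ) ^ 4) :
    ∃ c d M : ℕ, 0 < c ∧ 0 < d ∧ c.Coprime d ∧ (c * d = b ∨ 2 * (c * d) = b) ∧
      M ^ 2 = c ^ 4 + 50 * c ^ 2 * d ^ 2 + 125 * d ^ 4 := by
  have h5a : ¬ (5 : ℤ) ∣ (a : ℤ) := by
    rintro ⟨a', ha'⟩
    have h1 : (N : ℤ) ^ 2 = 125 * (5 * a' ^ 4 - 5 * a' ^ 2 * (b : ℤ) ^ 2 + (b : ℤ) ^ 4) := by
      rw [h, ha']; ring
    have h2 := n5_val _ _ h1
    have h3 : (5 : ℤ) ∣ (b : ℤ) ^ 4 := by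
      have h4 : (b : ℤ) ^ 4 = (5 * a' ^ 4 - 5 * a' ^ 2 * (b : ℤ) ^ 2 + (b : ℤ) ^ 4) -
          5 * (a' ^ 4 - a' ^ 2 * (b : ℤ) ^ 2) := by ring
      rw [h4]
      exact dvd_sub h2 (Dvd.intro _ rfl)
    have h4 := n5_pow4 _ h3
    exact n5_cop_contra a b hab 5 (by norm_num) ⟨a', by exact_mod_cast ha'⟩ (by exact_mod_cast h4)
  rcases Nat.even_or_odd b with ⟨β, hβ⟩ | hodd
  · -- even case
    have hβ' : b = 2 * β := by omega
    subst hβ'
    have hβ0 : 0 < β := by omega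
    have haodd : Odd (a : ℤ) := by
      rw [← Int.not_even_iff_odd]
      intro he
      exact n5_cop_contra a (2 * β) hab 2 (by norm_num) (by exact_mod_cast he.two_dvd)
        ⟨β, by push_cast; ring⟩
    have hNodd : Odd (N : ℤ) := by
      rw [← Int.not_even_iff_odd]
      rintro ⟨n, hn⟩
      obtain ⟨m, hm⟩ := haodd
      rw [hn, hm] at h
      push_cast at h
      have : (2 : ℤ) * (2 * n ^ 2) = 2 * (8 * m ^ 4 + 16 * m ^ 3 + 12 * m ^ 2 + 4 * m -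
          50 * (2 * m + 1) ^ 2 * (β : ℤ) ^ 2 + 1000 * (β : ℤ) ^ 4) + 1 := by
        linear_combination h
      omega
    obtain ⟨k, hk⟩ := n5_odd_sq _ haodd
    obtain ⟨n, hn⟩ := hNodd
    obtain ⟨p, hp⟩ : ∃ p : ℤ, (a : ℤ) ^ 2 - 50 * (β : ℤ) ^ 2 - N = 2 * p :=
      ⟨4 * k - 25 * (β : ℤ) ^ 2 - n, by rw [hk, hn]; ring⟩
    obtain ⟨q, hq⟩ : ∃ q : ℤ, (a : ℤ) ^ 2 - 50 * (β : ℤ) ^ 2 + N = 2 * q :=
      ⟨4 * k - 25 * (β : ℤ) ^ 2 + n + 1, by rw [hk, hn]; ring⟩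
    have hpq : p * q = 125 * (β : ℤ) ^ 4 := by
      have h4 : (2 * p) * (2 * q) = 4 * (125 * (β : ℤ) ^ 4) := by
        rw [← hp, ← hq]
        push_cast at h
        linear_combination -h
      linarith
    have hsum : p + q = (a : ℤ) ^ 2 - 50 * (β : ℤ) ^ 2 := by linarith
    have hcop := n5_cop p q (β : ℤ) _ hpq hsum (fun r hr h1 h2 => by
      have h3 : (r : ℤ) ∣ (a : ℤ) ^ 2 := by
        have h4 : (a : ℤ) ^ 2 = ((a : ℤ) ^ 2 - 50 * (β : ℤ) ^ 2) + 50 * β * β := by ring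
        rw [h4]
        exact dvd_add h2 (Dvd.dvd.mul_left h1 _)
      have h5 := (Nat.prime_iff_prime_int.1 hr).dvd_of_dvd_pow h3
      exact n5_cop_contra a (2 * β) hab r hr h5 (by push_cast; exact Dvd.dvd.mul_left h1 _)) (by
      intro h6
      have h7 : (5 : ℤ) ∣ (a : ℤ) ^ 2 := by
        have h8 : (a : ℤ) ^ 2 = ((a : ℤ) ^ 2 - 50 * (β : ℤ) ^ 2) + 5 * (10 * (β : ℤ) ^ 2) := by ring
        rw [h8]
        exact dvd_add h6 (Dvd.intro _ rfl)
      exact h5a (n5_sq5 _ h7))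
    obtain ⟨c, d, hc, hd, hcd, hcdβ, hcase⟩ := n5_split p q (β : ℤ) (by exact_mod_cast hβ0.ne') hcop hpq
    rw [Int.natAbs_natCast] at hcdβ
    have hβcd : (β : ℤ) = c * d := by exact_mod_cast hcdβ.symm
    refine ⟨c, d, a, hc, hd, hcd, Or.inr (by rw [hcdβ]), ?_⟩
    rcases hcase with h1 | h1
    · have h2 : (a : ℤ) ^ 2 = (c : ℤ) ^ 4 + 50 * (c : ℤ) ^ 2 * (d : ℤ) ^ 2 + 125 * (d : ℤ) ^ 4 := by
        rw [hsum, hβcd] at h1
        linear_combination h1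
      exact_mod_cast h2
    · exfalso
      have h2 : (a : ℤ) ^ 2 = 50 * (c : ℤ) ^ 2 * (d : ℤ) ^ 2 - (c : ℤ) ^ 4 - 125 * (d : ℤ) ^ 4 := by
        rw [hsum, hβcd] at h1
        linear_combination h1
      rw [hk] at h2
      rcases Int.even_or_odd (c : ℤ) with ⟨x, hx⟩ | ho
      · rcases Int.even_or_odd (d : ℤ) with ⟨y, hy⟩ | ho'
        · rw [hx, hy] at h2
          have : 1 + 8 * k = 2 * (400 * x ^ 2 * y ^ 2 - 8 * x ^ 4 - 1000 * y ^ 4) := by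
            linear_combination h2
          omega
        · obtain ⟨l, hl⟩ := n5_odd_sq _ ho'
          have hd4 : (d : ℤ) ^ 4 = (1 + 8 * l) ^ 2 := by rw [← hl]; ring
          rw [hd4, hl, hx] at h2
          have : 1 + 8 * k = 4 * (50 * x ^ 2 * (1 + 8 * l) - 4 * x ^ 4 - 500 * l - 2000 * l ^ 2 - 32) + 3 := by
            linear_combination h2
          omega
      · obtain ⟨l, hl⟩ := n5_odd_sq _ ho
        have hc4 : (c : ℤ) ^ 4 = (1 + 8 * l) ^ 2 := by rw [← hl]; ring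
        rcases Int.even_or_odd (d : ℤ) with ⟨y, hy⟩ | ho'
        · rw [hc4, hl, hy] at h2
          have : 1 + 8 * k = 4 * (50 * (1 + 8 * l) * y ^ 2 - 4 * l - 16 * l ^ 2 - 500 * y ^ 4 - 1) + 3 := by
            linear_combination h2
          omega
        · obtain ⟨m, hm⟩ := n5_odd_sq _ ho'
          have hd4 : (d : ℤ) ^ 4 = (1 + 8 * m) ^ 2 := by rw [← hm]; ring
          rw [hc4, hd4, hl, hm] at h2
          have : 1 + 8 * k = 2 * (25 * (1 + 8 * l) * (1 + 8 * m) - 8 * l - 32 * l ^ 2 - 1000 * m - 4000 * m ^ 2 - 63) := by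
            linear_combination h2
          omega
  · -- odd case
    have hbz : Odd (b : ℤ) := by exact_mod_cast hodd
    set P : ℤ := 2 * (a : ℤ) ^ 2 - 25 * (b : ℤ) ^ 2 - 2 * N with hP
    set Q : ℤ := 2 * (a : ℤ) ^ 2 - 25 * (b : ℤ) ^ 2 + 2 * N with hQ
    have hPQ : P * Q = 125 * (b : ℤ) ^ 4 := by
      rw [hP, hQ]
      linear_combination -4 * h
    have hsum : P + Q = 4 * (a : ℤ) ^ 2 - 50 * (b : ℤ) ^ 2 := by rw [hP, hQ]; ring
    have hcop := n5_cop P Q (b : ℤ) _ hPQ hsum (fun r hr h1 h2 => by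
      have hrz : Prime (r : ℤ) := Nat.prime_iff_prime_int.1 hr
      have h3 : (r : ℤ) ∣ 2 ^ 2 * (a : ℤ) ^ 2 := by
        have h4 : 2 ^ 2 * (a : ℤ) ^ 2 = (4 * (a : ℤ) ^ 2 - 50 * (b : ℤ) ^ 2) + 50 * b * b := by ring
        rw [h4]
        exact dvd_add h2 (Dvd.dvd.mul_left h1 _)
      rcases hrz.dvd_or_dvd h3 with h4 | h4
      · have h5 : (r : ℤ) ∣ 2 := hrz.dvd_of_dvd_pow h4
        have h6 : r ∣ 2 := by exact_mod_cast h5
        have h7 : r = 2 := (Nat.prime_dvd_prime_iff_eq hr Nat.prime_two).1 h6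
        subst h7
        have h8 : 2 ∣ b := by exact_mod_cast h1
        exact (Nat.not_even_iff_odd.2 hodd) (even_iff_two_dvd.2 h8)
      · exact n5_cop_contra a b hab r hr (hrz.dvd_of_dvd_pow h4) h1) (by
      intro h6
      have h7 : (5 : ℤ) ∣ (2 * (a : ℤ)) ^ 2 := by
        have h8 : (2 * (a : ℤ)) ^ 2 = (4 * (a : ℤ) ^ 2 - 50 * (b : ℤ) ^ 2) + 5 * (10 * (b : ℤ) ^ 2) := by ring
        rw [h8]
        exact dvd_add h6 (Dvd.intro _ rfl)
      have h9 := n5_sq5 _ h7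
      exact h5a (by omega))
    obtain ⟨c, d, hc, hd, hcd, hcdb, hcase⟩ := n5_split P Q (b : ℤ) (by exact_mod_cast hb.ne') hcop hPQ
    rw [Int.natAbs_natCast] at hcdb
    have hbcd : (b : ℤ) = c * d := by exact_mod_cast hcdb.symm
    refine ⟨c, d, 2 * a, hc, hd, hcd, Or.inl hcdb, ?_⟩
    rcases hcase with h1 | h1
    · have h2 : (2 * (a : ℤ)) ^ 2 = (c : ℤ) ^ 4 + 50 * (c : ℤ) ^ 2 * (d : ℤ) ^ 2 + 125 * (d : ℤ) ^ 4 := by
        rw [hsum, hbcd] at h1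
        linear_combination h1
      exact_mod_cast h2
    · exfalso
      have hcd' : Odd ((c : ℤ) * d) := by rw [← hbcd]; exact hbz
      obtain ⟨ho, ho'⟩ := Int.odd_mul.1 hcd'
      obtain ⟨l, hl⟩ := n5_odd_sq _ ho
      obtain ⟨m, hm⟩ := n5_odd_sq _ ho'
      have hc4 : (c : ℤ) ^ 4 = (1 + 8 * l) ^ 2 := by rw [← hl]; ring
      have hd4 : (d : ℤ) ^ 4 = (1 + 8 * m) ^ 2 := by rw [← hm]; ring
      have h2 : 4 * (a : ℤ) ^ 2 = 50 * (c : ℤ) ^ 2 * (d : ℤ) ^ 2 - (c : ℤ) ^ 4 - 125 * (d : ℤ) ^ 4 := by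
        rw [hsum, hbcd] at h1
        linear_combination h1
      rw [hc4, hd4, hl, hm] at h2
      have h3 : (a : ℤ) ^ 2 = 8 * (12 * l - 50 * m + 100 * l * m - 2 * l ^ 2 - 250 * m ^ 2) - 19 := by
        linarith
      rcases Int.even_or_odd (a : ℤ) with ⟨x, hx⟩ | hao
      · rw [hx] at h3
        have : 4 * x ^ 2 = 8 * (12 * l - 50 * m + 100 * l * m - 2 * l ^ 2 - 250 * m ^ 2) - 19 := by
          linear_combination h3
        omega
      · obtain ⟨x, hx⟩ := n5_odd_sq _ hao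
        rw [hx] at h3
        omega

/-- Step 2, from (E') to (E). `5 ∤ c` as before. `(c^2 + 25d^2)^2 - M^2 = 500 d^4`, `R = c^2 + 25d^2 - M`,
`S = c^2 + 25d^2 + M` are both even and positive, `R/2`, `S/2` coprime with product `125 d^4` and sum `c^2 + 25d^2`:
`e^4 + 125f^4 = c^2 + 25e^2f^2`, `e f = d`. -/
theorem desc_two (c d M : ℕ) (hc : 0 < c) (hd : 0 < d) (hcd : c.Coprime d)
    (h : M ^ 2 = c ^ 4 + 50 * c ^ 2 * d ^ 2 + 125 * d ^ 4) :
    ∃ e f : ℕ, 0 < e ∧ 0 < f ∧ e.Coprime f ∧ e * f = d ∧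
      (c : ℤ) ^ 2 = (e : ℤ) ^ 4 - 25 * (e : ℤ) ^ 2 * (f : ℤ) ^ 2 + 125 * (f : ℤ) ^ 4 := by
  have hz : (M : ℤ) ^ 2 = (c : ℤ) ^ 4 + 50 * (c : ℤ) ^ 2 * (d : ℤ) ^ 2 + 125 * (d : ℤ) ^ 4 := by
    exact_mod_cast h
  have h5c : ¬ (5 : ℤ) ∣ (c : ℤ) := by
    rintro ⟨c', hc'⟩
    have h1 : (M : ℤ) ^ 2 = 125 * (5 * c' ^ 4 + 10 * c' ^ 2 * (d : ℤ) ^ 2 + (d : ℤ) ^ 4) := by
      rw [hz, hc']; ring
    have h2 := n5_val _ _ h1
    have h3 : (5 : ℤ) ∣ (d : ℤ) ^ 4 := by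
      have h4 : (d : ℤ) ^ 4 = (5 * c' ^ 4 + 10 * c' ^ 2 * (d : ℤ) ^ 2 + (d : ℤ) ^ 4) -
          5 * (c' ^ 4 + 2 * c' ^ 2 * (d : ℤ) ^ 2) := by ring
      rw [h4]
      exact dvd_sub h2 (Dvd.intro _ rfl)
    have h4 := n5_pow4 _ h3
    exact n5_cop_contra c d hcd 5 (by norm_num) ⟨c', by exact_mod_cast hc'⟩ (by exact_mod_cast h4)
  set T : ℤ := (c : ℤ) ^ 2 + 25 * (d : ℤ) ^ 2 with hT
  have hTM : (T - M) * (T + M) = 500 * (d : ℤ) ^ 4 := by
    rw [hT]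
    linear_combination -hz
  obtain ⟨p, hp⟩ : ∃ p : ℤ, T - M = 2 * p := by
    rcases Int.even_or_odd (T - M) with ⟨x, hx⟩ | ⟨x, hx⟩
    · exact ⟨x, by omega⟩
    · exfalso
      have h1 : T + M = 2 * (x + M) + 1 := by linarith
      rw [hx, h1] at hTM
      have : 2 * (2 * x * (x + M) + x + (x + M)) + 1 = 2 * (250 * (d : ℤ) ^ 4) := by
        linear_combination hTM
      omega
  have hq : T + M = 2 * (p + M) := by linarith
  have hpq : p * (p + M) = 125 * (d : ℤ) ^ 4 := by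
    rw [hp, hq] at hTM
    linarith
  have hsum : p + (p + M) = T := by linarith
  have hcop := n5_cop p (p + M) (d : ℤ) T hpq hsum (fun r hr h1 h2 => by
    have h3 : (r : ℤ) ∣ (c : ℤ) ^ 2 := by
      have h4 : (c : ℤ) ^ 2 = T - 25 * d * d := by rw [hT]; ring
      rw [h4]
      exact dvd_sub h2 (Dvd.dvd.mul_left h1 _)
    exact n5_cop_contra c d hcd r hr ((Nat.prime_iff_prime_int.1 hr).dvd_of_dvd_pow h3) h1) (by
    intro h6
    have h7 : (5 : ℤ) ∣ (c : ℤ) ^ 2 := by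
      have h8 : (c : ℤ) ^ 2 = T - 5 * (5 * (d : ℤ) ^ 2) := by rw [hT]; ring
      rw [h8]
      exact dvd_sub h6 (Dvd.intro _ rfl)
    exact h5c (n5_sq5 _ h7))
  obtain ⟨e, f, he, hf, hef, hefd, hcase⟩ := n5_split p (p + M) (d : ℤ) (by exact_mod_cast hd.ne') hcop hpq
  rw [Int.natAbs_natCast] at hefd
  have hdef : (d : ℤ) = e * f := by exact_mod_cast hefd.symm
  refine ⟨e, f, he, hf, hef, hefd, ?_⟩
  rcases hcase with h1 | h1
  · rw [hsum, hT, hdef] at h1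
    linear_combination h1
  · exfalso
    rw [hsum] at h1
    have h2 : 0 < T := by rw [hT]; positivity
    have h3 : (0 : ℤ) ≤ (e : ℤ) ^ 4 + 125 * (f : ℤ) ^ 4 := by positivity
    linarith

/-- Infinite descent on `b`: `desc_one`, `desc_two` give a solution with `f ≤ d ≤ b`, and `f = b` only if `c = e = 1`,
`1 = 1 - 25f^2 + 125f^4`, impossible. -/
theorem no_E (a b N : ℕ) (ha : 0 < a) (hb : 0 < b) (hab : a.Coprime b)
    (h : (N : ℤ) ^ 2 = (a : ℤ) ^ 4 - 25 * (a : ℤ) ^ 2 * (b : ℤ) ^ 2 + 125 * (b : ℤ) ^ 4) : False := by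
  induction b using Nat.strong_induction_on generalizing a N with
  | _ b ih =>
    obtain ⟨c, d, M, hc, hd, hcd, hcb, hM⟩ := desc_one a b N ha hb hab h
    obtain ⟨e, f, he, hf, hef, hefd, hE⟩ := desc_two c d M hc hd hcd hM
    by_cases hlt : f < b
    · exact ih f hlt e c he hf hef hE
    · have h1 : f ≤ e * f := Nat.le_mul_of_pos_left f he
      have h2 : d ≤ c * d := Nat.le_mul_of_pos_left d hc
      have h3 : c * d = b := by
        rcases hcb with h3 | h3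
        · exact h3
        · omega
      have h4 : d = b := by omega
      have h5 : f = b := by omega
      have hc1 : c = 1 := by
        rw [h4] at h3
        exact Nat.eq_of_mul_eq_mul_right hb (by rw [h3, one_mul])
      have he1 : e = 1 := by
        rw [h5, h4] at hefd
        exact Nat.eq_of_mul_eq_mul_right hb (by rw [hefd, one_mul])
      rw [hc1, he1, h5] at hE
      push_cast at hE
      have h6 : (b : ℤ) ^ 2 * (5 * (b : ℤ) ^ 2 - 1) = 0 := by linarith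
      rcases mul_eq_zero.1 h6 with h7 | h7
      · have : (0 : ℤ) < (b : ℤ) ^ 2 := by positivity
        omega
      · omega

/-- `w ≡ 1` mod 5 (`Ag 5 w ≡ 0` mod 5), `w = 1 + 5t`: `z^2 = w^2 + 25wt^2 + 125t^4`,
`(2w + 25t^2)^2 - (2z)^2 = 125t^4`. Suppose `t ≠ 0`. `t` odd: `P, Q = 2w + 25t^2 ∓ 2z` odd, coprime (a common prime divides
`125t^4` and `P + Q = 4w + 50t^2`; if it divides `t` then `w ≡ 1`), positive (`P + Q = 50t^2 + 20t + 4 > 0`), so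
`a^4 + 125b^4 = 50t^2 + 20t + 4`, `t = σ a b`, `σ = ±1`, hence `(2 + 5σab)^2 = a^4 - 25a^2b^2 + 125b^4`: `no_E`.
`t = 2τ`: `w, z` odd, `p, q = (w + 50τ^2 ∓ z)/2`, `p q = 125τ^4`, `p + q = 50τ^2 + 10τ + 1 > 0`, coprime,
`a^4 + 125b^4 = 50τ^2 + 10τ + 1`, `τ = σ a b`, `(1 + 5σab)^2 = a^4 - 25a^2b^2 + 125b^4`: `no_E`. -/
theorem no_five (w z : ℤ) (h : Ag 5 w = 5 * z ^ 2) : w = 1 := by
  have hA : 1 + w + w ^ 2 + w ^ 3 + w ^ 4 = 5 * z ^ 2 := by
    rw [← h]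
    simp [Ag, Finset.sum_range_succ]
  obtain ⟨t, ht⟩ : ∃ t : ℤ, w = 1 + 5 * t := by
    have h1 : (5 : ℤ) ∣ (w - 1) ^ 4 := by
      refine ⟨z ^ 2 - w - w ^ 3 + w ^ 2, ?_⟩
      linear_combination hA
    obtain ⟨t, ht⟩ := n5_pow4 _ h1
    exact ⟨t, by linarith⟩
  have hz : z ^ 2 = 1 + 10 * t + 50 * t ^ 2 + 125 * t ^ 3 + 125 * t ^ 4 := by
    rw [ht] at hA
    linarith
  by_cases ht0 : t = 0
  · rw [ht, ht0]; norm_num
  exfalso
  rcases Int.even_or_odd t with ⟨s, hs⟩ | hodd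
  · have hs' : t = 2 * s := by omega
    have hs0 : s ≠ 0 := by rintro rfl; simp at hs'; exact ht0 hs'
    have hz2 : z ^ 2 = 1 + 20 * s + 200 * s ^ 2 + 1000 * s ^ 3 + 2000 * s ^ 4 := by
      rw [hz, hs']; ring
    obtain ⟨y, hy⟩ : Odd z := by
      rw [← Int.not_even_iff_odd]
      rintro ⟨x, hx⟩
      rw [hx] at hz2
      have : 2 * (2 * x ^ 2) = 2 * (10 * s + 100 * s ^ 2 + 500 * s ^ 3 + 1000 * s ^ 4) + 1 := by
        linear_combination hz2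
      omega
    set p : ℤ := 5 * s + 25 * s ^ 2 - y with hp
    set q : ℤ := 5 * s + 25 * s ^ 2 + y + 1 with hq
    have hpq : p * q = 125 * s ^ 4 := by
      have h1 : 4 * (p * q) = 4 * (125 * s ^ 4) := by
        rw [hp, hq]
        rw [hy] at hz2
        linear_combination -hz2
      linarith
    have hsum : p + q = 50 * s ^ 2 + 10 * s + 1 := by rw [hp, hq]; ring
    have hcop := n5_cop p q s _ hpq hsum (fun r hr h1 h2 => by
      have h3 : (r : ℤ) ∣ 1 := by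
        have h4 : (1 : ℤ) = (50 * s ^ 2 + 10 * s + 1) - (50 * s + 10) * s := by ring
        rw [h4]
        exact dvd_sub h2 (Dvd.dvd.mul_left h1 _)
      have h5 : r ∣ 1 := by exact_mod_cast h3
      exact hr.one_lt.ne' (Nat.dvd_one.1 h5)) (by
      intro h6
      omega)
    obtain ⟨e, f, he, hf, hef, hefs, hcase⟩ := n5_split p q s hs0 hcop hpq
    have hpos : 0 < 50 * s ^ 2 + 10 * s + 1 := by nlinarith [sq_nonneg (5 * s + 1)]
    have hs2 : (e : ℤ) ^ 2 * (f : ℤ) ^ 2 = s ^ 2 := by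
      rw [← mul_pow, ← Int.natAbs_sq s, ← hefs]
      push_cast
      ring
    rcases hcase with h1 | h1
    · refine no_E e f (5 * s + 1).natAbs he hf hef ?_
      rw [Int.natAbs_sq]
      rw [hsum] at h1
      linear_combination 25 * hs2 + h1
    · rw [hsum] at h1
      have h3 : (0 : ℤ) ≤ (e : ℤ) ^ 4 + 125 * (f : ℤ) ^ 4 := by positivity
      linarith
  · set P : ℤ := 2 * w + 25 * t ^ 2 - 2 * z with hP
    set Q : ℤ := 2 * w + 25 * t ^ 2 + 2 * z with hQ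
    have hPQ : P * Q = 125 * t ^ 4 := by
      rw [hP, hQ, ht]
      linear_combination -4 * hz
    have hsum : P + Q = 50 * t ^ 2 + 20 * t + 4 := by rw [hP, hQ, ht]; ring
    have hcop := n5_cop P Q t _ hPQ hsum (fun r hr h1 h2 => by
      have hrz : Prime (r : ℤ) := Nat.prime_iff_prime_int.1 hr
      have h3 : (r : ℤ) ∣ 2 ^ 2 := by
        have h4 : (2 ^ 2 : ℤ) = (50 * t ^ 2 + 20 * t + 4) - (50 * t + 20) * t := by ring
        rw [h4]
        exact dvd_sub h2 (Dvd.dvd.mul_left h1 _)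
      have h5 : (r : ℤ) ∣ 2 := hrz.dvd_of_dvd_pow h3
      have h6 : r ∣ 2 := by exact_mod_cast h5
      have h7 : r = 2 := (Nat.prime_dvd_prime_iff_eq hr Nat.prime_two).1 h6
      subst h7
      exact (Int.not_even_iff_odd.2 hodd) (even_iff_two_dvd.2 (by exact_mod_cast h1))) (by
      intro h6
      omega)
    obtain ⟨e, f, he, hf, hef, heft, hcase⟩ := n5_split P Q t ht0 hcop hPQ
    have hpos : 0 < 50 * t ^ 2 + 20 * t + 4 := by nlinarith [sq_nonneg (5 * t + 2)]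
    have ht2 : (e : ℤ) ^ 2 * (f : ℤ) ^ 2 = t ^ 2 := by
      rw [← mul_pow, ← Int.natAbs_sq t, ← heft]
      push_cast
      ring
    rcases hcase with h1 | h1
    · refine no_E e f (5 * t + 2).natAbs he hf hef ?_
      rw [Int.natAbs_sq]
      rw [hsum] at h1
      linear_combination 25 * ht2 + h1
    · rw [hsum] at h1
      have h3 : (0 : ℤ) ≤ (e : ℤ) ^ 4 + 125 * (f : ℤ) ^ 4 := by positivity
      linarith

end Pool.Agent.Wal
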