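import Pool.Agent.Lib.MP_6498db_nt.L.Fin2
import Pool.Agent.Lib.MP_6498db_nt.L.N5
import Pool.Agent.Lib.MP_6498db_nt.Jac

/-! WALSH, Theorem 2, row Fin3: the final form. -/

set_option autoImplicit false

namespace Pool.Agent.Wal

open Finset

/-- the final shape of the solutions -/
def Cas3 (m x n : ℕ) (ε : ℤ) : Prop := n.Coprime 30 ∧ (4 : ℤ) ∣ (x : ℤ) - ε ∧
  ∀ l : ℕ, l.Prime → l ∣ n → (∃ z : ℤ, (x : ℤ) ^ n - ε = l * z ^ 2 * ((x : ℤ) ^ (n / l) - ε)) ∧
    (Squarefree m → ((l * m : ℕ) : ℤ) ∣ (x : ℤ) ^ (n / l) - ε)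

/-- Proof. `w = ε x^(n/l)` (`n` odd, `ε^l = ε`), `|w| ≥ 2`, `Ag l w = l z^2` (`Ag_mul`, `w ≠ 1`), so `l ∣ w - 1`
(`Ag_not_dvd`). `5 ∤ n`: `no_five`. `w ≡ 1` mod 4 by `mod_four_of_geo_eq` (for any prime `l ∣ n`; `l ≥ 5`), so `x` is odd and
`x^(n/l) ≡ x` mod 4 (`n/l` odd), `x ≡ ε` mod 4. `m` squarefree: for a prime `p ∣ m`, the exponent of `p` in
`m^3 y^2 = l z^2 (x^(n/l) - ε)` (up to sign) is odd. `p ≠ l`: so the exponent in `x^(n/l) - ε` is odd, `≥ 1`.
`p = l`: `l ∤ z` (`Ag_congr_sq`: `Ag l w ≡ l` mod `l^2`), so the exponent of `l` in `x^(n/l) - ε` is even and `≥ 1`, hence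
`≥ 2`. So `l m ∣ x^(n/l) - ε` (if `l ∤ m`, `l ∣ x^(n/l) - ε` and coprimality). -/
theorem cas_up (m x y n : ℕ) (ε : ℤ) (hm : 0 < m) (hx : 1 < x) (hy : 0 < y) (hn : 2 < n)
    (hε : ε = 1 ∨ ε = -1) (h : (x : ℤ) ^ n - (m : ℤ) ^ 3 * (y : ℤ) ^ 2 = ε) (hc : Cas x n ε) :
    Cas3 m x n ε := by
  obtain ⟨h6, hz⟩ := hc
  have hn2 : ¬ 2 ∣ n := by
    intro h2
    have h3 : 2 ∣ Nat.gcd n 6 := Nat.dvd_gcd h2 (by norm_num)
    rw [h6] at h3
    omega
  have hn3 : ¬ 3 ∣ n := by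
    intro h2
    have h3 : 3 ∣ Nat.gcd n 6 := Nat.dvd_gcd h2 (by norm_num)
    rw [h6] at h3
    omega
  have hlp : ∀ l : ℕ, l.Prime → l ∣ n → 5 ≤ l := by
    intro l hl hln
    have h2 := hl.two_le
    by_contra h5
    have h4 : l = 2 ∨ l = 3 ∨ l = 4 := by omega
    rcases h4 with rfl | rfl | rfl
    · exact hn2 hln
    · exact hn3 hln
    · exact absurd hl (by norm_num)
  have hnodd : Odd n := by
    rw [← Nat.not_even_iff_odd]
    intro h2
    exact hn2 h2.two_dvd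
  have hdo : ∀ l : ℕ, l ∣ n → Odd (n / l) := by
    intro l hl
    obtain ⟨k, hk⟩ := hl
    have hl0 : 0 < l := by
      rcases Nat.eq_zero_or_pos l with h0 | h0
      · rw [h0, zero_mul] at hk
        omega
      · exact h0
    rw [hk, Nat.mul_div_cancel_left k hl0]
    rw [hk] at hnodd
    exact (Nat.odd_mul.1 hnodd).2
  -- the data of a prime
  have key : ∀ l : ℕ, l.Prime → l ∣ n → ∀ z : ℤ, (x : ℤ) ^ n - ε = l * z ^ 2 * ((x : ℤ) ^ (n / l) - ε) →
      Ag l (ε * (x : ℤ) ^ (n / l)) = l * z ^ 2 := by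
    intro l hl hln z he
    have hnl : n / l * l = n := Nat.div_mul_cancel hln
    have hlo : Odd l := hl.odd_of_ne_two (by have := hlp l hl hln; omega)
    have hw := Ag_mul l (ε * (x : ℤ) ^ (n / l))
    have h1 : (ε * (x : ℤ) ^ (n / l)) ^ l = ε * (x : ℤ) ^ n := by
      rw [mul_pow, ← pow_mul, hnl]
      have : ε ^ l = ε := by
        rcases hε with h | h
        · rw [h, one_pow]
        · rw [h, hlo.neg_one_pow]
      rw [this]
    rw [h1] at hw
    have hee : ε * ε = 1 := by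
      rcases hε with h | h
      · rw [h]; norm_num
      · rw [h]; norm_num
    have hu : (x : ℤ) ^ (n / l) - ε ≠ 0 := by
      have h2 : 0 < n / l := (hdo l hln).pos
      have h3 : (1 : ℤ) < (x : ℤ) ^ (n / l) := one_lt_pow₀ (by exact_mod_cast hx) (by omega)
      rcases hε with h | h
      · rw [h]; omega
      · rw [h]; omega
    have hw1 : ε * (x : ℤ) ^ (n / l) - 1 = ε * ((x : ℤ) ^ (n / l) - ε) := by
      rw [mul_sub, hee]
    have hw2 : ε * (x : ℤ) ^ n - 1 = ε * ((x : ℤ) ^ n - ε) := by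
      rw [mul_sub, hee]
    rw [hw1, hw2, he] at hw
    have he0 : ε ≠ 0 := by
      intro h0
      rw [h0] at hee
      norm_num at hee
    have h4 : (ε * ((x : ℤ) ^ (n / l) - ε)) ≠ 0 := mul_ne_zero he0 hu
    apply mul_right_cancel₀ h4
    rw [hw]
    ring
  have hne : ∀ l : ℕ, l.Prime → l ∣ n → ε * (x : ℤ) ^ (n / l) ≠ 1 := by
    intro l hl hln h1
    have h2 : 0 < n / l := (hdo l hln).pos
    have h3 : (1 : ℤ) < (x : ℤ) ^ (n / l) := one_lt_pow₀ (by exact_mod_cast hx) (by omega)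
    rcases hε with h | h
    · rw [h, one_mul] at h1
      omega
    · rw [h] at h1
      omega
  refine ⟨?_, ?_, ?_⟩
  · -- coprime to 30
    have h5 : ¬ 5 ∣ n := by
      intro h5
      obtain ⟨z, hz5⟩ := hz 5 (by norm_num) h5
      have h1 := key 5 (by norm_num) h5 z (by exact_mod_cast hz5)
      have h2 := no_five _ z (by exact_mod_cast h1)
      exact hne 5 (by norm_num) h5 h2
    have h5c : Nat.Coprime 5 n := (Nat.Prime.coprime_iff_not_dvd (by norm_num)).2 h5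
    have : (30 : ℕ) = 6 * 5 := by norm_num
    rw [this]
    exact Nat.Coprime.mul_right h6 h5c.symm
  · -- mod 4
    obtain ⟨l, hl, hln⟩ := Nat.exists_prime_and_dvd (n := n) (by omega)
    obtain ⟨z, hzl⟩ := hz l hl hln
    have h1 := key l hl hln z hzl
    have h2 := Pool.Agent.Lib.MP_6498db_nt.mod_four_of_geo_eq (w := ε * (x : ℤ) ^ (n / l)) (v := z) hl
      (hlp l hl hln) h1
    obtain ⟨k, hk⟩ := hdo l hln
    rw [hk] at h2
    have hx4 : (x : ℤ) % 4 = 0 ∨ (x : ℤ) % 4 = 1 ∨ (x : ℤ) % 4 = 2 ∨ (x : ℤ) % 4 = 3 := by omega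
    have hmod : (ε * (x : ℤ) ^ (2 * k + 1)) % 4 = 1 → (4 : ℤ) ∣ (x : ℤ) - ε := by
      intro h3
      have h4 : (x : ℤ) ^ (2 * k + 1) = ((x : ℤ) ^ 2) ^ k * x := by
        rw [pow_succ, pow_mul]
      rw [h4] at h3
      have h5 : Odd (x : ℤ) := by
        rw [← Int.not_even_iff_odd]
        intro h6
        have h7 : Even (ε * (((x : ℤ) ^ 2) ^ k * x)) := by
          exact (h6.mul_left _).mul_left _
        obtain ⟨t, ht⟩ := h7
        rw [ht] at h3
        omega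
      have h6 : (4 : ℤ) ∣ (x : ℤ) ^ 2 - 1 := by
        obtain ⟨t, ht⟩ := h5
        exact ⟨t ^ 2 + t, by rw [ht]; ring⟩
      have h7 : (4 : ℤ) ∣ ((x : ℤ) ^ 2) ^ k - 1 := by
        have := sub_dvd_pow_sub_pow ((x : ℤ) ^ 2) 1 k
        rw [one_pow] at this
        exact h6.trans this
      have h8 : (4 : ℤ) ∣ ε * (((x : ℤ) ^ 2) ^ k * x) - ε * x := by
        have : ε * (((x : ℤ) ^ 2) ^ k * x) - ε * x = (((x : ℤ) ^ 2) ^ k - 1) * (ε * x) := by ring
        rw [this]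
        exact Dvd.dvd.mul_right h7 _
      rcases hε with h | h
      · rw [h] at h3 h8 ⊢
        omega
      · rw [h] at h3 h8 ⊢
        omega
    exact hmod h2
  · intro l hl hln
    obtain ⟨z, hzl⟩ := hz l hl hln
    refine ⟨⟨z, hzl⟩, ?_⟩
    intro hsq
    have hA := key l hl hln z hzl
    have h5 := hlp l hl hln
    set w : ℤ := ε * (x : ℤ) ^ (n / l) with hw
    have hee : ε * ε = 1 := by
      rcases hε with h | h
      · rw [h]; norm_num
      · rw [h]; norm_num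
    have hlw : (l : ℤ) ∣ w - 1 := by
      by_contra h0
      exact Ag_not_dvd l hl w h0 ⟨z ^ 2, hA⟩
    have hzl' : ¬ (l : ℤ) ∣ z := by
      intro h0
      have h1 := Ag_congr_sq l hl (by omega) w hlw
      rw [hA] at h1
      obtain ⟨t, ht⟩ := h0
      have hl0 : (l : ℤ) ≠ 0 := by exact_mod_cast hl.ne_zero
      have h2 : (l : ℤ) * z ^ 2 - l = l * (z ^ 2 - 1) := by ring
      rw [h2, sq (l : ℤ)] at h1
      have h3 := (mul_dvd_mul_iff_left hl0).1 h1
      have h4 : (l : ℤ) ∣ z ^ 2 := ⟨t * z, by rw [sq, ht]; ring⟩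
      have h6 : (l : ℤ) ∣ 1 := by
        have := dvd_sub h4 h3
        rwa [sub_sub_cancel] at this
      have h7 : (l : ℤ) ≤ 1 := Int.le_of_dvd (by norm_num) h6
      have h8 : (5 : ℤ) ≤ l := by exact_mod_cast h5
      omega
    have hlu : (l : ℤ) ∣ (x : ℤ) ^ (n / l) - ε := by
      have h1 : (x : ℤ) ^ (n / l) - ε = ε * (w - 1) := by
        rw [hw, mul_sub, ← mul_assoc, hee]
        ring
      rw [h1]
      exact Dvd.dvd.mul_left hlw _
    have hupos : 0 < (x : ℤ) ^ (n / l) - ε := by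
      have h2 : 0 < n / l := (hdo l hln).pos
      have h3 : (1 : ℤ) < (x : ℤ) ^ (n / l) := one_lt_pow₀ (by exact_mod_cast hx) (by omega)
      rcases hε with h | h
      · rw [h]; omega
      · rw [h]; omega
    obtain ⟨u, hu⟩ := Int.eq_ofNat_of_zero_le hupos.le
    rw [hu] at hlu hupos hzl ⊢
    have hu0 : u ≠ 0 := by
      intro h0
      rw [h0] at hupos
      exact lt_irrefl _ hupos
    have hlu' : l ∣ u := by exact_mod_cast hlu
    have hznat : ¬ l ∣ z.natAbs := by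
      intro h0
      exact hzl' (Int.natCast_dvd.2 h0)
    have hz0 : z.natAbs ≠ 0 := by
      intro h0
      rw [h0] at hznat
      exact hznat (dvd_zero _)
    have hmain : m ^ 3 * y ^ 2 = l * z.natAbs ^ 2 * u := by
      have h1 : (m : ℤ) ^ 3 * (y : ℤ) ^ 2 = l * z ^ 2 * (u : ℤ) := by
        rw [← hzl]
        linarith
      have h2 : ((z.natAbs : ℕ) : ℤ) ^ 2 = z ^ 2 := by
        rw [Int.natCast_natAbs, sq_abs]
      have h3 : ((m ^ 3 * y ^ 2 : ℕ) : ℤ) = ((l * z.natAbs ^ 2 * u : ℕ) : ℤ) := by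
        push_cast
        rw [Int.natCast_natAbs] at h2
        rw [h1, h2]
      exact_mod_cast h3
    have hgoal : l * m ∣ u := by
      have hlm : l * m ≠ 0 := Nat.mul_ne_zero hl.ne_zero (by omega)
      rw [← Nat.factorization_le_iff_dvd hlm hu0]
      intro p
      by_cases hp : p.Prime
      · have e1 : (m ^ 3 * y ^ 2).factorization p = 3 * m.factorization p + 2 * y.factorization p := by
          rw [Nat.factorization_mul (pow_ne_zero _ (by omega)) (pow_ne_zero _ (by omega)),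
            Nat.factorization_pow, Nat.factorization_pow]
          rfl
        have e2 : (l * z.natAbs ^ 2 * u).factorization p =
            l.factorization p + 2 * z.natAbs.factorization p + u.factorization p := by
          rw [Nat.factorization_mul (Nat.mul_ne_zero hl.ne_zero (pow_ne_zero _ hz0)) hu0,
            Nat.factorization_mul hl.ne_zero (pow_ne_zero _ hz0), Nat.factorization_pow]
          rfl
        have e3 : (l * m).factorization p = l.factorization p + m.factorization p := by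
          rw [Nat.factorization_mul hl.ne_zero (by omega)]
          rfl
        have e4 : m.factorization p ≤ 1 := hsq.natFactorization_le_one p
        rw [hmain, e2] at e1
        rw [e3]
        by_cases hpl : p = l
        · rw [hpl] at e1 e4 ⊢
          have e5 : l.factorization l = 1 := hl.factorization_self
          have e6 : z.natAbs.factorization l = 0 := Nat.factorization_eq_zero_of_not_dvd hznat
          have e7 : 1 ≤ u.factorization l := (hl.dvd_iff_one_le_factorization hu0).1 hlu'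
          omega
        · have e5 : l.factorization p = 0 := by
            apply Nat.factorization_eq_zero_of_not_dvd
            intro h0
            exact hpl ((Nat.prime_dvd_prime_iff_eq hp hl).1 h0)
          omega
      · rw [Nat.factorization_eq_zero_of_not_prime _ hp]
        exact Nat.zero_le _
    exact_mod_cast hgoal

/-- Theorem 2, final form (`cas_up` and `walsh_two`). -/
theorem walsh_three : ∃ C c : ℝ, 0 < c ∧ ∀ X : ℕ, 2 ≤ X →
    (({m : ℕ | 1 ≤ m ∧ m ≤ X ∧ ∃ (x y n : ℕ) (ε : ℤ), 1 < x ∧ 1 < y ∧ 2 < n ∧ (ε = 1 ∨ ε = -1) ∧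
      (x : ℤ) ^ n - (m : ℤ) ^ 3 * (y : ℤ) ^ 2 = ε ∧ ¬ Cas3 m x n ε}.ncard : ℕ) : ℝ) ≤
      C * X / Real.log X ^ c := by
  obtain ⟨C, c, hc, h⟩ := walsh_two
  refine ⟨C, c, hc, fun X hX => le_trans ?_ (h X hX)⟩
  have hfin : ({m : ℕ | 1 ≤ m ∧ m ≤ X ∧ ∃ (x y n : ℕ) (ε : ℤ), 1 < x ∧ 1 < y ∧ 2 < n ∧
      (ε = 1 ∨ ε = -1) ∧ (x : ℤ) ^ n - (m : ℤ) ^ 3 * (y : ℤ) ^ 2 = ε ∧ ¬ Cas x n ε}).Finite := by
    apply (finite_toSet (Icc 1 X)).subset
    intro m hm
    rw [coe_Icc]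
    exact ⟨hm.1, hm.2.1⟩
  have hle := Set.ncard_le_ncard (s := {m : ℕ | 1 ≤ m ∧ m ≤ X ∧ ∃ (x y n : ℕ) (ε : ℤ), 1 < x ∧
      1 < y ∧ 2 < n ∧ (ε = 1 ∨ ε = -1) ∧ (x : ℤ) ^ n - (m : ℤ) ^ 3 * (y : ℤ) ^ 2 = ε ∧ ¬ Cas3 m x n ε})
    (by
      rintro m ⟨h1, h2, x, y, n, ε, hx, hy, hn, hε, he, hnc⟩
      refine ⟨h1, h2, x, y, n, ε, hx, hy, hn, hε, he, ?_⟩
      intro hcas
      exact hnc (cas_up m x y n ε (by omega) hx (by omega) hn hε he hcas)) hfin
  exact_mod_cast hle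

end Pool.Agent.Wal
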