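import Pool.Agent.Lib.MP_6498db_nt.L.PrDefs
import Pool.Agent.Lib.MP_6498db_nt.L.FbB

/-! WALSH, Theorem 2, row PrB: biased `c q`. -/

set_option autoImplicit false

namespace Pool.Agent.Wal

open Finset

/-- `c < q` -/
private theorem prb_lt {X m c a q : ℕ} (h : Prq X m c a q) : c = 1 ∨ (c.Prime ∧ c < q) := by
  rcases h.hc with h1 | ⟨h1, h2, -⟩
  · exact Or.inl h1
  · right
    refine ⟨h1, ?_⟩
    by_contra h3
    rcases Nat.lt_or_ge q c with h4 | h4
    · rw [Nat.mod_eq_of_lt h4] at h2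
      exact h.hq.one_lt.ne' h2
    · have h5 : q = c := by omega
      rw [h5, Nat.mod_self] at h2
      exact zero_ne_one h2

private theorem prb_uniq {c q c' q' : ℕ} (hq : q.Prime) (hq' : q'.Prime)
    (hc : c = 1 ∨ (c.Prime ∧ c < q)) (hc' : c' = 1 ∨ (c'.Prime ∧ c' < q')) (h : c * q = c' * q') :
    q = q' := by
  by_contra hne
  have h1 : q < q' := by
    have h2 : q ∣ c' * q' := ⟨c, by rw [← h, mul_comm]⟩
    rcases (hq.dvd_mul).1 h2 with h3 | h3
    · rcases hc' with h4 | ⟨h4, h5⟩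
      · rw [h4] at h3
        exact absurd (Nat.dvd_one.1 h3) hq.one_lt.ne'
      · rw [(Nat.prime_dvd_prime_iff_eq hq h4).1 h3]
        exact h5
    · exact absurd ((Nat.prime_dvd_prime_iff_eq hq hq').1 h3) hne
  have h1' : q' < q := by
    have h2 : q' ∣ c * q := ⟨c', by rw [h, mul_comm]⟩
    rcases (hq'.dvd_mul).1 h2 with h3 | h3
    · rcases hc with h4 | ⟨h4, h5⟩
      · rw [h4] at h3
        exact absurd (Nat.dvd_one.1 h3) hq'.one_lt.ne'
      · rw [(Nat.prime_dvd_prime_iff_eq hq' h4).1 h3]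
        exact h5
    · exact absurd ((Nat.prime_dvd_prime_iff_eq hq' hq).1 h3).symm hne
  omega

private theorem prb_sqf {c q : ℕ} (hq : q.Prime) (hc : c = 1 ∨ (c.Prime ∧ c < q)) :
    Squarefree (c * q) := by
  rcases hc with h | ⟨h, h'⟩
  · rw [h, one_mul]
    exact hq.squarefree
  · rw [Nat.squarefree_mul ((Nat.coprime_primes h hq).2 h'.ne)]
    exact ⟨h.squarefree, hq.squarefree⟩

/-- Proof. For a pair `(q, c)` the number of `m ≤ X` divisible by `q` is `≤ X/q ≤ X / √(c q)` (`c < q` or `c = 1`). The map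
`(c, q) ↦ d = c q` is at most 2 to 1 (`q` is the largest prime factor of `d`), `d` squarefree, `Z < q ≤ d ≤ X^2`;
`fb_sum`. -/
theorem pr_bad : ∃ C : ℝ, ∀ X : ℕ, 3 ≤ X → ∀ S : Finset ℕ,
    (∀ m ∈ S, m ∈ sqs X ∧ ∃ c a q : ℕ, Prq X m c a q ∧ Real.exp (Real.log X ^ (2 * δ0)) < (q : ℝ) ∧
      BadX X (c * q)) →
    (S.card : ℝ) ≤ C * X * Real.log X ^ (-(1 : ℝ)) := by
  classical
  obtain ⟨C, hC⟩ := fb_sum
  refine ⟨|C|, fun X hX S hS => ?_⟩
  have hX0 : (0 : ℝ) < X := by exact_mod_cast (by omega : 0 < X)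
  have hL : 1 ≤ Real.log X := by
    rw [Real.le_log_iff_exp_le hX0]
    have h1 := Real.exp_one_lt_d9
    have h2 : (3 : ℝ) ≤ X := by exact_mod_cast hX
    linarith
  -- the chosen pairs
  have hS' : ∀ m : ℕ, ∃ c a q : ℕ, m ∈ S → m ∈ sqs X ∧ Prq X m c a q ∧
      Real.exp (Real.log X ^ (2 * δ0)) < (q : ℝ) ∧ BadX X (c * q) := by
    intro m
    by_cases hm : m ∈ S
    · obtain ⟨h1, c, a, q, h2⟩ := hS m hm
      exact ⟨c, a, q, fun _ => ⟨h1, h2⟩⟩
    · exact ⟨0, 0, 0, fun h => absurd h hm⟩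
  choose c a q hcaq using hS'
  set I : Finset ℕ := S.image fun m => c m * q m with hI
  have hcpos : ∀ m ∈ S, 1 ≤ c m := by
    intro m hm
    rcases prb_lt (hcaq m hm).2.1 with h | ⟨h, -⟩
    · rw [h]
    · exact h.one_le
  have hqX : ∀ m ∈ S, q m ≤ X ∧ q m ∣ m ∧ 1 ≤ m ∧ m ≤ X := by
    intro m hm
    obtain ⟨h1, h2, -⟩ := hcaq m hm
    rw [mem_sqs] at h1
    have h3 : q m ∣ m := ⟨a m, by rw [mul_comm (q m)]; exact h2.hm.symm⟩
    exact ⟨(Nat.le_of_dvd h1.1 h3).trans h1.2.1, h3, h1.1, h1.2.1⟩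
  have hcq : ∀ m ∈ S, c m ≤ q m := by
    intro m hm
    rcases prb_lt (hcaq m hm).2.1 with h | ⟨-, h⟩
    · rw [h]
      exact (hcaq m hm).2.1.hq.one_le
    · exact h.le
  have hsum := hC X hX I (by
    intro d hd
    obtain ⟨m, hm, rfl⟩ := Finset.mem_image.1 hd
    obtain ⟨h1, h2, h3, h4⟩ := hcaq m hm
    refine ⟨prb_sqf h2.hq (prb_lt h2), ?_, ?_, h4⟩
    · rw [sq]
      exact Nat.mul_le_mul ((hcq m hm).trans (hqX m hm).1) (hqX m hm).1
    · refine h3.trans_le ?_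
      have h5 : q m ≤ c m * q m := Nat.le_mul_of_pos_left _ (hcpos m hm)
      exact_mod_cast h5)
  have hcard : (S.card : ℝ) ≤ ∑ d ∈ I, (X : ℝ) * (1 / Real.sqrt d) := by
    have h1 : S.card = ∑ d ∈ I, (S.filter fun m => c m * q m = d).card :=
      Finset.card_eq_sum_card_fiberwise fun m hm => Finset.mem_image_of_mem _ hm
    rw [h1, Nat.cast_sum]
    refine Finset.sum_le_sum fun d hd => ?_
    obtain ⟨m₀, hm₀, rfl⟩ := Finset.mem_image.1 hd
    have hq0 : 0 < q m₀ := (hcaq m₀ hm₀).2.1.hq.pos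
    have h2 : (S.filter fun m => c m * q m = c m₀ * q m₀) ⊆
        (Finset.Ioc 0 X).filter fun m => q m₀ ∣ m := by
      intro m hm
      rw [Finset.mem_filter] at hm
      obtain ⟨hm, he⟩ := hm
      have h3 : q m = q m₀ := prb_uniq (hcaq m hm).2.1.hq (hcaq m₀ hm₀).2.1.hq
        (prb_lt (hcaq m hm).2.1) (prb_lt (hcaq m₀ hm₀).2.1) he
      obtain ⟨-, h4, h5, h6⟩ := hqX m hm
      rw [Finset.mem_filter, Finset.mem_Ioc]
      exact ⟨⟨h5, h6⟩, h3 ▸ h4⟩
    have h3 := Finset.card_le_card h2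
    rw [Nat.Ioc_filter_dvd_card_eq_div] at h3
    have h4 : ((S.filter fun m => c m * q m = c m₀ * q m₀).card : ℝ) ≤ (X : ℝ) / q m₀ := by
      refine le_trans (by exact_mod_cast h3) Nat.cast_div_le
    refine h4.trans ?_
    rw [mul_one_div]
    have hqR : (0 : ℝ) < q m₀ := by exact_mod_cast hq0
    have hd0 : (0 : ℝ) < ((c m₀ * q m₀ : ℕ) : ℝ) := by
      exact_mod_cast Nat.mul_pos (hcpos m₀ hm₀) hq0
    refine div_le_div_of_nonneg_left hX0.le (Real.sqrt_pos.2 hd0) ?_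
    rw [Real.sqrt_le_left hqR.le, sq]
    exact_mod_cast Nat.mul_le_mul_right (q m₀) (hcq m₀ hm₀)
  rw [← Finset.mul_sum] at hcard
  calc (S.card : ℝ) ≤ X * ∑ d ∈ I, 1 / Real.sqrt d := hcard
    _ ≤ X * (C * Real.log X ^ (-(2 : ℝ))) := mul_le_mul_of_nonneg_left hsum hX0.le
    _ ≤ X * (|C| * Real.log X ^ (-(1 : ℝ))) := by
        refine mul_le_mul_of_nonneg_left ?_ hX0.le
        have h1 : (0 : ℝ) ≤ Real.log X ^ (-(2 : ℝ)) := Real.rpow_nonneg (by linarith) _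
        refine (mul_le_mul_of_nonneg_right (le_abs_self C) h1).trans ?_
        refine mul_le_mul_of_nonneg_left ?_ (abs_nonneg C)
        exact Real.rpow_le_rpow_of_exponent_le hL (by norm_num)
    _ = |C| * X * Real.log X ^ (-(1 : ℝ)) := by ring

end Pool.Agent.Wal
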