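import Pool.Agent.Lib.MP_6498db_nt.L.PrDefs
import Pool.Agent.Lib.MP_6498db_nt.L.FbC
import Pool.Agent.Lib.MP_6498db_nt.L.BtA

/-! WALSH, Theorem 2, row PrC: unbiased `c q`. -/

set_option autoImplicit false

namespace Pool.Agent.Wal

open Finset

private theorem prC_card {q : ℕ} (hq : q.Prime) (X : ℕ) :
    ((prs X).filter (fun l => q % l = 1 ∧ q ≤ l ^ 16)).card ≤ 15 := by
  by_contra hcon
  obtain ⟨T, hT, hcard⟩ := Finset.exists_subset_card_eq
    (show 16 ≤ ((prs X).filter (fun l => q % l = 1 ∧ q ≤ l ^ 16)).card by omega)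
  have hT' : ∀ l ∈ T, l.Prime ∧ q % l = 1 ∧ q ≤ l ^ 16 := by
    intro l hl
    have h1 := Finset.mem_filter.1 (hT hl)
    exact ⟨(mem_prs.1 h1.1).1, h1.2⟩
  have h2 : (∏ l ∈ T, l) ∣ q - 1 := by
    refine Finset.prod_primes_dvd _ (fun l hl => (hT' l hl).1.prime) fun l hl => ?_
    refine ⟨q / l, ?_⟩
    have h3 := Nat.div_add_mod q l
    rw [(hT' l hl).2.1] at h3
    omega
  have hq1 : 0 < q - 1 := by
    have := hq.two_le
    omega
  have h3 := Nat.le_of_dvd hq1 h2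
  have h4 : q ^ 16 ≤ (∏ l ∈ T, l) ^ 16 := by
    rw [← Finset.prod_pow]
    calc q ^ 16 = ∏ _l ∈ T, q := by rw [Finset.prod_const, hcard]
      _ ≤ ∏ l ∈ T, l ^ 16 := Finset.prod_le_prod' fun l hl => (hT' l hl).2.2
  have h5 : q ≤ ∏ l ∈ T, l := (Nat.pow_le_pow_iff_left (by norm_num)).1 h4
  omega

private theorem prC_loglog {X : ℕ} (hX : 3 ≤ X) : 0 ≤ Real.log (Real.log X) :=
  Real.log_nonneg (MertAux.log_ge X hX)

private theorem prC_mert : ∃ C : ℝ, 1 ≤ C ∧ ∀ X : ℕ, 3 ≤ X →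
    ∑ p ∈ prs X, (1 : ℝ) / p ≤ C * (Real.log (Real.log X) + 1) := by
  obtain ⟨C, hC⟩ := mert_up
  refine ⟨|C| + 1, by linarith [abs_nonneg C], fun X hX => ?_⟩
  have h1 := hC X hX
  have h2 := prC_loglog hX
  have h3 := le_abs_self C
  have h4 := abs_nonneg C
  nlinarith [mul_nonneg h4 h2]

/-- Proof. Exchange: `∑_l ∑_{q ≡ 1 mod l} 1/q`. For `q < l^16`: at most 15 such `l` for each `q` (their product divides
`q - 1 < q`), total `≤ 15 ∑ 1/q ≤ C (loglog X + 1)`. For `q ≥ l^16`: `bt_sum` with `z = l^16 - 1` or `l^16` (`q = l^16` is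
not prime): `≤ (C/l)(loglog X + 1)`, and `∑_{l ≤ X} 1/l ≤ loglog X + C` (`mert_up`). -/
theorem sum_lq : ∃ C : ℝ, 0 < C ∧ ∀ X : ℕ, 3 ≤ X →
    ∑ q ∈ prs X, (((prs X).filter (fun l => q % l = 1)).card : ℝ) / q ≤
      C * (Real.log (Real.log X) + 1) ^ 2 := by
  classical
  obtain ⟨C₁, hC₁, h₁⟩ := prC_mert
  obtain ⟨C₂, hC₂, h₂⟩ := bt_sum
  refine ⟨15 * C₁ + C₂ * C₁, by positivity, fun X hX => ?_⟩
  have hL := prC_loglog hX
  obtain ⟨L, hLe⟩ : ∃ L, L = Real.log (Real.log X) := ⟨_, rfl⟩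
  have hm := h₁ X hX
  rw [← hLe] at hL hm ⊢
  -- splitting
  have hsplit : ∀ q ∈ prs X, (((prs X).filter (fun l => q % l = 1)).card : ℝ) / q ≤
      15 * (1 / (q : ℝ)) + ∑ l ∈ prs X, (if l ^ 16 < q ∧ q % l = 1 then 1 / (q : ℝ) else 0) := by
    intro q hq
    have hq' := mem_prs.1 hq
    have hq0 : (0 : ℝ) < q := by exact_mod_cast hq'.1.pos
    have h3 : (prs X).filter (fun l => q % l = 1) ⊆
        (prs X).filter (fun l => q % l = 1 ∧ q ≤ l ^ 16) ∪
        (prs X).filter (fun l => l ^ 16 < q ∧ q % l = 1) := by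
      intro l hl
      rw [Finset.mem_filter] at hl
      rw [Finset.mem_union, Finset.mem_filter, Finset.mem_filter]
      rcases Nat.lt_or_ge (l ^ 16) q with h | h
      · exact Or.inr ⟨hl.1, h, hl.2⟩
      · exact Or.inl ⟨hl.1, hl.2, h⟩
    have h4 := (Finset.card_le_card h3).trans (Finset.card_union_le _ _)
    have h5 := prC_card hq'.1 X
    have h6 : (((prs X).filter (fun l => q % l = 1)).card : ℝ) ≤
        15 + (((prs X).filter (fun l => l ^ 16 < q ∧ q % l = 1)).card : ℝ) := by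
      have : ((prs X).filter (fun l => q % l = 1)).card ≤
        15 + ((prs X).filter (fun l => l ^ 16 < q ∧ q % l = 1)).card := by omega
      exact_mod_cast this
    rw [← Finset.sum_filter, Finset.sum_const, nsmul_eq_mul, ← add_mul, mul_one_div]
    exact div_le_div_of_nonneg_right h6 hq0.le
  refine (Finset.sum_le_sum hsplit).trans ?_
  rw [Finset.sum_add_distrib, ← Finset.mul_sum, Finset.sum_comm]
  have h3 : ∀ l ∈ prs X, ∑ q ∈ prs X, (if l ^ 16 < q ∧ q % l = 1 then 1 / (q : ℝ) else 0) ≤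
      C₂ * (L + 1) * (1 / (l : ℝ)) := by
    intro l hl
    have hl' := mem_prs.1 hl
    have hl0 : (0 : ℝ) < l := by exact_mod_cast hl'.1.pos
    rw [← Finset.sum_filter]
    have hz : 3 ≤ l ^ 16 := by
      calc 3 ≤ 2 ^ 16 := by norm_num
        _ ≤ l ^ 16 := Nat.pow_le_pow_left hl'.1.two_le 16
    rcases Nat.lt_or_ge X (l ^ 16) with h | h
    · have h4 : (prs X).filter (fun q => l ^ 16 < q ∧ q % l = 1) = ∅ := by
        refine Finset.filter_eq_empty_iff.2 fun q hq h5 => ?_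
        have := (mem_prs.1 hq).2
        omega
      rw [h4, Finset.sum_empty]
      positivity
    · have h4 := h₂ l (l ^ 16) X hl'.1 hz h le_rfl
      refine h4.trans ?_
      have h5 := prC_loglog hz
      rw [← hLe]
      have h6 : C₂ / l * (L - Real.log (Real.log ((l ^ 16 : ℕ) : ℝ)) + 1) ≤ C₂ / l * (L + 1) :=
        mul_le_mul_of_nonneg_left (by linarith) (by positivity)
      refine h6.trans (le_of_eq ?_)
      ring
  have h4 := Finset.sum_le_sum h3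
  rw [← Finset.mul_sum] at h4
  have h5 : C₂ * (L + 1) * ∑ l ∈ prs X, 1 / (l : ℝ) ≤ C₂ * (L + 1) * (C₁ * (L + 1)) :=
    mul_le_mul_of_nonneg_left hm (by positivity)
  have h6 : 15 * ∑ q ∈ prs X, 1 / (q : ℝ) ≤ 15 * (C₁ * (L + 1)) := by linarith
  have h7 : 15 * (C₁ * (L + 1)) ≤ 15 * C₁ * (L + 1) ^ 2 := by
    have h8 : L + 1 ≤ (L + 1) ^ 2 := by nlinarith
    calc 15 * (C₁ * (L + 1)) = 15 * C₁ * (L + 1) := by ring
      _ ≤ 15 * C₁ * (L + 1) ^ 2 := mul_le_mul_of_nonneg_left h8 (by positivity)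
  have h8 : C₂ * (L + 1) * (C₁ * (L + 1)) = C₂ * C₁ * (L + 1) ^ 2 := by ring
  rw [add_mul]
  linarith

private theorem prC_pow {X : ℕ} (hX : 3 ≤ X) :
    Real.log X ^ (-(1 / 40 : ℝ)) * (Real.log (Real.log X) + 1) ^ 2 ≤
      161 ^ 2 * Real.log X ^ (-(1 / 80 : ℝ)) := by
  have h1 := MertAux.log_ge X hX
  obtain ⟨u, hu⟩ : ∃ u, u = Real.log (X : ℝ) := ⟨_, rfl⟩
  rw [← hu] at h1 ⊢
  have h0 : 0 < u := by linarith
  have h2 : Real.log u ≤ u ^ (1 / 160 : ℝ) / (1 / 160) :=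
    Real.log_le_rpow_div h0.le (by norm_num)
  have h3 : (1 : ℝ) ≤ u ^ (1 / 160 : ℝ) := Real.one_le_rpow h1 (by norm_num)
  have h4 : Real.log u + 1 ≤ 161 * u ^ (1 / 160 : ℝ) := by
    have : u ^ (1 / 160 : ℝ) / (1 / 160) = 160 * u ^ (1 / 160 : ℝ) := by ring
    rw [this] at h2
    linarith
  have h5 : 0 ≤ Real.log u := Real.log_nonneg h1
  have h6 : (Real.log u + 1) ^ 2 ≤ (161 * u ^ (1 / 160 : ℝ)) ^ 2 :=
    pow_le_pow_left₀ (by linarith) h4 2
  have h7 : (161 * u ^ (1 / 160 : ℝ)) ^ 2 = 161 ^ 2 * u ^ (1 / 80 : ℝ) := by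
    rw [mul_pow, ← Real.rpow_natCast (u ^ (1 / 160 : ℝ)) 2, ← Real.rpow_mul h0.le]
    norm_num
  rw [h7] at h6
  calc u ^ (-(1 / 40 : ℝ)) * (Real.log u + 1) ^ 2
      ≤ u ^ (-(1 / 40 : ℝ)) * (161 ^ 2 * u ^ (1 / 80 : ℝ)) :=
        mul_le_mul_of_nonneg_left h6 (Real.rpow_nonneg h0.le _)
    _ = 161 ^ 2 * (u ^ (-(1 / 40 : ℝ)) * u ^ (1 / 80 : ℝ)) := by ring
    _ = 161 ^ 2 * u ^ (-(1 / 80 : ℝ)) := by
        rw [← Real.rpow_add h0]
        norm_num

/-- Proof. `m = a q`, `a ∈ sqs (X/q)`, `X/q ≥ a ≥ exp(√log X)`; `fb_count` for `d = c q`, `Y = X/q`: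
`≤ C (X/q) (log X)^(-1/40)` for each pair `(q, c)`; sum over `c` and `q`: `∑_{q ≤ X} (1 + #c)/q ≤ C (loglog X + 1)^2`
(`sum_lq`, `mert_up`). -/
theorem pr_good : ∃ C : ℝ, ∀ X : ℕ, 3 ≤ X → ∀ S : Finset ℕ,
    (∀ m ∈ S, m ∈ sqs X ∧ ∃ c a q : ℕ, Prq X m c a q ∧ ¬ BadX X (c * q) ∧
      Real.exp (Real.sqrt (Real.log X)) < (a : ℝ)) →
    (S.card : ℝ) ≤ C * X * Real.log X ^ (-(1 / 80 : ℝ)) := by
  classical
  obtain ⟨C₁, hC₁, h₁⟩ := prC_mert
  obtain ⟨C₂, hC₂, h₂⟩ := sum_lq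
  obtain ⟨C₃, hC₃, h₃⟩ := fb_count
  refine ⟨C₃ * (C₁ + C₂) * 161 ^ 2, fun X hX S hS => ?_⟩
  obtain ⟨A, hA⟩ : ∃ A : ℕ → ℕ → Finset ℕ, ∀ q c, A q c =
      (sqs (X / q)).filter (fun a => ¬ BadX X (c * q) ∧
        Real.exp (Real.sqrt (Real.log X)) ≤ ((X / q : ℕ) : ℝ) ∧
        ∀ p : ℕ, p.Prime → p ≠ 2 → p ∣ a → jacobiSym ((c * q : ℕ) : ℤ) p = 1) :=
    ⟨_, fun _ _ => rfl⟩
  obtain ⟨R, hR⟩ : ∃ R : ℝ, R = Real.log X ^ (-(1 / 40 : ℝ)) := ⟨_, rfl⟩
  have hlog := MertAux.log_ge X hX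
  have hR0 : 0 ≤ R := by
    rw [hR]
    exact Real.rpow_nonneg (by linarith) _
  have hX0 : (0 : ℝ) ≤ X := Nat.cast_nonneg X
  have hAc : ∀ q ∈ prs X, ∀ c, ((A q c).card : ℝ) ≤ C₃ * X * R * (1 / (q : ℝ)) := by
    intro q hq c
    have hq0 : (0 : ℝ) < q := by exact_mod_cast (mem_prs.1 hq).1.pos
    rcases (A q c).eq_empty_or_nonempty with h | ⟨a₀, ha₀⟩
    · rw [h, Finset.card_empty, Nat.cast_zero]
      positivity
    · rw [hA, Finset.mem_filter] at ha₀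
      have h4 := h₃ X hX (c * q) ha₀.2.1 (X / q) (Nat.div_le_self X q) ha₀.2.2.1 (A q c)
        (fun a ha => by
          rw [hA, Finset.mem_filter] at ha
          exact ⟨ha.1, ha.2.2.2⟩)
      rw [← hR] at h4
      refine h4.trans ?_
      have h5 : ((X / q : ℕ) : ℝ) ≤ (X : ℝ) / q := Nat.cast_div_le
      calc C₃ * ((X / q : ℕ) : ℝ) * R ≤ C₃ * ((X : ℝ) / q) * R :=
            mul_le_mul_of_nonneg_right (mul_le_mul_of_nonneg_left h5 hC₃.le) hR0
        _ = C₃ * X * R * (1 / (q : ℝ)) := by ring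
  have hsub : S ⊆ (prs X).biUnion fun q =>
      (insert 1 ((prs X).filter (fun l => q % l = 1))).biUnion fun c =>
        (A q c).image fun a => a * q := by
    intro m hm
    obtain ⟨hm1, c, a, q, hP, hB, ha⟩ := hS m hm
    obtain ⟨h4, h5, h6⟩ := mem_sqs.1 hm1
    have hq := hP.hq
    have ha0 : 0 < a := by
      rcases Nat.eq_zero_or_pos a with h | h
      · rw [h, Nat.cast_zero] at ha
        exact absurd ha (not_lt.2 (Real.exp_pos _).le)
      · exact h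
    have hqX : q ≤ X := by
      refine le_trans ?_ h5
      rw [← hP.hm]
      exact Nat.le_mul_of_pos_left q ha0
    have haY : a ≤ X / q := by
      rw [Nat.le_div_iff_mul_le hq.pos, hP.hm]
      exact h5
    have hc : c ∈ insert 1 ((prs X).filter (fun l => q % l = 1)) := by
      rw [Finset.mem_insert, Finset.mem_filter]
      rcases hP.hc with h | ⟨h7, h8, -⟩
      · exact Or.inl h
      · refine Or.inr ⟨mem_prs.2 ⟨h7, ?_⟩, h8⟩
        by_contra h9
        have h10 : q % c = q := Nat.mod_eq_of_lt (by omega)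
        have := hq.two_le
        omega
    refine Finset.mem_biUnion.2 ⟨q, mem_prs.2 ⟨hq, hqX⟩, Finset.mem_biUnion.2 ⟨c, hc,
      Finset.mem_image.2 ⟨a, ?_, hP.hm⟩⟩⟩
    rw [hA, Finset.mem_filter]
    refine ⟨mem_sqs.2 ⟨ha0, haY, ?_⟩, hB, ?_, hP.ca⟩
    · refine h6.squarefree_of_dvd ?_
      rw [← hP.hm]
      exact Dvd.intro q rfl
    · refine ha.le.trans ?_
      exact_mod_cast haY
  have hcard : (S.card : ℝ) ≤ ∑ q ∈ prs X,
      ∑ c ∈ insert 1 ((prs X).filter (fun l => q % l = 1)), ((A q c).card : ℝ) := by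
    have h4 : S.card ≤ ∑ q ∈ prs X,
        ∑ c ∈ insert 1 ((prs X).filter (fun l => q % l = 1)), (A q c).card := by
      refine (Finset.card_le_card hsub).trans (Finset.card_biUnion_le.trans ?_)
      refine Finset.sum_le_sum fun q _ => Finset.card_biUnion_le.trans ?_
      exact Finset.sum_le_sum fun c _ => Finset.card_image_le
    exact_mod_cast h4
  have hsum : ∑ q ∈ prs X, ∑ c ∈ insert 1 ((prs X).filter (fun l => q % l = 1)),
      ((A q c).card : ℝ) ≤ C₃ * X * R * ((C₁ + C₂) * (Real.log (Real.log X) + 1) ^ 2) := by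
    have h4 : ∀ q ∈ prs X, ∑ c ∈ insert 1 ((prs X).filter (fun l => q % l = 1)),
        ((A q c).card : ℝ) ≤ C₃ * X * R * (1 / (q : ℝ) +
          (((prs X).filter (fun l => q % l = 1)).card : ℝ) / q) := by
      intro q hq
      have hq0 : (0 : ℝ) < q := by exact_mod_cast (mem_prs.1 hq).1.pos
      refine (Finset.sum_le_sum fun c _ => hAc q hq c).trans ?_
      rw [Finset.sum_const, nsmul_eq_mul]
      have h5 : ((insert 1 ((prs X).filter (fun l => q % l = 1))).card : ℝ) ≤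
          1 + (((prs X).filter (fun l => q % l = 1)).card : ℝ) := by
        have := Finset.card_insert_le 1 ((prs X).filter (fun l => q % l = 1))
        have h6 : (insert 1 ((prs X).filter (fun l => q % l = 1))).card ≤
          1 + ((prs X).filter (fun l => q % l = 1)).card := by omega
        exact_mod_cast h6
      refine (mul_le_mul_of_nonneg_right h5 (by positivity)).trans (le_of_eq ?_)
      ring
    refine (Finset.sum_le_sum h4).trans ?_
    rw [← Finset.mul_sum, Finset.sum_add_distrib]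
    refine mul_le_mul_of_nonneg_left ?_ (by positivity)
    have h5 := h₁ X hX
    have h6 := h₂ X hX
    have h7 := prC_loglog hX
    have h8 : C₁ * (Real.log (Real.log X) + 1) ≤ C₁ * (Real.log (Real.log X) + 1) ^ 2 :=
      mul_le_mul_of_nonneg_left (by nlinarith) (by linarith)
    rw [add_mul]
    linarith
  refine hcard.trans (hsum.trans ?_)
  have h4 := prC_pow hX
  rw [← hR] at h4
  calc C₃ * X * R * ((C₁ + C₂) * (Real.log (Real.log X) + 1) ^ 2) =
        C₃ * (C₁ + C₂) * X * (R * (Real.log (Real.log X) + 1) ^ 2) := by ring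
    _ ≤ C₃ * (C₁ + C₂) * X * (161 ^ 2 * Real.log X ^ (-(1 / 80 : ℝ))) :=
        mul_le_mul_of_nonneg_left h4 (by positivity)
    _ = C₃ * (C₁ + C₂) * 161 ^ 2 * X * Real.log X ^ (-(1 / 80 : ℝ)) := by ring

end Pool.Agent.Wal
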