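import Pool.Agent.Lib.MP_6498db_nt.L.BtA

/-! WALSH, Theorem 2, row Two: two primes `1` mod a large `l`. -/

set_option autoImplicit false

namespace Pool.Agent.Wal

open Finset

private theorem two_harm (n : ℕ) : ∑ k ∈ Icc 1 n, ((k : ℝ))⁻¹ ≤ 1 + Real.log n := by
  have h := harmonic_le_one_add_log n
  rw [harmonic_eq_sum_Icc] at h
  push_cast at h
  exact h

private theorem two_logthree {X : ℕ} (hX : 3 ≤ X) : 1 ≤ Real.log X := by
  have h0 : (0 : ℝ) < X := by exact_mod_cast (by omega : 0 < X)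
  rw [Real.le_log_iff_exp_le h0]
  have h1 : Real.exp 1 ≤ 3 := Real.exp_one_lt_d9.le.trans (by norm_num)
  exact h1.trans (by exact_mod_cast hX)

private theorem two_mult (X d : ℕ) :
    (((Ioc 0 X).filter (fun m => d ∣ m)).card : ℝ) ≤ X / d := by
  rw [Nat.Ioc_filter_dvd_card_eq_div]
  exact Nat.cast_div_le

private theorem two_inner (X l : ℕ) (hl : 0 < l) :
    ∑ k ∈ Icc 1 X ×ˢ Icc 1 X, ((X : ℝ) / (((1 + k.1 * l) * (1 + k.2 * l) : ℕ) : ℝ)) ≤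
      X * (1 + Real.log X) ^ 2 * ((l : ℝ) ^ 2)⁻¹ := by
  have hl0 : (0 : ℝ) < l := by exact_mod_cast hl
  have h1 : ∀ k ∈ Icc 1 X ×ˢ Icc 1 X, ((X : ℝ) / (((1 + k.1 * l) * (1 + k.2 * l) : ℕ) : ℝ)) ≤
      ((k.1 : ℝ)⁻¹ * (k.2 : ℝ)⁻¹) * (X * ((l : ℝ) ^ 2)⁻¹) := by
    intro k hk
    rw [mem_product, mem_Icc, mem_Icc] at hk
    have ha : (0 : ℝ) < k.1 := by exact_mod_cast hk.1.1
    have hb : (0 : ℝ) < k.2 := by exact_mod_cast hk.2.1
    have h2 : ((k.1 : ℝ)⁻¹ * (k.2 : ℝ)⁻¹) * (X * ((l : ℝ) ^ 2)⁻¹) =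
        X / ((k.1 * l) * (k.2 * l)) := by
      field_simp
    rw [h2]
    refine div_le_div_of_nonneg_left (Nat.cast_nonneg X) (by positivity) ?_
    push_cast
    have h3 : (0 : ℝ) < k.1 * l := by positivity
    have h4 : (0 : ℝ) < k.2 * l := by positivity
    nlinarith
  have h5 : ∑ k ∈ Icc 1 X ×ˢ Icc 1 X, ((k.1 : ℝ)⁻¹ * (k.2 : ℝ)⁻¹) * (X * ((l : ℝ) ^ 2)⁻¹) =
      (∑ k ∈ Icc 1 X, ((k : ℝ))⁻¹) * (∑ k ∈ Icc 1 X, ((k : ℝ))⁻¹) * (X * ((l : ℝ) ^ 2)⁻¹) := by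
    rw [sum_mul_sum, ← sum_product', sum_mul]
  have h6 := two_harm X
  have h7 : 0 ≤ ∑ k ∈ Icc 1 X, ((k : ℝ))⁻¹ := sum_nonneg fun k _ => by positivity
  calc _ ≤ _ := sum_le_sum h1
    _ = _ := h5
    _ ≤ (1 + Real.log X) * (1 + Real.log X) * (X * ((l : ℝ) ^ 2)⁻¹) := by
      refine mul_le_mul_of_nonneg_right ?_ (by positivity)
      exact mul_le_mul h6 h6 h7 (h7.trans h6)
    _ = _ := by ring

/-- Proof. `S.card ≤ ∑_{l > L} ∑_{q₁ < q₂, ≡ 1 mod l} X/(q₁q₂) ≤ X ∑_{l > L} ((1 + log X)/l)^2 ≤ X (1 + log X)^2 · 2/L`,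
`L = (log X)^3` (`∑_{q ≡ 1 mod l, 1 < q ≤ X} 1/q ≤ ∑_{1 ≤ k ≤ X/l} 1/(l k) ≤ (1 + log X)/l`). -/
theorem two_primes : ∃ C : ℝ, ∀ X : ℕ, 3 ≤ X → ∀ S : Finset ℕ,
    (∀ m ∈ S, m ∈ sqs X ∧ ∃ l q₁ q₂ : ℕ, Real.log X ^ 3 < (l : ℝ) ∧ q₁.Prime ∧ q₂.Prime ∧ q₁ ≠ q₂ ∧
      q₁ ∣ m ∧ q₂ ∣ m ∧ q₁ % l = 1 ∧ q₂ % l = 1) →
    (S.card : ℝ) ≤ C * X * Real.log X ^ (-(1 : ℝ)) := by
  refine ⟨8, fun X hX S hS => ?_⟩
  have hlg := two_logthree hX
  obtain ⟨g, hg⟩ : ∃ g : ℝ, g = Real.log X := ⟨_, rfl⟩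
  rw [← hg] at hlg
  obtain ⟨L₀, hL₀⟩ : ∃ L₀ : ℕ, L₀ = ⌊Real.log X ^ 3⌋₊ := ⟨_, rfl⟩
  have h3 : (1 : ℝ) ≤ g ^ 3 := one_le_pow₀ hlg
  have hL1 : 1 ≤ L₀ := by
    rw [hL₀, ← hg]
    exact Nat.le_floor (by simpa using h3)
  have hL2 : g ^ 3 < L₀ + 1 := by
    rw [hL₀, ← hg]
    exact Nat.lt_floor_add_one _
  have hsub : S ⊆ (Ioc L₀ X).biUnion (fun l => (Icc 1 X ×ˢ Icc 1 X).biUnion
      (fun k => (Ioc 0 X).filter (fun m => (1 + k.1 * l) * (1 + k.2 * l) ∣ m))) := by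
    intro m hm
    obtain ⟨hm1, l, q₁, q₂, hl, hq₁, hq₂, hne, hd₁, hd₂, hr₁, hr₂⟩ := hS m hm
    rw [mem_sqs] at hm1
    have hlL : L₀ < l := by
      rw [hL₀]
      exact (Nat.floor_lt (by rw [← hg]; positivity)).2 hl
    have key : ∀ q : ℕ, q.Prime → q ∣ m → q % l = 1 → q = 1 + q / l * l ∧ 1 ≤ q / l ∧ q / l ≤ X ∧
        l ≤ X := by
      intro q hq hqm hr
      have h1 := Nat.div_add_mod q l
      rw [hr] at h1
      have hqX : q ≤ X := (Nat.le_of_dvd hm1.1 hqm).trans hm1.2.1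
      have h2 : 1 ≤ q / l := by
        by_contra h0
        have h4 : q / l = 0 := Nat.lt_one_iff.1 (not_le.1 h0)
        rw [h4, mul_zero, zero_add] at h1
        exact hq.one_lt.ne h1
      have h5 : l ≤ l * (q / l) := Nat.le_mul_of_pos_right l h2
      refine ⟨?_, h2, (Nat.div_le_self q l).trans hqX, h5.trans ((Nat.mul_div_le q l).trans hqX)⟩
      rw [mul_comm]
      omega
    obtain ⟨ha, ha1, ha2, haX⟩ := key q₁ hq₁ hd₁ hr₁
    obtain ⟨hb, hb1, hb2, hbX⟩ := key q₂ hq₂ hd₂ hr₂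
    rw [mem_biUnion]
    refine ⟨l, mem_Ioc.2 ⟨hlL, haX⟩, ?_⟩
    rw [mem_biUnion]
    refine ⟨(q₁ / l, q₂ / l), mem_product.2 ⟨mem_Icc.2 ⟨ha1, ha2⟩, mem_Icc.2 ⟨hb1, hb2⟩⟩, ?_⟩
    rw [mem_filter, mem_Ioc]
    refine ⟨⟨hm1.1, hm1.2.1⟩, ?_⟩
    show (1 + q₁ / l * l) * (1 + q₂ / l * l) ∣ m
    rw [← ha, ← hb]
    exact Nat.Coprime.mul_dvd_of_dvd_of_dvd ((Nat.coprime_primes hq₁ hq₂).2 hne) hd₁ hd₂
  have hX0 : (0 : ℝ) ≤ X := Nat.cast_nonneg X
  have h5 : (S.card : ℝ) ≤ ∑ l ∈ Ioc L₀ X, X * (1 + g) ^ 2 * ((l : ℝ) ^ 2)⁻¹ := by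
    calc (S.card : ℝ) ≤ ((∑ l ∈ Ioc L₀ X, ∑ k ∈ Icc 1 X ×ˢ Icc 1 X,
          ((Ioc 0 X).filter (fun m => (1 + k.1 * l) * (1 + k.2 * l) ∣ m)).card : ℕ) : ℝ) := by
          refine Nat.cast_le.2 ((card_le_card hsub).trans (card_biUnion_le.trans ?_))
          exact sum_le_sum fun l _ => card_biUnion_le
      _ ≤ ∑ l ∈ Ioc L₀ X, X * (1 + g) ^ 2 * ((l : ℝ) ^ 2)⁻¹ := by
          push_cast
          refine sum_le_sum fun l hl => ?_
          rw [mem_Ioc] at hl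
          have h6 := two_inner X l (by omega)
          rw [← hg] at h6
          refine le_trans (sum_le_sum fun k _ => ?_) h6
          exact two_mult X _
  rw [← mul_sum] at h5
  have h6 : ∑ l ∈ Ioc L₀ X, ((l : ℝ) ^ 2)⁻¹ ≤ 2 / g ^ 3 := by
    have h7 : (L₀ : ℝ)⁻¹ ≤ 2 / g ^ 3 := by
      have h8 : (1 : ℝ) ≤ L₀ := by exact_mod_cast hL1
      rw [inv_eq_one_div, div_le_div_iff₀ (by linarith) (by linarith)]
      linarith
    rcases le_or_gt L₀ X with hc | hc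
    · have h9 := sum_Ioc_inv_sq_le_sub (α := ℝ) (k := L₀) (n := X) (by omega) hc
      have h10 : (0 : ℝ) ≤ (X : ℝ)⁻¹ := by positivity
      linarith
    · rw [Ioc_eq_empty_of_le hc.le, sum_empty]
      positivity
  have h7 : (0 : ℝ) ≤ X * (1 + g) ^ 2 := by positivity
  have h8 : (S.card : ℝ) ≤ X * (1 + g) ^ 2 * (2 / g ^ 3) :=
    h5.trans (mul_le_mul_of_nonneg_left h6 h7)
  rw [← hg, Real.rpow_neg_one]
  refine h8.trans ?_
  have hg0 : 0 < g := by linarith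
  have h9 : (1 + g) ^ 2 ≤ 4 * g ^ 2 := by nlinarith
  calc X * (1 + g) ^ 2 * (2 / g ^ 3) ≤ X * (4 * g ^ 2) * (2 / g ^ 3) := by
        refine mul_le_mul_of_nonneg_right ?_ (by positivity)
        exact mul_le_mul_of_nonneg_left h9 hX0
    _ = 8 * X * g⁻¹ := by
        field_simp
        ring

/-- Proof. For each `a ≤ A = exp(√log X)` the number of primes `q ≤ X/a` is `≤ C (X/a)/log X` (`cheb_pi`; import
`L/BtA.lean`), total `≤ C X (1 + √log X)/log X`. -/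
theorem small_a : ∃ C : ℝ, ∀ X : ℕ, 3 ≤ X → ∀ S : Finset ℕ,
    (∀ m ∈ S, 1 ≤ m ∧ m ≤ X ∧ ∃ a q : ℕ, q.Prime ∧ a * q = m ∧ (a : ℝ) ≤ Real.exp (Real.sqrt (Real.log X))) →
    (S.card : ℝ) ≤ C * X * Real.log X ^ (-(1 / 2 : ℝ)) := by
  obtain ⟨C, hC, hch⟩ := cheb_pi
  refine ⟨4 * C + 4, fun X hX S hS => ?_⟩
  have hlg := two_logthree hX
  obtain ⟨g, hg⟩ : ∃ g : ℝ, g = Real.log X := ⟨_, rfl⟩
  rw [← hg] at hlg
  simp only [← hg] at hS ⊢
  have hX0 : (0 : ℝ) < X := by exact_mod_cast (by omega : 0 < X)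
  have hg0 : 0 < g := by linarith
  obtain ⟨r, hr⟩ : ∃ r : ℝ, r = Real.sqrt g := ⟨_, rfl⟩
  have hr0 : 0 < r := hr ▸ Real.sqrt_pos.2 hg0
  have hrr : r * r = g := by rw [hr]; exact Real.mul_self_sqrt hg0.le
  have hr1 : 1 ≤ r := by
    by_contra h
    push Not at h
    nlinarith
  have hpow : g ^ (-(1 / 2 : ℝ)) = r⁻¹ := by
    rw [Real.rpow_neg hg0.le, ← Real.sqrt_eq_rpow, ← hr]
  rw [hpow]
  rw [← hr] at hS
  rcases lt_or_ge r 4 with hr4 | hr4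
  · have h1 : S ⊆ Icc 1 X := fun m hm => mem_Icc.2 ⟨(hS m hm).1, (hS m hm).2.1⟩
    have h2 : (S.card : ℝ) ≤ X := by
      have h3 := card_le_card h1
      rw [Nat.card_Icc, Nat.add_sub_cancel] at h3
      exact_mod_cast h3
    have h4 : (1 : ℝ) ≤ 4 * r⁻¹ := by
      rw [← div_eq_mul_inv, one_le_div hr0]
      exact hr4.le
    have h5 : 0 ≤ C * X * r⁻¹ := by positivity
    nlinarith
  · obtain ⟨N, hN⟩ : ∃ N : ℕ, N = ⌊Real.exp r⌋₊ := ⟨_, rfl⟩
    have hN1 : 1 ≤ N := by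
      rw [hN]
      refine Nat.le_floor ?_
      have := Real.add_one_le_exp r
      push_cast
      linarith
    have hNle : (N : ℝ) ≤ Real.exp r := by
      rw [hN]
      exact Nat.floor_le (Real.exp_pos r).le
    have hsub : S ⊆ (Icc 1 N).biUnion (fun a => (prs (X / a)).image (fun q => a * q)) := by
      intro m hm
      obtain ⟨hm1, hmX, a, q, hq, haq, ha⟩ := hS m hm
      have ha1 : 1 ≤ a := by
        rcases Nat.eq_zero_or_pos a with h0 | h0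
        · rw [h0, zero_mul] at haq
          omega
        · exact h0
      rw [mem_biUnion]
      refine ⟨a, mem_Icc.2 ⟨ha1, ?_⟩, ?_⟩
      · rw [hN]
        exact Nat.le_floor ha
      · rw [mem_image]
        refine ⟨q, mem_prs.2 ⟨hq, ?_⟩, haq⟩
        rw [Nat.le_div_iff_mul_le ha1, mul_comm, haq]
        exact hmX
    have hpr : ∀ a ∈ Icc 1 N, ((prs (X / a)).card : ℝ) ≤ 2 * C * X / g * (a : ℝ)⁻¹ := by
      intro a ha
      rw [mem_Icc] at ha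
      have ha0 : (0 : ℝ) < a := by exact_mod_cast ha.1
      have haE : (a : ℝ) ≤ Real.exp r := le_trans (by exact_mod_cast ha.2) hNle
      have h4 : r ≤ g / 4 := by nlinarith
      have hXe : Real.exp g = X := by rw [hg, Real.exp_log hX0]
      have h5 : Real.exp (g / 2) * Real.exp (g / 4) ≤ (X : ℝ) / a := by
        rw [le_div_iff₀ ha0]
        calc Real.exp (g / 2) * Real.exp (g / 4) * a
            ≤ Real.exp (g / 2) * Real.exp (g / 4) * Real.exp (g / 4) := by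
              refine mul_le_mul_of_nonneg_left ?_ (by positivity)
              exact haE.trans (Real.exp_le_exp.2 h4)
          _ = X := by
              rw [← Real.exp_add, ← Real.exp_add, ← hXe]
              congr 1
              ring
      have h6 : (X : ℝ) / a < ((X / a : ℕ) : ℝ) + 1 := by
        rw [← Nat.floor_div_eq_div (K := ℝ)]
        exact Nat.lt_floor_add_one _
      have h7 : 1 ≤ Real.exp (g / 2) := Real.one_le_exp (by linarith)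
      have h8 : 2 ≤ Real.exp (g / 4) := by
        have := Real.add_one_le_exp (g / 4)
        nlinarith
      have h9 : Real.exp (g / 2) ≤ ((X / a : ℕ) : ℝ) := by nlinarith
      have h10 : 2 ≤ X / a := by
        have h11 : (2 : ℝ) ≤ ((X / a : ℕ) : ℝ) := by
          refine le_trans ?_ h9
          have := Real.add_one_le_exp (g / 2)
          nlinarith
        exact_mod_cast h11
      have h12 : g / 2 ≤ Real.log ((X / a : ℕ) : ℝ) := by
        rw [Real.le_log_iff_exp_le (lt_of_lt_of_le (Real.exp_pos _) h9)]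
        exact h9
      have h13 : ((X / a : ℕ) : ℝ) ≤ X / a := Nat.cast_div_le
      refine (hch _ h10).trans ?_
      calc C * ((X / a : ℕ) : ℝ) / Real.log ((X / a : ℕ) : ℝ) ≤ C * (X / a) / (g / 2) := by
            refine div_le_div₀ (by positivity) ?_ (by linarith) h12
            exact mul_le_mul_of_nonneg_left h13 hC.le
        _ = 2 * C * X / g * (a : ℝ)⁻¹ := by
            field_simp
    have h5 : (S.card : ℝ) ≤ ∑ a ∈ Icc 1 N, 2 * C * X / g * (a : ℝ)⁻¹ := by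
      calc (S.card : ℝ) ≤ ((∑ a ∈ Icc 1 N, (prs (X / a)).card : ℕ) : ℝ) := by
            refine Nat.cast_le.2 ((card_le_card hsub).trans (card_biUnion_le.trans ?_))
            exact sum_le_sum fun a _ => card_image_le
        _ ≤ _ := by
            push_cast
            exact sum_le_sum hpr
    rw [← mul_sum] at h5
    have h6 := two_harm N
    have h7 : Real.log N ≤ r := by
      rw [Real.log_le_iff_le_exp (by exact_mod_cast hN1)]
      exact hNle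
    have h8 : (S.card : ℝ) ≤ 2 * C * X / g * (2 * r) := by
      refine h5.trans (mul_le_mul_of_nonneg_left ?_ (by positivity))
      linarith
    have h9 : 2 * C * X / g * (2 * r) = 4 * C * X * r⁻¹ := by
      rw [← hrr]
      field_simp
      ring
    have h10 : 0 ≤ 4 * X * r⁻¹ := by positivity
    rw [h9] at h8
    nlinarith

end Pool.Agent.Wal
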