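import Pool.Agent.Lib.MP_6498db_nt.L.PrA
import Pool.Agent.Lib.MP_6498db_nt.L.PrB
import Pool.Agent.Lib.MP_6498db_nt.L.PrC
import Pool.Agent.Lib.MP_6498db_nt.L.Two

/-! WALSH, Theorem 2, row LargeL. -/

set_option autoImplicit false

namespace Pool.Agent.Wal

open Finset

private theorem largeL_two {b : ℕ} (h1 : 1 < b) (hs : Squarefree b) (hp : ¬ b.Prime) :
    ∃ q₁ q₂ : ℕ, q₁.Prime ∧ q₂.Prime ∧ q₁ ≠ q₂ ∧ q₁ ∣ b ∧ q₂ ∣ b := by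
  have h2 : b ≠ 1 := by omega
  have hq := Nat.minFac_prime h2
  obtain ⟨r, hr⟩ := Nat.minFac_dvd b
  have hr1 : r ≠ 1 := by
    rintro rfl
    rw [mul_one] at hr
    rw [hr] at hp
    exact hp hq
  have hq2 := Nat.minFac_prime hr1
  refine ⟨b.minFac, r.minFac, hq, hq2, fun h => ?_, Nat.minFac_dvd b, ?_⟩
  · have h3 : b.minFac * b.minFac ∣ b := by
      conv_rhs => rw [hr]
      refine Nat.mul_dvd_mul_left _ ?_
      rw [h]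
      exact Nat.minFac_dvd r
    exact hq.one_lt.ne' (Nat.isUnit_iff.1 (hs _ h3))
  · rw [hr]
    exact (Nat.minFac_dvd r).mul_left _

private theorem largeL_le {C L e : ℝ} {X n : ℕ} (hL : 1 ≤ L) (he : 1 / 80 ≤ e)
    (h : (n : ℝ) ≤ C * X * L ^ (-e)) : (n : ℝ) ≤ |C| * X * L ^ (-(1 / 80 : ℝ)) := by
  have h1 : L ^ (-e) ≤ L ^ (-(1 / 80 : ℝ)) :=
    Real.rpow_le_rpow_of_exponent_le hL (by linarith)
  have h2 : 0 ≤ L ^ (-e) := Real.rpow_nonneg (by linarith) _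
  have h3 : (0 : ℝ) ≤ X := Nat.cast_nonneg X
  calc (n : ℝ) ≤ C * X * L ^ (-e) := h
    _ ≤ |C| * X * L ^ (-e) := by
        refine mul_le_mul_of_nonneg_right (mul_le_mul_of_nonneg_right (le_abs_self C) h3) h2
    _ ≤ |C| * X * L ^ (-(1 / 80 : ℝ)) := mul_le_mul_of_nonneg_left h1 (by positivity)

/-- Proof. If `b` is not prime it has two different prime factors (`b` squarefree, `> 1`), both `1` mod `l`:
`two_primes`. If `b = q` is prime: `Prq X m 1 a q` or `Prq X m l a q` (`q % l = 1`), and one of `pr_small`, `pr_bad`,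
`pr_good`, `small_a` applies. -/
theorem large_l : ∃ C c₀ : ℝ, 0 < c₀ ∧ ∀ X : ℕ, 3 ≤ X → ∀ S : Finset ℕ,
    (∀ m ∈ S, m ∈ sqs X ∧ ∃ l a b : ℕ, l.Prime ∧ Real.log X ^ 3 < (l : ℝ) ∧ a * b = m ∧
      (FitL 1 l a b ∨ FitL l l a b)) →
    (S.card : ℝ) ≤ C * X * Real.log X ^ (-c₀) := by
  classical
  obtain ⟨C₁, h₁⟩ := pr_small
  obtain ⟨C₂, h₂⟩ := pr_bad
  obtain ⟨C₃, h₃⟩ := pr_good
  obtain ⟨C₄, h₄⟩ := small_a
  obtain ⟨C₅, h₅⟩ := two_primes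
  refine ⟨|C₁| + |C₂| + |C₃| + |C₄| + |C₅|, 1 / 80, by norm_num, fun X hX S hS => ?_⟩
  have hL : 1 ≤ Real.log X := by
    have h3 : (3 : ℝ) ≤ X := by exact_mod_cast hX
    have h4 : Real.exp 1 ≤ X := Real.exp_one_lt_three.le.trans h3
    rw [← Real.log_exp 1]
    exact Real.log_le_log (Real.exp_pos 1) h4
  obtain ⟨P₁, hP₁⟩ : ∃ P : ℕ → Prop, ∀ m, P m ↔ m ∈ sqs X ∧ ∃ c a q : ℕ, Prq X m c a q ∧
    (q : ℝ) ≤ Real.exp (Real.log X ^ (2 * δ0)) := ⟨_, fun _ => Iff.rfl⟩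
  obtain ⟨P₂, hP₂⟩ : ∃ P : ℕ → Prop, ∀ m, P m ↔ m ∈ sqs X ∧ ∃ c a q : ℕ, Prq X m c a q ∧
    Real.exp (Real.log X ^ (2 * δ0)) < (q : ℝ) ∧ BadX X (c * q) := ⟨_, fun _ => Iff.rfl⟩
  obtain ⟨P₃, hP₃⟩ : ∃ P : ℕ → Prop, ∀ m, P m ↔ m ∈ sqs X ∧ ∃ c a q : ℕ, Prq X m c a q ∧
    ¬ BadX X (c * q) ∧ Real.exp (Real.sqrt (Real.log X)) < (a : ℝ) := ⟨_, fun _ => Iff.rfl⟩
  obtain ⟨P₄, hP₄⟩ : ∃ P : ℕ → Prop, ∀ m, P m ↔ 1 ≤ m ∧ m ≤ X ∧ ∃ a q : ℕ, q.Prime ∧ a * q = m ∧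
    (a : ℝ) ≤ Real.exp (Real.sqrt (Real.log X)) := ⟨_, fun _ => Iff.rfl⟩
  obtain ⟨P₅, hP₅⟩ : ∃ P : ℕ → Prop, ∀ m, P m ↔ m ∈ sqs X ∧ ∃ l q₁ q₂ : ℕ,
    Real.log X ^ 3 < (l : ℝ) ∧ q₁.Prime ∧ q₂.Prime ∧ q₁ ≠ q₂ ∧
      q₁ ∣ m ∧ q₂ ∣ m ∧ q₁ % l = 1 ∧ q₂ % l = 1 := ⟨_, fun _ => Iff.rfl⟩
  have hcover : ∀ m ∈ S, P₁ m ∨ P₂ m ∨ P₃ m ∨ P₄ m ∨ P₅ m := by
    intro m hm
    obtain ⟨hms, l, a, b, hl, hlX, hab, hfit⟩ := hS m hm
    obtain ⟨hm1, hmX, hsq⟩ := mem_sqs.1 hms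
    have hone : 1 < b := hfit.elim (fun h => h.one) fun h => h.one
    have hmem : ∀ q : ℕ, q.Prime → q ∣ b → q % l = 1 :=
      hfit.elim (fun h => h.mem) fun h => h.mem
    have hbm : b ∣ m := ⟨a, by rw [← hab, mul_comm]⟩
    by_cases hb : b.Prime
    · obtain ⟨c, hq⟩ : ∃ c, Prq X m c a b := by
        rcases hfit with h | h
        · exact ⟨1, hb, hab, Or.inl rfl, h.ca⟩
        · exact ⟨l, hb, hab, Or.inr ⟨hl, hmem b hb dvd_rfl, hlX⟩, h.ca⟩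
      by_cases c1 : (b : ℝ) ≤ Real.exp (Real.log X ^ (2 * δ0))
      · exact Or.inl ((hP₁ m).2 ⟨hms, c, a, b, hq, c1⟩)
      · by_cases c2 : BadX X (c * b)
        · exact Or.inr (Or.inl ((hP₂ m).2 ⟨hms, c, a, b, hq, not_le.1 c1, c2⟩))
        · by_cases c3 : Real.exp (Real.sqrt (Real.log X)) < (a : ℝ)
          · exact Or.inr (Or.inr (Or.inl ((hP₃ m).2 ⟨hms, c, a, b, hq, c2, c3⟩)))
          · exact Or.inr (Or.inr (Or.inr (Or.inl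
              ((hP₄ m).2 ⟨hm1, hmX, a, b, hb, hab, not_lt.1 c3⟩))))
    · obtain ⟨q₁, q₂, hq₁, hq₂, hne, hd₁, hd₂⟩ := largeL_two hone (hsq.squarefree_of_dvd hbm) hb
      exact Or.inr (Or.inr (Or.inr (Or.inr ((hP₅ m).2 ⟨hms, l, q₁, q₂, hlX, hq₁, hq₂, hne,
        hd₁.trans hbm, hd₂.trans hbm, hmem q₁ hq₁ hd₁, hmem q₂ hq₂ hd₂⟩))))
  have hsub : S ⊆ S.filter P₁ ∪ (S.filter P₂ ∪ (S.filter P₃ ∪ (S.filter P₄ ∪ S.filter P₅))) := by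
    intro m hm
    simp only [Finset.mem_union, Finset.mem_filter]
    rcases hcover m hm with h | h | h | h | h
    · exact Or.inl ⟨hm, h⟩
    · exact Or.inr (Or.inl ⟨hm, h⟩)
    · exact Or.inr (Or.inr (Or.inl ⟨hm, h⟩))
    · exact Or.inr (Or.inr (Or.inr (Or.inl ⟨hm, h⟩)))
    · exact Or.inr (Or.inr (Or.inr (Or.inr ⟨hm, h⟩)))
  have hcard : S.card ≤ (S.filter P₁).card + ((S.filter P₂).card + ((S.filter P₃).card +
      ((S.filter P₄).card + (S.filter P₅).card))) := by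
    refine (Finset.card_le_card hsub).trans ?_
    refine (Finset.card_union_le _ _).trans (Nat.add_le_add_left ?_ _)
    refine (Finset.card_union_le _ _).trans (Nat.add_le_add_left ?_ _)
    refine (Finset.card_union_le _ _).trans (Nat.add_le_add_left ?_ _)
    exact Finset.card_union_le _ _
  have b₁ := largeL_le hL (by norm_num) (h₁ X hX (S.filter P₁) fun m hm =>
    (hP₁ m).1 (Finset.mem_filter.1 hm).2)
  have b₂ := largeL_le hL (by norm_num) (h₂ X hX (S.filter P₂) fun m hm =>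
    (hP₂ m).1 (Finset.mem_filter.1 hm).2)
  have b₃ := largeL_le hL (by norm_num) (h₃ X hX (S.filter P₃) fun m hm =>
    (hP₃ m).1 (Finset.mem_filter.1 hm).2)
  have b₄ := largeL_le hL (by norm_num) (h₄ X hX (S.filter P₄) fun m hm =>
    (hP₄ m).1 (Finset.mem_filter.1 hm).2)
  have b₅ := largeL_le hL (by norm_num) (h₅ X hX (S.filter P₅) fun m hm =>
    (hP₅ m).1 (Finset.mem_filter.1 hm).2)
  have hc : (S.card : ℝ) ≤ (S.filter P₁).card + ((S.filter P₂).card + ((S.filter P₃).card +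
      ((S.filter P₄).card + (S.filter P₅).card : ℝ))) := by exact_mod_cast hcard
  calc (S.card : ℝ) ≤ _ := hc
    _ ≤ |C₁| * X * Real.log X ^ (-(1 / 80 : ℝ)) + (|C₂| * X * Real.log X ^ (-(1 / 80 : ℝ)) +
        (|C₃| * X * Real.log X ^ (-(1 / 80 : ℝ)) + (|C₄| * X * Real.log X ^ (-(1 / 80 : ℝ)) +
        |C₅| * X * Real.log X ^ (-(1 / 80 : ℝ))))) :=
      add_le_add b₁ (add_le_add b₂ (add_le_add b₃ (add_le_add b₄ b₅)))
    _ = (|C₁| + |C₂| + |C₃| + |C₄| + |C₅|) * X * Real.log X ^ (-(1 / 80 : ℝ)) := by ring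

end Pool.Agent.Wal
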