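import Pool.Agent.Lib.MP_6498db_nt.L.BtA

/-! WALSH, Theorem 2, row ThL: the primes congruent to `1` modulo `l`. -/

set_option autoImplicit false

namespace Pool.Agent.Wal

open Finset

private theorem thL_loglog {X x : ℕ} (hX : 3 ≤ X) (hx : 3 ≤ x) (h : x ≤ 2 * X) :
    Real.log (Real.log x) ≤ Real.log (Real.log X) + 1 := by
  have hX1 := MertAux.log_ge X hX
  have hx1 := MertAux.log_ge x hx
  have hx0 : (0 : ℝ) < x := by
    have : 0 < x := by omega
    exact_mod_cast this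
  have h2 : Real.log x ≤ 2 * Real.log X := by
    have h3 : Real.log x ≤ Real.log ((X : ℝ) ^ 2) := by
      apply Real.log_le_log hx0
      have h4 : x ≤ X ^ 2 := by nlinarith
      exact_mod_cast h4
    rw [Real.log_pow] at h3
    exact_mod_cast h3
  calc Real.log (Real.log x) ≤ Real.log (2 * Real.log X) := Real.log_le_log (by linarith) h2
    _ = Real.log 2 + Real.log (Real.log X) := Real.log_mul (by norm_num) (by linarith)
    _ ≤ Real.log (Real.log X) + 1 := by linarith [Real.log_two_lt_d9]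

private theorem thL_large : ∃ X₀ : ℕ, ∀ X : ℕ, X₀ ≤ X →
    Real.log X ^ 48 ≤ Real.exp (Real.log X ^ δ0) := by
  have h1 : Filter.Tendsto (fun v : ℝ => v ^ 3072 * Real.exp (-v)) Filter.atTop (nhds 0) :=
    Real.tendsto_pow_mul_exp_neg_atTop_nhds_zero 3072
  have h2 : ∀ᶠ v : ℝ in Filter.atTop, v ^ 3072 ≤ Real.exp v := by
    filter_upwards [h1.eventually (gt_mem_nhds one_pos)] with v hv
    have h3 := Real.exp_pos v
    rw [Real.exp_neg, ← div_eq_mul_inv, div_lt_one h3] at hv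
    exact hv.le
  have h3 : Filter.Tendsto (fun X : ℕ => Real.log X ^ δ0) Filter.atTop Filter.atTop :=
    (tendsto_rpow_atTop (by unfold δ0; norm_num)).comp
      (Real.tendsto_log_atTop.comp tendsto_natCast_atTop_atTop)
  obtain ⟨X₀, h⟩ := Filter.eventually_atTop.1 (h3.eventually h2)
  refine ⟨X₀, fun X hX => ?_⟩
  have h4 := h X hX
  have h5 : 0 ≤ Real.log X := Real.log_natCast_nonneg X
  have h6 : (Real.log X ^ δ0) ^ 3072 = Real.log X ^ 48 := by
    rw [← Real.rpow_natCast, ← Real.rpow_mul h5, ← Real.rpow_natCast (Real.log X) 48]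
    congr 1
    unfold δ0
    norm_num
  rwa [h6] at h4

private theorem thL_small (l : ℕ) : ∃ C : ℝ, 0 ≤ C ∧ (l.Prime → 5 ≤ l → ∀ x : ℕ, 3 ≤ x →
    ∑ p ∈ (prs x).filter (fun p => p % l = 1), (1 : ℝ) / p ≤ 0.3 * Real.log (Real.log x) + C) := by
  classical
  by_cases hl : l.Prime ∧ 5 ≤ l
  · obtain ⟨hl, hl5⟩ := hl
    obtain ⟨C, hC⟩ := mertAP l (by omega) 0.05 (by norm_num)
    refine ⟨|C|, abs_nonneg _, fun _ _ x hx => ?_⟩
    have h3 := (abs_le.1 (hC 1 (Nat.coprime_one_left l) x hx)).2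
    have h4 : (prs x).filter (fun p => p ≡ 1 [MOD l]) = (prs x).filter (fun p => p % l = 1) := by
      refine Finset.filter_congr fun p _ => ?_
      unfold Nat.ModEq
      rw [Nat.mod_eq_of_lt (show 1 < l by omega)]
    rw [h4, Nat.totient_prime hl] at h3
    have h5 : 0 ≤ Real.log (Real.log x) := Real.log_nonneg (MertAux.log_ge x hx)
    have h6 : (4 : ℝ) ≤ ((l - 1 : ℕ) : ℝ) := by
      have : 4 ≤ l - 1 := by omega
      exact_mod_cast this
    have h7 : Real.log (Real.log x) / ((l - 1 : ℕ) : ℝ) ≤ Real.log (Real.log x) / 4 :=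
      div_le_div_of_nonneg_left h5 (by norm_num) h6
    have h8 := le_abs_self C
    linarith
  · exact ⟨0, le_refl _, fun h h' => absurd ⟨h, h'⟩ hl⟩

/-- `l ≥ l₀`: `bt_sum` with `C / l₀ ≤ 0.3` (`l ≤ (log X)^3`, so `l^16 ≤ z` for `X ≥ X₀`); `5 ≤ l < l₀`: `mertAP l ε` with
`1/(l-1) + 2 ε ≤ 0.3`; finitely many `l`. For `X < X₀` the sum is bounded. -/
theorem theta_l : ∃ C : ℝ, ∀ X : ℕ, 3 ≤ X → ∀ l : ℕ, l.Prime → 5 ≤ l → (l : ℝ) ≤ Real.log X ^ 3 →
    ∀ x : ℕ, x ≤ 2 * X →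
    ∑ p ∈ (prs x).filter (fun p => zz δ0 X < p ∧ p % l = 1), (1 : ℝ) / p ≤
      0.3 * Real.log (Real.log X) + C := by
  classical
  obtain ⟨C₁, hC₁, h₁⟩ := bt_sum
  obtain ⟨X₀, hX₀⟩ := thL_large
  obtain ⟨l₀, hl₀⟩ : ∃ l₀ : ℕ, C₁ ≤ 0.3 * l₀ := by
    obtain ⟨n, hn⟩ := exists_nat_ge (C₁ / 0.3)
    refine ⟨n, ?_⟩
    rw [div_le_iff₀ (by norm_num)] at hn
    linarith
  choose D hD0 hD using thL_small
  have hsum0 : 0 ≤ ∑ l ∈ range l₀, D l := Finset.sum_nonneg fun l _ => hD0 l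
  refine ⟨2 * X₀ + 4 + ∑ l ∈ range l₀, D l, fun X hX l hl hl5 hlX x hx => ?_⟩
  have hLX : 0 ≤ Real.log (Real.log X) := Real.log_nonneg (MertAux.log_ge X hX)
  have hX0' : (0 : ℝ) ≤ X₀ := Nat.cast_nonneg _
  have htriv := (MertAux.sum_filter_le (fun p => zz δ0 X < p ∧ p % l = 1) x).2
  rcases lt_or_ge x 3 with hx3 | hx3
  · have h2 : (x : ℝ) ≤ 3 := by
      have : x ≤ 3 := hx3.le
      exact_mod_cast this
    linarith
  have hLx := thL_loglog hX hx3 hx
  rcases lt_or_ge X X₀ with hXX | hXX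
  · have h2 : (x : ℝ) ≤ 2 * X₀ := by
      have : x ≤ 2 * X₀ := by omega
      exact_mod_cast this
    linarith
  rcases lt_or_ge l l₀ with hll | hll
  · have h2 := hD l hl hl5 x hx3
    have h3 : D l ≤ ∑ l ∈ range l₀, D l :=
      Finset.single_le_sum (fun i _ => hD0 i) (Finset.mem_range.2 hll)
    have h4 : ∑ p ∈ (prs x).filter (fun p => zz δ0 X < p ∧ p % l = 1), (1 : ℝ) / p ≤
        ∑ p ∈ (prs x).filter (fun p => p % l = 1), (1 : ℝ) / p := by
      refine Finset.sum_le_sum_of_subset_of_nonneg ?_ fun p _ _ => by positivity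
      intro p hp
      rw [Finset.mem_filter] at hp ⊢
      exact ⟨hp.1, hp.2.2⟩
    linarith
  rcases lt_or_ge x (zz δ0 X) with hz | hz
  · have h2 : (prs x).filter (fun p => zz δ0 X < p ∧ p % l = 1) = ∅ := by
      rw [Finset.filter_eq_empty_iff]
      intro p hp h
      have := (mem_prs.1 hp).2
      omega
    rw [h2, Finset.sum_empty]
    linarith
  have hl16 : l ^ 16 ≤ zz δ0 X := by
    unfold zz
    apply Nat.le_floor
    push_cast
    calc (l : ℝ) ^ 16 ≤ (Real.log X ^ 3) ^ 16 := pow_le_pow_left₀ (Nat.cast_nonneg _) hlX 16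
      _ = Real.log X ^ 48 := by rw [← pow_mul]
      _ ≤ _ := hX₀ X hXX
  have hz3 : 3 ≤ zz δ0 X := by
    have h2 : 5 ^ 16 ≤ l ^ 16 := Nat.pow_le_pow_left hl5 16
    have h3 : 3 ≤ 5 ^ 16 := by norm_num
    omega
  have h2 := h₁ l (zz δ0 X) x hl hz3 hz hl16
  have hlz : 0 ≤ Real.log (Real.log (zz δ0 X)) := Real.log_nonneg (MertAux.log_ge _ hz3)
  have hlpos : (0 : ℝ) < l := by
    have : 0 < l := by omega
    exact_mod_cast this
  have h3 : C₁ / l ≤ 0.3 := by
    rw [div_le_iff₀ hlpos]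
    have : (l₀ : ℝ) ≤ l := by exact_mod_cast hll
    linarith
  have h4 : Real.log (Real.log x) - Real.log (Real.log (zz δ0 X)) + 1 ≤
      Real.log (Real.log X) + 2 := by linarith
  have h5 : C₁ / l * (Real.log (Real.log x) - Real.log (Real.log (zz δ0 X)) + 1) ≤
      C₁ / l * (Real.log (Real.log X) + 2) :=
    mul_le_mul_of_nonneg_left h4 (div_nonneg hC₁.le hlpos.le)
  have h6 : C₁ / l * (Real.log (Real.log X) + 2) ≤ 0.3 * (Real.log (Real.log X) + 2) :=
    mul_le_mul_of_nonneg_right h3 (by linarith)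
  linarith

end Pool.Agent.Wal
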