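import Pool.Agent.Lib.MP_6498db_nt.L.BtA
import Pool.Agent.Lib.MP_6498db_nt.L.ThL
import Pool.Agent.Lib.MP_6498db_nt.W.Hr
import Pool.Agent.Lib.MP_6498db_nt.W.RDefs

/-! WALSH, Theorem 2, row MainL: the main term for a prime exponent, with the factor `1/l`. -/

set_option autoImplicit false

namespace Pool.Agent.Wal

open Finset

/-- weight of the primes in `m / q` -/
noncomputable def gl (z l : ℕ) (p : ℕ) : ℝ := (if z < p then 1 / 2 else 1) + (if p % l = 1 then 1 else 0)

private theorem ml_gl_nonneg (z l p : ℕ) : 0 ≤ gl z l p := by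
  unfold gl
  split_ifs <;> norm_num

private theorem ml_gl_le (z l p : ℕ) : gl z l p ≤ 4 := by
  unfold gl
  split_ifs <;> norm_num

private theorem ml_pf_nonneg (z l n : ℕ) : 0 ≤ PF (gl z l) n :=
  Finset.prod_nonneg fun p _ => ml_gl_nonneg z l p

private theorem ml_log {X : ℕ} (hX : 3 ≤ X) : 1 ≤ Real.log X := MertAux.log_ge X hX

private theorem ml_ll {X : ℕ} (hX : 3 ≤ X) : 0 ≤ Real.log (Real.log X) :=
  Real.log_nonneg (ml_log hX)

/-- the primes up to `z` -/
private theorem ml_z : ∃ C : ℝ, 0 ≤ C ∧ ∀ X : ℕ, 3 ≤ X →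
    ∑ p ∈ prs (zz δ0 X), (1 : ℝ) / p ≤ δ0 * Real.log (Real.log X) + C := by
  obtain ⟨C₀, h⟩ := mert_up
  refine ⟨|C₀| + 1, by positivity, fun X hX => ?_⟩
  have hl := ml_log hX
  have hll := ml_ll hX
  have hδ : (0 : ℝ) ≤ δ0 := by unfold δ0; norm_num
  have hd0 : 0 ≤ δ0 * Real.log (Real.log X) := mul_nonneg hδ hll
  rcases Nat.lt_or_ge (zz δ0 X) 3 with hz | hz
  · have h1 : prs (zz δ0 X) ⊆ {2} := by
      intro p hp
      obtain ⟨h2, h3⟩ := mem_prs.1 hp
      have h4 := h2.two_le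
      rw [Finset.mem_singleton]
      omega
    have h2 : ∑ p ∈ prs (zz δ0 X), (1 : ℝ) / p ≤ ∑ p ∈ ({2} : Finset ℕ), (1 : ℝ) / p :=
      Finset.sum_le_sum_of_subset_of_nonneg h1 fun p _ _ => by positivity
    rw [Finset.sum_singleton] at h2
    push_cast at h2
    have h3 := abs_nonneg C₀
    linarith
  · have h1 := h _ hz
    have hz0 : (0 : ℝ) < (zz δ0 X : ℕ) := by exact_mod_cast (by omega : 0 < zz δ0 X)
    have h2 : Real.log (zz δ0 X : ℕ) ≤ Real.log X ^ δ0 := by
      rw [Real.log_le_iff_le_exp hz0]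
      exact Nat.floor_le (Real.exp_pos _).le
    have h3 : 0 < Real.log (zz δ0 X : ℕ) := by
      have := ml_log hz
      linarith
    have h4 : Real.log (Real.log (zz δ0 X : ℕ)) ≤ δ0 * Real.log (Real.log X) := by
      rw [← Real.log_rpow (by linarith)]
      exact Real.log_le_log h3 h2
    have h5 := le_abs_self C₀
    linarith

/-- lower bound for the primes up to `Y ≥ √X` -/
private theorem ml_Y : ∃ C : ℝ, 0 ≤ C ∧ ∀ X : ℕ, 3 ≤ X → ∀ Y : ℕ, X ≤ Y ^ 2 →
    Real.log (Real.log X) - C ≤ ∑ p ∈ prs Y, (1 : ℝ) / p := by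
  obtain ⟨C₀, h⟩ := mert_lo
  refine ⟨|C₀| + 1, by positivity, fun X hX Y hY => ?_⟩
  have hl := ml_log hX
  have hX0 : (0 : ℝ) < X := by exact_mod_cast (by omega : 0 < X)
  have hXY : Real.log X ≤ 2 * Real.log Y := by
    have h1 : (X : ℝ) ≤ (Y : ℝ) ^ 2 := by exact_mod_cast hY
    have h2 := Real.log_le_log hX0 h1
    rw [Real.log_pow] at h2
    push_cast at h2
    exact h2
  have hl2 : Real.log 2 ≤ 1 := by linarith [Real.log_two_lt_d9]
  rcases Nat.lt_or_ge Y 3 with hY3 | hY3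
  · have h1 : X ≤ 4 := hY.trans (by
      calc Y ^ 2 ≤ 2 ^ 2 := Nat.pow_le_pow_left (by omega) 2
        _ = 4 := by norm_num)
    have h2 : Real.log X ≤ 2 := by
      have h3 : (X : ℝ) ≤ 4 := by exact_mod_cast h1
      have h4 := Real.log_le_log hX0 h3
      have h5 : Real.log 4 = 2 * Real.log 2 := by
        have : (4 : ℝ) = 2 ^ 2 := by norm_num
        rw [this, Real.log_pow]
        norm_num
      linarith
    have h3 : Real.log (Real.log X) ≤ 1 := by
      have h4 := Real.log_le_log (by linarith : 0 < Real.log X) h2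
      linarith
    have h4 : 0 ≤ ∑ p ∈ prs Y, (1 : ℝ) / p := Finset.sum_nonneg fun p _ => by positivity
    have h5 := abs_nonneg C₀
    linarith
  · have h1 := h Y hY3
    have h2 : Real.log (Real.log X) ≤ Real.log 2 + Real.log (Real.log Y) := by
      rw [← Real.log_mul (by norm_num) (by have := ml_log hY3; linarith)]
      exact Real.log_le_log (by linarith) hXY
    have h3 := le_abs_self C₀
    linarith

/-- upper bound for the primes up to `2X` -/
private theorem ml_X : ∃ C : ℝ, 0 ≤ C ∧ ∀ X : ℕ, 3 ≤ X → ∀ Y : ℕ, Y ≤ 2 * X →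
    ∑ p ∈ prs Y, (1 : ℝ) / p ≤ Real.log (Real.log X) + C := by
  obtain ⟨C₀, h⟩ := mert_up
  refine ⟨|C₀| + 1, by positivity, fun X hX Y hY => ?_⟩
  have hl := ml_log hX
  have hX0 : (0 : ℝ) < X := by exact_mod_cast (by omega : 0 < X)
  have hl2 : Real.log 2 ≤ 1 := by linarith [Real.log_two_lt_d9]
  have h1 : ∑ p ∈ prs Y, (1 : ℝ) / p ≤ ∑ p ∈ prs (2 * X), (1 : ℝ) / p := by
    refine Finset.sum_le_sum_of_subset_of_nonneg (fun p hp => ?_) fun p _ _ => by positivity
    obtain ⟨h2, h3⟩ := mem_prs.1 hp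
    exact mem_prs.2 ⟨h2, h3.trans hY⟩
  have h2 := h (2 * X) (by omega)
  have h3 : Real.log ((2 * X : ℕ) : ℝ) ≤ 2 * Real.log X := by
    push_cast
    rw [Real.log_mul (by norm_num) hX0.ne']
    linarith
  have h4 : 0 < Real.log ((2 * X : ℕ) : ℝ) := by
    have := ml_log (by omega : 3 ≤ 2 * X)
    linarith
  have h5 : Real.log (Real.log ((2 * X : ℕ) : ℝ)) ≤ Real.log 2 + Real.log (Real.log X) := by
    rw [← Real.log_mul (by norm_num) (by linarith)]
    exact Real.log_le_log h4 h3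
  have h6 := le_abs_self C₀
  linarith

/-- the primes `1` mod `l` -/
private theorem ml_l : ∃ C : ℝ, 0 ≤ C ∧ ∀ X : ℕ, 3 ≤ X → ∀ l : ℕ, l.Prime → 5 ≤ l →
    (l : ℝ) ≤ Real.log X ^ 3 → ∀ Y : ℕ, Y ≤ 2 * X →
    ∑ p ∈ (prs Y).filter (fun p => p % l = 1), (1 : ℝ) / p ≤
      (δ0 + 0.3) * Real.log (Real.log X) + C := by
  obtain ⟨C₁, hC₁, h1⟩ := ml_z
  obtain ⟨C₂, h2⟩ := theta_l
  refine ⟨C₁ + |C₂|, by positivity, fun X hX l hl hl5 hlX Y hY => ?_⟩
  have e1 := h1 X hX
  have e2 := h2 X hX l hl hl5 hlX Y hY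
  have e3 : ∑ p ∈ (prs Y).filter (fun p => p % l = 1), (1 : ℝ) / p ≤
      ∑ p ∈ prs (zz δ0 X), (1 : ℝ) / p +
        ∑ p ∈ (prs Y).filter (fun p => zz δ0 X < p ∧ p % l = 1), (1 : ℝ) / p := by
    rw [← Finset.sum_filter_add_sum_filter_not ((prs Y).filter (fun p => p % l = 1))
      (fun p => p ≤ zz δ0 X)]
    refine add_le_add ?_ ?_
    · refine Finset.sum_le_sum_of_subset_of_nonneg (fun p hp => ?_) fun p _ _ => by positivity
      rw [Finset.mem_filter, Finset.mem_filter, mem_prs] at hp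
      exact mem_prs.2 ⟨hp.1.1.1, hp.2⟩
    · refine Finset.sum_le_sum_of_subset_of_nonneg (fun p hp => ?_) fun p _ _ => by positivity
      rw [Finset.mem_filter, Finset.mem_filter] at hp
      exact Finset.mem_filter.2 ⟨hp.1.1, not_le.1 hp.2, hp.1.2⟩
  have e4 := le_abs_self C₂
  linarith

/-- the primes up to `z` among the primes up to `Y` -/
private theorem ml_sub (z Y : ℕ) : ∑ p ∈ prs Y, (if p ≤ z then (1 : ℝ) / p else 0) ≤
    ∑ p ∈ prs z, (1 : ℝ) / p := by
  rw [← Finset.sum_filter]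
  refine Finset.sum_le_sum_of_subset_of_nonneg (fun p hp => ?_) fun p _ _ => by positivity
  rw [Finset.mem_filter, mem_prs] at hp
  exact mem_prs.2 ⟨hp.1.1, hp.2⟩

private theorem ml_exp {X : ℕ} (hX : 3 ≤ X) (C c : ℝ) :
    Real.exp (c * Real.log (Real.log X) + C) = Real.exp C * Real.log X ^ c := by
  have hl : 0 < Real.log X := by
    have := ml_log hX
    linarith
  rw [Real.exp_add, Real.rpow_def_of_pos hl, mul_comm, mul_comm c]

/-- Proof. `hr` with `f = gl z l` (`≤ 2`): exponent `∑_{p ≤ Y} (gl - 1)/p ≤ ∑_{p ≤ z} 1/p - (1/2) ∑_{z < p ≤ Y} 1/p +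
∑_{z < p ≤ Y, p ≡ 1} 1/p ≤ δ0 L - (1/2)(1 - δ0) L + 0.3 L + C ≤ -0.1 L + C`, `L = loglog X` (`mert_up`, `mert_lo`,
`theta_l`; `Y ≥ √X`). -/
theorem gl_mean : ∃ C : ℝ, 0 < C ∧ ∀ X : ℕ, 3 ≤ X → ∀ l : ℕ, l.Prime → 5 ≤ l → (l : ℝ) ≤ Real.log X ^ 3 →
    ∀ Y : ℕ, X ≤ Y ^ 2 → Y ≤ 2 * X →
    ∑ m ∈ sqs Y, PF (gl (zz δ0 X) l) m ≤ C * Y * Real.log X ^ (-(0.1 : ℝ)) := by
  obtain ⟨C₁, hC₁, H⟩ := hr
  obtain ⟨A, hA, h1⟩ := ml_z
  obtain ⟨B, hB, h2⟩ := ml_Y
  obtain ⟨D, hD, h3⟩ := ml_l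
  refine ⟨C₁ * Real.exp (A + B + D), mul_pos (by linarith) (Real.exp_pos _), ?_⟩
  intro X hX l hl hl5 hlX Y hXY hY
  have hY1 : 1 ≤ Y := by
    rcases Nat.eq_zero_or_pos Y with h | h
    · rw [h] at hXY
      norm_num at hXY
      omega
    · exact h
  have hll := ml_ll hX
  refine (H (gl (zz δ0 X) l) (ml_gl_nonneg _ _) (ml_gl_le _ _) Y hY1).trans ?_
  have e1 := h1 X hX
  have e2 := h2 X hX Y hXY
  have e3 := h3 X hX l hl hl5 hlX Y hY
  have e4 := ml_sub (zz δ0 X) Y
  have e5 : ∑ p ∈ prs Y, (gl (zz δ0 X) l p - 1) / p = -(1 / 2) * ∑ p ∈ prs Y, (1 : ℝ) / p +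
      1 / 2 * ∑ p ∈ prs Y, (if p ≤ zz δ0 X then (1 : ℝ) / p else 0) +
      ∑ p ∈ (prs Y).filter (fun p => p % l = 1), (1 : ℝ) / p := by
    rw [Finset.sum_filter, Finset.mul_sum, Finset.mul_sum, ← Finset.sum_add_distrib,
      ← Finset.sum_add_distrib]
    refine Finset.sum_congr rfl fun p _ => ?_
    unfold gl
    by_cases h4 : zz δ0 X < p
    · rw [if_pos h4, if_neg (not_le.2 h4)]
      split_ifs <;> ring
    · rw [if_neg h4, if_pos (not_lt.1 h4)]
      split_ifs <;> ring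
  have e6 : ∑ p ∈ prs Y, (gl (zz δ0 X) l p - 1) / p ≤
      -(0.1 : ℝ) * Real.log (Real.log X) + (A + B + D) := by
    rw [e5]
    have hδ : δ0 * Real.log (Real.log X) = 1 / 64 * Real.log (Real.log X) := by
      have hδ' : δ0 = 1 / 64 := rfl
      rw [hδ']
    linarith
  calc C₁ * Y * Real.exp (∑ p ∈ prs Y, (gl (zz δ0 X) l p - 1) / p)
      ≤ C₁ * Y * (Real.exp (A + B + D) * Real.log X ^ (-(0.1 : ℝ))) := by
        rw [← ml_exp hX]
        exact mul_le_mul_of_nonneg_left (Real.exp_le_exp.2 e6)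
          (mul_nonneg (by linarith) (Nat.cast_nonneg Y))
    _ = C₁ * Real.exp (A + B + D) * Y * Real.log X ^ (-(0.1 : ℝ)) := by ring

/-- Proof. `hr_prod`: exponent `∑_{p ≤ 2X} gl/p ≤ 2 δ0 L + 0.5 L + 0.3 L + C ≤ 0.9 L + C`. -/
theorem gl_log : ∃ C : ℝ, 0 < C ∧ ∀ X : ℕ, 3 ≤ X → ∀ l : ℕ, l.Prime → 5 ≤ l → (l : ℝ) ≤ Real.log X ^ 3 →
    ∀ Y : ℕ, Y ≤ 2 * X → ∑ m ∈ sqs Y, PF (gl (zz δ0 X) l) m / m ≤ C * Real.log X ^ (0.9 : ℝ) := by
  obtain ⟨A, hA, h1⟩ := ml_z
  obtain ⟨B, hB, h2⟩ := ml_X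
  obtain ⟨D, hD, h3⟩ := ml_l
  refine ⟨Real.exp (A + B + D), Real.exp_pos _, ?_⟩
  intro X hX l hl hl5 hlX Y hY
  have hll := ml_ll hX
  refine (hr_prod (gl (zz δ0 X) l) (ml_gl_nonneg _ _) Y).trans ?_
  have e1 := h1 X hX
  have e2 := h2 X hX Y hY
  have e3 := h3 X hX l hl hl5 hlX Y hY
  have e4 := ml_sub (zz δ0 X) Y
  have e5 : ∑ p ∈ prs Y, gl (zz δ0 X) l p / p = 1 / 2 * ∑ p ∈ prs Y, (1 : ℝ) / p +
      1 / 2 * ∑ p ∈ prs Y, (if p ≤ zz δ0 X then (1 : ℝ) / p else 0) +
      ∑ p ∈ (prs Y).filter (fun p => p % l = 1), (1 : ℝ) / p := by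
    rw [Finset.sum_filter, Finset.mul_sum, Finset.mul_sum, ← Finset.sum_add_distrib,
      ← Finset.sum_add_distrib]
    refine Finset.sum_congr rfl fun p _ => ?_
    unfold gl
    by_cases h4 : zz δ0 X < p
    · rw [if_pos h4, if_neg (not_le.2 h4)]
      split_ifs <;> ring
    · rw [if_neg h4, if_pos (not_lt.1 h4)]
      split_ifs <;> ring
  rw [← ml_exp hX, Real.exp_le_exp, e5]
  have hδ : δ0 * Real.log (Real.log X) = 1 / 64 * Real.log (Real.log X) := by
    have hδ' : δ0 = 1 / 64 := rfl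
    rw [hδ']
  linarith

/-- Grouping by the product. -/
private theorem ml_group (vA vB : ℕ → ℝ) (N : ℕ) (hA : ∀ p, 0 ≤ vA p) (hB : ∀ p, 0 ≤ vB p) :
    S2 N (fun a b => Squarefree (a * b)) (fun a b => PF vA a * PF vB b) ≤
      ∑ m ∈ sqs N, PF (fun p => vA p + vB p) m := by
  classical
  have h1 : S2 N (fun a b => Squarefree (a * b)) (fun a b => PF vA a * PF vB b) =
      ∑ x ∈ ((Icc 1 N).sigma fun a => Icc 1 (N / a)).filter
        (fun x : (_ : ℕ) × ℕ => Squarefree (x.1 * x.2)), PF vA x.1 * PF vB x.2 := by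
    rw [Finset.sum_filter, Finset.sum_sigma]
    unfold S2
    refine Finset.sum_congr rfl fun a _ => Finset.sum_congr rfl fun b _ => ?_
    by_cases h : Squarefree (a * b)
    · rw [if_pos h, if_pos h]
    · rw [if_neg h, if_neg h]
  have h2 : ∑ m ∈ sqs N, PF (fun p => vA p + vB p) m =
      ∑ y ∈ (sqs N).sigma (fun m => m.primeFactors.powerset),
        (∏ p ∈ y.2, vA p) * ∏ p ∈ y.1.primeFactors \ y.2, vB p := by
    rw [Finset.sum_sigma]
    refine Finset.sum_congr rfl fun m _ => ?_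
    unfold PF
    rw [Finset.prod_add]
  rw [h1, h2]
  set S := ((Icc 1 N).sigma fun a => Icc 1 (N / a)).filter
        (fun x : (_ : ℕ) × ℕ => Squarefree (x.1 * x.2)) with hS
  let φ : ((_ : ℕ) × ℕ) → ((_ : ℕ) × Finset ℕ) := fun x => ⟨x.1 * x.2, x.1.primeFactors⟩
  have hmem : ∀ x ∈ S, 1 ≤ x.1 ∧ 1 ≤ x.2 ∧ x.1 * x.2 ≤ N ∧ Squarefree (x.1 * x.2) := by
    intro x hx
    rw [hS, Finset.mem_filter, Finset.mem_sigma, mem_Icc, mem_Icc] at hx
    obtain ⟨⟨⟨h3, h4⟩, h5, h6⟩, h7⟩ := hx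
    exact ⟨h3, h5, by
      have := (Nat.le_div_iff_mul_le (by omega)).1 h6
      rwa [mul_comm] at this, h7⟩
  have hinj : Set.InjOn φ (S : Set ((_ : ℕ) × ℕ)) := by
    rintro ⟨a, b⟩ hx ⟨a', b'⟩ hx' heq
    obtain ⟨e1, e2, -, e4⟩ := hmem _ (Finset.mem_coe.1 hx)
    obtain ⟨e1', e2', -, e4'⟩ := hmem _ (Finset.mem_coe.1 hx')
    dsimp only at e1 e2 e4 e1' e2' e4'
    have h3 : a * b = a' * b' := congrArg Sigma.fst heq
    have h4 : a.primeFactors = a'.primeFactors := congrArg (fun y => y.2) heq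
    have h5 : a = a' := by
      rw [← Nat.prod_primeFactors_of_squarefree e4.of_mul_left,
        ← Nat.prod_primeFactors_of_squarefree e4'.of_mul_left, h4]
    subst h5
    have h6 : b = b' := Nat.eq_of_mul_eq_mul_left (by omega) h3
    rw [h6]
  have h3 : ∑ x ∈ S, PF vA x.1 * PF vB x.2 =
      ∑ y ∈ S.image φ, (∏ p ∈ y.2, vA p) * ∏ p ∈ y.1.primeFactors \ y.2, vB p := by
    rw [Finset.sum_image hinj]
    refine Finset.sum_congr rfl fun x hx => ?_
    obtain ⟨e1, e2, -, e4⟩ := hmem x hx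
    have hc : x.1.Coprime x.2 := Nat.coprime_of_squarefree_mul e4
    have h5 : (x.1 * x.2).primeFactors \ x.1.primeFactors = x.2.primeFactors := by
      rw [Nat.primeFactors_mul (by omega) (by omega), Finset.union_sdiff_cancel_left]
      exact Nat.disjoint_primeFactors (by omega) (by omega) |>.2 hc
    change _ = (∏ p ∈ x.1.primeFactors, vA p) *
      ∏ p ∈ (x.1 * x.2).primeFactors \ x.1.primeFactors, vB p
    rw [h5]
    rfl
  rw [h3]
  refine Finset.sum_le_sum_of_subset_of_nonneg ?_ fun y _ _ =>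
    mul_nonneg (Finset.prod_nonneg fun p _ => hA p) (Finset.prod_nonneg fun p _ => hB p)
  intro y hy
  obtain ⟨x, hx, rfl⟩ := Finset.mem_image.1 hy
  obtain ⟨e1, e2, e3, e4⟩ := hmem x hx
  refine Finset.mem_sigma.2 ⟨mem_sqs.2 ⟨?_, e3, e4⟩, Finset.mem_powerset.2 ?_⟩
  · exact Nat.mul_pos e1 e2
  · exact Nat.primeFactors_mono (Dvd.intro _ rfl) (Nat.mul_ne_zero (by omega) (by omega))

/-- the weight of the primes of `a` -/
private noncomputable def mlA (z : ℕ) (p : ℕ) : ℝ := if z < p then 1 / 2 else 1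

/-- the weight of the primes of `b` -/
private noncomputable def mlB (l : ℕ) (p : ℕ) : ℝ := if p % l = 1 then 1 else 0

private theorem mlA_nonneg (z p : ℕ) : 0 ≤ mlA z p := by
  unfold mlA
  split_ifs <;> norm_num

private theorem mlB_nonneg (l p : ℕ) : 0 ≤ mlB l p := by
  unfold mlB
  split_ifs <;> norm_num

private theorem ml_wt (z a : ℕ) : (1 / 2 : ℝ) ^ wt (fun _ => True) z a = PF (mlA z) a := by
  classical
  unfold PF wt mlA
  rw [Finset.prod_ite, Finset.prod_const, Finset.prod_const_one, mul_one]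
  congr 2
  ext p
  simp only [Finset.mem_filter, and_true]

/-- The sum over `b` for fixed `a`: choose a prime `q > z` of `b`. -/
private theorem ml_fix (z l N a : ℕ) (ha : 1 ≤ a) (P : Finset ℕ)
    (hP : ∀ q, q.Prime → q ≤ N → z < q → q % l = 1 → q ∈ P) (hP1 : ∀ q ∈ P, 1 ≤ q)
    (Q : ℕ → ℕ → Prop) (hQ : ∀ b, Q a b → Squarefree (a * b) ∧ (∀ q : ℕ, q.Prime → q ∣ b → q % l = 1) ∧
      ro z b ≠ 1) :
    (open Classical in ∑ b ∈ Icc 1 (N / a), if Q a b then PF (mlA z) a else 0) ≤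
      open Classical in ∑ q ∈ P, ∑ b ∈ Icc 1 (N / q / a),
        if Squarefree (a * b) then PF (mlA z) a * PF (mlB l) b else 0 := by
  classical
  have hnn : ∀ b, 0 ≤ (if Squarefree (a * b) then PF (mlA z) a * PF (mlB l) b else 0) := by
    intro b
    split_ifs
    · exact mul_nonneg (Finset.prod_nonneg fun p _ => mlA_nonneg z p)
        (Finset.prod_nonneg fun p _ => mlB_nonneg l p)
    · exact le_rfl
  -- a single term
  have h1 : ∀ b ∈ Icc 1 (N / a), (if Q a b then PF (mlA z) a else 0) ≤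
      ∑ q ∈ P, if q ∣ b then
        (if Squarefree (a * (b / q)) then PF (mlA z) a * PF (mlB l) (b / q) else 0) else 0 := by
    intro b hb
    rw [mem_Icc] at hb
    by_cases hQb : Q a b
    swap
    · rw [if_neg hQb]
      refine Finset.sum_nonneg fun q _ => ?_
      split_ifs
      · exact mul_nonneg (Finset.prod_nonneg fun p _ => mlA_nonneg z p)
          (Finset.prod_nonneg fun p _ => mlB_nonneg l p)
      · exact le_rfl
      · exact le_rfl
    rw [if_pos hQb]
    obtain ⟨h2, h3, h4⟩ := hQ b hQb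
    obtain ⟨q, hq, hqb, hzq⟩ : ∃ q : ℕ, q.Prime ∧ q ∣ b ∧ z < q := by
      by_contra hcon
      push Not at hcon
      apply h4
      unfold ro
      rw [Finset.filter_false_of_mem, Finset.prod_empty]
      intro p hp
      obtain ⟨h5, h6, -⟩ := Nat.mem_primeFactors.1 hp
      exact not_lt.2 (hcon p h5 h6)
    have hbN : b ≤ N := by
      calc b ≤ N / a := hb.2
        _ ≤ N := Nat.div_le_self _ _
    have hqP : q ∈ P := hP q hq ((Nat.le_of_dvd (by omega) hqb).trans hbN) hzq (h3 q hq hqb)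
    have h5 : PF (mlA z) a = (if q ∣ b then
        (if Squarefree (a * (b / q)) then PF (mlA z) a * PF (mlB l) (b / q) else 0) else 0) := by
      rw [if_pos hqb]
      obtain ⟨b', rfl⟩ := hqb
      rw [Nat.mul_div_cancel_left b' hq.pos]
      have h6 : Squarefree (a * b') := by
        refine Squarefree.squarefree_of_dvd ?_ h2
        exact Nat.mul_dvd_mul_left a (Dvd.intro_left q rfl)
      rw [if_pos h6]
      have h7 : PF (mlB l) b' = 1 := by
        unfold PF
        refine Finset.prod_eq_one fun p hp => ?_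
        obtain ⟨h8, h9, -⟩ := Nat.mem_primeFactors.1 hp
        unfold mlB
        rw [if_pos (h3 p h8 (h9.trans (Dvd.intro_left q rfl)))]
      rw [h7, mul_one]
    refine h5.le.trans ?_
    refine Finset.single_le_sum (f := fun q => if q ∣ b then
        (if Squarefree (a * (b / q)) then PF (mlA z) a * PF (mlB l) (b / q) else 0) else 0)
        (fun q _ => ?_) hqP
    split_ifs
    · exact mul_nonneg (Finset.prod_nonneg fun p _ => mlA_nonneg z p)
        (Finset.prod_nonneg fun p _ => mlB_nonneg l p)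
    · exact le_rfl
    · exact le_rfl
  refine (Finset.sum_le_sum h1).trans ?_
  rw [Finset.sum_comm]
  refine Finset.sum_le_sum fun q hq => ?_
  have hq1 := hP1 q hq
  rw [← Finset.sum_filter]
  have hinj : Set.InjOn (fun b => b / q) (((Icc 1 (N / a)).filter fun b => q ∣ b : Finset ℕ) : Set ℕ) := by
    intro x hx y hy hxy
    have hx' := (Finset.mem_filter.1 (Finset.mem_coe.1 hx)).2
    have hy' := (Finset.mem_filter.1 (Finset.mem_coe.1 hy)).2
    have : x / q = y / q := hxy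
    rw [← Nat.mul_div_cancel' hx', ← Nat.mul_div_cancel' hy', this]
  rw [← Finset.sum_image (f := fun b => if Squarefree (a * b) then PF (mlA z) a * PF (mlB l) b
    else 0) hinj]
  refine Finset.sum_le_sum_of_subset_of_nonneg ?_ fun b _ _ => hnn b
  intro b' hb'
  obtain ⟨b, hb, rfl⟩ := Finset.mem_image.1 hb'
  rw [Finset.mem_filter, mem_Icc] at hb
  obtain ⟨⟨h2, h3⟩, c, rfl⟩ := hb
  have e : q * c / q = c := Nat.mul_div_cancel_left c hq1
  simp only [e]
  rw [mem_Icc]
  refine ⟨?_, ?_⟩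
  · rcases Nat.eq_zero_or_pos c with h | h
    · subst h
      omega
    · exact h
  · rw [Nat.div_div_eq_div_mul, mul_comm q a, ← Nat.div_div_eq_div_mul,
      Nat.le_div_iff_mul_le hq1, mul_comm c q]
    exact h3

/-- Reduction to sums over `m'`. -/
private theorem ml_red (z l N : ℕ) :
    S2 N (fun a b => Squarefree (a * b) ∧ (∀ q : ℕ, q.Prime → q ∣ b → q % l = 1) ∧ ro z b ≠ 1)
      (fun a _ => (1 / 2 : ℝ) ^ wt (fun _ => True) z a) ≤
      ∑ q ∈ (prs N).filter (fun q => z < q ∧ q % l = 1), ∑ m ∈ sqs (N / q), PF (gl z l) m := by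
  classical
  set P := (prs N).filter (fun q => z < q ∧ q % l = 1) with hPdef
  have hP : ∀ q, q.Prime → q ≤ N → z < q → q % l = 1 → q ∈ P := by
    intro q h1 h2 h3 h4
    exact Finset.mem_filter.2 ⟨mem_prs.2 ⟨h1, h2⟩, h3, h4⟩
  have hP1 : ∀ q ∈ P, 1 ≤ q := by
    intro q hq
    exact (mem_prs.1 (Finset.mem_filter.1 hq).1).1.one_le
  have h1 : S2 N (fun a b => Squarefree (a * b) ∧ (∀ q : ℕ, q.Prime → q ∣ b → q % l = 1) ∧
      ro z b ≠ 1) (fun a _ => (1 / 2 : ℝ) ^ wt (fun _ => True) z a) ≤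
      ∑ a ∈ Icc 1 N, ∑ q ∈ P, ∑ b ∈ Icc 1 (N / q / a),
        (if Squarefree (a * b) then PF (mlA z) a * PF (mlB l) b else 0) := by
    unfold S2
    refine Finset.sum_le_sum fun a ha => ?_
    rw [mem_Icc] at ha
    have h2 := ml_fix z l N a ha.1 P hP hP1 (fun a b => Squarefree (a * b) ∧
      (∀ q : ℕ, q.Prime → q ∣ b → q % l = 1) ∧ ro z b ≠ 1) (fun b h => h)
    beta_reduce
    rw [ml_wt]
    exact h2
  refine h1.trans ?_
  rw [Finset.sum_comm]
  refine Finset.sum_le_sum fun q hq => ?_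
  have h2 : ∑ a ∈ Icc 1 N, ∑ b ∈ Icc 1 (N / q / a),
      (if Squarefree (a * b) then PF (mlA z) a * PF (mlB l) b else 0) =
      S2 (N / q) (fun a b => Squarefree (a * b)) (fun a b => PF (mlA z) a * PF (mlB l) b) := by
    unfold S2
    symm
    refine Finset.sum_subset_zero_on_sdiff (fun a ha => ?_) (fun a ha => ?_) fun a _ => ?_
    · rw [mem_Icc] at ha ⊢
      exact ⟨ha.1, ha.2.trans (Nat.div_le_self _ _)⟩
    · rw [Finset.mem_sdiff, mem_Icc, mem_Icc] at ha
      have h3 : N / q / a = 0 := Nat.div_eq_of_lt (by omega)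
      rw [h3]
      rfl
    · refine Finset.sum_congr rfl fun b _ => ?_
      by_cases h : Squarefree (a * b)
      · rw [if_pos h, if_pos h]
      · rw [if_neg h, if_neg h]
  rw [h2]
  exact ml_group (mlA z) (mlB l) (N / q) (mlA_nonneg z) (mlB_nonneg l)

/-- large `X` -/
private theorem ml_large : ∃ X₀ : ℕ, 3 ≤ X₀ ∧ ∀ X : ℕ, X₀ ≤ X → ∀ l : ℕ, 5 ≤ l →
    (l : ℝ) ≤ Real.log X ^ 3 → l ^ 16 ≤ zz δ0 X ∧ zz δ0 X * zz δ0 X ≤ X := by
  have hu : Filter.Tendsto (fun X : ℕ => Real.log X ^ δ0) Filter.atTop Filter.atTop := by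
    have h1 : Filter.Tendsto (fun X : ℕ => Real.log (X : ℝ)) Filter.atTop Filter.atTop :=
      Real.tendsto_log_atTop.comp tendsto_natCast_atTop_atTop
    exact (tendsto_rpow_atTop (by unfold δ0; norm_num : 0 < δ0)).comp h1
  have h2 := (Real.tendsto_exp_div_pow_atTop 3072).comp hu
  have h3 := (h2.eventually_ge_atTop 2).and (hu.eventually_ge_atTop 2)
  obtain ⟨X₁, hX₁⟩ := Filter.eventually_atTop.1 h3
  refine ⟨max X₁ 3, le_max_right _ _, fun X hX l hl hlX => ?_⟩
  have hX3 : 3 ≤ X := (le_max_right _ _).trans hX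
  obtain ⟨e1, e2⟩ := hX₁ X ((le_max_left _ _).trans hX)
  have hl1 := ml_log hX3
  have hX0 : (0 : ℝ) < X := by exact_mod_cast (by omega : 0 < X)
  obtain ⟨u, hu'⟩ : ∃ u : ℝ, u = Real.log X ^ δ0 := ⟨_, rfl⟩
  have e1' : 2 ≤ Real.exp u / u ^ 3072 := by
    rw [hu']
    exact e1
  rw [← hu'] at e2
  have hu0 : 0 < u := by linarith
  have hu64 : u ^ 64 = Real.log X := by
    rw [hu', ← Real.rpow_natCast, ← Real.rpow_mul (by linarith)]
    have : δ0 * ((64 : ℕ) : ℝ) = 1 := by
      unfold δ0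
      norm_num
    rw [this, Real.rpow_one]
  have hz : zz δ0 X = ⌊Real.exp u⌋₊ := by
    rw [hu']
    rfl
  constructor
  · rw [hz]
    refine Nat.le_floor ?_
    have h4 : 0 < u ^ 3072 := pow_pos hu0 _
    rw [le_div_iff₀ h4] at e1'
    have h5 : ((l ^ 16 : ℕ) : ℝ) ≤ u ^ 3072 := by
      push_cast
      calc (l : ℝ) ^ 16 ≤ (Real.log X ^ 3) ^ 16 := pow_le_pow_left₀ (Nat.cast_nonneg l) hlX 16
        _ = u ^ 3072 := by
            rw [← hu64, ← pow_mul, ← pow_mul]
    linarith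
  · have h4 : (zz δ0 X : ℝ) ≤ Real.exp u := by
      rw [hz]
      exact Nat.floor_le (Real.exp_pos _).le
    have h5 : (zz δ0 X : ℝ) * (zz δ0 X : ℝ) ≤ X := by
      calc (zz δ0 X : ℝ) * (zz δ0 X : ℝ) ≤ Real.exp u * Real.exp u :=
            mul_le_mul h4 h4 (Nat.cast_nonneg _) (Real.exp_pos _).le
        _ = Real.exp (2 * u) := by rw [← Real.exp_add, two_mul]
        _ ≤ Real.exp (Real.log X) := by
            refine Real.exp_le_exp.2 ?_
            rw [← hu64]
            have h6 : (2 : ℝ) ≤ u ^ 63 := by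
              calc (2 : ℝ) = 2 ^ 1 := (pow_one 2).symm
                _ ≤ 2 ^ 63 := pow_le_pow_right₀ (by norm_num) (by norm_num)
                _ ≤ u ^ 63 := pow_le_pow_left₀ (by norm_num) e2 63
            calc 2 * u ≤ u ^ 63 * u := mul_le_mul_of_nonneg_right h6 hu0.le
              _ = u ^ 64 := (pow_succ u 63).symm
        _ = X := Real.exp_log hX0
    exact_mod_cast h5

/-- Dyadic counting. -/
private theorem ml_count : ∃ C : ℝ, 0 < C ∧ ∀ l s T : ℕ, l.Prime → 2 ≤ s → l ^ 16 ≤ s →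
    (((prs T).filter (fun q => s < q ∧ q % l = 1)).card : ℝ) ≤ C * T / (l * Real.log s) := by
  obtain ⟨C, hC, h⟩ := bt_count
  refine ⟨2 * C, by positivity, fun l s T hl hs hls => ?_⟩
  have hl0 : (0 : ℝ) < l := by exact_mod_cast hl.pos
  have hs1 : (1 : ℝ) < s := by exact_mod_cast (by omega : 1 < s)
  have hlog : 0 < Real.log s := Real.log_pos hs1
  have hd : 0 < (l : ℝ) * Real.log s := mul_pos hl0 hlog
  induction T using Nat.strong_induction_on with
  | _ T ih =>
    rcases Nat.lt_or_ge s T with hT | hT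
    swap
    · have h1 : (prs T).filter (fun q => s < q ∧ q % l = 1) = ∅ := by
        refine Finset.filter_false_of_mem fun q hq => ?_
        have := (mem_prs.1 hq).2
        omega
      rw [h1, Finset.card_empty]
      push_cast
      positivity
    obtain ⟨T', hT'⟩ : ∃ T', T' = (T + 1) / 2 := ⟨_, rfl⟩
    rcases Nat.lt_or_ge T' s with h1 | h1
    · have h2 : (prs T).filter (fun q => s < q ∧ q % l = 1) ⊆
          (Ioc s (2 * s)).filter (fun p => p.Prime ∧ p % l = 1) := by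
        intro q hq
        rw [Finset.mem_filter, mem_prs] at hq
        rw [Finset.mem_filter, mem_Ioc]
        exact ⟨⟨hq.2.1, by omega⟩, hq.1.1, hq.2.2⟩
      have h3 : (((prs T).filter (fun q => s < q ∧ q % l = 1)).card : ℝ) ≤
          C * s / (l * Real.log s) :=
        (by exact_mod_cast Finset.card_le_card h2 :
          (((prs T).filter (fun q => s < q ∧ q % l = 1)).card : ℝ) ≤
          (((Ioc s (2 * s)).filter (fun p => p.Prime ∧ p % l = 1)).card : ℝ)).trans (h l s hl hs hls)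
      refine h3.trans ?_
      rw [div_le_div_iff_of_pos_right hd]
      have h4 : (s : ℝ) ≤ T := by exact_mod_cast hT.le
      nlinarith
    · have h2 : (prs T).filter (fun q => s < q ∧ q % l = 1) ⊆
          (prs T').filter (fun q => s < q ∧ q % l = 1) ∪
          (Ioc T' (2 * T')).filter (fun p => p.Prime ∧ p % l = 1) := by
        intro q hq
        rw [Finset.mem_filter, mem_prs] at hq
        rw [Finset.mem_union, Finset.mem_filter, Finset.mem_filter, mem_Ioc, mem_prs]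
        rcases Nat.lt_or_ge T' q with h3 | h3
        · exact Or.inr ⟨⟨h3, by omega⟩, hq.1.1, hq.2.2⟩
        · exact Or.inl ⟨⟨hq.1.1, h3⟩, hq.2⟩
      have h3 := ih T' (by omega)
      have h4 := h l T' hl (by omega) (hls.trans h1)
      have h5 : (((prs T).filter (fun q => s < q ∧ q % l = 1)).card : ℝ) ≤
          (((prs T').filter (fun q => s < q ∧ q % l = 1)).card : ℝ) +
          (((Ioc T' (2 * T')).filter (fun p => p.Prime ∧ p % l = 1)).card : ℝ) := by
        exact_mod_cast (Finset.card_le_card h2).trans (Finset.card_union_le _ _)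
      have h6 : C * T' / (l * Real.log T') ≤ C * T' / (l * Real.log s) := by
        have h7 : Real.log s ≤ Real.log T' :=
          Real.log_le_log (by linarith) (by exact_mod_cast h1)
        have h8 : (0 : ℝ) ≤ C * T' := by positivity
        exact div_le_div_of_nonneg_left h8 hd (mul_le_mul_of_nonneg_left h7 hl0.le)
      refine (h5.trans (add_le_add h3 (h4.trans h6))).trans ?_
      rw [← add_div, div_le_div_iff_of_pos_right hd]
      have h7 : 3 * (T' : ℝ) ≤ 2 * T := by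
        exact_mod_cast (by omega : 3 * T' ≤ 2 * T)
      nlinarith

/-- Proof. In every term `b` has a prime `q > z`, `q ≡ 1` mod `l`; `(a, b) ↦ (q, m')` with `m' = a b / q`: the sum is
`≤ ∑_{z < q ≤ 2X, q ≡ 1} ∑_{m' ∈ sqs (2X/q)} PF gl m'`. `q ≤ √X` (so `Y = 2X/q ≥ √X`): `gl_mean` and
`∑ 1/q ≤ C (loglog X + 1)/l` (`bt_sum`, `l^16 ≤ z` for large `X`). `q > √X`: `m' ≤ 2√X`; for fixed `m'` the number of
primes `q ≤ 2X/m'`, `q > √X`, `q ≡ 1` mod `l` is `≤ C X/(m' l log X)` (dyadic `bt_count`), then `gl_log`. Total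
`≤ C X (log X)^(-0.1) (loglog X + 1)/l ≤ C' X (log X)^(-0.05)/l`. (Small `X`: everything is bounded; note `l ≤ (log X)^3`.) -/
theorem main_L : ∃ C : ℝ, 0 < C ∧ ∀ X : ℕ, 3 ≤ X → ∀ l : ℕ, l.Prime → 5 ≤ l → (l : ℝ) ≤ Real.log X ^ 3 →
    S2 (2 * X) (fun a b => Squarefree (a * b) ∧ (∀ q : ℕ, q.Prime → q ∣ b → q % l = 1) ∧ ro (zz δ0 X) b ≠ 1)
      (fun a _ => (1 / 2 : ℝ) ^ wt (fun _ => True) (zz δ0 X) a) ≤ C * X * Real.log X ^ (-(0.05 : ℝ)) / l := by
  classical
  obtain ⟨X₀, hX₀, hlarge⟩ := ml_large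
  obtain ⟨C₁, hC₁, hmean⟩ := gl_mean
  obtain ⟨C₂, hC₂, hlog⟩ := gl_log
  obtain ⟨C₃, hC₃, hsum⟩ := bt_sum
  obtain ⟨C₄, hC₄, hcount⟩ := ml_count
  have hl0 := ml_log hX₀
  refine ⟨4 * X₀ * Real.log X₀ ^ 4 + C₁ * 2 * C₃ * 22 + 8 * C₄ * C₂, by positivity, ?_⟩
  intro X hX l hl hl5 hlX
  have hl1 := ml_log hX
  have hlpos : 0 < Real.log X := by linarith
  have hll := ml_ll hX
  have hX0 : (0 : ℝ) < X := by exact_mod_cast (by omega : 0 < X)
  have hlR : (0 : ℝ) < l := by exact_mod_cast hl.pos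
  have hlc : 0 < Real.log X ^ (-(0.05 : ℝ)) := Real.rpow_pos_of_pos hlpos _
  have hQ0 : 0 < X * Real.log X ^ (-(0.05 : ℝ)) / l := by positivity
  rcases Nat.lt_or_ge X X₀ with hXX | hXX
  · -- small `X`
    have h1 : S2 (2 * X) (fun a b => Squarefree (a * b) ∧
        (∀ q : ℕ, q.Prime → q ∣ b → q % l = 1) ∧ ro (zz δ0 X) b ≠ 1)
        (fun a _ => (1 / 2 : ℝ) ^ wt (fun _ => True) (zz δ0 X) a) ≤ 4 * (X : ℝ) * X := by
      unfold S2
      calc _ ≤ ∑ a ∈ Icc 1 (2 * X), ∑ b ∈ Icc 1 (2 * X / a), (1 : ℝ) := by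
            refine Finset.sum_le_sum fun a _ => Finset.sum_le_sum fun b _ => ?_
            split_ifs
            · exact pow_le_one₀ (by norm_num) (by norm_num)
            · exact zero_le_one
        _ ≤ ∑ a ∈ Icc 1 (2 * X), (2 * X : ℝ) := by
            refine Finset.sum_le_sum fun a _ => ?_
            rw [Finset.sum_const, Nat.card_Icc, nsmul_eq_mul, mul_one]
            have h2 : 2 * X / a ≤ 2 * X := Nat.div_le_self _ _
            have h3 : ((2 * X / a + 1 - 1 : ℕ) : ℝ) ≤ ((2 * X : ℕ) : ℝ) := by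
              exact_mod_cast (by omega : 2 * X / a + 1 - 1 ≤ 2 * X)
            push_cast at h3
            exact_mod_cast h3
        _ = 4 * (X : ℝ) * X := by
            rw [Finset.sum_const, Nat.card_Icc, nsmul_eq_mul]
            push_cast
            ring
    have hXX' : (X : ℝ) ≤ X₀ := by exact_mod_cast hXX.le
    have hlle : Real.log X ≤ Real.log X₀ := Real.log_le_log hX0 hXX'
    have h2 : (1 : ℝ) ≤ Real.log X₀ ^ 4 * (Real.log X ^ (-(0.05 : ℝ)) / l) := by
      have h3 : (Real.log X)⁻¹ ≤ Real.log X ^ (-(0.05 : ℝ)) := by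
        rw [← Real.rpow_neg_one]
        exact Real.rpow_le_rpow_of_exponent_le hl1 (by norm_num)
      have h4 : (l : ℝ) * Real.log X ≤ Real.log X₀ ^ 4 := by
        calc (l : ℝ) * Real.log X ≤ Real.log X ^ 3 * Real.log X :=
              mul_le_mul_of_nonneg_right hlX hlpos.le
          _ = Real.log X ^ 4 := by ring
          _ ≤ Real.log X₀ ^ 4 := pow_le_pow_left₀ hlpos.le hlle 4
      calc (1 : ℝ) = ((l : ℝ) * Real.log X) * ((Real.log X)⁻¹ / l) := by
            field_simp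
        _ ≤ Real.log X₀ ^ 4 * (Real.log X ^ (-(0.05 : ℝ)) / l) := by
            refine mul_le_mul h4 ?_ (by positivity) (by positivity)
            exact div_le_div_of_nonneg_right h3 hlR.le
    calc _ ≤ 4 * (X : ℝ) * X := h1
      _ ≤ 4 * X₀ * X * (Real.log X₀ ^ 4 * (Real.log X ^ (-(0.05 : ℝ)) / l)) := by
          have h3 : 4 * (X : ℝ) * X ≤ 4 * X₀ * X := by nlinarith
          have h4 : (0 : ℝ) ≤ 4 * X₀ * X := by positivity
          calc 4 * (X : ℝ) * X ≤ 4 * X₀ * X * 1 := by linarith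
            _ ≤ _ := mul_le_mul_of_nonneg_left h2 h4
      _ = 4 * X₀ * Real.log X₀ ^ 4 * (X * Real.log X ^ (-(0.05 : ℝ)) / l) := by ring
      _ ≤ (4 * X₀ * Real.log X₀ ^ 4 + C₁ * 2 * C₃ * 22 + 8 * C₄ * C₂) *
            (X * Real.log X ^ (-(0.05 : ℝ)) / l) := by
          refine mul_le_mul_of_nonneg_right ?_ hQ0.le
          have h3 : 0 ≤ C₁ * 2 * C₃ * 22 := by positivity
          have h4 : 0 ≤ 8 * C₄ * C₂ := by positivity
          linarith
      _ = _ := by ring
  · -- large `X`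
    obtain ⟨hz1, hz2⟩ := hlarge X hXX l hl5 hlX
    obtain ⟨z, hz⟩ : ∃ z, z = zz δ0 X := ⟨_, rfl⟩
    rw [← hz] at hz1 hz2
    have hz3 : 3 ≤ z := by
      calc 3 ≤ 5 ^ 16 := by norm_num
        _ ≤ l ^ 16 := Nat.pow_le_pow_left hl5 16
        _ ≤ z := hz1
    have hred := ml_red z l (2 * X)
    rw [hz] at hred
    refine hred.trans ?_
    rw [← hz]
    set P := (prs (2 * X)).filter (fun q => z < q ∧ q % l = 1) with hP
    rw [← Finset.sum_filter_add_sum_filter_not P (fun q => q * q ≤ X)]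
    -- the primes up to the square root
    have hsmall : ∑ q ∈ P.filter (fun q => q * q ≤ X), ∑ m ∈ sqs (2 * X / q), PF (gl z l) m ≤
        C₁ * 2 * C₃ * 22 * (X * Real.log X ^ (-(0.05 : ℝ)) / l) := by
      have h1 : ∀ q ∈ P.filter (fun q => q * q ≤ X), ∑ m ∈ sqs (2 * X / q), PF (gl z l) m ≤
          C₁ * 2 * X * Real.log X ^ (-(0.1 : ℝ)) * (1 / q) := by
        intro q hq
        rw [Finset.mem_filter, hP, Finset.mem_filter, mem_prs] at hq
        obtain ⟨⟨⟨hqp, hqX⟩, hzq, hql⟩, hqq⟩ := hq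
        obtain ⟨Y, hY⟩ : ∃ Y, Y = 2 * X / q := ⟨_, rfl⟩
        have hY1 : 1 ≤ Y := by
          rw [hY]
          exact (Nat.one_le_div_iff hqp.pos).2 hqX
        have hY2 : 2 * X < q * (Y + 1) := by
          rw [hY]
          exact Nat.lt_mul_div_succ _ hqp.pos
        have hXY : X ≤ Y ^ 2 := by
          have h2 : (2 * X) * (2 * X) < (q * (Y + 1)) * (q * (Y + 1)) := Nat.mul_lt_mul'' hY2 hY2
          have h3 : (q * (Y + 1)) * (q * (Y + 1)) = (q * q) * ((Y + 1) * (Y + 1)) := by ring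
          rw [h3] at h2
          have h4 : X * (4 * X) < X * ((Y + 1) * (Y + 1)) := by
            calc X * (4 * X) = (2 * X) * (2 * X) := by ring
              _ < (q * q) * ((Y + 1) * (Y + 1)) := h2
              _ ≤ X * ((Y + 1) * (Y + 1)) := Nat.mul_le_mul_right _ hqq
          have h5 : 4 * X < (Y + 1) * (Y + 1) := Nat.lt_of_mul_lt_mul_left h4
          nlinarith
        have hYX : Y ≤ 2 * X := by
          rw [hY]
          exact Nat.div_le_self _ _
        have h2 := hmean X hX l hl hl5 hlX Y hXY hYX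
        rw [← hz] at h2
        rw [← hY]
        refine h2.trans ?_
        have h3 : (Y : ℝ) ≤ 2 * X * (1 / q) := by
          rw [hY]
          calc ((2 * X / q : ℕ) : ℝ) ≤ ((2 * X : ℕ) : ℝ) / q := Nat.cast_div_le
            _ = 2 * X * (1 / q) := by
                push_cast
                ring
        have h4 : 0 ≤ Real.log X ^ (-(0.1 : ℝ)) := Real.rpow_nonneg hlpos.le _
        calc C₁ * Y * Real.log X ^ (-(0.1 : ℝ)) ≤ C₁ * (2 * X * (1 / q)) * Real.log X ^ (-(0.1 : ℝ)) := by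
              gcongr
          _ = C₁ * 2 * X * Real.log X ^ (-(0.1 : ℝ)) * (1 / q) := by ring
      refine (Finset.sum_le_sum h1).trans ?_
      rw [← Finset.mul_sum]
      have h2 : ∑ q ∈ P.filter (fun q => q * q ≤ X), (1 : ℝ) / q ≤
          C₃ / l * (Real.log (Real.log X) + 2) := by
        have h3 : ∑ q ∈ P.filter (fun q => q * q ≤ X), (1 : ℝ) / q ≤ ∑ q ∈ P, (1 : ℝ) / q :=
          Finset.sum_le_sum_of_subset_of_nonneg (Finset.filter_subset _ _) fun q _ _ => by positivity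
        have hz2X : z ≤ 2 * X := by nlinarith
        have h4 := hsum l z (2 * X) hl hz3 hz2X hz1
        have h5 : Real.log (Real.log ((2 * X : ℕ) : ℝ)) ≤ 1 + Real.log (Real.log X) := by
          have h6 : Real.log ((2 * X : ℕ) : ℝ) ≤ 2 * Real.log X := by
            push_cast
            rw [Real.log_mul (by norm_num) hX0.ne']
            linarith [Real.log_two_lt_d9]
          have h7 : 0 < Real.log ((2 * X : ℕ) : ℝ) := by
            have := ml_log (by omega : 3 ≤ 2 * X)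
            linarith
          have h8 := Real.log_le_log h7 h6
          rw [Real.log_mul (by norm_num) hlpos.ne'] at h8
          linarith [Real.log_two_lt_d9]
        have h6 : 0 ≤ Real.log (Real.log (z : ℝ)) := ml_ll hz3
        refine (h3.trans h4).trans (mul_le_mul_of_nonneg_left ?_ (by positivity))
        linarith
      have h3 : Real.log X ^ (-(0.1 : ℝ)) * (Real.log (Real.log X) + 2) ≤
          22 * Real.log X ^ (-(0.05 : ℝ)) := by
        have h4 : Real.log (Real.log X) ≤ 20 * Real.log X ^ (0.05 : ℝ) := by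
          have h5 := Real.log_le_rpow_div hlpos.le (by norm_num : (0 : ℝ) < 0.05)
          calc Real.log (Real.log X) ≤ Real.log X ^ (0.05 : ℝ) / 0.05 := h5
            _ = 20 * Real.log X ^ (0.05 : ℝ) := by ring
        have h5 : 1 ≤ Real.log X ^ (0.05 : ℝ) := Real.one_le_rpow hl1 (by norm_num)
        have h6 : Real.log X ^ (-(0.1 : ℝ)) * Real.log X ^ (0.05 : ℝ) = Real.log X ^ (-(0.05 : ℝ)) := by
          rw [← Real.rpow_add hlpos]
          norm_num
        have h7 : 0 ≤ Real.log X ^ (-(0.1 : ℝ)) := Real.rpow_nonneg hlpos.le _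
        calc Real.log X ^ (-(0.1 : ℝ)) * (Real.log (Real.log X) + 2)
            ≤ Real.log X ^ (-(0.1 : ℝ)) * (22 * Real.log X ^ (0.05 : ℝ)) := by
              refine mul_le_mul_of_nonneg_left ?_ h7
              linarith
          _ = 22 * (Real.log X ^ (-(0.1 : ℝ)) * Real.log X ^ (0.05 : ℝ)) := by ring
          _ = 22 * Real.log X ^ (-(0.05 : ℝ)) := by rw [h6]
      calc C₁ * 2 * X * Real.log X ^ (-(0.1 : ℝ)) * ∑ q ∈ P.filter (fun q => q * q ≤ X), (1 : ℝ) / q
          ≤ C₁ * 2 * X * Real.log X ^ (-(0.1 : ℝ)) * (C₃ / l * (Real.log (Real.log X) + 2)) := by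
            refine mul_le_mul_of_nonneg_left h2 ?_
            positivity
        _ = C₁ * 2 * X * (C₃ / l) * (Real.log X ^ (-(0.1 : ℝ)) * (Real.log (Real.log X) + 2)) := by
            ring
        _ ≤ C₁ * 2 * X * (C₃ / l) * (22 * Real.log X ^ (-(0.05 : ℝ))) := by
            refine mul_le_mul_of_nonneg_left h3 ?_
            positivity
        _ = C₁ * 2 * C₃ * 22 * (X * Real.log X ^ (-(0.05 : ℝ)) / l) := by ring
    -- the large primes
    have hbig : ∑ q ∈ P.filter (fun q => ¬ q * q ≤ X), ∑ m ∈ sqs (2 * X / q), PF (gl z l) m ≤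
        8 * C₄ * C₂ * (X * Real.log X ^ (-(0.05 : ℝ)) / l) := by
      obtain ⟨s, hs⟩ : ∃ s, s = Nat.sqrt X := ⟨_, rfl⟩
      have hs1 : s * s ≤ X := by
        rw [hs]
        exact Nat.sqrt_le X
      have hs2 : X < (s + 1) * (s + 1) := by
        rw [hs]
        exact Nat.lt_succ_sqrt X
      have hzs : z ≤ s := by
        by_contra hcon
        have h1 : (s + 1) * (s + 1) ≤ z * z := Nat.mul_le_mul (by omega) (by omega)
        omega
      have hs3 : 2 ≤ s := by omega
      have hsl : Real.log X ≤ 4 * Real.log s := by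
        have h1 : (X : ℝ) ≤ (s : ℝ) ^ 4 := by
          have h2 : X ≤ s ^ 4 := by
            have h3 : s + 1 ≤ s * s := by nlinarith
            calc X ≤ (s + 1) * (s + 1) := hs2.le
              _ ≤ (s * s) * (s * s) := Nat.mul_le_mul h3 h3
              _ = s ^ 4 := by ring
          exact_mod_cast h2
        have h2 := Real.log_le_log hX0 h1
        rw [Real.log_pow] at h2
        push_cast at h2
        exact h2
      have hsl0 : 0 < Real.log s := by linarith
      have h1 : ∑ q ∈ P.filter (fun q => ¬ q * q ≤ X), ∑ m ∈ sqs (2 * X / q), PF (gl z l) m ≤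
          ∑ m ∈ sqs (2 * X), PF (gl z l) m *
            (((prs (2 * X / m)).filter (fun q => s < q ∧ q % l = 1)).card : ℝ) := by
        have h2 : ∀ q ∈ P.filter (fun q => ¬ q * q ≤ X), ∑ m ∈ sqs (2 * X / q), PF (gl z l) m ≤
            ∑ m ∈ sqs (2 * X), if q * m ≤ 2 * X then PF (gl z l) m else 0 := by
          intro q hq
          rw [Finset.mem_filter, hP, Finset.mem_filter, mem_prs] at hq
          obtain ⟨⟨⟨hqp, hqX⟩, hzq, hql⟩, hqq⟩ := hq
          rw [← Finset.sum_filter]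
          refine Finset.sum_le_sum_of_subset_of_nonneg (fun m hm => ?_) fun m _ _ => ml_pf_nonneg z l m
          obtain ⟨h3, h4, h5⟩ := mem_sqs.1 hm
          rw [Finset.mem_filter, mem_sqs]
          have h6 : m * q ≤ 2 * X := (Nat.le_div_iff_mul_le hqp.pos).1 h4
          refine ⟨⟨h3, h4.trans (Nat.div_le_self _ _), h5⟩, ?_⟩
          rw [mul_comm]
          exact h6
        refine (Finset.sum_le_sum h2).trans ?_
        rw [Finset.sum_comm]
        refine Finset.sum_le_sum fun m hm => ?_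
        obtain ⟨h3, h4, h5⟩ := mem_sqs.1 hm
        rw [← Finset.sum_filter, Finset.sum_const, nsmul_eq_mul, mul_comm]
        refine mul_le_mul_of_nonneg_left ?_ (ml_pf_nonneg z l m)
        have h6 : (P.filter (fun q => ¬ q * q ≤ X)).filter (fun q => q * m ≤ 2 * X) ⊆
            (prs (2 * X / m)).filter (fun q => s < q ∧ q % l = 1) := by
          intro q hq
          rw [Finset.mem_filter, Finset.mem_filter, hP, Finset.mem_filter, mem_prs] at hq
          obtain ⟨⟨⟨⟨hqp, hqX⟩, hzq, hql⟩, hqq⟩, hqm⟩ := hq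
          rw [Finset.mem_filter, mem_prs]
          refine ⟨⟨hqp, (Nat.le_div_iff_mul_le (by omega)).2 hqm⟩, ?_, hql⟩
          by_contra hcon
          have h7 : q * q ≤ s * s := Nat.mul_le_mul (by omega) (by omega)
          omega
        exact_mod_cast Finset.card_le_card h6
      refine h1.trans ?_
      have h2 : ∀ m ∈ sqs (2 * X), PF (gl z l) m *
            (((prs (2 * X / m)).filter (fun q => s < q ∧ q % l = 1)).card : ℝ) ≤
          8 * C₄ * X / (l * Real.log X) * (PF (gl z l) m / m) := by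
        intro m hm
        obtain ⟨h3, h4, h5⟩ := mem_sqs.1 hm
        have hm0 : (0 : ℝ) < m := by exact_mod_cast h3
        have h6 := hcount l s (2 * X / m) hl hs3 (hz1.trans hzs)
        have h7 : C₄ * ((2 * X / m : ℕ) : ℝ) / (l * Real.log s) ≤
            8 * C₄ * X / (l * Real.log X) * (1 / m) := by
          have h8 : ((2 * X / m : ℕ) : ℝ) ≤ 2 * X / m := by
            calc ((2 * X / m : ℕ) : ℝ) ≤ ((2 * X : ℕ) : ℝ) / m := Nat.cast_div_le
              _ = 2 * X / m := by push_cast; ring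
          have h9 : (l * Real.log X) / 4 ≤ l * Real.log s := by nlinarith
          have h10 : 0 < (l * Real.log X) / 4 := by positivity
          calc C₄ * ((2 * X / m : ℕ) : ℝ) / (l * Real.log s)
              ≤ C₄ * (2 * X / m) / ((l * Real.log X) / 4) := by
                refine div_le_div₀ (by positivity) ?_ h10 h9
                exact mul_le_mul_of_nonneg_left h8 hC₄.le
            _ = 8 * C₄ * X / (l * Real.log X) * (1 / m) := by
                field_simp
                ring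
        calc PF (gl z l) m *
            (((prs (2 * X / m)).filter (fun q => s < q ∧ q % l = 1)).card : ℝ)
            ≤ PF (gl z l) m * (8 * C₄ * X / (l * Real.log X) * (1 / m)) :=
              mul_le_mul_of_nonneg_left (h6.trans h7) (ml_pf_nonneg z l m)
          _ = 8 * C₄ * X / (l * Real.log X) * (PF (gl z l) m / m) := by ring
      refine (Finset.sum_le_sum h2).trans ?_
      rw [← Finset.mul_sum]
      have h3 := hlog X hX l hl hl5 hlX (2 * X) le_rfl
      rw [← hz] at h3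
      have h4 : Real.log X ^ (0.9 : ℝ) / Real.log X ≤ Real.log X ^ (-(0.05 : ℝ)) := by
        have h5 : Real.log X ^ (0.9 : ℝ) / Real.log X = Real.log X ^ (-(0.1 : ℝ)) := by
          nth_rewrite 2 [← Real.rpow_one (Real.log X)]
          rw [← Real.rpow_sub hlpos]
          norm_num
        rw [h5]
        exact Real.rpow_le_rpow_of_exponent_le hl1 (by norm_num)
      calc 8 * C₄ * X / (l * Real.log X) * ∑ m ∈ sqs (2 * X), PF (gl z l) m / m
          ≤ 8 * C₄ * X / (l * Real.log X) * (C₂ * Real.log X ^ (0.9 : ℝ)) := by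
            refine mul_le_mul_of_nonneg_left h3 ?_
            positivity
        _ = 8 * C₄ * C₂ * X / l * (Real.log X ^ (0.9 : ℝ) / Real.log X) := by
            field_simp
        _ ≤ 8 * C₄ * C₂ * X / l * Real.log X ^ (-(0.05 : ℝ)) := by
            refine mul_le_mul_of_nonneg_left h4 ?_
            positivity
        _ = 8 * C₄ * C₂ * (X * Real.log X ^ (-(0.05 : ℝ)) / l) := by ring
    calc _ ≤ C₁ * 2 * C₃ * 22 * (X * Real.log X ^ (-(0.05 : ℝ)) / l) +
          8 * C₄ * C₂ * (X * Real.log X ^ (-(0.05 : ℝ)) / l) := add_le_add hsmall hbig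
      _ = (C₁ * 2 * C₃ * 22 + 8 * C₄ * C₂) * (X * Real.log X ^ (-(0.05 : ℝ)) / l) := by ring
      _ ≤ (4 * X₀ * Real.log X₀ ^ 4 + C₁ * 2 * C₃ * 22 + 8 * C₄ * C₂) *
            (X * Real.log X ^ (-(0.05 : ℝ)) / l) := by
          refine mul_le_mul_of_nonneg_right ?_ hQ0.le
          have h3 : 0 ≤ 4 * (X₀ : ℝ) * Real.log X₀ ^ 4 := by positivity
          linarith
      _ = _ := by ring

end Pool.Agent.Wal
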