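import Pool.Agent.Lib.MP_6498db_nt.L.PrDefs
import Pool.Agent.Lib.MP_6498db_nt.W.BOne

/-! WALSH, Theorem 2, row PrA: `q` small. -/

set_option autoImplicit false

namespace Pool.Agent.Wal

open Finset

private theorem prA_harm (N : ℕ) : ∑ b ∈ Icc 1 N, (1 : ℝ) / b ≤ 1 + Real.log N := by
  have h := harmonic_le_one_add_log N
  rw [harmonic_eq_sum_Icc] at h
  push_cast at h
  refine le_trans (le_of_eq (sum_congr rfl (fun b _ => ?_))) h
  rw [one_div]

private theorem prA_six : (6 : ℝ) ≤ Real.exp 2 := by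
  have h4 := Real.exp_one_gt_d9
  have h5 : Real.exp 2 = Real.exp 1 * Real.exp 1 := by
    rw [← Real.exp_add]
    norm_num
  rw [h5]
  nlinarith

/-- the possible `c` -/
private def prA_cs (q : ℕ) : Finset ℕ := insert 1 (q - 1).primeFactors

private theorem prA_card {q : ℕ} (hq : 2 ≤ q) : ((prA_cs q).card : ℝ) ≤ 1 + 2 * Real.log q := by
  have h1 : (2 : ℝ) ^ (q - 1).primeFactors.card ≤ q := by
    have h2 : 2 ^ (q - 1).primeFactors.card ≤ q - 1 := by
      rw [← prod_const]
      refine le_trans (prod_le_prod' (fun p hp => (Nat.prime_of_mem_primeFactors hp).two_le)) ?_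
      exact Nat.le_of_dvd (by omega) (Nat.prod_primeFactors_dvd (q - 1))
    have h3 : 2 ^ (q - 1).primeFactors.card ≤ q := by omega
    exact_mod_cast h3
  have h2 : ((q - 1).primeFactors.card : ℝ) * Real.log 2 ≤ Real.log q := by
    rw [← Real.log_pow]
    exact Real.log_le_log (by positivity) h1
  have h3 : (1 / 2 : ℝ) ≤ Real.log 2 := by
    have := Real.log_two_gt_d9
    linarith
  have h4 : ((prA_cs q).card : ℝ) ≤ (q - 1).primeFactors.card + 1 := by
    have := card_insert_le 1 (q - 1).primeFactors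
    exact_mod_cast this
  have h5 : (0 : ℝ) ≤ ((q - 1).primeFactors.card : ℝ) := Nat.cast_nonneg _
  have h6 : ((q - 1).primeFactors.card : ℝ) * (1 / 2) ≤ ((q - 1).primeFactors.card : ℝ) * Real.log 2 :=
    mul_le_mul_of_nonneg_left h3 h5
  linarith

private theorem prA_nsq {q c : ℕ} (hq : q.Prime) (hc : c ∈ prA_cs q) :
    ¬ IsSquare ((c * q : ℕ) : ℤ) := by
  rintro ⟨y, hy⟩
  have hy' : c * q = y.natAbs * y.natAbs := by
    have : ((c * q : ℕ) : ℤ) = ((y.natAbs * y.natAbs : ℕ) : ℤ) := by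
      rw [hy]
      push_cast
      rw [abs_mul_abs_self]
    exact_mod_cast this
  set z := y.natAbs with hz
  have hqz : q ∣ z := by
    have h1 : q ∣ z * z := by rw [← hy']; exact Dvd.intro_left _ rfl
    exact (hq.dvd_mul.1 h1).elim id id
  obtain ⟨t, ht⟩ := hqz
  have h2 : c = q * (t * t) := by
    have h3 : q * c = q * (q * (t * t)) := by
      rw [mul_comm q c, hy', ht]
      ring
    exact Nat.eq_of_mul_eq_mul_left hq.pos h3
  have hqc : q ∣ c := ⟨_, h2⟩
  unfold prA_cs at hc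
  rcases mem_insert.1 hc with h | h
  · rw [h] at hqc
    exact hq.one_lt.ne' (Nat.dvd_one.1 hqc)
  · have h3 := Nat.prime_of_mem_primeFactors h
    have h4 := Nat.dvd_of_mem_primeFactors h
    have h5 := Nat.le_of_dvd (by have := hq.two_le; omega) h4
    have h6 := Nat.le_of_dvd h3.pos hqc
    have := hq.two_le
    omega

private theorem prA_mem {q c : ℕ} (hq : q.Prime) (hc : c = 1 ∨ (c.Prime ∧ q % c = 1)) :
    c ∈ prA_cs q := by
  unfold prA_cs
  rcases hc with h | ⟨h1, h2⟩
  · rw [h]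
    exact mem_insert_self _ _
  · refine mem_insert_of_mem (Nat.mem_primeFactors.2 ⟨h1, ?_, ?_⟩)
    · have h3 := Nat.div_add_mod q c
      exact ⟨q / c, by omega⟩
    · have := hq.two_le
      omega

/-- Proof. For a prime `q ≤ Z = exp((log X)^(2 δ0))` the number of possible `c` is `≤ 1 + log₂ q ≤ C log Z`; `c q` is not a
square (`c = 1`, or `c ≠ q` primes); `b1_count` with `ε = 1/16`, `d = c q ≤ Z^2`, `Y = X/q ≥ √X`:
`≤ C (X/q) (log X)^(-3/16) log(Z^2 + 3)`; `∑_{q ≤ Z} 1/q ≤ 1 + log Z`: total `C X (log X)^(-3/16 + 6 δ0)`,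
`6 δ0 = 3/32`. -/
theorem pr_small : ∃ C : ℝ, ∀ X : ℕ, 3 ≤ X → ∀ S : Finset ℕ,
    (∀ m ∈ S, m ∈ sqs X ∧ ∃ c a q : ℕ, Prq X m c a q ∧ (q : ℝ) ≤ Real.exp (Real.log X ^ (2 * δ0))) →
    (S.card : ℝ) ≤ C * X * Real.log X ^ (-(3 / 32 : ℝ)) := by
  obtain ⟨C0, h0⟩ := b1_count (1 / 16) (by norm_num)
  have hC1 : 0 ≤ max C0 0 := le_max_right _ _
  have hC01 : C0 ≤ max C0 0 := le_max_left _ _
  set C1 : ℝ := max C0 0 with hC1def
  refine ⟨2 + 48 * C1, ?_⟩
  intro X hX S hS
  classical
  have hX0 : (0 : ℝ) < X := by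
    have : 0 < X := by omega
    exact_mod_cast this
  have hX3 : (3 : ℝ) ≤ X := by exact_mod_cast hX
  have hL0 : 0 < Real.log X := Real.log_pos (by linarith)
  have hLexp : Real.exp (Real.log X) = X := Real.exp_log hX0
  set L : ℝ := Real.log X with hL
  have hLp : 0 < L ^ (-(3 / 32 : ℝ)) := Real.rpow_pos_of_pos hL0 _
  by_cases hbig : L < 16
  · have h1 : S.card ≤ X := by
      have : S ⊆ Icc 1 X := by
        intro m hm
        have := mem_sqs.1 (hS m hm).1
        rw [mem_Icc]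
        exact ⟨this.1, this.2.1⟩
      have h2 := card_le_card this
      rw [Nat.card_Icc] at h2
      omega
    have h2 : (S.card : ℝ) ≤ X := by exact_mod_cast h1
    have h3 : (1 / 2 : ℝ) ≤ L ^ (-(3 / 32 : ℝ)) := by
      have e1 : (16 : ℝ) ^ (-(3 / 32 : ℝ)) = 2 ^ (-(3 / 8 : ℝ)) := by
        have : (16 : ℝ) = 2 ^ (4 : ℝ) := by
          norm_num
        rw [this, ← Real.rpow_mul (by norm_num)]
        norm_num
      have e2 : (2 : ℝ) ^ (-1 : ℝ) ≤ 2 ^ (-(3 / 8 : ℝ)) :=
        Real.rpow_le_rpow_of_exponent_le (by norm_num) (by norm_num)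
      rw [Real.rpow_neg_one] at e2
      have e3 : (16 : ℝ) ^ (-(3 / 32 : ℝ)) ≤ L ^ (-(3 / 32 : ℝ)) :=
        Real.rpow_le_rpow_of_nonpos hL0 (by linarith) (by norm_num)
      rw [e1] at e3
      linarith
    have h4 : (0 : ℝ) ≤ 48 * C1 * X * L ^ (-(3 / 32 : ℝ)) := by positivity
    have h5 : (X : ℝ) * (1 / 2) ≤ X * L ^ (-(3 / 32 : ℝ)) := mul_le_mul_of_nonneg_left h3 hX0.le
    have h6 : (2 + 48 * C1) * X * L ^ (-(3 / 32 : ℝ)) =
      2 * (X * L ^ (-(3 / 32 : ℝ))) + 48 * C1 * X * L ^ (-(3 / 32 : ℝ)) := by ring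
    linarith
  · have hL16 : 16 ≤ L := not_lt.1 hbig
    have hδ : 2 * δ0 = (1 / 32 : ℝ) := by unfold δ0; norm_num
    rw [hδ] at hS
    set M : ℝ := L ^ (1 / 32 : ℝ) with hM
    have hM1 : 1 ≤ M := Real.one_le_rpow (by linarith) (by norm_num)
    have hM4 : M ≤ L / 4 := by
      have h1 : M ≤ L ^ (1 / 2 : ℝ) :=
        Real.rpow_le_rpow_of_exponent_le (by linarith) (by norm_num)
      rw [← Real.sqrt_eq_rpow] at h1
      have h2 : 4 ≤ Real.sqrt L := by
        apply Real.le_sqrt_of_sq_le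
        linarith
      have h3 : Real.sqrt L * Real.sqrt L = L := Real.mul_self_sqrt hL0.le
      nlinarith
    set N : ℕ := ⌊Real.exp M⌋₊ with hN
    have hNle : (N : ℝ) ≤ Real.exp M := Nat.floor_le (Real.exp_pos _).le
    have hN1 : 1 ≤ N := by
      rw [hN]
      apply Nat.le_floor
      push_cast
      exact Real.one_le_exp (by linarith)
    set B : Finset ℕ := (Icc 1 N).filter Nat.Prime with hB
    set T : ℕ → ℕ → Finset ℕ := fun c q => (sqs (X / q)).filter (fun a => ∀ p : ℕ, p.Prime →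
      p ≠ 2 → p ∣ a → jacobiSym ((c * q : ℕ) : ℤ) p = 1) with hT
    have hsub : S ⊆ B.biUnion (fun q => (prA_cs q).biUnion (fun c =>
        (T c q).image (fun a => a * q))) := by
      intro m hm
      obtain ⟨hm1, c, a, q, ⟨hq, hab, hc, hp⟩, hb⟩ := hS m hm
      obtain ⟨hm2, hm3, hm4⟩ := mem_sqs.1 hm1
      have ha0 : 0 < a := by
        rcases Nat.eq_zero_or_pos a with h | h
        · rw [h, zero_mul] at hab
          omega
        · exact h
      have hb0 : 0 < q := hq.pos
      have hcs : c ∈ prA_cs q := by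
        apply prA_mem hq
        rcases hc with h | h
        · exact Or.inl h
        · exact Or.inr ⟨h.1, h.2.1⟩
      rw [mem_biUnion]
      refine ⟨q, ?_, ?_⟩
      · rw [hB, mem_filter, mem_Icc]
        exact ⟨⟨hb0, Nat.le_floor hb⟩, hq⟩
      · rw [mem_biUnion]
        refine ⟨c, hcs, ?_⟩
        rw [mem_image]
        refine ⟨a, ?_, hab⟩
        rw [hT]
        simp only [mem_filter]
        refine ⟨mem_sqs.2 ⟨ha0, ?_, ?_⟩, hp⟩
        · rw [Nat.le_div_iff_mul_le hb0]
          omega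
        · rw [← hab] at hm4
          exact hm4.of_mul_left
    have hcard : (S.card : ℝ) ≤ ∑ q ∈ B, ∑ c ∈ prA_cs q, ((T c q).card : ℝ) := by
      have h1 : S.card ≤ ∑ q ∈ B, ∑ c ∈ prA_cs q, (T c q).card := by
        refine le_trans (card_le_card hsub) (le_trans card_biUnion_le ?_)
        refine sum_le_sum (fun q _ => le_trans card_biUnion_le ?_)
        exact sum_le_sum (fun c _ => card_image_le)
      exact_mod_cast h1
    have hpow : 0 < L ^ (-(3 / 16 : ℝ)) := Real.rpow_pos_of_pos hL0 _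
    have hTb : ∀ q ∈ B, ∀ c ∈ prA_cs q, ((T c q).card : ℝ) ≤
        (C1 * X * (2 * L ^ (-(3 / 16 : ℝ))) * (4 * M)) * (1 / q) := by
      intro b hb c hc
      rw [hB, mem_filter, mem_Icc] at hb
      obtain ⟨⟨hb1, hbN⟩, hbp⟩ := hb
      have hb0 : (0 : ℝ) < b := by exact_mod_cast hb1
      have hb1' : (1 : ℝ) ≤ b := by exact_mod_cast hb1
      have hbM : (b : ℝ) ≤ Real.exp M := le_trans (by exact_mod_cast hbN) hNle
      have hbL : (b : ℝ) ≤ Real.exp (L / 4) := le_trans hbM (Real.exp_le_exp.2 hM4)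
      have hcb : c ≤ b := by
        unfold prA_cs at hc
        rcases mem_insert.1 hc with h | h
        · omega
        · have h4 := Nat.dvd_of_mem_primeFactors h
          have h5 := Nat.le_of_dvd (by have := hbp.two_le; omega) h4
          omega
      have hc0 : 0 < c := by
        unfold prA_cs at hc
        rcases mem_insert.1 hc with h | h
        · omega
        · exact (Nat.prime_of_mem_primeFactors h).pos
      have hY1 : (X : ℝ) / b - 1 ≤ ((X / b : ℕ) : ℝ) := by
        have h1 := Nat.div_add_mod X b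
        have h2 := Nat.mod_lt X (show b > 0 by omega)
        have h3 : (X : ℝ) = b * ((X / b : ℕ) : ℝ) + ((X % b : ℕ) : ℝ) := by exact_mod_cast h1.symm
        have h4 : ((X % b : ℕ) : ℝ) ≤ b := by exact_mod_cast h2.le
        rw [sub_le_iff_le_add, div_le_iff₀ hb0, add_mul, one_mul, mul_comm]
        linarith
      have hY2 : Real.exp (L / 2) ≤ ((X / b : ℕ) : ℝ) := by
        refine le_trans ?_ hY1
        have h1 : Real.exp (L / 2) * Real.exp (L / 4) ≤ (X : ℝ) / b := by
          rw [le_div_iff₀ hb0, ← Real.exp_add]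
          have h2 : Real.exp (L / 2 + L / 4) * b ≤ Real.exp (L / 2 + L / 4) * Real.exp (L / 4) :=
            mul_le_mul_of_nonneg_left hbL (Real.exp_pos _).le
          refine le_trans h2 ?_
          rw [← Real.exp_add, ← hLexp]
          apply Real.exp_le_exp.2
          linarith
        have h2 : (1 : ℝ) ≤ Real.exp (L / 2) := Real.one_le_exp (by linarith)
        have h3 : (5 : ℝ) ≤ Real.exp (L / 4) := by
          have := Real.add_one_le_exp (L / 4)
          linarith
        have h4 : Real.exp (L / 2) * 5 ≤ Real.exp (L / 2) * Real.exp (L / 4) :=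
          mul_le_mul_of_nonneg_left h3 (Real.exp_pos _).le
        linarith
      have hY8 : (9 : ℝ) ≤ ((X / b : ℕ) : ℝ) := by
        refine le_trans ?_ hY2
        have := Real.add_one_le_exp (L / 2)
        linarith
      have hY3 : 3 ≤ X / b := by
        have : 9 ≤ X / b := by exact_mod_cast hY8
        omega
      have hlogY : L / 2 ≤ Real.log ((X / b : ℕ) : ℝ) := by
        rw [Real.le_log_iff_exp_le (by linarith)]
        exact hY2
      have hmain := h0 (c * b) (Nat.mul_pos (by omega) (by omega)) (prA_nsq hbp hc)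
        (X / b) hY3 (T c b) (by
        intro a ha
        rw [hT] at ha
        simp only [mem_filter] at ha
        refine ⟨ha.1, fun p hp h3 h4 hpa => ?_⟩
        rw [ha.2 p hp (by omega) hpa]
        norm_num)
      have e1 : (-(1 / 4 - 1 / 16) : ℝ) = -(3 / 16 : ℝ) := by norm_num
      rw [e1] at hmain
      have hp1 : Real.log ((X / b : ℕ) : ℝ) ^ (-(3 / 16 : ℝ)) ≤ 2 * L ^ (-(3 / 16 : ℝ)) := by
        have h1 : Real.log ((X / b : ℕ) : ℝ) ^ (-(3 / 16 : ℝ)) ≤ (L / 2) ^ (-(3 / 16 : ℝ)) :=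
          Real.rpow_le_rpow_of_nonpos (by linarith) hlogY (by norm_num)
        refine le_trans h1 ?_
        rw [Real.div_rpow hL0.le (by norm_num), div_le_iff₀ (Real.rpow_pos_of_pos (by norm_num) _)]
        have h2 : (1 / 2 : ℝ) ≤ 2 ^ (-(3 / 16 : ℝ)) := by
          have h3 : (2 : ℝ) ^ (-1 : ℝ) ≤ 2 ^ (-(3 / 16 : ℝ)) :=
            Real.rpow_le_rpow_of_exponent_le (by norm_num) (by norm_num)
          rw [Real.rpow_neg_one] at h3
          linarith
        have h5 : (2 * L ^ (-(3 / 16 : ℝ))) * (1 / 2) ≤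
            (2 * L ^ (-(3 / 16 : ℝ))) * 2 ^ (-(3 / 16 : ℝ)) :=
          mul_le_mul_of_nonneg_left h2 (by positivity)
        linarith
      have hp2 : Real.log (((c * b : ℕ) : ℝ) + 3) ≤ 4 * M := by
        have h1 : ((c * b : ℕ) : ℝ) + 3 ≤ Real.exp 2 * (Real.exp M * Real.exp M) := by
          have h2 : ((c * b : ℕ) : ℝ) ≤ b * b := by
            push_cast
            have : (c : ℝ) ≤ b := by exact_mod_cast hcb
            exact mul_le_mul_of_nonneg_right this hb0.le
          have h2' : (b : ℝ) * b ≤ Real.exp M * Real.exp M :=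
            mul_le_mul hbM hbM hb0.le (Real.exp_pos _).le
          have h6 : (1 : ℝ) ≤ Real.exp M := Real.one_le_exp (by linarith)
          have h6' : (1 : ℝ) ≤ Real.exp M * Real.exp M := by nlinarith
          have h7 : 6 * (Real.exp M * Real.exp M) ≤ Real.exp 2 * (Real.exp M * Real.exp M) :=
            mul_le_mul_of_nonneg_right prA_six (by positivity)
          linarith
        rw [← Real.exp_add, ← Real.exp_add] at h1
        have h2 := Real.log_le_log (by positivity) h1
        rw [Real.log_exp] at h2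
        linarith
      have hp2' : 0 ≤ Real.log (((c * b : ℕ) : ℝ) + 3) := by
        apply Real.log_nonneg
        have : (0 : ℝ) ≤ ((c * b : ℕ) : ℝ) := Nat.cast_nonneg _
        linarith
      have hp1' : 0 ≤ Real.log ((X / b : ℕ) : ℝ) ^ (-(3 / 16 : ℝ)) :=
        Real.rpow_nonneg (by linarith) _
      have hY4 : ((X / b : ℕ) : ℝ) ≤ X / b := Nat.cast_div_le
      have hY0 : (0 : ℝ) ≤ ((X / b : ℕ) : ℝ) := Nat.cast_nonneg _
      calc ((T c b).card : ℝ) ≤ C0 * ((X / b : ℕ) : ℝ) *
            Real.log ((X / b : ℕ) : ℝ) ^ (-(3 / 16 : ℝ)) * Real.log (((c * b : ℕ) : ℝ) + 3) := hmain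
        _ ≤ C1 * ((X / b : ℕ) : ℝ) *
            Real.log ((X / b : ℕ) : ℝ) ^ (-(3 / 16 : ℝ)) * Real.log (((c * b : ℕ) : ℝ) + 3) := by
            gcongr
        _ ≤ C1 * ((X : ℝ) / b) * (2 * L ^ (-(3 / 16 : ℝ))) * (4 * M) := by
            gcongr
        _ = _ := by ring
    have hcq : ∀ q ∈ B, ((prA_cs q).card : ℝ) ≤ 3 * M := by
      intro q hq
      rw [hB, mem_filter, mem_Icc] at hq
      obtain ⟨⟨hq1, hqN⟩, hqp⟩ := hq
      have hqM : (q : ℝ) ≤ Real.exp M := le_trans (by exact_mod_cast hqN) hNle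
      have hq0 : (0 : ℝ) < q := by exact_mod_cast hq1
      have h1 := prA_card hqp.two_le
      have h2 : Real.log q ≤ M := by
        have := Real.log_le_log hq0 hqM
        rwa [Real.log_exp] at this
      linarith
    have hsum : ∑ b ∈ B, (1 : ℝ) / b ≤ 2 * M := by
      have h1 : ∑ b ∈ B, (1 : ℝ) / b ≤ ∑ b ∈ Icc 1 N, (1 : ℝ) / b :=
        sum_le_sum_of_subset_of_nonneg (filter_subset _ _) (fun b _ _ => by positivity)
      have h2 := prA_harm N
      have h3 : Real.log N ≤ M := by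
        have hN0 : (0 : ℝ) < N := by exact_mod_cast hN1
        have := Real.log_le_log hN0 hNle
        rwa [Real.log_exp] at this
      linarith
    have hM3 : M * M * M = L ^ (3 / 32 : ℝ) := by
      rw [hM, ← Real.rpow_add hL0, ← Real.rpow_add hL0]
      norm_num
    have hfin : L ^ (-(3 / 16 : ℝ)) * L ^ (3 / 32 : ℝ) = L ^ (-(3 / 32 : ℝ)) := by
      rw [← Real.rpow_add hL0]
      norm_num
    have hK : 0 ≤ C1 * X * (2 * L ^ (-(3 / 16 : ℝ))) * (4 * M) := by positivity
    calc (S.card : ℝ) ≤ ∑ q ∈ B, ∑ c ∈ prA_cs q, ((T c q).card : ℝ) := hcard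
      _ ≤ ∑ q ∈ B, (3 * M) * ((C1 * X * (2 * L ^ (-(3 / 16 : ℝ))) * (4 * M)) * (1 / q)) := by
          refine sum_le_sum (fun q hq => ?_)
          refine le_trans (sum_le_sum (hTb q hq)) ?_
          rw [sum_const, nsmul_eq_mul]
          refine mul_le_mul_of_nonneg_right (hcq q hq) ?_
          positivity
      _ = (3 * M) * (C1 * X * (2 * L ^ (-(3 / 16 : ℝ))) * (4 * M)) * ∑ b ∈ B, (1 : ℝ) / b := by
          rw [mul_sum]
          refine sum_congr rfl (fun q _ => ?_)
          ring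
      _ ≤ (3 * M) * (C1 * X * (2 * L ^ (-(3 / 16 : ℝ))) * (4 * M)) * (2 * M) := by
          refine mul_le_mul_of_nonneg_left hsum ?_
          positivity
      _ = 48 * C1 * X * (L ^ (-(3 / 16 : ℝ)) * (M * M * M)) := by ring
      _ = 48 * C1 * X * L ^ (-(3 / 32 : ℝ)) := by rw [hM3, hfin]
      _ ≤ (2 + 48 * C1) * X * L ^ (-(3 / 32 : ℝ)) := by
          have : 0 ≤ X * L ^ (-(3 / 32 : ℝ)) := by positivity
          nlinarith

end Pool.Agent.Wal
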