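import Pool.Agent.Lib.MP_6498db_nt.L.FbDefs

/-! WALSH, Theorem 2: the case `b = q` prime, definitions. DO NOT EDIT (owner helper52). -/

set_option autoImplicit false

namespace Pool.Agent.Wal

open Finset

/-- `m = a q`, `q` prime, `c = 1` or `c = l` a prime `> (log X)^3` dividing `q - 1`, and `(c q / p) = 1` for all odd
primes `p` of `a` -/
structure Prq (X m c a q : ℕ) : Prop where
  hq : q.Prime
  hm : a * q = m
  hc : c = 1 ∨ (c.Prime ∧ q % c = 1 ∧ Real.log X ^ 3 < (c : ℝ))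
  ca : ∀ p : ℕ, p.Prime → p ≠ 2 → p ∣ a → jacobiSym ((c * q : ℕ) : ℤ) p = 1

end Pool.Agent.Wal
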